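import Pool.Agent.TH803.TW.Int
import Pool.Agent.H965R2.SI.CountShort

/-! The first twisted moment. -/

open Complex Filter Topology Set MeasureTheory
open scoped BigOperators ComplexConjugate

namespace TH803TW

open H370 H370.A2 H370.AS

section zeros

variable {F : ℂ → ℂ} (hF : GoodL F) (hline : Line F)

include hline in
lemma zz_line {s : ℂ} {A B : ℝ} (hA : 1 ≤ A) (hs : s ∈ zset F A B) : zz s = (s.im : ℂ) := by
  have h := hline s hs.1 hs.2.1 (by linarith [hs.2.2.1]) hs.2.2.2.2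
  apply Complex.ext
  · rw [zz_re, Complex.ofReal_re]
  · rw [zz_im, Complex.ofReal_im, h]; ring

include hF hline in
lemma AA_zero {A B : ℝ} (hA : 1 ≤ A) (t : ℝ) : AA F A B 0 t = (Zg F A B t : ℂ) := by
  rw [AA_eq hF hA]
  unfold Zg
  rw [Complex.ofReal_sum]
  refine Finset.sum_congr rfl fun s hs => ?_
  rw [hh_eq, zz_line hline hA ((mem_Zf hF hA).1 hs)]
  have e1 : I * ((0 : ℝ) : ℂ) * (s.im : ℂ) = 0 := by push_cast; ring
  rw [e1, Complex.exp_zero, one_mul]
  push_cast
  rfl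

lemma gauss_single_tw (z : ℂ) (τ : ℝ) : ∫ t : ℝ, cexp (-(z - t) ^ 2 / 2) * cexp (I * τ * t) =
    (Real.sqrt (2 * Real.pi) : ℂ) * cexp (-(τ : ℂ) ^ 2 / 2) * cexp (I * τ * z) := by
  have h0 : ∀ t : ℝ, cexp (-(z - t) ^ 2 / 2) * cexp (I * τ * t) =
      cexp ((-1 / 2 : ℂ) * (t : ℂ) ^ 2 + (z + I * τ) * t + (-z ^ 2 / 2)) := by
    intro t
    rw [← Complex.exp_add]; congr 1; ring
  simp_rw [h0]
  rw [integral_cexp_quadratic (by norm_num)]
  have h1 : (Real.pi : ℂ) / -(-1 / 2) = ((2 * Real.pi : ℝ) : ℂ) := by push_cast; ring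
  rw [h1, show (1 / 2 : ℂ) = ((1 / 2 : ℝ) : ℂ) by push_cast; ring,
    ← Complex.ofReal_cpow (by positivity), ← Real.sqrt_eq_rpow, mul_assoc, ← Complex.exp_add]
  congr 2
  have : (z + I * τ) ^ 2 = z ^ 2 + 2 * z * (I * τ) - τ ^ 2 := by
    have hI : I ^ 2 = -1 := I_sq
    linear_combination (τ : ℂ) ^ 2 * hI
  rw [this]
  ring

lemma gauss_single_tw_int (z : ℂ) (τ : ℝ) :
    Integrable (fun t : ℝ => cexp (-(z - t) ^ 2 / 2) * cexp (I * τ * t)) := by
  have h0 : ∀ t : ℝ, cexp (-(z - t) ^ 2 / 2) * cexp (I * τ * t) =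
      cexp ((-1 / 2 : ℂ) * (t : ℂ) ^ 2 + (z + I * τ) * t + (-z ^ 2 / 2)) := by
    intro t
    rw [← Complex.exp_add]; congr 1; ring
  simp_rw [h0]
  exact integrable_cexp_quadratic' (by norm_num) _ _

/-- the first twisted moment -/
noncomputable def E1 (F : ℂ → ℂ) (A B τ : ℝ) : ℂ :=
  ∑ s ∈ Zf F A B, (mult F s : ℂ) * cexp (I * τ * zz s)

include hF in
lemma E1_eq {A B : ℝ} (hA : 1 ≤ A) (τ : ℝ) : ∫ t : ℝ, AA F A B 0 t * cexp (I * τ * t) =
    (Real.sqrt (2 * Real.pi) : ℂ) * cexp (-(τ : ℂ) ^ 2 / 2) * E1 F A B τ := by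
  have h1 : ∀ t : ℝ, AA F A B 0 t * cexp (I * τ * t) = ∑ s ∈ Zf F A B, (mult F s : ℂ) *
      (cexp (-(zz s - t) ^ 2 / 2) * cexp (I * τ * t)) := by
    intro t
    rw [AA_eq hF hA, Finset.sum_mul]
    refine Finset.sum_congr rfl fun s _ => ?_
    rw [hh_eq]
    have e1 : I * ((0 : ℝ) : ℂ) * zz s = 0 := by push_cast; ring
    rw [e1, Complex.exp_zero, one_mul, mul_assoc]
  simp_rw [h1]
  rw [integral_finsetSum _ fun s _ => (gauss_single_tw_int _ _).const_mul _]
  unfold E1
  rw [Finset.mul_sum]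
  refine Finset.sum_congr rfl fun s _ => ?_
  rw [integral_const_mul, gauss_single_tw]
  ring

include hF hline in
theorem first_moment {a : ℕ → ℂ}
    (ha : ∀ n, ‖a n‖ ≤ ArithmeticFunction.vonMangoldt n)
    (hld : ∀ s : ℂ, 1 < s.re → 1 ≤ s.im → deriv F s / F s = - ∑' n : ℕ, a n * (n : ℂ) ^ (-s))
    {τ : ℝ} (hτ : τ ≠ 0) :
    ∃ K T0 : ℝ, 0 < K ∧ 10 ≤ T0 ∧ ∀ T : ℝ, T0 ≤ T → ∀ A B : ℝ, T + 1 ≤ A → B ≤ 2 * T - 1 →
      (1 + Real.log T) ^ 2 ≤ B - A → ‖E1 F A B τ‖ ≤ K * (B - A) := by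
  obtain ⟨C, T1, hC, hT1, hEF⟩ := ef_sub2 hF ha hld
  obtain ⟨C2, hC2, hcnt⟩ := H965SI.countShort F hF
  have hτ' : 0 < |τ| := abs_pos.2 hτ
  have hB0 := Bpp_nonneg 0
  set c0 : ℝ := 1 / Real.sqrt (2 * Real.pi) with hc0
  set sp : ℝ := Real.sqrt (2 * Real.pi) with hsp
  have hsp1 : 1 ≤ sp := by
    rw [hsp, Real.one_le_sqrt]; linarith [Real.pi_gt_three]
  have hsp0 : 0 < sp := by linarith
  have hsp2 : sp ^ 2 = 2 * Real.pi := Real.sq_sqrt (by positivity)
  have hc00 : 0 < c0 := by positivity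
  have hc01 : c0 ≤ 1 := by rw [hc0, div_le_one hsp0]; exact hsp1
  -- the constants
  set C' : ℝ := Bpp 0 + C with hC'
  have hC'0 : 0 < C' := by positivity
  set K : ℝ := (2 / |τ| + Bpp 0 + C) + (c0 + sp * (2 * C2) + 2 + C') with hK
  have hK0 : 0 < K := by positivity
  refine ⟨Real.exp (τ ^ 2 / 2) * K, max T1 10, by positivity, le_max_right _ _,
    fun T hT A B hA hB hAB => ?_⟩
  have hTT1 : T1 ≤ T := (le_max_left _ _).trans hT
  have hT10 : 10 ≤ T := (le_max_right _ _).trans hT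
  have hTpos : 0 < T := by linarith
  set L := Real.log T with hL
  have hL2 : 2 ≤ L := by
    rw [hL, Real.le_log_iff_exp_le hTpos]
    have h1 := Real.exp_one_lt_d9
    have h2 : Real.exp 2 = Real.exp 1 * Real.exp 1 := by rw [← Real.exp_add]; norm_num
    have h3 := Real.exp_pos 1
    nlinarith
  have hL0 : 0 ≤ L := by linarith
  set H := B - A with hH
  have hH9 : 9 ≤ H := by nlinarith
  have hU : 1 ≤ A := by linarith
  have hab : A + L ≤ B - L := by nlinarith
  have hec : Continuous (fun t : ℝ => cexp (I * τ * t)) := by fun_prop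
  have hAc := AA_cont hF (U2 := B) hU 0
  have hAint := AA_int hF (U2 := B) hU 0
  have hPc := PP_cont ha 0
  have hMc := MM_cont ha L 0
  obtain ⟨hZint, hZval⟩ := Zg_int hF (b := B) hU
  have hintC : Integrable (fun t : ℝ => AA F A B 0 t * cexp (I * τ * t)) := by
    refine hAint.mul_bdd (c := 1) hec.aestronglyMeasurable ?_
    exact Eventually.of_forall fun t => (tw_exp_norm τ t).le
  have hEF' : ∀ t ∈ Set.Icc (A + L) (B - L), ‖AA F A B 0 t - MM a L 0 t‖ ≤ C := fun t ht =>
    hEF T hTT1 A B hA hB 0 t le_rfl hL0 ht.1 ht.2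
  -- outer part
  have houter : ∫ t in (Set.Icc (A + L) (B - L))ᶜ, Zg F A B t ≤
      (c0 + sp * (2 * C2) + 2 + C') * H := by
    have h1 : ∫ t in (Set.Icc (A + L) (B - L))ᶜ, Zg F A B t =
        (∫ t, Zg F A B t) - ∫ t in (A + L)..(B - L), Zg F A B t := by
      rw [← integral_add_compl measurableSet_Icc hZint, intervalIntegral.integral_of_le hab,
        integral_Icc_eq_integral_Ioc]
      ring
    have h2 : (B - L - (A + L)) * (c0 * L - C') ≤ ∫ t in (A + L)..(B - L), Zg F A B t := by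
      have h3 : ∫ t in (A + L)..(B - L), (c0 * L - C') ≤
          ∫ t in (A + L)..(B - L), Zg F A B t := by
        refine intervalIntegral.integral_mono_on hab (continuous_const.intervalIntegrable _ _)
          ((Zg_cont F A B).intervalIntegrable _ _) fun t ht => ?_
        have h4 := hEF' t ht
        rw [AA_zero hF hline hU] at h4
        have h5 : c0 * L - c0 * Bpp 0 ≤ ‖MM a L 0 t‖ := by
          unfold MM
          rw [← hsp, ← hc0, norm_mul, Complex.norm_real, Real.norm_of_nonneg hc00.le, ← mul_sub]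
          apply mul_le_mul_of_nonneg_left _ hc00.le
          have h6 := norm_zz L 0 t hL0
          have h7 := PP_bound ha 0 t
          have h8 := norm_sub_norm_le ((L : ℂ) * cexp (I * (0 : ℝ) * t) *
            Real.exp (-(0 : ℝ) ^ 2 / 2)) (PP a 0 t)
          rw [h6] at h8
          refine le_trans ?_ h8
          have h9 : Real.exp (-(0 : ℝ) ^ 2 / 2) = 1 := by norm_num
          rw [h9, mul_one]
          have h10 : ‖PP a 0 t‖ ≤ Bpp 0 := h7
          linarith
        have h6 : ‖MM a L 0 t‖ - ‖(Zg F A B t : ℂ)‖ ≤ C := by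
          have := norm_sub_norm_le (MM a L 0 t) (Zg F A B t : ℂ)
          rw [norm_sub_rev] at this
          linarith
        rw [Complex.norm_real, Real.norm_of_nonneg (Zg_nonneg F A B t)] at h6
        have h7 : c0 * Bpp 0 ≤ Bpp 0 := mul_le_of_le_one_left hB0 hc01
        linarith
      rw [intervalIntegral.integral_const, smul_eq_mul] at h3
      exact h3
    have h3 : (NN F A B : ℝ) ≤ H * (L + 1) / (2 * Real.pi) + C2 * (2 * H) := by
      have h4 := (hcnt A (by linarith) H (by linarith) (by rw [hH]; linarith) A B le_rfl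
        (by linarith) (by rw [hH]; linarith) (by rw [hH]; linarith)).1
      have h5 := (abs_le.1 h4).2
      have h6 : Real.log A ≤ L + 1 := by
        have h7 : A ≤ 2 * T := by linarith
        calc Real.log A ≤ Real.log (2 * T) := Real.log_le_log (by linarith) h7
          _ = Real.log 2 + L := by rw [Real.log_mul (by norm_num) hTpos.ne']
          _ ≤ L + 1 := by have := Real.log_two_lt_d9; linarith
      have h7 : 0 ≤ Real.log A := Real.log_nonneg hU
      have h8 : H * Real.log A / (2 * Real.pi) ≤ H * (L + 1) / (2 * Real.pi) := by gcongr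
      have h9 : (Real.log A) ^ 2 ≤ H := by
        calc (Real.log A) ^ 2 ≤ (L + 1) ^ 2 := by gcongr
          _ = (1 + L) ^ 2 := by ring
          _ ≤ H := hAB
      have h10 : C2 * (H + (Real.log A) ^ 2) ≤ C2 * (2 * H) := by
        gcongr
        linarith
      linarith
    rw [h1, hZval, ← hsp]
    have h4 : (NN F A B : ℝ) * sp ≤ c0 * H * (L + 1) + sp * (2 * C2) * H := by
      calc (NN F A B : ℝ) * sp ≤ (H * (L + 1) / (2 * Real.pi) + C2 * (2 * H)) * sp := by gcongr
        _ = _ := by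
            rw [← hsp2, hc0]
            field_simp
    have h5 : (B - L - (A + L)) * (c0 * L - C') = c0 * H * L - 2 * c0 * L ^ 2 - C' * H +
        2 * L * C' := by rw [hH]; ring
    rw [h5] at h2
    have h6 : 2 * c0 * L ^ 2 ≤ 2 * H := by
      have : L ^ 2 ≤ H := by nlinarith
      calc 2 * c0 * L ^ 2 ≤ 2 * 1 * H := by gcongr
        _ = _ := by ring
    have h7 : 0 ≤ 2 * L * C' := by positivity
    nlinarith
  have hsplit : ∫ t : ℝ, AA F A B 0 t * cexp (I * τ * t) =
      (∫ t in (A + L)..(B - L), AA F A B 0 t * cexp (I * τ * t)) +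
      ∫ t in (Set.Icc (A + L) (B - L))ᶜ, AA F A B 0 t * cexp (I * τ * t) := by
    rw [← integral_add_compl measurableSet_Icc hintC, intervalIntegral.integral_of_le hab,
      integral_Icc_eq_integral_Ioc]
  have hout : ‖∫ t in (Set.Icc (A + L) (B - L))ᶜ, AA F A B 0 t * cexp (I * τ * t)‖ ≤
      (c0 + sp * (2 * C2) + 2 + C') * H := by
    refine (norm_integral_le_integral_norm _).trans ?_
    refine le_trans (le_of_eq ?_) houter
    refine integral_congr_ae (Eventually.of_forall fun t => ?_)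
    simp only
    rw [norm_mul, tw_exp_norm, mul_one, AA_zero hF hline hU, Complex.norm_real,
      Real.norm_of_nonneg (Zg_nonneg F A B t)]
  have hin : ‖∫ t in (A + L)..(B - L), AA F A B 0 t * cexp (I * τ * t)‖ ≤
      (2 / |τ| + Bpp 0 + C) * H := by
    have h1 : ∫ t in (A + L)..(B - L), AA F A B 0 t * cexp (I * τ * t) =
        (c0 : ℂ) * (L * ∫ t in (A + L)..(B - L), cexp (I * τ * t)) +
        ∫ t in (A + L)..(B - L), ((AA F A B 0 t - MM a L 0 t) - (c0 : ℂ) * PP a 0 t) *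
          cexp (I * τ * t) := by
      rw [← intervalIntegral.integral_const_mul, ← intervalIntegral.integral_const_mul,
        ← intervalIntegral.integral_add]
      · refine intervalIntegral.integral_congr fun t _ => ?_
        unfold MM
        rw [← hsp, ← hc0]
        have e1 : I * ((0 : ℝ) : ℂ) * (t : ℂ) = 0 := by push_cast; ring
        have e2 : Real.exp (-(0 : ℝ) ^ 2 / 2) = 1 := by norm_num
        rw [e1, e2, Complex.exp_zero]
        push_cast
        ring
      · exact (continuous_const.mul (continuous_const.mul hec)).intervalIntegrable _ _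
      · exact (((hAc.sub hMc).sub (continuous_const.mul hPc)).mul hec).intervalIntegrable _ _
    rw [h1]
    refine (norm_add_le _ _).trans ?_
    have h2 := (exp_int τ (A + L) (B - L) hab).2 hτ
    have hLH : L ≤ H := by nlinarith
    have h3 : ‖(c0 : ℂ) * (L * ∫ t in (A + L)..(B - L), cexp (I * τ * t))‖ ≤ 2 / |τ| * H := by
      rw [norm_mul, norm_mul, Complex.norm_real, Complex.norm_real, Real.norm_of_nonneg hc00.le,
        Real.norm_of_nonneg hL0]
      calc c0 * (L * ‖∫ t in (A + L)..(B - L), cexp (I * τ * t)‖) ≤ 1 * (H * (2 / |τ|)) := by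
            gcongr
        _ = _ := by ring
    have h4 : ‖∫ t in (A + L)..(B - L), ((AA F A B 0 t - MM a L 0 t) - (c0 : ℂ) * PP a 0 t) *
          cexp (I * τ * t)‖ ≤ (Bpp 0 + C) * H := by
      have h5 := intervalIntegral.norm_integral_le_of_norm_le_const (a := A + L) (b := B - L)
        (f := fun t : ℝ => ((AA F A B 0 t - MM a L 0 t) - (c0 : ℂ) * PP a 0 t) *
          cexp (I * τ * t)) (C := C + Bpp 0) (fun t ht => by
          rw [norm_mul, tw_exp_norm, mul_one]
          rw [Set.uIoc_of_le hab] at ht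
          refine (norm_sub_le _ _).trans (add_le_add (hEF' t ⟨ht.1.le, ht.2⟩) ?_)
          rw [norm_mul, Complex.norm_real, Real.norm_of_nonneg hc00.le]
          have h7 : ‖PP a 0 t‖ ≤ Bpp 0 := PP_bound ha 0 t
          calc c0 * ‖PP a 0 t‖ ≤ 1 * Bpp 0 := by gcongr
            _ = _ := one_mul _)
      rw [abs_of_nonneg (by linarith)] at h5
      refine h5.trans ?_
      rw [add_comm C]
      gcongr
      rw [hH]; linarith
    linarith
  have htot : ‖(Real.sqrt (2 * Real.pi) : ℂ) * cexp (-(τ : ℂ) ^ 2 / 2) * E1 F A B τ‖ ≤ K * H := by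
    rw [← E1_eq hF hU, hsplit]
    refine (norm_add_le _ _).trans ?_
    rw [hK]
    linarith
  rw [norm_mul, norm_mul, Complex.norm_real, Real.norm_of_nonneg (Real.sqrt_nonneg _), ← hsp] at htot
  have e3 : ‖cexp (-(τ : ℂ) ^ 2 / 2)‖ = Real.exp (-(τ ^ 2 / 2)) := by
    have : -(τ : ℂ) ^ 2 / 2 = ((-(τ ^ 2 / 2) : ℝ) : ℂ) := by push_cast; ring
    rw [this, Complex.norm_exp, Complex.ofReal_re]
  rw [e3] at htot
  have e4 : Real.exp (τ ^ 2 / 2) * Real.exp (-(τ ^ 2 / 2)) = 1 := by
    rw [← Real.exp_add, add_neg_cancel, Real.exp_zero]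
  have hn := norm_nonneg (E1 F A B τ)
  calc ‖E1 F A B τ‖ = Real.exp (τ ^ 2 / 2) * (1 * Real.exp (-(τ ^ 2 / 2)) * ‖E1 F A B τ‖) := by
        rw [one_mul, ← mul_assoc, e4, one_mul]
    _ ≤ Real.exp (τ ^ 2 / 2) * (sp * Real.exp (-(τ ^ 2 / 2)) * ‖E1 F A B τ‖) := by gcongr
    _ ≤ Real.exp (τ ^ 2 / 2) * (K * H) := by gcongr
    _ = _ := by ring

end zeros

end TH803TW
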