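import Pool.Agent.TH803.TW.VVb
import Pool.Agent.TH803.TW.First

/-! The twisted form of Montgomery's theorem, pointwise. -/

open Complex Filter Topology Set MeasureTheory
open scoped BigOperators ComplexConjugate

namespace TH803TW

open H370 H370.A2 H370.AS H295SI

/-- the twisted pair sum -/
noncomputable def FT (F : ℂ → ℂ) (A B u τ : ℝ) : ℂ :=
  ∑ s ∈ Zf F A B, ∑ s' ∈ Zf F A B, (mult F s : ℂ) * (mult F s' : ℂ) *
    (cexp (I * u * ((s.im - s'.im : ℝ) : ℂ)) * (Real.exp (-(s.im - s'.im) ^ 2 / 4) : ℂ) *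
      cexp (I * τ * (((s.im + s'.im) / 2 : ℝ) : ℂ)))

lemma FT_JT {F : ℂ → ℂ} (hF : GoodL F) (hline : Line F) {A B : ℝ} (hA : 1 ≤ A) (u τ : ℝ) :
    FT F A B u τ = cexp ((τ : ℂ) ^ 2 / 4) / (Real.sqrt Real.pi : ℂ) * JT F A B u τ := by
  rw [JT_eq hF hA]
  have hpi : (Real.sqrt Real.pi : ℂ) ≠ 0 := by
    rw [Ne, Complex.ofReal_eq_zero]; positivity
  have he : cexp ((τ : ℂ) ^ 2 / 4) * cexp (-(τ : ℂ) ^ 2 / 4) = 1 := by
    rw [← Complex.exp_add]
    have : (τ : ℂ) ^ 2 / 4 + -(τ : ℂ) ^ 2 / 4 = 0 := by ring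
    rw [this, Complex.exp_zero]
  have h1 : ∀ X : ℂ, cexp ((τ : ℂ) ^ 2 / 4) / (Real.sqrt Real.pi : ℂ) *
      ((Real.sqrt Real.pi : ℂ) * cexp (-(τ : ℂ) ^ 2 / 4) * X) = X := by
    intro X
    calc cexp ((τ : ℂ) ^ 2 / 4) / (Real.sqrt Real.pi : ℂ) *
      ((Real.sqrt Real.pi : ℂ) * cexp (-(τ : ℂ) ^ 2 / 4) * X) =
        (cexp ((τ : ℂ) ^ 2 / 4) * cexp (-(τ : ℂ) ^ 2 / 4)) *
          ((Real.sqrt Real.pi : ℂ) / (Real.sqrt Real.pi : ℂ)) * X := by ring
      _ = X := by rw [he, div_self hpi]; ring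
  rw [h1]
  unfold FT
  refine Finset.sum_congr rfl fun s hs => Finset.sum_congr rfl fun s' hs' => ?_
  rw [mem_Zf hF hA] at hs hs'
  rw [zz_line hline hA hs, zz_line hline hA hs']
  push_cast
  ring

/-- **twisted form of Montgomery's theorem** -/
theorem FT_bound {F : ℂ → ℂ} (hF : GoodL F) (hline : Line F) {τ : ℝ} (hτ : τ ≠ 0)
    (h ε c η : ℝ) (hε : 0 < ε) (hεh : ε < h) (hh1 : h ≤ 1) (hc : 0 < c) (hη : 0 < η) :
    ∃ T0 : ℝ, 10 ≤ T0 ∧ ∀ T : ℝ, T0 ≤ T → ∀ A B : ℝ, T + 1 ≤ A → B ≤ 2 * T - 1 →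
      T ^ h ≤ B - A → ∀ u : ℝ, c * Real.log T ≤ |u| → |u| ≤ (h - ε) * Real.log T →
      ‖FT F A B u τ‖ ≤ η * ((B - A) * Real.log T) := by
  obtain ⟨a, ha, hld⟩ := hF.ld
  obtain ⟨C, hC, hVV⟩ := VV_le
  set E : ℝ := Real.exp (τ ^ 2 / 4) with hE
  have hE0 : 0 < E := Real.exp_pos _
  set η1 : ℝ := η / (8 * E * (C + 1)) with hη1
  have hη10 : 0 < η1 := by positivity
  obtain ⟨K, T1, hK, hT1, hJ⟩ := JT_bound hF ha hld hline hτ h ε η1 hε hεh hh1 hη10
  have ev1 := ev_exp 8 1 (c ^ 2) (by positivity)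
  have ev2 := ev_exp (8 * K * E / η) 0 (c ^ 2 / 4) (by positivity)
  have ev3 : ∀ᶠ T : ℝ in atTop, 8 * K * E / η + 8 / c + 1 ≤ Real.log T :=
    Real.tendsto_log_atTop.eventually_ge_atTop _
  obtain ⟨T2, hT2⟩ := (ev1.and (ev2.and ev3)).exists_forall_of_atTop
  refine ⟨max T1 T2, hT1.trans (le_max_left _ _), fun T hT A B hA hB hAB u hu1 hu2 => ?_⟩
  have hTT1 : T1 ≤ T := (le_max_left _ _).trans hT
  obtain ⟨e1, e2, e3⟩ := hT2 T ((le_max_right _ _).trans hT)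
  have hT10 : 10 ≤ T := hT1.trans hTT1
  have hpos : 0 < T := by linarith
  set L := Real.log T with hL
  have hL1 : 1 ≤ L := by
    have h1 : 0 ≤ 8 * K * E / η := by positivity
    have h2 : 0 ≤ 8 / c := by positivity
    linarith
  have hcL : 8 ≤ c * L := by
    have h1 : 0 ≤ 8 * K * E / η := by positivity
    have h2 : 8 / c ≤ L := by linarith
    rw [div_le_iff₀ hc] at h2
    linarith
  have hA1 : 1 ≤ A := by linarith
  have hH0 : 0 < B - A := (Real.rpow_pos_of_pos hpos h).trans_le hAB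
  have habs : ‖JT F A B u τ‖ = ‖JT F A B |u| τ‖ := by
    rcases abs_choice u with h1 | h1
    · rw [h1]
    · rw [h1, JT_even hF hA1]
  rw [FT_JT hF hline hA1, norm_mul, norm_div]
  have hn1 : ‖cexp ((τ : ℂ) ^ 2 / 4)‖ = E := by
    rw [Complex.norm_exp, hE]
    congr 1
    have : ((τ : ℂ) ^ 2 / 4) = ((τ ^ 2 / 4 : ℝ) : ℂ) := by push_cast; ring
    rw [this, Complex.ofReal_re]
  have hn2 : 1 ≤ ‖(Real.sqrt Real.pi : ℂ)‖ := by
    rw [Complex.norm_real, Real.norm_of_nonneg (Real.sqrt_nonneg _)]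
    rw [Real.one_le_sqrt]
    linarith [Real.pi_gt_three]
  rw [hn1, habs]
  have hv0 : 0 ≤ |u| := abs_nonneg u
  have h1 := hJ T hTT1 A B hA hB hAB |u| hv0 hu2
  have huL : |u| ≤ L := by
    refine hu2.trans ?_
    have : (h - ε) * L ≤ 1 * L := by
      apply mul_le_mul_of_nonneg_right (by linarith) (by linarith)
    linarith
  have hu8 : 8 ≤ |u| := hcL.trans hu1
  set v := |u| with hv
  -- the four terms
  have t1 : L ^ 2 * Real.exp (-v ^ 2) ≤ L := by
    have h2 : (c * L) ^ 2 ≤ v ^ 2 := by gcongr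
    have h3 : Real.exp (-v ^ 2) ≤ Real.exp (-(c * L) ^ 2) := Real.exp_le_exp.2 (by linarith)
    have h4 : L * Real.exp (-(c * L) ^ 2) ≤ 1 := by
      have h5 : L ≤ Real.exp L := by
        have := Real.add_one_le_exp L
        linarith
      have h6 : Real.exp (1 * L - c ^ 2 * L ^ 2) = Real.exp L * Real.exp (-(c * L) ^ 2) := by
        rw [← Real.exp_add]; congr 1; ring
      rw [h6] at e1
      have h7 := Real.exp_pos (-(c * L) ^ 2)
      have h8 : L * Real.exp (-(c * L) ^ 2) ≤ Real.exp L * Real.exp (-(c * L) ^ 2) := by gcongr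
      have h9 : 0 < Real.exp L * Real.exp (-(c * L) ^ 2) := by positivity
      linarith
    calc L ^ 2 * Real.exp (-v ^ 2) ≤ L ^ 2 * Real.exp (-(c * L) ^ 2) := by gcongr
      _ = L * (L * Real.exp (-(c * L) ^ 2)) := by ring
      _ ≤ L * 1 := by gcongr
      _ = L := mul_one _
  have t2 : VV v ≤ C * (2 * L) := (hVV v hv0).trans (by gcongr; linarith)
  have t3 : K * E * Real.exp (2 * v - v ^ 2 / 2) ≤ η / 8 := by
    have h2 : 2 * v - v ^ 2 / 2 ≤ -(c ^ 2 / 4) * L ^ 2 := by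
      have h3 : (c * L) ^ 2 ≤ v ^ 2 := by gcongr
      nlinarith
    have h3 : 8 * K * E / η * Real.exp (2 * v - v ^ 2 / 2) ≤ 1 := by
      refine le_trans ?_ e2
      apply mul_le_mul_of_nonneg_left _ (by positivity)
      exact Real.exp_le_exp.2 (by linarith)
    have h4 : 8 * K * E / η * Real.exp (2 * v - v ^ 2 / 2) =
        (8 * (K * E * Real.exp (2 * v - v ^ 2 / 2))) / η := by ring
    rw [h4, div_le_one hη] at h3
    linarith
  have t4 : K * E ≤ η / 8 * L := by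
    have h2 : 8 * K * E / η ≤ L := by
      have : 0 ≤ 8 / c := by positivity
      linarith
    rw [div_le_iff₀ hη] at h2
    linarith
  have hmain : E * ‖JT F A B v τ‖ ≤ η * ((B - A) * L) := by
    have h2 : E * ‖JT F A B v τ‖ ≤ E * (η1 * ((B - A) * L ^ 2 * Real.exp (-v ^ 2) +
        (B - A) * VV v) + K * ((B - A) * L * Real.exp (2 * v - v ^ 2 / 2) + (B - A))) := by
      gcongr
    refine h2.trans ?_
    have h3 : E * η1 * (C + 1) = η / 8 := by rw [hη1]; field_simp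
    have h4 : E * (η1 * ((B - A) * L ^ 2 * Real.exp (-v ^ 2) + (B - A) * VV v)) ≤
        (B - A) * (2 * (η / 8) * L) := by
      calc E * (η1 * ((B - A) * L ^ 2 * Real.exp (-v ^ 2) + (B - A) * VV v)) =
          (B - A) * (E * η1 * (L ^ 2 * Real.exp (-v ^ 2) + VV v)) := by ring
        _ ≤ (B - A) * (E * η1 * (L + C * (2 * L))) := by gcongr
        _ ≤ (B - A) * (E * η1 * (2 * (C + 1) * L)) := by
            gcongr
            nlinarith
        _ = (B - A) * (2 * (E * η1 * (C + 1)) * L) := by ring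
        _ = _ := by rw [h3]
    have h5 : E * (K * ((B - A) * L * Real.exp (2 * v - v ^ 2 / 2) + (B - A))) ≤
        (B - A) * (η / 8 * L + η / 8 * L) := by
      calc E * (K * ((B - A) * L * Real.exp (2 * v - v ^ 2 / 2) + (B - A))) =
          (B - A) * (K * E * Real.exp (2 * v - v ^ 2 / 2) * L + K * E) := by ring
        _ ≤ (B - A) * (η / 8 * L + η / 8 * L) := by gcongr
    have h6 : 0 < η * ((B - A) * L) := by positivity
    rw [mul_add]
    linarith
  calc E / ‖(Real.sqrt Real.pi : ℂ)‖ * ‖JT F A B v τ‖ ≤ E / 1 * ‖JT F A B v τ‖ := by gcongr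
    _ = E * ‖JT F A B v τ‖ := by rw [div_one]
    _ ≤ _ := hmain

end TH803TW
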