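import Pool.Agent.TH803.TW.Torus

/-! Sandwiching the indicator of a set of the torus with null boundary. -/

open Complex Filter Topology Set MeasureTheory
open scoped BigOperators ComplexConjugate

namespace TH803TW

lemma torus_int {k : ℕ} (f : C(UnitAddTorus (Fin k), ℝ)) : Integrable (fun x => f x) (haarT k) :=
  f.continuous.integrable_of_hasCompactSupport (HasCompactSupport.of_compactSpace _)

lemma torus_sand {k : ℕ} {U : Set (UnitAddTorus (Fin k))} (hU : haarT k (frontier U) = 0)
    {ε : ℝ} (hε : 0 < ε) :
    ∃ f g : C(UnitAddTorus (Fin k), ℝ), (∀ x, 0 ≤ f x) ∧ (∀ x, f x ≤ U.indicator 1 x) ∧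
      (∀ x, U.indicator 1 x ≤ g x) ∧ (∀ x, g x ≤ 1) ∧
      (haarT k U).toReal - ε ≤ ∫ x, f x ∂(haarT k) ∧
      ∫ x, g x ∂(haarT k) ≤ (haarT k U).toReal + ε := by
  have h1 : haarT k (interior U) = haarT k U := by
    apply le_antisymm (measure_mono interior_subset)
    have h2 : U ⊆ interior U ∪ frontier U := by
      rw [← closure_eq_interior_union_frontier]
      exact subset_closure
    calc haarT k U ≤ haarT k (interior U ∪ frontier U) := measure_mono h2
      _ ≤ haarT k (interior U) + haarT k (frontier U) := measure_union_le _ _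
      _ = haarT k (interior U) := by rw [hU, add_zero]
  have h3 : haarT k (closure U) = haarT k U := by
    apply le_antisymm _ (measure_mono subset_closure)
    calc haarT k (closure U) = haarT k (interior U ∪ frontier U) := by
          rw [closure_eq_interior_union_frontier]
      _ ≤ haarT k (interior U) + haarT k (frontier U) := measure_union_le _ _
      _ = haarT k U := by rw [hU, add_zero, h1]
  obtain ⟨f, hf0, hf1, hfU, hfM⟩ := torus_lower (U := interior U) isOpen_interior hε
  obtain ⟨g, hg0, hg1, hgU, hgM⟩ := torus_lower (U := (closure U)ᶜ) isClosed_closure.isOpen_compl hε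
  refine ⟨f, 1 - g, hf0, fun x => ?_, fun x => ?_, fun x => ?_, by rw [← h1]; exact hfM, ?_⟩
  · by_cases hx : x ∈ U
    · rw [Set.indicator_of_mem hx]
      exact hf1 x
    · rw [Set.indicator_of_notMem hx, hfU x fun h => hx (interior_subset h)]
  · show U.indicator 1 x ≤ 1 - g x
    by_cases hx : x ∈ U
    · rw [Set.indicator_of_mem hx, hgU x fun h => h (subset_closure hx)]
      simp
    · rw [Set.indicator_of_notMem hx]
      linarith [hg1 x]
  · show 1 - g x ≤ 1
    linarith [hg0 x]
  · have h4 : ∫ x, (1 - g : C(UnitAddTorus (Fin k), ℝ)) x ∂(haarT k) =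
        1 - ∫ x, g x ∂(haarT k) := by
      have h5 : ∀ x, (1 - g : C(UnitAddTorus (Fin k), ℝ)) x = 1 - g x := fun x => rfl
      simp only [h5]
      rw [integral_sub (integrable_const _) (torus_int g)]
      simp
    rw [h4]
    have h6 : (haarT k (closure U)ᶜ).toReal = 1 - (haarT k U).toReal := by
      rw [measure_compl isClosed_closure.measurableSet (measure_ne_top _ _), h3,
        ENNReal.toReal_sub_of_le (measure_mono (Set.subset_univ _)) (measure_ne_top _ _)]
      simp
    rw [h6] at hgM
    linarith

end TH803TW
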