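import Pool.Agent.TH803.TW.Torus

/-! Lipschitz bumps on the torus. -/

open Complex Filter Topology Set MeasureTheory
open scoped BigOperators ComplexConjugate

namespace TH803TW

lemma circle_dist (x y : ℝ) : dist (x : UnitAddCircle) (y : UnitAddCircle) ≤ |x - y| := by
  rw [dist_eq_norm]
  have h1 : ((x : UnitAddCircle) - (y : UnitAddCircle)) = ((x - y : ℝ) : UnitAddCircle) := rfl
  rw [h1, UnitAddCircle.norm_eq]
  have := round_le (x - y) 0
  simpa using this

lemma torusPt_dist {k : ℕ} (α : Fin k → ℝ) (t t' : ℝ) :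
    dist (torusPt α t) (torusPt α t') ≤ (∑ j, |α j|) * |t - t'| := by
  have h0 : 0 ≤ ∑ j, |α j| := Finset.sum_nonneg fun _ _ => abs_nonneg _
  rw [dist_pi_le_iff (by positivity)]
  intro j
  unfold torusPt
  refine (circle_dist _ _).trans ?_
  rw [← mul_sub, abs_mul]
  apply mul_le_mul_of_nonneg_right _ (abs_nonneg _)
  exact Finset.single_le_sum (f := fun j => |α j|) (fun _ _ => abs_nonneg _) (Finset.mem_univ j)

/-- a Lipschitz bump inside an open set of the torus -/
lemma torus_bump {k : ℕ} {U : Set (UnitAddTorus (Fin k))} (hU : IsOpen U) (hne : U.Nonempty) :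
    ∃ G : C(UnitAddTorus (Fin k), ℝ), (∀ x, 0 ≤ G x) ∧ (∀ x, G x ≤ 1) ∧ (∀ x, x ∉ U → G x = 0) ∧
      (∀ x y, |G x - G y| ≤ dist x y) ∧ 0 < ∫ x, (G x) ^ 2 ∂(haarT k) := by
  obtain ⟨x0, hx0⟩ := hne
  obtain ⟨r, hr, hball⟩ := Metric.isOpen_iff.1 hU x0 hx0
  set r' : ℝ := min r 1 with hr'
  have hr'0 : 0 < r' := lt_min hr one_pos
  set G : C(UnitAddTorus (Fin k), ℝ) := ⟨fun x => max 0 (r' - dist x x0), by fun_prop⟩ with hG
  have hG0 : ∀ x, 0 ≤ G x := fun x => le_max_left _ _
  refine ⟨G, hG0, fun x => ?_, fun x hx => ?_, fun x y => ?_, ?_⟩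
  · refine max_le zero_le_one ?_
    have := dist_nonneg (x := x) (y := x0)
    have := min_le_right r 1
    linarith
  · apply max_eq_left
    by_contra hcon
    push Not at hcon
    apply hx
    apply hball
    rw [Metric.mem_ball]
    have := min_le_left r 1
    linarith
  · show |max 0 (r' - dist x x0) - max 0 (r' - dist y x0)| ≤ dist x y
    have h1 := abs_max_sub_max_le_abs (r' - dist x x0) (r' - dist y x0) 0
    rw [max_comm 0, max_comm 0]
    refine h1.trans ?_
    have h2 : r' - dist x x0 - (r' - dist y x0) = dist y x0 - dist x x0 := by ring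
    rw [h2]
    have h3 := abs_dist_sub_le y x x0
    rw [dist_comm y x] at h3
    exact h3
  · have hc : Continuous fun x => (G x) ^ 2 := G.continuous.pow 2
    haveI : (haarT k).IsOpenPosMeasure := by unfold haarT; infer_instance
    haveI : IsFiniteMeasure (haarT k) := by unfold haarT; infer_instance
    refine hc.integral_pos_of_hasCompactSupport_nonneg_nonzero
      (HasCompactSupport.of_compactSpace _) (fun x => sq_nonneg _) (x := x0) ?_
    have : G x0 = r' := by
      show max 0 (r' - dist x0 x0) = r'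
      rw [dist_self, sub_zero, max_eq_right hr'0.le]
    show (G x0) ^ 2 ≠ 0
    rw [this]
    exact (pow_pos hr'0 2).ne'

end TH803TW
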