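import Pool.Agent.TH803.TW.AP

/-! Open sets of the torus: continuous minorants, boxes. -/

open Complex Filter Topology Set MeasureTheory
open scoped BigOperators ComplexConjugate

namespace TH803TW

lemma torus_lower {k : ℕ} {U : Set (UnitAddTorus (Fin k))} (hU : IsOpen U) {ε : ℝ} (hε : 0 < ε) :
    ∃ f : C(UnitAddTorus (Fin k), ℝ), (∀ x, 0 ≤ f x) ∧ (∀ x, f x ≤ 1) ∧ (∀ x, x ∉ U → f x = 0) ∧
      (haarT k U).toReal - ε ≤ ∫ x, f x ∂(haarT k) := by
  rcases eq_or_ne (haarT k U) 0 with h0 | h0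
  · refine ⟨0, fun x => le_rfl, fun x => zero_le_one, fun x _ => rfl, ?_⟩
    rw [h0]
    simp
    exact hε.le
  have hfin : haarT k U ≠ ⊤ := measure_ne_top _ _
  have hlt : haarT k U - ENNReal.ofReal ε < haarT k U :=
    ENNReal.sub_lt_self hfin h0 (by simpa using hε)
  obtain ⟨K, hKU, hK, hKm⟩ := hU.exists_lt_isCompact hlt
  obtain ⟨f, hf0, hf1, hf⟩ := exists_continuous_zero_one_of_isClosed (X := UnitAddTorus (Fin k))
    hU.isClosed_compl hK.isClosed (by
      rw [Set.disjoint_left]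
      intro x hx hx'
      exact hx (hKU hx'))
  refine ⟨f, fun x => (hf x).1, fun x => (hf x).2, fun x hx => hf0 hx, ?_⟩
  have h1 : (haarT k K).toReal ≤ ∫ x, f x ∂(haarT k) := by
    have h2 : ∫ x, K.indicator (fun _ => (1 : ℝ)) x ∂(haarT k) = (haarT k K).toReal := by
      rw [integral_indicator hK.measurableSet]
      simp [Measure.real]
    rw [← h2]
    refine integral_mono ?_ ?_ ?_
    · exact (integrable_const (1 : ℝ)).indicator hK.measurableSet
    · exact f.continuous.integrable_of_hasCompactSupport (HasCompactSupport.of_compactSpace _)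
    · intro x
      by_cases hx : x ∈ K
      · rw [Set.indicator_of_mem hx]
        exact (hf1 hx).ge
      · rw [Set.indicator_of_notMem hx]
        exact (hf x).1
  refine le_trans ?_ h1
  have h3 : haarT k U ≤ haarT k K + ENNReal.ofReal ε := by
    exact tsub_le_iff_right.1 hKm.le
  have h4 := ENNReal.toReal_mono (by finiteness) h3
  rw [ENNReal.toReal_add (measure_ne_top _ _) ENNReal.ofReal_ne_top, ENNReal.toReal_ofReal hε.le] at h4
  linarith

lemma ball_vol (x : UnitAddCircle) {δ : ℝ} (h0 : 0 < δ) (h1 : δ ≤ 1 / 2) :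
    ENNReal.ofReal (2 * δ) ≤ AddCircle.haarAddCircle (Metric.ball x δ) := by
  have h2 : ∀ δ' : ℝ, 0 < δ' → δ' < δ → ENNReal.ofReal (2 * δ') ≤
      AddCircle.haarAddCircle (Metric.ball x δ) := by
    intro δ' h3 h4
    have h5 := AddCircle.volume_closedBall (T := (1 : ℝ)) (x := x) δ'
    rw [AddCircle.volume_eq_smul_haarAddCircle, ENNReal.ofReal_one, one_smul,
      min_eq_right (by linarith)] at h5
    rw [← h5]
    exact measure_mono (Metric.closedBall_subset_ball h4)
  have h6 : Tendsto (fun δ' : ℝ => ENNReal.ofReal (2 * δ')) (𝓝[<] δ) (𝓝 (ENNReal.ofReal (2 * δ))) := by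
    refine (ENNReal.tendsto_ofReal ?_)
    exact (tendsto_id.const_mul 2).mono_left nhdsWithin_le_nhds
  refine le_of_tendsto h6 ?_
  have h7 : ∀ᶠ x in 𝓝[<] δ, x < δ := eventually_mem_nhdsWithin
  have h8 : ∀ᶠ x in 𝓝[<] δ, 0 < x := (eventually_gt_nhds h0).filter_mono nhdsWithin_le_nhds
  filter_upwards [h7, h8] with y h9 h10 using h2 y h10 h9

lemma box_vol {k : ℕ} (β : Fin k → UnitAddCircle) {δ : Fin k → ℝ} (h0 : ∀ j, 0 < δ j)
    (h1 : ∀ j, δ j ≤ 1 / 2) :
    ∏ j, (2 * δ j) ≤ (haarT k (Set.univ.pi fun j => Metric.ball (β j) (δ j))).toReal := by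
  unfold haarT
  rw [Measure.pi_pi, ENNReal.toReal_prod]
  refine Finset.prod_le_prod (fun j _ => by have := h0 j; positivity) fun j _ => ?_
  have h2 := ball_vol (β j) (h0 j) (h1 j)
  have h3 := ENNReal.toReal_mono (measure_ne_top _ _) h2
  rwa [ENNReal.toReal_ofReal (by have := h0 j; positivity)] at h3

lemma box_open {k : ℕ} (β : Fin k → UnitAddCircle) (δ : Fin k → ℝ) :
    IsOpen (Set.univ.pi fun j => Metric.ball (β j) (δ j)) :=
  isOpen_set_pi Set.finite_univ fun _ _ => Metric.isOpen_ball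

end TH803TW
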