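import Pool.Agent.TH803.TW.Wt

/-! Almost periodic weights, functions on tori. -/

open Complex Filter Topology Set MeasureTheory
open scoped BigOperators ComplexConjugate

namespace TH803TW

open H370 H370.A2 H370.AS H295SI

/-- uniform limits of real parts of trigonometric polynomials -/
def APu (φ : ℝ → ℝ) : Prop := ∀ ε : ℝ, 0 < ε → ∃ (S : Finset ℝ) (c : ℝ → ℂ),
  ∀ t, |φ t - tp S c t| ≤ ε

lemma APu.cont {φ : ℝ → ℝ} (h : APu φ) : Continuous φ := by
  refine continuous_of_uniform_approx_of_continuous fun u hu => ?_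
  obtain ⟨ε, hε, hεu⟩ := Metric.mem_uniformity_dist.1 hu
  obtain ⟨S, c, hS⟩ := h (ε / 2) (by positivity)
  refine ⟨tp S c, tp_cont S c, fun y => hεu ?_⟩
  rw [Real.dist_eq]
  have := hS y
  linarith

lemma tp_mean {S : Finset ℝ} (c : ℝ → ℂ) (h0 : (0 : ℝ) ∈ S) :
    Tendsto (fun X : ℝ => (∫ t in (0 : ℝ)..X, tp S c t) / X) atTop (𝓝 (c 0).re) := by
  classical
  have h1 : ∀ X : ℝ, 0 < X → ‖(∫ t in (0 : ℝ)..X, tp S c t) / X - (c 0).re‖ ≤
      (∑ τ ∈ S.erase 0, ‖c τ‖ * (2 / |τ|)) / X := by
    intro X hX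
    have e1 : ∫ t in (0 : ℝ)..X, tp S c t =
        (∑ τ ∈ S, c τ * ∫ t in (0 : ℝ)..X, cexp (I * τ * t)).re := by
      have e2 : ∫ t in (0 : ℝ)..X, (∑ τ ∈ S, c τ * cexp (I * τ * t)) =
          ∑ τ ∈ S, c τ * ∫ t in (0 : ℝ)..X, cexp (I * τ * t) := by
        rw [intervalIntegral.integral_finsetSum]
        · refine Finset.sum_congr rfl fun τ _ => ?_
          rw [intervalIntegral.integral_const_mul]
        · intro τ _
          exact (by fun_prop : Continuous fun t : ℝ => c τ * cexp (I * τ * t)).intervalIntegrable _ _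
      rw [← e2]
      have hc : Continuous fun t : ℝ => ∑ τ ∈ S, c τ * cexp (I * τ * t) := by fun_prop
      unfold tp
      exact intervalIntegral.intervalIntegral_re (hc.intervalIntegrable _ _)
    rw [e1, ← Finset.add_sum_erase S _ h0]
    have e3 : ∫ t in (0 : ℝ)..X, cexp (I * ((0 : ℝ) : ℂ) * t) = (X : ℂ) := by
      simp
    rw [e3, Complex.add_re, Complex.re_mul_ofReal, add_div, mul_div_cancel_right₀ _ hX.ne',
      add_sub_cancel_left, Real.norm_eq_abs, abs_div, abs_of_pos hX]
    gcongr
    refine (Complex.abs_re_le_norm _).trans ((norm_sum_le _ _).trans ?_)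
    refine Finset.sum_le_sum fun τ hτ => ?_
    rw [norm_mul]
    gcongr
    exact (exp_int τ 0 X hX.le).2 (Finset.ne_of_mem_erase hτ)
  rw [tendsto_iff_norm_sub_tendsto_zero]
  have h2 : Tendsto (fun X : ℝ => (∑ τ ∈ S.erase 0, ‖c τ‖ * (2 / |τ|)) / X) atTop (𝓝 0) :=
    Tendsto.div_atTop tendsto_const_nhds tendsto_id
  refine squeeze_zero' (Eventually.of_forall fun _ => norm_nonneg _) ?_ h2
  filter_upwards [eventually_gt_atTop (0 : ℝ)] with X hX using h1 X hX

/-- almost periodic functions with mean value satisfy `APm` -/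
lemma APm_of_mean {φ : ℝ → ℝ} {M : ℝ} (h : APu φ)
    (hM : Tendsto (fun X : ℝ => (∫ t in (0 : ℝ)..X, φ t) / X) atTop (𝓝 M)) : APm φ M := by
  classical
  intro ε hε
  obtain ⟨S, c, hS⟩ := h ε hε
  set c' : ℝ → ℂ := fun τ => if τ ∈ S then c τ else 0 with hc'
  have htp : tp (insert 0 S) c' = tp S c := by
    funext t
    unfold tp
    congr 1
    rw [← Finset.sum_subset (Finset.subset_insert (0 : ℝ) S)]
    · refine Finset.sum_congr rfl fun τ hτ => ?_
      rw [hc']
      simp only [if_pos hτ]
    · intro τ _ hτ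
      rw [hc']
      simp only [if_neg hτ, zero_mul]
  refine ⟨insert 0 S, c', Finset.mem_insert_self _ _, fun t => by rw [htp]; exact hS t, ?_⟩
  have h1 := tp_mean c' (Finset.mem_insert_self (0 : ℝ) S)
  have h2 := (h1.sub hM).abs
  refine le_of_tendsto h2 ?_
  filter_upwards [eventually_gt_atTop (0 : ℝ)] with X hX
  rw [← sub_div, abs_div, abs_of_pos hX, div_le_iff₀ hX, htp,
    ← intervalIntegral.integral_sub ((tp_cont S c).intervalIntegrable _ _)
      (h.cont.intervalIntegrable _ _)]
  have h3 := intervalIntegral.norm_integral_le_of_norm_le_const (a := 0) (b := X)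
    (f := fun t => tp S c t - φ t) (C := ε) (fun t _ => by
      rw [Real.norm_eq_abs, abs_sub_comm]; exact hS t)
  rw [sub_zero, abs_of_pos hX, Real.norm_eq_abs] at h3
  exact h3

/-! ### functions on tori -/

lemma int_fourier (n : ℤ) :
    ∫ x : UnitAddCircle, fourier n x ∂AddCircle.haarAddCircle = if n = 0 then 1 else 0 := by
  split_ifs with h
  · simp [h]
  · exact integral_eq_zero_of_add_right_eq_neg (μ := AddCircle.haarAddCircle)
      (fourier_add_half_inv_index h one_pos)

/-- the normalised Haar measure of the torus -/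
noncomputable def haarT (k : ℕ) : Measure (UnitAddTorus (Fin k)) :=
  Measure.pi fun _ => AddCircle.haarAddCircle

instance (k : ℕ) : IsProbabilityMeasure (haarT k) := by unfold haarT; infer_instance

lemma int_mFourier {k : ℕ} (n : Fin k → ℤ) :
    ∫ x, UnitAddTorus.mFourier n x ∂(haarT k) = if n = 0 then 1 else 0 := by
  unfold haarT UnitAddTorus.mFourier
  simp only [ContinuousMap.coe_mk]
  rw [integral_fintype_prod_eq_prod (𝕜 := ℂ) (fun i => (fourier (n i) : UnitAddCircle → ℂ))]
  simp only [int_fourier]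
  split_ifs with h
  · simp [h]
  · obtain ⟨i, hi⟩ := Function.ne_iff.mp h
    exact Finset.prod_eq_zero (Finset.mem_univ i) (if_neg hi)

/-- the point `α t mod 1` of the torus -/
def torusPt {k : ℕ} (α : Fin k → ℝ) (t : ℝ) : UnitAddTorus (Fin k) :=
  fun j => ((α j * t : ℝ) : UnitAddCircle)

/-- the frequency `2π n·α` -/
noncomputable def freq {k : ℕ} (α : Fin k → ℝ) (n : Fin k → ℤ) : ℝ :=
  2 * Real.pi * ∑ j, (n j : ℝ) * α j

lemma freq_inj {k : ℕ} {α : Fin k → ℝ} (hα : ∀ n : Fin k → ℤ, ∑ j, (n j : ℝ) * α j = 0 → n = 0) :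
    Function.Injective (freq α) := by
  intro n m h
  unfold freq at h
  have h1 : ∑ j, (n j : ℝ) * α j = ∑ j, (m j : ℝ) * α j :=
    mul_left_cancel₀ (by positivity) h
  have h2 : ∑ j, (((n - m) j : ℤ) : ℝ) * α j = 0 := by
    simp only [Pi.sub_apply, Int.cast_sub, sub_mul, Finset.sum_sub_distrib]
    rw [h1, sub_self]
  have h3 := hα _ h2
  exact sub_eq_zero.mp h3

lemma mFourier_torusPt {k : ℕ} (α : Fin k → ℝ) (n : Fin k → ℤ) (t : ℝ) :
    UnitAddTorus.mFourier n (torusPt α t) = cexp (I * (freq α n : ℂ) * t) := by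
  unfold UnitAddTorus.mFourier torusPt freq
  simp only [ContinuousMap.coe_mk, fourier_coe_apply]
  rw [← Complex.exp_sum]
  congr 1
  push_cast
  rw [Finset.mul_sum, Finset.mul_sum, Finset.sum_mul]
  refine Finset.sum_congr rfl fun j _ => ?_
  ring

/-- continuous functions on the torus along a line -/
lemma APm_torus {k : ℕ} {α : Fin k → ℝ}
    (hα : ∀ n : Fin k → ℤ, ∑ j, (n j : ℝ) * α j = 0 → n = 0) (f : C(UnitAddTorus (Fin k), ℝ)) :
    APm (fun t => f (torusPt α t)) (∫ x, f x ∂(haarT k)) := by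
  classical
  intro ε hε
  -- complexify
  set g : C(UnitAddTorus (Fin k), ℂ) := ⟨fun x => (f x : ℂ), by fun_prop⟩ with hg
  have hmem : g ∈ (Submodule.span ℂ (Set.range <| UnitAddTorus.mFourier (d := Fin k))).topologicalClosure := by
    rw [UnitAddTorus.span_mFourier_closure_eq_top]; trivial
  have hcl : g ∈ closure ((Submodule.span ℂ (Set.range <| UnitAddTorus.mFourier (d := Fin k)) :
      Submodule ℂ C(UnitAddTorus (Fin k), ℂ)) : Set C(UnitAddTorus (Fin k), ℂ)) := hmem
  obtain ⟨p, hp, hpg⟩ := Metric.mem_closure_iff.1 hcl ε hε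
  obtain ⟨a, ha⟩ := (Finsupp.mem_span_range_iff_exists_finsupp).1 hp
  have hpx : ∀ x, p x = ∑ n ∈ insert 0 a.support, a n * UnitAddTorus.mFourier n x := by
    intro x
    rw [← ha, Finsupp.sum, ContinuousMap.sum_apply]
    rw [← Finset.sum_subset (Finset.subset_insert (0 : Fin k → ℤ) a.support)]
    · rfl
    · intro n _ hn
      rw [Finsupp.notMem_support_iff.1 hn, zero_mul]
  have hdist : ∀ x, ‖(f x : ℂ) - p x‖ ≤ ε := by
    intro x
    have h1 := ContinuousMap.dist_apply_le_dist (f := g) (g := p) x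
    rw [dist_eq_norm] at h1
    exact h1.trans hpg.le
  have hinj := freq_inj hα
  refine ⟨(insert 0 a.support).image (freq α), Function.extend (freq α) a 0, ?_, ?_, ?_⟩
  · rw [Finset.mem_image]
    exact ⟨0, Finset.mem_insert_self _ _, by unfold freq; simp⟩
  · intro t
    have h1 : tp ((insert 0 a.support).image (freq α)) (Function.extend (freq α) a 0) t =
        (p (torusPt α t)).re := by
      unfold tp
      rw [Finset.sum_image fun x _ y _ h => hinj h, hpx]
      congr 1
      refine Finset.sum_congr rfl fun n _ => ?_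
      rw [hinj.extend_apply, mFourier_torusPt]
    rw [h1]
    have h2 : f (torusPt α t) - (p (torusPt α t)).re =
        ((f (torusPt α t) : ℂ) - p (torusPt α t)).re := by simp
    rw [h2]
    exact (Complex.abs_re_le_norm _).trans (hdist _)
  · have h0 : (0 : ℝ) = freq α 0 := by unfold freq; simp
    rw [show Function.extend (freq α) a 0 0 = a 0 by rw [h0, hinj.extend_apply]]
    have hint : ∀ q : C(UnitAddTorus (Fin k), ℂ), Integrable (fun x => q x) (haarT k) := by
      intro q
      exact q.continuous.integrable_of_hasCompactSupport (HasCompactSupport.of_compactSpace _)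
    have h1 : ∫ x, p x ∂(haarT k) = a 0 := by
      simp only [hpx]
      rw [integral_finsetSum]
      · rw [Finset.sum_eq_single (0 : Fin k → ℤ)]
        · rw [integral_const_mul, int_mFourier, if_pos rfl, mul_one]
        · intro n _ hn
          rw [integral_const_mul, int_mFourier, if_neg hn, mul_zero]
        · intro h
          exact absurd (Finset.mem_insert_self _ _) h
      · intro n _
        exact (hint _).const_mul _
    have h2 : (a 0).re - ∫ x, f x ∂(haarT k) = - (∫ x, ((f x : ℂ) - p x) ∂(haarT k)).re := by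
      have hgi : Integrable (fun x => (f x : ℂ)) (haarT k) := hint g
      rw [integral_sub hgi (hint p), h1, integral_complex_ofReal]
      simp
    rw [h2, abs_neg]
    refine (Complex.abs_re_le_norm _).trans ?_
    have h3 := norm_integral_le_of_norm_le_const (μ := haarT k) (f := fun x => (f x : ℂ) - p x)
      (C := ε) (Eventually.of_forall hdist)
    simpa using h3

end TH803TW
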