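import Pool.Agent.TH803.TW.Fin
import Pool.Agent.TH803.TW.AP

/-! The weighted short interval theorem, all lengths; simple and distinct zeros. -/

open Complex Filter Topology Set MeasureTheory
open scoped BigOperators ComplexConjugate

namespace TH803TW

open H370 H370.A2 H370.AS H295SI

section

variable {F : ℂ → ℂ}

lemma Zf_sum_add (hF : GoodL F) {A B C : ℝ} (hA : 1 ≤ A) (h1 : A ≤ B) (h2 : B ≤ C) (f : ℂ → ℝ) :
    ∑ s ∈ Zf F A C, f s = ∑ s ∈ Zf F A B, f s + ∑ s ∈ Zf F B C, f s := by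
  classical
  rw [← Finset.sum_union]
  · congr 1
    ext s
    rw [Finset.mem_union, mem_Zf hF hA, mem_Zf hF hA, mem_Zf hF (hA.trans h1)]
    constructor
    · rintro ⟨a, b, c, d, e⟩
      rcases le_or_gt s.im B with h | h
      · exact Or.inl ⟨a, b, c, h, e⟩
      · exact Or.inr ⟨a, b, h, d, e⟩
    · rintro (⟨a, b, c, d, e⟩ | ⟨a, b, c, d, e⟩)
      · exact ⟨a, b, c, d.trans h2, e⟩
      · exact ⟨a, b, h1.trans_lt c, d, e⟩
  · rw [Finset.disjoint_left]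
    intro s hs hs'
    rw [mem_Zf hF hA] at hs
    rw [mem_Zf hF (hA.trans h1)] at hs'
    have h3 := hs.2.2.2.1
    have h4 := hs'.2.2.1
    linarith

lemma MW_add (hF : GoodL F) {A B C : ℝ} (hA : 1 ≤ A) (h1 : A ≤ B) (h2 : B ≤ C) (w : ℝ → ℝ) :
    MW F A C w = MW F A B w + MW F B C w := Zf_sum_add hF hA h1 h2 _

lemma SqW_add (hF : GoodL F) {A B C : ℝ} (hA : 1 ≤ A) (h1 : A ≤ B) (h2 : B ≤ C) (w : ℝ → ℝ) :
    SqW F A C w = SqW F A B w + SqW F B C w := Zf_sum_add hF hA h1 h2 _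

lemma NN_add (hF : GoodL F) {A B C : ℝ} (hA : 1 ≤ A) (h1 : A ≤ B) (h2 : B ≤ C) :
    (NN F A C : ℝ) = NN F A B + NN F B C := by
  rw [← MW_one hF hA, ← MW_one hF hA, ← MW_one hF (hA.trans h1)]
  exact MW_add hF hA h1 h2 _

end

lemma cc_cont {h : ℝ} (h0 : 0 < h) (h1 : h ≤ 1) : ContinuousAt cc h := by
  have hs : Real.sin (h / Real.sqrt 2) ≠ 0 := by
    have h2 : 0 < Real.sqrt 2 := by positivity
    have h3 : 1 ≤ Real.sqrt 2 := by
      rw [Real.le_sqrt' one_pos]; norm_num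
    refine (Real.sin_pos_of_pos_of_lt_pi (by positivity) ?_).ne'
    have : h / Real.sqrt 2 ≤ 1 := by
      rw [div_le_one h2]; linarith
    have := Real.pi_gt_three
    linarith
  unfold cc
  refine ContinuousAt.add (by fun_prop) (ContinuousAt.div_const ?_ _)
  have e : (fun x : ℝ => Real.cot (x / Real.sqrt 2)) =
      fun x : ℝ => Real.cos (x / Real.sqrt 2) / Real.sin (x / Real.sqrt 2) := by
    funext x
    rw [Real.cot_eq_cos_div_sin]
  rw [e]
  exact ContinuousAt.div (by fun_prop) (by fun_prop) hs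

theorem allW {F : ℂ → ℂ} (hF : GoodL F) (hline : Line F) {φ : ℝ → ℝ} {M : ℝ} (hφ : APm φ M)
    (hφ0 : ∀ t, 0 ≤ φ t) (hM : 0 ≤ M) (h ε : ℝ) (hh0 : 0 < h) (hh1 : h ≤ 1) (hε : 0 < ε) :
    ∃ T0 : ℝ, 10 ≤ T0 ∧ ∀ T : ℝ, T0 ≤ T → ∀ H : ℝ, T ^ h ≤ H → H ≤ T →
      |MW F T (T + H) φ - M * NN F T (T + H)| ≤ ε * NN F T (T + H) ∧
      SqW F T (T + H) φ ≤ (M * cc h + ε) * NN F T (T + H) := by
  -- choose the exponent
  obtain ⟨h', hh', hh'1, hcc⟩ : ∃ h' : ℝ, 0 < h' ∧ h' < h ∧ M * cc h' ≤ M * cc h + ε / 2 := by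
    have h2 : ∀ᶠ x in 𝓝[<] h, M * cc x < M * cc h + ε / 2 := by
      have h3 : Tendsto (fun x => M * cc x) (𝓝[<] h) (𝓝 (M * cc h)) :=
        ((cc_cont hh0 hh1).tendsto.mono_left nhdsWithin_le_nhds).const_mul _
      exact h3.eventually_lt_const (by linarith)
    have h4 : ∀ᶠ x in 𝓝[<] h, x < h := eventually_mem_nhdsWithin
    have h5 : ∀ᶠ x in 𝓝[<] h, 0 < x := (eventually_gt_nhds hh0).filter_mono nhdsWithin_le_nhds
    obtain ⟨x, h6, h7, h8⟩ := (h2.and (h4.and h5)).exists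
    exact ⟨x, h8, h7, h6.le⟩
  obtain ⟨T1, hT1, hS⟩ := shortW hF hline hφ hφ0 hM h' (ε / 2) hh' (by linarith) (by positivity)
  have ev1 : ∀ᶠ T : ℝ in atTop, (4 : ℝ) ≤ T ^ (h - h') :=
    (tendsto_rpow_atTop (by linarith)).eventually_ge_atTop _
  obtain ⟨T2, hT2⟩ := ev1.exists_forall_of_atTop
  refine ⟨max T1 T2, hT1.trans (le_max_left _ _), fun T hT H hH1 hH2 => ?_⟩
  have hTT1 : T1 ≤ T := (le_max_left _ _).trans hT
  have hT10 : 10 ≤ T := hT1.trans hTT1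
  have hpos : 0 < T := by linarith
  have hp := hT2 T ((le_max_right _ _).trans hT)
  have hp1 : 4 * T ^ h' ≤ T ^ h := by
    have : T ^ h = T ^ (h - h') * T ^ h' := by
      rw [← Real.rpow_add hpos]; congr 1; ring
    rw [this]
    have := Real.rpow_pos_of_pos hpos h'
    gcongr
  have hp0 : 0 < T ^ h' := Real.rpow_pos_of_pos hpos h'
  have hH0 : 0 < H := by linarith
  have hmid : (T + H / 2) ^ h' ≤ 2 * T ^ h' := by
    calc (T + H / 2) ^ h' ≤ (2 * T) ^ h' :=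
          Real.rpow_le_rpow (by linarith) (by linarith) hh'.le
      _ = 2 ^ h' * T ^ h' := Real.mul_rpow (by norm_num) hpos.le
      _ ≤ 2 ^ (1 : ℝ) * T ^ h' := by
          gcongr
          · norm_num
          · linarith
      _ = 2 * T ^ h' := by rw [Real.rpow_one]
  obtain ⟨a1, a2, -⟩ := hS T hTT1 (H / 2) (by linarith) (by linarith)
  obtain ⟨b1, b2, -⟩ := hS (T + H / 2) (by linarith) (H / 2) (by linarith) (by linarith)
  have e1 : T + H / 2 + H / 2 = T + H := by ring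
  rw [e1] at b1 b2
  rw [MW_add hF (A := T) (B := T + H / 2) (C := T + H) (by linarith) (by linarith) (by linarith),
    SqW_add hF (A := T) (B := T + H / 2) (C := T + H) (by linarith) (by linarith) (by linarith),
    NN_add hF (A := T) (B := T + H / 2) (C := T + H) (by linarith) (by linarith) (by linarith)]
  have n1 : (0 : ℝ) ≤ NN F T (T + H / 2) := Nat.cast_nonneg _
  have n2 : (0 : ℝ) ≤ NN F (T + H / 2) (T + H) := Nat.cast_nonneg _
  set x := (NN F T (T + H / 2) : ℝ)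
  set y := (NN F (T + H / 2) (T + H) : ℝ)
  set X := MW F T (T + H / 2) φ
  set Y := MW F (T + H / 2) (T + H) φ
  constructor
  · obtain ⟨c1, c2⟩ := abs_le.mp a1
    obtain ⟨d1, d2⟩ := abs_le.mp b1
    have m1 : 0 ≤ ε * x := by positivity
    have m2 : 0 ≤ ε * y := by positivity
    rw [abs_le]
    constructor
    · linarith only [c1, d1, m1, m2]
    · linarith only [c2, d2, m1, m2]
  · have m0 : M * cc h' + ε / 2 ≤ M * cc h + ε := by linarith only [hcc]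
    have m1 : (M * cc h' + ε / 2) * x ≤ (M * cc h + ε) * x := mul_le_mul_of_nonneg_right m0 n1
    have m2 : (M * cc h' + ε / 2) * y ≤ (M * cc h + ε) * y := mul_le_mul_of_nonneg_right m0 n2
    linarith only [a2, b2, m1, m2]

section

variable {F : ℂ → ℂ}

/-- the weighted sum over the simple zeros -/
noncomputable def S1 (F : ℂ → ℂ) (A B : ℝ) (w : ℝ → ℝ) : ℝ :=
  ∑ s ∈ (Zf F A B).filter (fun s => mult F s = 1), w s.im

/-- the weighted sum over the distinct zeros -/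
noncomputable def Sd (F : ℂ → ℂ) (A B : ℝ) (w : ℝ → ℝ) : ℝ := ∑ s ∈ Zf F A B, w s.im

lemma S1_ge {A B : ℝ} {w : ℝ → ℝ} (hw : ∀ t, 0 ≤ w t) :
    2 * MW F A B w - SqW F A B w ≤ S1 F A B w := by
  unfold S1 MW SqW
  rw [Finset.mul_sum, ← Finset.sum_sub_distrib, Finset.sum_filter]
  refine Finset.sum_le_sum fun s _ => ?_
  split_ifs with h
  · rw [h]; norm_num; linarith
  · have h2 : mult F s = 0 ∨ 2 ≤ mult F s := by omega
    have hw' := hw s.im
    rcases h2 with h2 | h2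
    · rw [h2]; norm_num
    · have h3 : (2 : ℝ) ≤ mult F s := by exact_mod_cast h2
      have h4 : 0 ≤ (mult F s : ℝ) * ((mult F s : ℝ) - 2) * w s.im := by
        have : 0 ≤ (mult F s : ℝ) - 2 := by linarith
        positivity
      linarith

lemma Sd_ge {A B : ℝ} {w : ℝ → ℝ} (hw : ∀ t, 0 ≤ w t) :
    3 * MW F A B w - SqW F A B w ≤ 2 * Sd F A B w := by
  unfold Sd MW SqW
  rw [Finset.mul_sum, Finset.mul_sum, ← Finset.sum_sub_distrib]
  refine Finset.sum_le_sum fun s _ => ?_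
  have hw' := hw s.im
  have h2 : 0 ≤ ((mult F s : ℝ) - 1) * ((mult F s : ℝ) - 2) := by
    have h3 : mult F s = 0 ∨ mult F s = 1 ∨ 2 ≤ mult F s := by omega
    rcases h3 with h3 | h3 | h3
    · rw [h3]; norm_num
    · rw [h3]; norm_num
    · have h4 : (2 : ℝ) ≤ mult F s := by exact_mod_cast h3
      exact mul_nonneg (by linarith) (by linarith)
  have h3 := mul_nonneg h2 hw'
  nlinarith

end

/-- simple and distinct zeros -/
theorem simpleW {F : ℂ → ℂ} (hF : GoodL F) (hline : Line F) {φ : ℝ → ℝ} {M : ℝ} (hφ : APm φ M)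
    (hφ0 : ∀ t, 0 ≤ φ t) (hM : 0 ≤ M) (h ε : ℝ) (hh0 : 0 < h) (hh1 : h ≤ 1) (hε : 0 < ε) :
    ∃ T0 : ℝ, 10 ≤ T0 ∧ ∀ T : ℝ, T0 ≤ T → ∀ H : ℝ, T ^ h ≤ H → H ≤ T →
      ((2 - cc h) * M - ε) * NN F T (T + H) ≤ S1 F T (T + H) φ ∧
      ((3 - cc h) / 2 * M - ε) * NN F T (T + H) ≤ Sd F T (T + H) φ ∧
      SqW F T (T + H) φ ≤ (cc h * M + ε) * NN F T (T + H) := by
  obtain ⟨T0, hT0, hA⟩ := allW hF hline hφ hφ0 hM h (ε / 3) hh0 hh1 (by positivity)
  refine ⟨T0, hT0, fun T hT H hH1 hH2 => ?_⟩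
  obtain ⟨a1, a2⟩ := hA T hT H hH1 hH2
  obtain ⟨c1, c2⟩ := abs_le.mp a1
  have h1 := S1_ge (F := F) (A := T) (B := T + H) hφ0
  have h2 := Sd_ge (F := F) (A := T) (B := T + H) hφ0
  have n1 : (0 : ℝ) ≤ NN F T (T + H) := Nat.cast_nonneg _
  have n2 : 0 ≤ ε * NN F T (T + H) := by positivity
  refine ⟨?_, ?_, ?_⟩
  · linarith only [h1, c1, a2, n2]
  · linarith only [h2, c1, a2, n2]
  · linarith only [a2, n2]

end TH803TW
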