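import Pool.Agent.TH803.TW.PairW
import Pool.Agent.H321R3.PC.Det

/-! Asymptotics of the pair sum for a general band-limited kernel, dyadic intervals. -/

open Complex Filter Topology Set MeasureTheory
open scoped BigOperators ComplexConjugate

namespace TH803TW

open H370 H370.A2 H370.AS H295SI

lemma PG_PS {F : ℂ → ℂ} (hF : GoodL F) (hline : Line F) {ψ : ℝ → ℝ} (hψ : Continuous ψ)
    (hψe : ∀ α, ψ (-α) = ψ α) {A B : ℝ} (hA : 1 ≤ A) (Λ : ℝ) :
    PG ψ F Λ A B (fun _ => 1) = PS ψ F A B Λ := by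
  have h1 := QTp_zero' hF hline hψ hψe hA (B := B) Λ
  rw [QTp_JT hF hA hψ] at h1
  have hJ0 : ∀ u, JT F A B u 0 = ((JJ F A B u : ℝ) : ℂ) := by
    intro u
    unfold JT JJ
    rw [← integral_complex_ofReal]
    refine integral_congr_ae (Eventually.of_forall fun t => ?_)
    simp
  have hJc : Continuous fun α : ℝ => JJ F A B (Λ * α) := by
    have h2 := (JT_cont hF hA (U2 := B) 0).comp (by fun_prop : Continuous fun α : ℝ => Λ * α)
    have h3 : (fun α : ℝ => JJ F A B (Λ * α)) = fun α : ℝ => (JT F A B (Λ * α) 0).re := by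
      funext α
      rw [hJ0, Complex.ofReal_re]
    rw [h3]
    exact Complex.continuous_re.comp h2
  have hJe : ∀ u, JJ F A B (-u) = JJ F A B u := by
    intro u
    have h2 := JT_even hF hA (U2 := B) (-u) 0
    have h3 : ((JJ F A B (-u) : ℝ) : ℂ) = ((JJ F A B u : ℝ) : ℂ) := by
      rw [← hJ0, ← hJ0]
      have h4 := JT_even hF hA (U2 := B) u 0
      exact h4
    exact_mod_cast h3
  have h2 : ∫ α in (-1 : ℝ)..1, (ψ α : ℂ) * JT F A B (Λ * α) 0 =
      ((2 * ∫ α in (0 : ℝ)..1, ψ α * JJ F A B (Λ * α) : ℝ) : ℂ) := by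
    have h3 : ∀ α : ℝ, (ψ α : ℂ) * JT F A B (Λ * α) 0 = ((ψ α * JJ F A B (Λ * α) : ℝ) : ℂ) := by
      intro α
      rw [hJ0]
      push_cast
      ring
    have h3' : (fun α : ℝ => (ψ α : ℂ) * JT F A B (Λ * α) 0) =
        fun α : ℝ => ((ψ α * JJ F A B (Λ * α) : ℝ) : ℂ) := funext h3
    have h4 : ∀ α : ℝ, (fun α : ℝ => ((Λ * α : ℝ) : ℂ)) α = Λ * α := fun α => by push_cast; ring
    rw [intervalIntegral.integral_congr (g := fun α : ℝ => ((ψ α * JJ F A B (Λ * α) : ℝ) : ℂ))
      (fun α _ => h3 α), intervalIntegral.integral_ofReal]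
    congr 1
    set G : ℝ → ℝ := fun α => ψ α * JJ F A B (Λ * α) with hG
    have hGc : Continuous G := hψ.mul hJc
    have hGe : ∀ α, G (-α) = G α := by
      intro α
      simp only [hG]
      rw [hψe, mul_neg, hJe]
    rw [← intervalIntegral.integral_add_adjacent_intervals (b := 0)
      (hGc.intervalIntegrable _ _) (hGc.intervalIntegrable _ _)]
    have h5 : ∫ α in (-1 : ℝ)..0, G α = ∫ α in (0 : ℝ)..1, G α := by
      have h6 := intervalIntegral.integral_comp_neg (a := 0) (b := 1) G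
      rw [neg_zero] at h6
      rw [← h6]
      exact intervalIntegral.integral_congr fun α _ => hGe α
    rw [h5]
    ring
  rw [h2] at h1
  have h3 : (PG ψ F Λ A B (fun _ => 1) : ℂ) = ((PS ψ F A B Λ : ℝ) : ℂ) := by
    rw [← h1]
    unfold PS
    push_cast
    simp
    ring
  exact_mod_cast h3

/-- powers of the tent -/
noncomputable def Rj (j : ℕ) (α : ℝ) : ℝ := (max 0 (1 - |α|)) ^ j

lemma Rj_conv (j : ℕ) (hj : 1 ≤ j) : Conv (Rj j) := by
  have h01 : ∀ α : ℝ, 0 ≤ max 0 (1 - |α|) ∧ max 0 (1 - |α|) ≤ 1 := fun α =>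
    ⟨le_max_left _ _, max_le zero_le_one (by linarith [abs_nonneg α])⟩
  refine ⟨fun α => ?_, ?_, ⟨j, by exact_mod_cast hj, fun x y => ?_⟩, fun α => ?_, fun α hα => ?_⟩
  · exact pow_nonneg (h01 α).1 _
  · intro x hx y hy hxy
    unfold Rj
    have : max 0 (1 - |y|) ≤ max 0 (1 - |x|) := by
      apply max_le_max_left
      rw [abs_of_nonneg (show (0 : ℝ) ≤ x from hx), abs_of_nonneg (show (0 : ℝ) ≤ y from hy)]
      linarith
    exact pow_le_pow_left₀ (h01 y).1 this _
  · unfold Rj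
    have h2 : |max 0 (1 - |x|) - max 0 (1 - |y|)| ≤ |x - y| := by
      have h3 := abs_max_sub_max_le_abs (1 - |x|) (1 - |y|) 0
      rw [max_comm 0, max_comm 0]
      refine h3.trans ?_
      have h4 : 1 - |x| - (1 - |y|) = |y| - |x| := by ring
      rw [h4, abs_sub_comm x y]
      exact abs_abs_sub_abs_le_abs_sub y x
    have h5 : ∀ (a b : ℝ), 0 ≤ a → a ≤ 1 → 0 ≤ b → b ≤ 1 → ∀ n : ℕ,
        |a ^ n - b ^ n| ≤ n * |a - b| := by
      intro a b ha ha1 hb hb1 n
      induction n with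
      | zero => simp
      | succ n ih =>
        have e : a ^ (n + 1) - b ^ (n + 1) = a * (a ^ n - b ^ n) + b ^ n * (a - b) := by ring
        rw [e]
        refine (abs_add_le _ _).trans ?_
        rw [abs_mul, abs_mul, abs_of_nonneg ha, abs_of_nonneg (pow_nonneg hb n)]
        have h6 : b ^ n ≤ 1 := pow_le_one₀ hb hb1
        have h7 := abs_nonneg (a ^ n - b ^ n)
        have h8 := abs_nonneg (a - b)
        push_cast
        calc a * |a ^ n - b ^ n| + b ^ n * |a - b| ≤ 1 * (n * |a - b|) + 1 * |a - b| := by gcongr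
          _ = _ := by ring
    refine (h5 _ _ (h01 x).1 (h01 x).2 (h01 y).1 (h01 y).2 j).trans ?_
    gcongr
  · unfold Rj; rw [abs_neg]
  · unfold Rj
    rw [abs_of_pos (by linarith), max_eq_left (by linarith)]
    exact zero_pow (by omega)

lemma JJ_cont' {F : ℂ → ℂ} (hF : GoodL F) {A B : ℝ} (hA : 1 ≤ A) (Λ : ℝ) :
    Continuous fun α : ℝ => JJ F A B (Λ * α) := by
  have hJ0 : ∀ u, JT F A B u 0 = ((JJ F A B u : ℝ) : ℂ) := by
    intro u
    unfold JT JJ
    rw [← integral_complex_ofReal]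
    refine integral_congr_ae (Eventually.of_forall fun t => ?_)
    simp
  have h2 := (JT_cont hF hA (U2 := B) 0).comp (by fun_prop : Continuous fun α : ℝ => Λ * α)
  have h3 : (fun α : ℝ => JJ F A B (Λ * α)) = fun α : ℝ => (JT F A B (Λ * α) 0).re := by
    funext α
    rw [hJ0, Complex.ofReal_re]
  rw [h3]
  exact Complex.continuous_re.comp h2

lemma JJ_nonneg' (F : ℂ → ℂ) (A B u : ℝ) : 0 ≤ JJ F A B u := by
  unfold JJ
  exact integral_nonneg fun t => by positivity

/-- the integral of `JJ` -/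
lemma JJ_int_bound (hRH : RiemannHypothesis) (μ : ℝ) (hμ : 0 < μ) (hμ1 : μ < 1) :
    ∃ C T0 : ℝ, 0 < C ∧ 10 ≤ T0 ∧ ∀ T : ℝ, T0 ≤ T →
      2 / Real.sqrt Real.pi * ∫ α in (0 : ℝ)..1, JJ riemannZeta (T + 1) (2 * T - 1)
        (μ * Real.log T * α) ≤ C * ((2 * T - 1 - (T + 1)) * Real.log T / (2 * Real.pi)) := by
  set μ' : ℝ := (1 + μ) / 2 with hμ'
  have hμ'0 : 0 < μ' := by rw [hμ']; linarith
  have hμμ : μ < μ' := by rw [hμ']; linarith
  have hμ'1 : μ' < 1 := by rw [hμ']; linarith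
  obtain ⟨T0, hT0, hd⟩ := H321PC.det_pair hRH (Rj_conv 1 le_rfl) μ' 1 hμ'0 hμ'1 one_pos
  set q : ℝ := μ / μ' with hq
  have hq0 : 0 < q := by positivity
  have hq1 : q < 1 := by rw [hq, div_lt_one hμ'0]; exact hμμ
  set C0 : ℝ := |cR (Rj 1) μ'| + 1 with hC0
  refine ⟨1 / (q * (1 - q)) * C0, T0, by have : 0 < 1 - q := by linarith
                                         positivity, hT0, fun T hT => ?_⟩
  have hT10 : 10 ≤ T := hT0.trans hT
  have hA : 1 ≤ T + 1 := by linarith
  have hL : 0 < Real.log T := Real.log_pos (by linarith)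
  set L := Real.log T with hLd
  set Mm := (2 * T - 1 - (T + 1)) * L / (2 * Real.pi) with hMm
  have hMm0 : 0 ≤ Mm := by
    rw [hMm]
    have : 0 ≤ 2 * T - 1 - (T + 1) := by linarith
    positivity
  set J : ℝ → ℝ := fun α => JJ riemannZeta (T + 1) (2 * T - 1) (μ' * L * α) with hJ
  have hJc : Continuous J := JJ_cont' good_zeta hA _
  have hJ0 : ∀ α, 0 ≤ J α := fun α => JJ_nonneg' _ _ _ _
  have h1 : ∫ α in (0 : ℝ)..1, JJ riemannZeta (T + 1) (2 * T - 1) (μ * L * α) =
      1 / q * ∫ α in (0 : ℝ)..q, J α := by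
    have h2 := intervalIntegral.integral_comp_mul_left (a := 0) (b := 1) J hq0.ne'
    rw [mul_zero, mul_one, smul_eq_mul] at h2
    rw [one_div, ← h2]
    refine intervalIntegral.integral_congr fun α _ => ?_
    simp only [hJ]
    congr 1
    rw [hq]
    field_simp
  have h3 : (1 - q) * ∫ α in (0 : ℝ)..q, J α ≤ ∫ α in (0 : ℝ)..1, Rj 1 α * J α := by
    have hRc : Continuous (Rj 1) := by unfold Rj; fun_prop
    have h4 : (1 - q) * ∫ α in (0 : ℝ)..q, J α ≤ ∫ α in (0 : ℝ)..q, Rj 1 α * J α := by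
      rw [← intervalIntegral.integral_const_mul]
      refine intervalIntegral.integral_mono_on hq0.le
        ((continuous_const.mul hJc).intervalIntegrable _ _)
        ((hRc.mul hJc).intervalIntegrable _ _) fun α hα => ?_
      have h5 : 1 - q ≤ Rj 1 α := by
        unfold Rj
        rw [pow_one, abs_of_nonneg hα.1]
        exact le_max_of_le_right (by linarith [hα.2])
      exact mul_le_mul_of_nonneg_right h5 (hJ0 α)
    have h6 : 0 ≤ ∫ α in q..1, Rj 1 α * J α := by
      apply intervalIntegral.integral_nonneg hq1.le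
      intro α _
      exact mul_nonneg ((Rj_conv 1 le_rfl).nonneg α) (hJ0 α)
    have hi : ∀ a b : ℝ, IntervalIntegrable (fun α => Rj 1 α * J α) volume a b :=
      fun a b => (hRc.mul hJc).intervalIntegrable _ _
    rw [← intervalIntegral.integral_add_adjacent_intervals (hi 0 q) (hi q 1)]
    linarith
  have h5 := (abs_le.1 (hd T hT)).2
  have h6 : 2 / Real.sqrt Real.pi * ∫ α in (0 : ℝ)..1, Rj 1 α * J α ≤ C0 * Mm := by
    have h7 : PS (Rj 1) riemannZeta (T + 1) (2 * T - 1) (μ' * L) =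
      2 / Real.sqrt Real.pi * ∫ α in (0 : ℝ)..1, Rj 1 α * J α := rfl
    rw [← h7]
    have h8 : Mm * cR (Rj 1) μ' ≤ |cR (Rj 1) μ'| * Mm := by
      have := mul_le_mul_of_nonneg_left (le_abs_self (cR (Rj 1) μ')) hMm0
      linarith
    rw [hC0]
    linarith
  rw [h1]
  have h1q : 0 < 1 - q := by linarith
  have hsp : 0 < 2 / Real.sqrt Real.pi := by
    have := Real.sqrt_pos.2 Real.pi_pos
    positivity
  calc 2 / Real.sqrt Real.pi * (1 / q * ∫ α in (0 : ℝ)..q, J α) =
      1 / (q * (1 - q)) * (2 / Real.sqrt Real.pi * ((1 - q) * ∫ α in (0 : ℝ)..q, J α)) := by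
        field_simp
    _ ≤ 1 / (q * (1 - q)) * (2 / Real.sqrt Real.pi * ∫ α in (0 : ℝ)..1, Rj 1 α * J α) := by
        gcongr
    _ ≤ 1 / (q * (1 - q)) * (C0 * Mm) := by gcongr
    _ = _ := by ring

/-- approximation by combinations of powers of the tent -/
lemma tent_approx {ψ : ℝ → ℝ} (hψ : Continuous ψ) (hψ1 : ψ 1 = 0) {ε : ℝ} (hε : 0 < ε) :
    ∃ (n : ℕ) (b : ℕ → ℝ), ∀ α ∈ Set.Icc (0 : ℝ) 1,
      |ψ α - ∑ j ∈ Finset.Icc 1 n, b j * Rj j α| ≤ ε := by
  have hc : ContinuousOn (fun y : ℝ => ψ (1 - y)) (Set.Icc 0 1) :=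
    (hψ.comp (by fun_prop)).continuousOn
  obtain ⟨p, hp⟩ := exists_polynomial_near_of_continuousOn 0 1 _ hc (ε / 2) (by positivity)
  refine ⟨p.natDegree, fun j => p.coeff j, fun α hα => ?_⟩
  have h1 := hp (1 - α) ⟨by linarith [hα.2], by linarith [hα.1]⟩
  have h2 := hp 0 ⟨le_rfl, zero_le_one⟩
  simp only [sub_zero, sub_sub_cancel] at h1 h2
  rw [hψ1, sub_zero] at h2
  have h3 : ∑ j ∈ Finset.Icc 1 p.natDegree, p.coeff j * Rj j α =
      Polynomial.eval (1 - α) p - Polynomial.eval 0 p := by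
    have h4 : ∀ j, Rj j α = (1 - α) ^ j := by
      intro j
      unfold Rj
      rw [abs_of_nonneg hα.1, max_eq_right (by linarith [hα.2])]
    simp only [h4]
    rw [Polynomial.eval_eq_sum_range, Finset.range_eq_Ico, Finset.sum_eq_sum_Ico_succ_bot (by omega),
      ← Polynomial.coeff_zero_eq_eval_zero]
    have h5 : Finset.Ico (0 + 1) (p.natDegree + 1) = Finset.Icc 1 p.natDegree := by
      ext x
      simp only [Finset.mem_Ico, Finset.mem_Icc]
      omega
    rw [h5]
    ring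
  rw [h3]
  have e : ψ α - (Polynomial.eval (1 - α) p - Polynomial.eval 0 p) =
      -(Polynomial.eval (1 - α) p - ψ α) + Polynomial.eval 0 p := by ring
  rw [e]
  refine (abs_add_le _ _).trans ?_
  rw [abs_neg]
  linarith

/-- **asymptotics for a general kernel** -/
theorem asymK (hRH : RiemannHypothesis) {ψ : ℝ → ℝ} (hψ : Continuous ψ) (hψ1 : ψ 1 = 0)
    (μ η : ℝ) (hμ : 0 < μ) (hμ1 : μ < 1) (hη : 0 < η) :
    ∃ T0 : ℝ, 10 ≤ T0 ∧ ∀ T : ℝ, T0 ≤ T →
      |PS ψ riemannZeta (T + 1) (2 * T - 1) (μ * Real.log T) -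
        ((2 * T - 1 - (T + 1)) * Real.log T / (2 * Real.pi)) * cR ψ μ| ≤
      η * ((2 * T - 1 - (T + 1)) * Real.log T / (2 * Real.pi)) := by
  obtain ⟨C, T1, hC, hT1, hint⟩ := JJ_int_bound hRH μ hμ hμ1
  set ε : ℝ := η / (4 * (C + 1 / μ + 2 * μ)) with hε
  have hε0 : 0 < ε := by positivity
  have hεC : ε * (C + 1 / μ + 2 * μ) = η / 4 := by rw [hε]; field_simp
  obtain ⟨n, b, hb⟩ := tent_approx hψ hψ1 hε0
  set B0 : ℝ := ∑ j ∈ Finset.Icc 1 n, |b j| with hB0
  have hB00 : 0 ≤ B0 := Finset.sum_nonneg fun _ _ => abs_nonneg _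
  have hex : ∀ j ∈ Finset.Icc 1 n, ∃ T0 : ℝ, ∀ T : ℝ, T0 ≤ T →
      |PS (Rj j) riemannZeta (T + 1) (2 * T - 1) (μ * Real.log T) -
        ((2 * T - 1 - (T + 1)) * Real.log T / (2 * Real.pi)) * cR (Rj j) μ| ≤
      η / (4 * (B0 + 1)) * ((2 * T - 1 - (T + 1)) * Real.log T / (2 * Real.pi)) := by
    intro j hj
    rw [Finset.mem_Icc] at hj
    obtain ⟨T0, -, h⟩ := H321PC.det_pair hRH (Rj_conv j hj.1) μ (η / (4 * (B0 + 1))) hμ hμ1
      (by positivity)
    exact ⟨T0, h⟩
  choose! Ta hTa using hex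
  set Tm : ℝ := ∑ j ∈ Finset.Icc 1 n, |Ta j| with hTm
  have hTm' : ∀ j ∈ Finset.Icc 1 n, Ta j ≤ Tm := by
    intro j hj
    exact (le_abs_self _).trans (Finset.single_le_sum (f := fun j => |Ta j|)
      (fun j _ => abs_nonneg _) hj)
  refine ⟨max 10 (max T1 Tm), le_max_left _ _, fun T hT => ?_⟩
  have hT10 : 10 ≤ T := (le_max_left _ _).trans hT
  have hTT1 : T1 ≤ T := ((le_max_left _ _).trans (le_max_right _ _)).trans hT
  have hTTm : Tm ≤ T := ((le_max_right _ _).trans (le_max_right _ _)).trans hT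
  have hA : 1 ≤ T + 1 := by linarith
  have hL : 0 < Real.log T := Real.log_pos (by linarith)
  set L := Real.log T with hLd
  set X := (2 * T - 1 - (T + 1)) * L / (2 * Real.pi) with hX
  have hX0 : 0 ≤ X := by
    rw [hX]
    have : 0 ≤ 2 * T - 1 - (T + 1) := by linarith
    positivity
  set J : ℝ → ℝ := fun α => JJ riemannZeta (T + 1) (2 * T - 1) (μ * L * α) with hJ
  have hJc : Continuous J := JJ_cont' good_zeta hA _
  have hJ0 : ∀ α, 0 ≤ J α := fun α => JJ_nonneg' _ _ _ _
  have hRc : ∀ j, Continuous (Rj j) := fun j => by unfold Rj; fun_prop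
  have hsp : 0 < 2 / Real.sqrt Real.pi := by
    have := Real.sqrt_pos.2 Real.pi_pos
    positivity
  set χ : ℝ → ℝ := fun α => ∑ j ∈ Finset.Icc 1 n, b j * Rj j α with hχ
  have hχc : Continuous χ := by
    simp only [hχ]
    exact continuous_finsetSum _ fun j _ => continuous_const.mul (hRc j)
  -- first: psi against chi
  have s1 : |PS ψ riemannZeta (T + 1) (2 * T - 1) (μ * L) -
      PS χ riemannZeta (T + 1) (2 * T - 1) (μ * L)| ≤ ε * (C * X) := by
    have k1 : PS ψ riemannZeta (T + 1) (2 * T - 1) (μ * L) =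
        2 / Real.sqrt Real.pi * ∫ α in (0 : ℝ)..1, ψ α * J α := rfl
    have k2 : PS χ riemannZeta (T + 1) (2 * T - 1) (μ * L) =
        2 / Real.sqrt Real.pi * ∫ α in (0 : ℝ)..1, χ α * J α := rfl
    have i1 : IntervalIntegrable (fun α => ψ α * J α) volume 0 1 :=
      (hψ.mul hJc).intervalIntegrable _ _
    have i2 : IntervalIntegrable (fun α => χ α * J α) volume 0 1 :=
      (hχc.mul hJc).intervalIntegrable _ _
    rw [k1, k2, ← mul_sub, ← intervalIntegral.integral_sub i1 i2, abs_mul, abs_of_pos hsp]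
    have h2 : |∫ α in (0 : ℝ)..1, (ψ α * J α - χ α * J α)| ≤ ∫ α in (0 : ℝ)..1, ε * J α := by
      refine (intervalIntegral.abs_integral_le_integral_abs zero_le_one).trans ?_
      refine intervalIntegral.integral_mono_on zero_le_one
        (((hψ.mul hJc).sub (hχc.mul hJc)).abs.intervalIntegrable _ _)
        ((continuous_const.mul hJc).intervalIntegrable _ _) fun α hα => ?_
      rw [← sub_mul, abs_mul, abs_of_nonneg (hJ0 α)]
      exact mul_le_mul_of_nonneg_right (hb α hα) (hJ0 α)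
    rw [intervalIntegral.integral_const_mul] at h2
    have h3 := hint T hTT1
    calc 2 / Real.sqrt Real.pi * |∫ α in (0 : ℝ)..1, (ψ α * J α - χ α * J α)| ≤
        2 / Real.sqrt Real.pi * (ε * ∫ α in (0 : ℝ)..1, J α) := by gcongr
      _ = ε * (2 / Real.sqrt Real.pi * ∫ α in (0 : ℝ)..1, J α) := by ring
      _ ≤ ε * (C * X) := by gcongr
  -- second: chi
  have s2 : |PS χ riemannZeta (T + 1) (2 * T - 1) (μ * L) - X * cR χ μ| ≤ η / 4 * X := by
    have e1 : PS χ riemannZeta (T + 1) (2 * T - 1) (μ * L) =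
        ∑ j ∈ Finset.Icc 1 n, b j * PS (Rj j) riemannZeta (T + 1) (2 * T - 1) (μ * L) := by
      unfold PS
      have : ∫ α in (0 : ℝ)..1, χ α * JJ riemannZeta (T + 1) (2 * T - 1) (μ * L * α) =
          ∑ j ∈ Finset.Icc 1 n, b j * ∫ α in (0 : ℝ)..1, Rj j α *
            JJ riemannZeta (T + 1) (2 * T - 1) (μ * L * α) := by
        simp_rw [← intervalIntegral.integral_const_mul]
        rw [← intervalIntegral.integral_finsetSum]
        · refine intervalIntegral.integral_congr fun α _ => ?_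
          simp only [hχ]
          rw [Finset.sum_mul]
          refine Finset.sum_congr rfl fun j _ => by ring
        · intro j _
          exact (continuous_const.mul ((hRc j).mul hJc)).intervalIntegrable _ _
      rw [this, Finset.mul_sum]
      refine Finset.sum_congr rfl fun j _ => by ring
    have e2 : cR χ μ = ∑ j ∈ Finset.Icc 1 n, b j * cR (Rj j) μ := by
      unfold cR
      have : ∫ α in (0 : ℝ)..1, α * χ α =
          ∑ j ∈ Finset.Icc 1 n, b j * ∫ α in (0 : ℝ)..1, α * Rj j α := by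
        simp_rw [← intervalIntegral.integral_const_mul]
        rw [← intervalIntegral.integral_finsetSum]
        · refine intervalIntegral.integral_congr fun α _ => ?_
          simp only [hχ]
          rw [Finset.mul_sum]
          refine Finset.sum_congr rfl fun j _ => by ring
        · intro j _
          exact (continuous_const.mul (continuous_id.mul (hRc j))).intervalIntegrable _ _
      rw [this]
      simp only [hχ]
      rw [Finset.sum_div, Finset.mul_sum, ← Finset.sum_add_distrib]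
      refine Finset.sum_congr rfl fun j _ => by ring
    rw [e1, e2, Finset.mul_sum, ← Finset.sum_sub_distrib]
    refine (Finset.abs_sum_le_sum_abs _ _).trans ?_
    calc ∑ j ∈ Finset.Icc 1 n, |b j * PS (Rj j) riemannZeta (T + 1) (2 * T - 1) (μ * L) -
        X * (b j * cR (Rj j) μ)| ≤ ∑ j ∈ Finset.Icc 1 n, |b j| * (η / (4 * (B0 + 1)) * X) := by
          refine Finset.sum_le_sum fun j hj => ?_
          have h4 := hTa j hj T ((hTm' j hj).trans hTTm)
          rw [show b j * PS (Rj j) riemannZeta (T + 1) (2 * T - 1) (μ * L) -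
            X * (b j * cR (Rj j) μ) = b j * (PS (Rj j) riemannZeta (T + 1) (2 * T - 1) (μ * L) -
              X * cR (Rj j) μ) by ring, abs_mul]
          gcongr
      _ = B0 / (B0 + 1) * (η / 4 * X) := by
          rw [← Finset.sum_mul, ← hB0]
          field_simp
      _ ≤ 1 * (η / 4 * X) := by
          apply mul_le_mul_of_nonneg_right _ (by positivity)
          rw [div_le_one (by positivity)]
          linarith
      _ = _ := one_mul _
  -- third: the constants
  have s3 : |cR χ μ - cR ψ μ| ≤ ε * (1 / μ + 2 * μ) := by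
    unfold cR
    have h4 : |χ 0 - ψ 0| ≤ ε := by
      rw [abs_sub_comm]
      exact hb 0 ⟨le_rfl, zero_le_one⟩
    have h5 : |(∫ α in (0 : ℝ)..1, α * χ α) - ∫ α in (0 : ℝ)..1, α * ψ α| ≤ ε := by
      have i1 : IntervalIntegrable (fun α => α * χ α) volume 0 1 :=
        (continuous_id.mul hχc).intervalIntegrable _ _
      have i2 : IntervalIntegrable (fun α => α * ψ α) volume 0 1 :=
        (continuous_id.mul hψ).intervalIntegrable _ _
      rw [← intervalIntegral.integral_sub i1 i2]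
      have h6 := intervalIntegral.norm_integral_le_of_norm_le_const (a := 0) (b := 1)
        (f := fun α => α * χ α - α * ψ α) (C := ε) (fun α hα => by
          rw [Set.uIoc_of_le zero_le_one] at hα
          rw [← mul_sub, Real.norm_eq_abs, abs_mul, abs_of_pos hα.1, abs_sub_comm]
          have h7 := hb α ⟨hα.1.le, hα.2⟩
          calc α * |ψ α - χ α| ≤ 1 * ε := by
                apply mul_le_mul hα.2 h7 (abs_nonneg _) zero_le_one
            _ = ε := one_mul _)
      simpa using h6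
    have e : χ 0 / μ + 2 * μ * (∫ α in (0 : ℝ)..1, α * χ α) -
        (ψ 0 / μ + 2 * μ * ∫ α in (0 : ℝ)..1, α * ψ α) =
        (χ 0 - ψ 0) / μ + 2 * μ * ((∫ α in (0 : ℝ)..1, α * χ α) - ∫ α in (0 : ℝ)..1, α * ψ α) := by
      ring
    rw [e]
    refine (abs_add_le _ _).trans ?_
    rw [abs_div, abs_mul, abs_of_pos hμ, abs_of_pos (by positivity : (0 : ℝ) < 2 * μ)]
    calc |χ 0 - ψ 0| / μ + 2 * μ * |(∫ α in (0 : ℝ)..1, α * χ α) - ∫ α in (0 : ℝ)..1, α * ψ α| ≤
        ε / μ + 2 * μ * ε := by gcongr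
      _ = _ := by ring
  have s4 : |X * cR χ μ - X * cR ψ μ| ≤ X * (ε * (1 / μ + 2 * μ)) := by
    rw [← mul_sub, abs_mul, abs_of_nonneg hX0]
    gcongr
  have hfin : ε * (C * X) + X * (ε * (1 / μ + 2 * μ)) = η / 4 * X := by
    rw [← hεC]; ring
  obtain ⟨x1, x2⟩ := abs_le.1 s1
  obtain ⟨x3, x4⟩ := abs_le.1 s2
  obtain ⟨x5, x6⟩ := abs_le.1 s4
  have hηX : 0 ≤ η * X := by positivity
  rw [abs_le]
  constructor
  · linarith only [x1, x3, x5, hfin, hηX]
  · linarith only [x2, x4, x6, hfin, hηX]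

end TH803TW
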