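import Pool.Agent.TH803.TW.Asym

/-! Passage to the full dyadic interval. -/

open Complex Filter Topology Set MeasureTheory
open scoped BigOperators ComplexConjugate

namespace TH803TW

open H370 H370.A2 H370.AS H295SI

lemma sub_pair {S I : Finset ℂ} (hI : I ⊆ S) (f : ℂ → ℂ → ℝ) :
    (∑ s ∈ S, ∑ s' ∈ S, f s s') - ∑ s ∈ I, ∑ s' ∈ I, f s s' =
      ∑ s ∈ S \ I, ∑ s' ∈ S, f s s' + ∑ s ∈ I, ∑ s' ∈ S \ I, f s s' := by
  classical
  have h1 : ∀ g : ℂ → ℝ, ∑ s ∈ S, g s = ∑ s ∈ S \ I, g s + ∑ s ∈ I, g s := fun g =>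
    (Finset.sum_sdiff hI).symm
  rw [h1 (fun s => ∑ s' ∈ S, f s s')]
  have h2 : ∑ s ∈ I, ∑ s' ∈ S, f s s' = ∑ s ∈ I, ∑ s' ∈ S \ I, f s s' +
      ∑ s ∈ I, ∑ s' ∈ I, f s s' := by
    rw [← Finset.sum_add_distrib]
    exact Finset.sum_congr rfl fun s _ => h1 _
  rw [h2]
  ring

lemma PP1_mono {S I : Finset ℂ} (hI : I ⊆ S) {m x : ℂ → ℝ} (hm : ∀ s, 0 ≤ m s) (L : ℝ) :
    PP1 I m x L ≤ PP1 S m x L := by
  unfold PP1
  refine (Finset.sum_le_sum_of_subset_of_nonneg hI fun s _ _ => ?_).trans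
    (Finset.sum_le_sum fun s _ => Finset.sum_le_sum_of_subset_of_nonneg hI fun s' _ _ => ?_)
  · refine Finset.sum_nonneg fun s' _ => ?_
    have := hm s; have := hm s'
    split_ifs <;> positivity
  · have := hm s; have := hm s'
    split_ifs <;> positivity

lemma PP1_le_sq (S : Finset ℂ) {m x : ℂ → ℝ} (hm : ∀ s, 0 ≤ m s) (L : ℝ) :
    PP1 S m x L ≤ (∑ s ∈ S, m s) ^ 2 := by
  unfold PP1
  rw [_root_.sq, Finset.sum_mul_sum]
  refine Finset.sum_le_sum fun s _ => Finset.sum_le_sum fun s' _ => ?_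
  have := hm s; have := hm s'
  split_ifs
  · rw [mul_one]
  · rw [mul_zero]; positivity

/-- pair sums over the dyadic interval and the shortened one -/
theorem PU_dyadic {F : ℂ → ℂ} (hF : GoodL F) (hline : Line F) {ψ : ℝ → ℝ} {K : ℝ}
    (hdec : ∀ x, |rk ψ x| ≤ K / (1 + x ^ 2)) (W lam η : ℝ) (hW : 0 ≤ W) (hlam : 0 < lam)
    (hlam1 : lam ≤ 1) (hη : 0 < η) :
    ∃ T0 : ℝ, 10 ≤ T0 ∧ ∀ T : ℝ, T0 ≤ T → ∀ Λ : ℝ, lam * Real.log T ≤ Λ → ∀ w : ℝ → ℝ,
      (∀ t, |w t| ≤ W) →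
      |PU ψ F Λ T (2 * T) w - PU ψ F Λ (T + 1) (2 * T - 1) w| ≤ η * (T * Real.log T) := by
  classical
  have hK : 0 ≤ K := by
    have := (abs_nonneg _).trans (hdec 0)
    simpa using this
  obtain ⟨Cp, T1, hCp, hT1, hP⟩ := P_dyadic hF hline
  obtain ⟨C, hC0, hends⟩ := H965SI.countShort F hF
  set c : ℝ := 2 * K / lam ^ 2 * W with hc
  have hc0 : 0 ≤ c := by positivity
  set ρ : ℝ := 80 * (c + 1) * Cp / η with hρ
  have hρ0 : 0 < ρ := by positivity
  have ev := ev_log_pow (η / 80) ((c + 1) * ρ * C ^ 2) 1 2 (by positivity) (by positivity) one_pos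
  obtain ⟨T2, hT2⟩ := ev.exists_forall_of_atTop
  refine ⟨max 10 (max T1 T2), le_max_left _ _, fun T hT Λ hΛ w hw => ?_⟩
  have hT10 : 10 ≤ T := (le_max_left _ _).trans hT
  have hTT1 : T1 ≤ T := ((le_max_left _ _).trans (le_max_right _ _)).trans hT
  have e1 := hT2 T (((le_max_right _ _).trans (le_max_right _ _)).trans hT)
  rw [Real.rpow_one] at e1
  have hpos : 0 < T := by linarith
  set L := Real.log T with hL
  have hL1 : 1 ≤ L := by
    rw [hL, Real.le_log_iff_exp_le hpos]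
    linarith [Real.exp_one_lt_d9]
  have hL0 : 0 < L := by linarith
  have hsub := Zf_sub hF (A := T + 1) (B := 2 * T - 1) (A' := T) (B' := 2 * T) (by linarith)
    (by linarith) (by linarith)
  set S := Zf F T (2 * T) with hS
  set I := Zf F (T + 1) (2 * T - 1) with hI
  set m : ℂ → ℝ := fun s => (mult F s : ℝ) with hm
  have hm0 : ∀ s, 0 ≤ m s := fun s => Nat.cast_nonneg _
  set x : ℂ → ℝ := fun s => s.im with hx
  have hPS : PP1 S m x L ≤ Cp * (T * L) := hP T hTT1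
  have hPI : PP1 I m x L ≤ Cp * (T * L) := (PP1_mono hsub hm0 L).trans hPS
  have hPb : PP1 (S \ I) m x L ≤ (C * L) ^ 2 := by
    refine (PP1_le_sq _ hm0 L).trans ?_
    have h1 : ∑ s ∈ S \ I, m s = (NN F T (2 * T) : ℝ) - NN F (T + 1) (2 * T - 1) := by
      rw [NN_eq hF (by linarith), NN_eq hF (by linarith)]
      push_cast
      rw [eq_sub_iff_add_eq]
      exact Finset.sum_sdiff hsub
    have h2 := (hends T hT10 T (by linarith) le_rfl (T + 1) (2 * T - 1) (by linarith) le_rfl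
      (by linarith) (by linarith)).2
    rw [show T + T = 2 * T by ring] at h2
    have h3 : 0 ≤ ∑ s ∈ S \ I, m s := Finset.sum_nonneg fun s _ => hm0 s
    rw [h1] at h3 ⊢
    gcongr
    linarith
  -- pointwise bound
  have hpt : ∀ s s' : ℂ, |(mult F s : ℝ) * (mult F s' : ℝ) *
      (rk ψ (Λ * (s.im - s'.im)) * w s.im)| ≤
      c * (m s * m s' * (1 / (1 + |x s - x s'| * L) ^ ((3 : ℝ) / 2))) := by
    intro s s'
    rw [abs_mul, abs_of_nonneg (by positivity : (0 : ℝ) ≤ (mult F s : ℝ) * (mult F s' : ℝ)),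
      abs_mul]
    have h1 := dec_pt hdec hlam hlam1 hL0 hΛ (s.im - s'.im)
    have h2 := pow_cmp (y := |s.im - s'.im| * L) (by positivity)
    have h3 := hw s.im
    calc (mult F s : ℝ) * (mult F s' : ℝ) * (|rk ψ (Λ * (s.im - s'.im))| * |w s.im|) ≤
        (mult F s : ℝ) * (mult F s' : ℝ) * ((2 * K / lam ^ 2 *
          (1 / (1 + |s.im - s'.im| * L) ^ ((3 : ℝ) / 2))) * W) := by
          gcongr
          exact h1.trans (by gcongr)
      _ = _ := by rw [hc]; ring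
  have hsum : ∀ (S1 S2 : Finset ℂ) (μ : ℝ), 0 < μ → |∑ s ∈ S1, ∑ s' ∈ S2,
      (mult F s : ℝ) * (mult F s' : ℝ) * (rk ψ (Λ * (s.im - s'.im)) * w s.im)| ≤
      c * (20 * (μ * PP1 S1 m x L + 1 / μ * PP1 S2 m x L)) := by
    intro S1 S2 μ hμ
    refine (Finset.abs_sum_le_sum_abs _ _).trans ?_
    calc ∑ s ∈ S1, |∑ s' ∈ S2, (mult F s : ℝ) * (mult F s' : ℝ) *
        (rk ψ (Λ * (s.im - s'.im)) * w s.im)| ≤ ∑ s ∈ S1, ∑ s' ∈ S2,
        c * (m s * m s' * (1 / (1 + |x s - x s'| * L) ^ ((3 : ℝ) / 2))) := by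
          refine Finset.sum_le_sum fun s _ => ?_
          exact (Finset.abs_sum_le_sum_abs _ _).trans (Finset.sum_le_sum fun s' _ => hpt s s')
      _ = c * ∑ s ∈ S1, ∑ s' ∈ S2,
          m s * m s' * (1 / (1 + |x s - x s'| * L) ^ ((3 : ℝ) / 2)) := by
          rw [Finset.mul_sum]
          refine Finset.sum_congr rfl fun s _ => ?_
          rw [Finset.mul_sum]
      _ ≤ _ := by
          apply mul_le_mul_of_nonneg_left _ hc0
          exact cell_bound S1 S2 hm0 hL0 hμ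
  unfold PU
  rw [sub_pair hsub]
  refine (abs_add_le _ _).trans ?_
  have g1 := hsum (S \ I) S ρ hρ0
  have g2 := hsum I (S \ I) (1 / ρ) (by positivity)
  rw [one_div_one_div] at g2
  have g3 : c * (20 * (ρ * PP1 (S \ I) m x L + 1 / ρ * PP1 S m x L)) ≤
      c * (20 * (ρ * (C * L) ^ 2 + 1 / ρ * (Cp * (T * L)))) := by gcongr
  have g4 : c * (20 * (1 / ρ * PP1 I m x L + ρ * PP1 (S \ I) m x L)) ≤
      c * (20 * (1 / ρ * (Cp * (T * L)) + ρ * (C * L) ^ 2)) := by gcongr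
  have g5 : c * (40 * (ρ * (C * L) ^ 2)) ≤ η / 2 * (T * L) := by
    have h1 : (c + 1) * ρ * C ^ 2 * L ^ 2 ≤ (c + 1) * ρ * C ^ 2 * (1 + L) ^ 2 := by
      gcongr
      linarith
    have h2 : c * (ρ * (C * L) ^ 2) ≤ (c + 1) * ρ * C ^ 2 * L ^ 2 := by
      have : 0 ≤ ρ * (C * L) ^ 2 := by positivity
      nlinarith
    have h3 : η / 80 * T ≤ η / 80 * (T * L) := by
      have : 0 < η / 80 * T := by positivity
      nlinarith
    linarith
  have g6 : c * (40 * (1 / ρ * (Cp * (T * L)))) ≤ η / 2 * (T * L) := by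
    have h1 : 1 / ρ = η / (80 * (c + 1) * Cp) := by rw [hρ, one_div_div]
    rw [h1]
    have h2 : c * (40 * (η / (80 * (c + 1) * Cp) * (Cp * (T * L)))) =
        c / (c + 1) * (η / 2 * (T * L)) := by
      field_simp
      ring
    rw [h2]
    calc c / (c + 1) * (η / 2 * (T * L)) ≤ 1 * (η / 2 * (T * L)) := by
          apply mul_le_mul_of_nonneg_right _ (by positivity)
          rw [div_le_one (by positivity)]
          linarith
      _ = _ := one_mul _
  linarith only [g1, g2, g3, g4, g5, g6]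

/-- **the pair correlation sum over a dyadic interval against an almost periodic weight** -/
theorem pair_dyadic (hRH : RiemannHypothesis) (hline : Line riemannZeta) {ψ : ℝ → ℝ}
    (hψ : Continuous ψ) (hψe : ∀ α, ψ (-α) = ψ α) (hψ1 : ψ 1 = 0) {K : ℝ}
    (hdec : ∀ x, |rk ψ x| ≤ K / (1 + x ^ 2)) {φ : ℝ → ℝ} {M : ℝ} (hφ : APm φ M) (μ η : ℝ)
    (hμ : 0 < μ) (hμ1 : μ < 1) (hη : 0 < η) :
    ∃ T0 : ℝ, 10 ≤ T0 ∧ ∀ T : ℝ, T0 ≤ T →
      |PU ψ riemannZeta (μ * Real.log T) T (2 * T) φ -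
        (T * Real.log T / (2 * Real.pi)) * (M * cR ψ μ)| ≤ η * (T * Real.log T) := by
  obtain ⟨D, hD0, hD⟩ := hφ.bdd
  set ε : ℝ := (1 - μ) / 2 with hε
  have hε0 : 0 < ε := by rw [hε]; linarith
  obtain ⟨T1, hT1, h1⟩ := pairW good_zeta hline hψ hψe hdec hφ (1 - ε) ((1 - μ) / 4) μ (η / 8)
    (by linarith) (by rw [hε]; linarith) (by linarith) hμ hμ1.le (by positivity)
  obtain ⟨T2, hT2, h2⟩ := PU_dyadic good_zeta hline hdec D μ (η / 8) hD0.le hμ hμ1.le
    (by positivity)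
  obtain ⟨T3, hT3, h3⟩ := asymK hRH hψ hψ1 μ (η / (8 * (|M| + 1))) hμ hμ1 (by positivity)
  obtain ⟨T1', hT1', h1'⟩ := pairW good_zeta hline hψ hψe hdec hφ (1 - ε) ((1 - μ) / 4) μ
    (η / (8 * (|M| + 1))) (by linarith) (by rw [hε]; linarith) (by linarith) hμ hμ1.le
    (by positivity)
  have ev1 : ∀ᶠ T : ℝ in atTop, (2 : ℝ) ≤ T ^ ε :=
    (tendsto_rpow_atTop hε0).eventually_ge_atTop _
  have ev2 : ∀ᶠ T : ℝ in atTop, 8 * |M * cR ψ μ| / η + 3 ≤ T := eventually_ge_atTop _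
  obtain ⟨T4, hT4⟩ := (ev1.and ev2).exists_forall_of_atTop
  refine ⟨max (max T1 T2) (max (max T3 T1') T4), hT1.trans ((le_max_left _ _).trans
    (le_max_left _ _)), fun T hT => ?_⟩
  have hTT1 : T1 ≤ T := ((le_max_left _ _).trans (le_max_left _ _)).trans hT
  have hTT2 : T2 ≤ T := ((le_max_right _ _).trans (le_max_left _ _)).trans hT
  have hTT3 : T3 ≤ T := (((le_max_left _ _).trans (le_max_left _ _)).trans
    (le_max_right _ _)).trans hT
  have hTT1' : T1' ≤ T := (((le_max_right _ _).trans (le_max_left _ _)).trans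
    (le_max_right _ _)).trans hT
  obtain ⟨e1, e2⟩ := hT4 T (((le_max_right _ _).trans (le_max_right _ _)).trans hT)
  have hT10 : 10 ≤ T := hT1.trans hTT1
  have hpos : 0 < T := by linarith
  set L := Real.log T with hL
  have hL0 : 0 < L := Real.log_pos (by linarith)
  have hlen : T ^ (1 - ε) ≤ 2 * T - 1 - (T + 1) := by
    have h4 : T = T ^ (1 - ε) * T ^ ε := by
      rw [← Real.rpow_add hpos]; simp
    have h5 : 0 < T ^ (1 - ε) := Real.rpow_pos_of_pos hpos _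
    nlinarith
  have hΛ2 : μ * L ≤ (1 - ε - (1 - μ) / 4) * L := by
    apply mul_le_mul_of_nonneg_right _ hL0.le
    rw [hε]; linarith
  obtain ⟨a1, -⟩ := h1 T hTT1 (T + 1) (2 * T - 1) le_rfl le_rfl hlen (μ * L) le_rfl hΛ2
  obtain ⟨-, a2⟩ := h1' T hTT1' (T + 1) (2 * T - 1) le_rfl le_rfl hlen (μ * L) le_rfl hΛ2
  have a3 := h2 T hTT2 (μ * L) le_rfl φ hD
  have a4 := h3 T hTT3
  rw [← PG_PS good_zeta hline hψ hψe (by linarith : (1 : ℝ) ≤ T + 1)] at a4
  set X := (2 * T - 1 - (T + 1)) * L / (2 * Real.pi) with hX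
  set Y := T * L with hY
  have hY0 : 0 < Y := by positivity
  have hpi := Real.pi_gt_three
  have hXY : X = Y / (2 * Real.pi) - 2 * L / (2 * Real.pi) := by rw [hX, hY]; ring
  have hX1 : X ≤ Y := by
    rw [hX, div_le_iff₀ (by positivity), hY]
    have : 0 < T * L := by positivity
    nlinarith
  have hX0 : 0 ≤ X := by
    rw [hX]
    have : 0 ≤ 2 * T - 1 - (T + 1) := by linarith
    positivity
  have hBA : (2 * T - 1 - (T + 1)) * L ≤ Y := by rw [hY]; nlinarith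
  set P0 := PU ψ riemannZeta (μ * L) (T + 1) (2 * T - 1) (fun _ => 1) with hP0
  set G0 := PG ψ riemannZeta (μ * L) (T + 1) (2 * T - 1) (fun _ => 1) with hG0
  have b1 : |M * (P0 - G0)| ≤ η / 8 * Y := by
    rw [abs_mul, abs_sub_comm]
    calc |M| * |G0 - P0| ≤ |M| * (η / (8 * (|M| + 1)) * ((2 * T - 1 - (T + 1)) * L)) := by gcongr
      _ ≤ |M| * (η / (8 * (|M| + 1)) * Y) := by gcongr
      _ = |M| / (|M| + 1) * (η / 8 * Y) := by field_simp
      _ ≤ 1 * (η / 8 * Y) := by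
          apply mul_le_mul_of_nonneg_right _ (by positivity)
          rw [div_le_one (by positivity)]
          linarith
      _ = _ := one_mul _
  have b2 : |M * (G0 - X * cR ψ μ)| ≤ η / 8 * Y := by
    rw [abs_mul]
    calc |M| * |G0 - X * cR ψ μ| ≤ |M| * (η / (8 * (|M| + 1)) * X) := by gcongr
      _ ≤ |M| * (η / (8 * (|M| + 1)) * Y) := by gcongr
      _ = |M| / (|M| + 1) * (η / 8 * Y) := by field_simp
      _ ≤ 1 * (η / 8 * Y) := by
          apply mul_le_mul_of_nonneg_right _ (by positivity)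
          rw [div_le_one (by positivity)]
          linarith
      _ = _ := one_mul _
  have b3 : |X * (M * cR ψ μ) - Y / (2 * Real.pi) * (M * cR ψ μ)| ≤ η / 8 * Y := by
    rw [← sub_mul, hXY, show Y / (2 * Real.pi) - 2 * L / (2 * Real.pi) - Y / (2 * Real.pi) =
      -(L / Real.pi) by field_simp; ring, abs_mul, abs_neg, abs_of_pos (by positivity : 0 < L / Real.pi)]
    have h5 : L / Real.pi ≤ L := by
      rw [div_le_iff₀ (by positivity)]
      nlinarith
    have h6 : 8 * |M * cR ψ μ| ≤ η * T := by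
      have h7 : 8 * |M * cR ψ μ| / η ≤ T := by linarith
      rw [div_le_iff₀ hη] at h7
      linarith
    calc L / Real.pi * |M * cR ψ μ| ≤ L * |M * cR ψ μ| := by gcongr
      _ ≤ L * (η * T / 8) := by gcongr; linarith
      _ = η / 8 * Y := by rw [hY]; ring
  have a1' : |PU ψ riemannZeta (μ * L) (T + 1) (2 * T - 1) φ - M * P0| ≤ η / 8 * Y := by
    refine a1.trans ?_
    gcongr
  obtain ⟨x1, x2⟩ := abs_le.1 a1'
  obtain ⟨x3, x4⟩ := abs_le.1 a3
  obtain ⟨x5, x6⟩ := abs_le.1 b1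
  obtain ⟨x7, x8⟩ := abs_le.1 b2
  obtain ⟨x9, x10⟩ := abs_le.1 b3
  have hηY : 0 < η * Y := by positivity
  have e3 : M * (P0 - G0) = M * P0 - M * G0 := by ring
  have e4 : M * (G0 - X * cR ψ μ) = M * G0 - X * (M * cR ψ μ) := by ring
  rw [e3] at x5 x6
  rw [e4] at x7 x8
  rw [abs_le]
  constructor
  · linarith only [x1, x3, x5, x7, x9, hηY]
  · linarith only [x2, x4, x6, x8, x10, hηY]

end TH803TW
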