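import Mathlib

/-! A bound for pair sums with a decaying kernel by the number of close pairs. -/

open scoped BigOperators

namespace TH803TW

/-- number of pairs at distance at most `1 / L`, with weights -/
noncomputable def PP1 {ι : Type*} (S : Finset ι) (m x : ι → ℝ) (L : ℝ) : ℝ :=
  ∑ s ∈ S, ∑ s' ∈ S, m s * m s' * (if |x s - x s'| ≤ 1 / L then 1 else 0)

section

variable {ι : Type*} {m x : ι → ℝ}

lemma PP1_nonneg (S : Finset ι) (hm : ∀ s, 0 ≤ m s) (L : ℝ) : 0 ≤ PP1 S m x L := by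
  unfold PP1
  refine Finset.sum_nonneg fun s _ => Finset.sum_nonneg fun s' _ => ?_
  have h1 := hm s
  have h2 := hm s'
  split_ifs <;> positivity

/-- weight of a cell -/
noncomputable def cellw (S : Finset ι) (m x : ι → ℝ) (L : ℝ) (i : ℤ) : ℝ :=
  ∑ s ∈ S, if ⌊x s * L⌋ = i then m s else 0

lemma cellw_nonneg (S : Finset ι) (hm : ∀ s, 0 ≤ m s) (L : ℝ) (i : ℤ) : 0 ≤ cellw S m x L i := by
  unfold cellw
  refine Finset.sum_nonneg fun s _ => ?_
  split_ifs
  · exact hm s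
  · exact le_rfl

lemma cell_sq (S : Finset ι) (hm : ∀ s, 0 ≤ m s) {L : ℝ} (hL : 0 < L) (J : Finset ℤ) :
    ∑ i ∈ J, cellw S m x L i ^ 2 ≤ PP1 S m x L := by
  unfold cellw PP1
  have h1 : ∀ i : ℤ, (∑ s ∈ S, if ⌊x s * L⌋ = i then m s else 0) ^ 2 =
      ∑ s ∈ S, ∑ s' ∈ S, if ⌊x s * L⌋ = i ∧ ⌊x s' * L⌋ = i then m s * m s' else 0 := by
    intro i
    rw [sq, Finset.sum_mul_sum]
    refine Finset.sum_congr rfl fun s _ => Finset.sum_congr rfl fun s' _ => ?_
    by_cases h2 : ⌊x s * L⌋ = i <;> by_cases h3 : ⌊x s' * L⌋ = i <;> simp [h2, h3]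
  simp only [h1]
  rw [Finset.sum_comm]
  refine Finset.sum_le_sum fun s _ => ?_
  rw [Finset.sum_comm]
  refine Finset.sum_le_sum fun s' _ => ?_
  have hms := hm s
  have hms' := hm s'
  have h0 : ∑ i ∈ J, (if ⌊x s * L⌋ = i ∧ ⌊x s' * L⌋ = i then m s * m s' else 0) ≤
      if ⌊x s * L⌋ = ⌊x s' * L⌋ then m s * m s' else 0 := by
    calc ∑ i ∈ J, (if ⌊x s * L⌋ = i ∧ ⌊x s' * L⌋ = i then m s * m s' else 0) =
        ∑ i ∈ J, (if ⌊x s * L⌋ = i then (if ⌊x s * L⌋ = ⌊x s' * L⌋ then m s * m s' else 0) else 0) := by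
          refine Finset.sum_congr rfl fun i _ => ?_
          by_cases h2 : ⌊x s * L⌋ = i
          · by_cases h3 : ⌊x s' * L⌋ = i
            · simp [h2, h3]
            · simp [h2, h3, Ne.symm h3]
          · simp [h2]
      _ ≤ _ := by
          rw [Finset.sum_ite_eq]
          split_ifs <;> first | exact le_rfl | positivity
  refine h0.trans ?_
  by_cases h2 : ⌊x s * L⌋ = ⌊x s' * L⌋
  · rw [if_pos h2, if_pos, mul_one]
    have h3 := Int.abs_sub_lt_one_of_floor_eq_floor h2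
    rw [← sub_mul, abs_mul, abs_of_pos hL] at h3
    rw [le_div_iff₀ hL]
    exact h3.le
  · rw [if_neg h2]
    split_ifs <;> first | positivity | simp

/-- pairs in cells at distance `k` -/
lemma cell_shift (S1 S2 : Finset ι) (hm : ∀ s, 0 ≤ m s) {L : ℝ} (hL : 0 < L) (k : ℤ) {lam : ℝ}
    (hlam : 0 < lam) :
    ∑ s ∈ S1, ∑ s' ∈ S2, (if ⌊x s' * L⌋ - ⌊x s * L⌋ = k then m s * m s' else 0) ≤
      (lam * PP1 S1 m x L + 1 / lam * PP1 S2 m x L) / 2 := by
  classical
  set I := S1.image fun s => ⌊x s * L⌋ with hI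
  have h1 : ∑ s ∈ S1, ∑ s' ∈ S2, (if ⌊x s' * L⌋ - ⌊x s * L⌋ = k then m s * m s' else 0) =
      ∑ i ∈ I, cellw S1 m x L i * cellw S2 m x L (i + k) := by
    have h2 : ∀ s ∈ S1, ∑ s' ∈ S2, (if ⌊x s' * L⌋ - ⌊x s * L⌋ = k then m s * m s' else 0) =
        ∑ i ∈ I, (if ⌊x s * L⌋ = i then m s else 0) * cellw S2 m x L (i + k) := by
      intro s hs
      have h3 : ∑ i ∈ I, (if ⌊x s * L⌋ = i then m s else 0) * cellw S2 m x L (i + k) =
          m s * cellw S2 m x L (⌊x s * L⌋ + k) := by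
        rw [Finset.sum_eq_single ⌊x s * L⌋]
        · rw [if_pos rfl]
        · intro i _ hi
          rw [if_neg (Ne.symm hi), zero_mul]
        · intro h
          exact absurd (Finset.mem_image_of_mem _ hs) h
      rw [h3]
      unfold cellw
      rw [Finset.mul_sum]
      refine Finset.sum_congr rfl fun s' _ => ?_
      by_cases h4 : ⌊x s' * L⌋ - ⌊x s * L⌋ = k
      · rw [if_pos h4, if_pos (by omega)]
      · rw [if_neg h4, if_neg (by omega), mul_zero]
    rw [Finset.sum_congr rfl h2, Finset.sum_comm]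
    refine Finset.sum_congr rfl fun i _ => ?_
    unfold cellw
    rw [Finset.sum_mul]
  rw [h1]
  calc ∑ i ∈ I, cellw S1 m x L i * cellw S2 m x L (i + k) ≤
      ∑ i ∈ I, (lam * cellw S1 m x L i ^ 2 + 1 / lam * cellw S2 m x L (i + k) ^ 2) / 2 := by
        refine Finset.sum_le_sum fun i _ => ?_
        set a := cellw S1 m x L i
        set b := cellw S2 m x L (i + k)
        have h5 : 0 ≤ (lam * a - b) ^ 2 / (2 * lam) := by positivity
        have h6 : (lam * a - b) ^ 2 / (2 * lam) = (lam * a ^ 2 + 1 / lam * b ^ 2) / 2 - a * b := by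
          field_simp
          ring
        linarith
    _ = (lam * ∑ i ∈ I, cellw S1 m x L i ^ 2 +
        1 / lam * ∑ i ∈ I, cellw S2 m x L (i + k) ^ 2) / 2 := by
        rw [← Finset.sum_div, Finset.sum_add_distrib, ← Finset.mul_sum, ← Finset.mul_sum]
    _ ≤ _ := by
        have h7 := cell_sq (x := x) S1 hm hL I
        have h8 : ∑ i ∈ I, cellw S2 m x L (i + k) ^ 2 ≤ PP1 S2 m x L := by
          rw [← Finset.sum_image (f := fun j => cellw S2 m x L j ^ 2) (g := fun i => i + k)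
            (s := I) (fun a _ b _ h => by simpa using h)]
          exact cell_sq S2 hm hL _
        gcongr

lemma pow_sum (D : ℕ) : ∑ d ∈ Finset.range D, (1 : ℝ) / ((d : ℝ) + 1) ^ ((3 : ℝ) / 2) ≤ 3 := by
  -- telescoping with `3 - 2 / √n`
  have h1 : ∀ D : ℕ, 1 ≤ D → ∑ d ∈ Finset.range D, (1 : ℝ) / ((d : ℝ) + 1) ^ ((3 : ℝ) / 2) ≤
      3 - 2 / Real.sqrt D := by
    intro D hD
    induction D, hD using Nat.le_induction with
    | base => simp; norm_num
    | succ n hn ih =>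
      rw [Finset.sum_range_succ]
      have hn0 : (0 : ℝ) < n := by exact_mod_cast hn
      set a := Real.sqrt n with ha
      set b := Real.sqrt ((n : ℝ) + 1) with hb
      have ha0 : 0 < a := Real.sqrt_pos.2 hn0
      have hb0 : 0 < b := Real.sqrt_pos.2 (by linarith)
      have hab : a ≤ b := Real.sqrt_le_sqrt (by linarith)
      have ha2 : a ^ 2 = n := Real.sq_sqrt hn0.le
      have hb2 : b ^ 2 = n + 1 := Real.sq_sqrt (by linarith)
      have h3 : ((n : ℝ) + 1) ^ ((3 : ℝ) / 2) = b ^ 3 := by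
        rw [hb, Real.sqrt_eq_rpow, ← Real.rpow_natCast, ← Real.rpow_mul (by linarith)]
        norm_num
      rw [h3]
      push_cast
      rw [← hb]
      have h4 : 1 / b ^ 3 ≤ 2 / a - 2 / b := by
        have h5 : 2 / a - 2 / b = 2 * (b ^ 2 - a ^ 2) / (a * b * (a + b)) := by
          field_simp
          ring
        rw [h5, ha2, hb2, div_le_div_iff₀ (by positivity) (by positivity)]
        have h6 : a * b * (a + b) ≤ 2 * b ^ 3 := by
          nlinarith [mul_pos ha0 hb0, mul_nonneg (sub_nonneg.2 hab) hb0.le]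
        nlinarith
      linarith
  rcases Nat.eq_zero_or_pos D with rfl | hD
  · simp
  · refine (h1 D hD).trans ?_
    have : 0 ≤ 2 / Real.sqrt D := by positivity
    linarith

/-- **pair sums with a decaying kernel** -/
theorem cell_bound (S1 S2 : Finset ι) (hm : ∀ s, 0 ≤ m s) {L lam : ℝ} (hL : 0 < L)
    (hlam : 0 < lam) :
    ∑ s ∈ S1, ∑ s' ∈ S2, m s * m s' * (1 / (1 + |x s - x s'| * L) ^ ((3 : ℝ) / 2)) ≤
      20 * (lam * PP1 S1 m x L + 1 / lam * PP1 S2 m x L) := by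
  classical
  set Y := (lam * PP1 S1 m x L + 1 / lam * PP1 S2 m x L) / 2 with hY
  have hY0 : 0 ≤ Y := by
    have h1 := PP1_nonneg (x := x) S1 hm L
    have h2 := PP1_nonneg (x := x) S2 hm L
    positivity
  -- bound for the cell distances
  obtain ⟨D, hD⟩ : ∃ D : ℕ, ∀ s ∈ S1, ∀ s' ∈ S2, (⌊x s' * L⌋ - ⌊x s * L⌋).natAbs < D := by
    refine ⟨∑ s ∈ S1, ∑ s' ∈ S2, (⌊x s' * L⌋ - ⌊x s * L⌋).natAbs + 1, fun s hs s' hs' => ?_⟩
    have h1 : (⌊x s' * L⌋ - ⌊x s * L⌋).natAbs ≤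
        ∑ s' ∈ S2, (⌊x s' * L⌋ - ⌊x s * L⌋).natAbs :=
      Finset.single_le_sum (f := fun s' => (⌊x s' * L⌋ - ⌊x s * L⌋).natAbs)
        (fun _ _ => Nat.zero_le _) hs'
    have h2 : ∑ s' ∈ S2, (⌊x s' * L⌋ - ⌊x s * L⌋).natAbs ≤
        ∑ s ∈ S1, ∑ s' ∈ S2, (⌊x s' * L⌋ - ⌊x s * L⌋).natAbs :=
      Finset.single_le_sum (f := fun s => ∑ s' ∈ S2, (⌊x s' * L⌋ - ⌊x s * L⌋).natAbs)
        (fun _ _ => Nat.zero_le _) hs
    omega
  have hpt : ∀ s ∈ S1, ∀ s' ∈ S2,
      m s * m s' * (1 / (1 + |x s - x s'| * L) ^ ((3 : ℝ) / 2)) ≤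
      ∑ d ∈ Finset.range D, 3 * (1 / ((d : ℝ) + 1) ^ ((3 : ℝ) / 2)) *
        ((if ⌊x s' * L⌋ - ⌊x s * L⌋ = (d : ℤ) then m s * m s' else 0) +
        (if ⌊x s' * L⌋ - ⌊x s * L⌋ = -(d : ℤ) then m s * m s' else 0)) := by
    intro s hs s' hs'
    have hms := hm s
    have hms' := hm s'
    set k := ⌊x s' * L⌋ - ⌊x s * L⌋ with hk
    have hkD := hD s hs s' hs'
    rw [← hk] at hkD
    -- the distance is at least `|k| - 1`
    have hdist : (k.natAbs : ℝ) ≤ |x s - x s'| * L + 1 := by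
      have e1 : |x s - x s'| * L = |x s' * L - x s * L| := by
        rw [← sub_mul, abs_mul, abs_of_pos hL, abs_sub_comm]
      have f1 := Int.floor_le (x s' * L)
      have f2 := Int.lt_floor_add_one (x s' * L)
      have f3 := Int.floor_le (x s * L)
      have f4 := Int.lt_floor_add_one (x s * L)
      have e2 : (k : ℝ) = (⌊x s' * L⌋ : ℝ) - ⌊x s * L⌋ := by rw [hk]; push_cast; ring
      have e3 : ((k.natAbs : ℕ) : ℝ) = |(k : ℝ)| := by
        rw [Nat.cast_natAbs, Int.cast_abs]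
      rw [e1, e3, e2, abs_le]
      constructor
      · have := neg_abs_le (x s' * L - x s * L)
        linarith
      · have := le_abs_self (x s' * L - x s * L)
        linarith
    have hd0 : 0 ≤ |x s - x s'| * L := by positivity
    have hcmp : 1 / (1 + |x s - x s'| * L) ^ ((3 : ℝ) / 2) ≤
        3 * (1 / ((k.natAbs : ℝ) + 1) ^ ((3 : ℝ) / 2)) := by
      have g1 : ((k.natAbs : ℝ) + 1) ^ ((3 : ℝ) / 2) ≤
          (2 * (1 + |x s - x s'| * L)) ^ ((3 : ℝ) / 2) :=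
        Real.rpow_le_rpow (by positivity) (by linarith) (by norm_num)
      rw [Real.mul_rpow (by norm_num) (by positivity)] at g1
      have g2 : (2 : ℝ) ^ ((3 : ℝ) / 2) ≤ 3 := by
        have g3 : (2 : ℝ) ^ ((3 : ℝ) / 2) = Real.sqrt 8 := by
          rw [Real.sqrt_eq_rpow, show (8 : ℝ) = 2 ^ (3 : ℝ) by norm_num, ← Real.rpow_mul (by norm_num)]
          norm_num
        rw [g3, Real.sqrt_le_left (by norm_num)]
        norm_num
      have g4 : 0 < (1 + |x s - x s'| * L) ^ ((3 : ℝ) / 2) := Real.rpow_pos_of_pos (by linarith) _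
      have g5 : 0 < ((k.natAbs : ℝ) + 1) ^ ((3 : ℝ) / 2) := Real.rpow_pos_of_pos (by positivity) _
      rw [mul_one_div, div_le_div_iff₀ g4 g5, one_mul]
      calc ((k.natAbs : ℝ) + 1) ^ ((3 : ℝ) / 2) ≤ 2 ^ ((3 : ℝ) / 2) *
          (1 + |x s - x s'| * L) ^ ((3 : ℝ) / 2) := g1
        _ ≤ 3 * (1 + |x s - x s'| * L) ^ ((3 : ℝ) / 2) := by gcongr
    calc m s * m s' * (1 / (1 + |x s - x s'| * L) ^ ((3 : ℝ) / 2)) ≤
        m s * m s' * (3 * (1 / ((k.natAbs : ℝ) + 1) ^ ((3 : ℝ) / 2))) := by gcongr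
      _ = 3 * (1 / ((k.natAbs : ℝ) + 1) ^ ((3 : ℝ) / 2)) * (m s * m s') := by ring
      _ ≤ 3 * (1 / ((k.natAbs : ℝ) + 1) ^ ((3 : ℝ) / 2)) *
        ((if k = (k.natAbs : ℤ) then m s * m s' else 0) +
          (if k = -(k.natAbs : ℤ) then m s * m s' else 0)) := by
          apply mul_le_mul_of_nonneg_left _ (by positivity)
          have hmm : 0 ≤ m s * m s' := by positivity
          rcases Int.natAbs_eq k with h | h
          · rw [if_pos h]
            split_ifs <;> linarith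
          · rw [if_pos h]
            split_ifs <;> linarith
      _ ≤ _ := by
          refine Finset.single_le_sum (f := fun d : ℕ => 3 * (1 / ((d : ℝ) + 1) ^ ((3 : ℝ) / 2)) *
            ((if k = (d : ℤ) then m s * m s' else 0) + (if k = -(d : ℤ) then m s * m s' else 0)))
            (fun d _ => ?_) (Finset.mem_range.2 hkD)
          have hmm : 0 ≤ m s * m s' := by positivity
          have h9 : (0 : ℝ) ≤ 3 * (1 / ((d : ℝ) + 1) ^ ((3 : ℝ) / 2)) := by positivity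
          apply mul_nonneg h9
          split_ifs <;> linarith
  calc ∑ s ∈ S1, ∑ s' ∈ S2, m s * m s' * (1 / (1 + |x s - x s'| * L) ^ ((3 : ℝ) / 2)) ≤
      ∑ s ∈ S1, ∑ s' ∈ S2, ∑ d ∈ Finset.range D, 3 * (1 / ((d : ℝ) + 1) ^ ((3 : ℝ) / 2)) *
        ((if ⌊x s' * L⌋ - ⌊x s * L⌋ = (d : ℤ) then m s * m s' else 0) +
        (if ⌊x s' * L⌋ - ⌊x s * L⌋ = -(d : ℤ) then m s * m s' else 0)) :=
        Finset.sum_le_sum fun s hs => Finset.sum_le_sum fun s' hs' => hpt s hs s' hs'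
    _ = ∑ d ∈ Finset.range D, 3 * (1 / ((d : ℝ) + 1) ^ ((3 : ℝ) / 2)) *
        ((∑ s ∈ S1, ∑ s' ∈ S2, if ⌊x s' * L⌋ - ⌊x s * L⌋ = (d : ℤ) then m s * m s' else 0) +
        (∑ s ∈ S1, ∑ s' ∈ S2, if ⌊x s' * L⌋ - ⌊x s * L⌋ = -(d : ℤ) then m s * m s' else 0)) := by
        simp_rw [Finset.sum_comm (s := S2) (t := Finset.range D)]
        rw [Finset.sum_comm]
        refine Finset.sum_congr rfl fun d _ => ?_
        simp_rw [← Finset.mul_sum, Finset.sum_add_distrib]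
    _ ≤ ∑ d ∈ Finset.range D, 3 * (1 / ((d : ℝ) + 1) ^ ((3 : ℝ) / 2)) * (Y + Y) := by
        refine Finset.sum_le_sum fun d _ => ?_
        have h1 := cell_shift (x := x) S1 S2 hm hL (d : ℤ) hlam
        have h2 := cell_shift (x := x) S1 S2 hm hL (-(d : ℤ)) hlam
        gcongr
    _ = (∑ d ∈ Finset.range D, (1 : ℝ) / ((d : ℝ) + 1) ^ ((3 : ℝ) / 2)) * (6 * Y) := by
        rw [Finset.sum_mul]
        refine Finset.sum_congr rfl fun d _ => by ring
    _ ≤ 3 * (6 * Y) := by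
        have := pow_sum D
        gcongr
    _ ≤ _ := by
        rw [hY]
        have h1 := PP1_nonneg (x := x) S1 hm L
        have h2 := PP1_nonneg (x := x) S2 hm L
        have h3 : 0 ≤ lam * PP1 S1 m x L + 1 / lam * PP1 S2 m x L := by positivity
        linarith

end

end TH803TW
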