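import Pool.Agent.TH803.TW.Dec

/-! Close pairs with an almost periodic weight. -/

open Complex Filter Topology Set MeasureTheory
open scoped BigOperators ComplexConjugate

namespace TH803TW

open H370 H370.A2 H370.A3 H295SI

/-! ### positivity -/

lemma gauss_two (x y : ℝ) : ∫ t : ℝ, Real.exp (-(t - x) ^ 2 / 2) * Real.exp (-(t - y) ^ 2 / 2) =
    Real.sqrt Real.pi * Real.exp (-(x - y) ^ 2 / 4) := by
  have h1 : ∀ t : ℝ, Real.exp (-(t - x) ^ 2 / 2) * Real.exp (-(t - y) ^ 2 / 2) =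
      Real.exp (-(x - y) ^ 2 / 4) * Real.exp (-1 * (t - (x + y) / 2) ^ 2) := by
    intro t
    rw [← Real.exp_add, ← Real.exp_add]
    congr 1
    ring
  simp_rw [h1]
  rw [integral_const_mul, integral_sub_right_eq_self (fun t : ℝ => Real.exp (-1 * t ^ 2)),
    integral_gaussian]
  rw [div_one]
  ring

lemma gauss_int (x y : ℝ) : Integrable fun t : ℝ =>
    Real.exp (-(t - x) ^ 2 / 2) * Real.exp (-(t - y) ^ 2 / 2) := by
  have h1 : ∀ t : ℝ, Real.exp (-(t - x) ^ 2 / 2) * Real.exp (-(t - y) ^ 2 / 2) =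
      Real.exp (-(x - y) ^ 2 / 4) * Real.exp (-1 * (t - (x + y) / 2) ^ 2) := by
    intro t
    rw [← Real.exp_add, ← Real.exp_add]
    congr 1
    ring
  simp_rw [h1]
  exact ((integrable_exp_neg_mul_sq one_pos).comp_sub_right ((x + y) / 2)).const_mul _

lemma gauss_psd (S : Finset ℂ) (a x : ℂ → ℝ) :
    0 ≤ ∑ s ∈ S, ∑ s' ∈ S, a s * a s' * Real.exp (-(x s - x s') ^ 2 / 4) := by
  have hsq : 0 < Real.sqrt Real.pi := Real.sqrt_pos.2 Real.pi_pos
  have h1 : Real.sqrt Real.pi * ∑ s ∈ S, ∑ s' ∈ S, a s * a s' * Real.exp (-(x s - x s') ^ 2 / 4) =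
      ∫ t : ℝ, (∑ s ∈ S, a s * Real.exp (-(t - x s) ^ 2 / 2)) ^ 2 := by
    have h2 : ∀ t : ℝ, (∑ s ∈ S, a s * Real.exp (-(t - x s) ^ 2 / 2)) ^ 2 =
        ∑ s ∈ S, ∑ s' ∈ S, a s * a s' *
          (Real.exp (-(t - x s) ^ 2 / 2) * Real.exp (-(t - x s') ^ 2 / 2)) := by
      intro t
      rw [_root_.sq, Finset.sum_mul_sum]
      refine Finset.sum_congr rfl fun s _ => Finset.sum_congr rfl fun s' _ => ?_
      ring
    simp_rw [h2]
    rw [integral_finsetSum _ fun s _ => integrable_finsetSum _ fun s' _ =>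
      (gauss_int _ _).const_mul _, Finset.mul_sum]
    refine Finset.sum_congr rfl fun s _ => ?_
    rw [integral_finsetSum _ fun s' _ => (gauss_int _ _).const_mul _, Finset.mul_sum]
    refine Finset.sum_congr rfl fun s' _ => ?_
    rw [integral_const_mul, gauss_two]
    ring
  have h3 : 0 ≤ ∫ t : ℝ, (∑ s ∈ S, a s * Real.exp (-(t - x s) ^ 2 / 2)) ^ 2 :=
    integral_nonneg fun t => by positivity
  rw [← h1] at h3
  exact nonneg_of_mul_nonneg_right h3 hsq

/-- the weighted form factor -/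
noncomputable def SGw (g : ℝ → ℝ) (F : ℂ → ℂ) (A B v : ℝ) : ℝ :=
  ∑ s ∈ Zf F A B, ∑ s' ∈ Zf F A B, (mult F s : ℝ) * (mult F s' : ℝ) *
    (Real.cos (v * (s.im - s'.im)) * (Real.exp (-(s.im - s'.im) ^ 2 / 4) * (g s.im * g s'.im)))

lemma SGw_nonneg (g : ℝ → ℝ) (F : ℂ → ℂ) (A B v : ℝ) : 0 ≤ SGw g F A B v := by
  have h1 := gauss_psd (Zf F A B) (fun s => (mult F s : ℝ) * g s.im * Real.cos (v * s.im))
    (fun s => s.im)
  have h2 := gauss_psd (Zf F A B) (fun s => (mult F s : ℝ) * g s.im * Real.sin (v * s.im))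
    (fun s => s.im)
  refine (add_nonneg h1 h2).trans_eq ?_
  unfold SGw
  rw [← Finset.sum_add_distrib]
  refine Finset.sum_congr rfl fun s _ => ?_
  rw [← Finset.sum_add_distrib]
  refine Finset.sum_congr rfl fun s' _ => ?_
  rw [mul_sub v, Real.cos_sub]
  ring

lemma SGw_cont (g : ℝ → ℝ) (F : ℂ → ℂ) (A B : ℝ) : Continuous fun v => SGw g F A B v := by
  unfold SGw
  fun_prop

/-- pair sum with Gaussian damping and weight `g(γ) g(γ')` -/
noncomputable def PGG (ψ g : ℝ → ℝ) (F : ℂ → ℂ) (Λ A B : ℝ) : ℝ :=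
  ∑ s ∈ Zf F A B, ∑ s' ∈ Zf F A B, (mult F s : ℝ) * (mult F s' : ℝ) *
    (rk ψ (Λ * (s.im - s'.im)) * (Real.exp (-(s.im - s'.im) ^ 2 / 4) * (g s.im * g s'.im)))

lemma PGG_int {ψ : ℝ → ℝ} (hψ : Continuous ψ) (g : ℝ → ℝ) (F : ℂ → ℂ) (Λ A B : ℝ) :
    ∫ α in (-1 : ℝ)..1, ψ α * SGw g F A B (Λ * α) = PGG ψ g F Λ A B := by
  have h1 : ∀ α : ℝ, ψ α * SGw g F A B (Λ * α) = ∑ s ∈ Zf F A B, ∑ s' ∈ Zf F A B,
      (mult F s : ℝ) * (mult F s' : ℝ) *
        (Real.exp (-(s.im - s'.im) ^ 2 / 4) * (g s.im * g s'.im)) *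
        (ψ α * Real.cos (Λ * (s.im - s'.im) * α)) := by
    intro α
    unfold SGw
    rw [Finset.mul_sum]
    refine Finset.sum_congr rfl fun s _ => ?_
    rw [Finset.mul_sum]
    refine Finset.sum_congr rfl fun s' _ => ?_
    have : Λ * α * (s.im - s'.im) = Λ * (s.im - s'.im) * α := by ring
    rw [this]
    ring
  simp_rw [h1]
  have hc : ∀ s s' : ℂ, Continuous fun α : ℝ => (mult F s : ℝ) * (mult F s' : ℝ) *
      (Real.exp (-(s.im - s'.im) ^ 2 / 4) * (g s.im * g s'.im)) *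
      (ψ α * Real.cos (Λ * (s.im - s'.im) * α)) := fun s s' => by fun_prop
  rw [intervalIntegral.integral_finsetSum fun s _ =>
    (continuous_finsetSum _ fun s' _ => hc s s').intervalIntegrable _ _]
  unfold PGG
  refine Finset.sum_congr rfl fun s _ => ?_
  rw [intervalIntegral.integral_finsetSum fun s' _ => (hc s s').intervalIntegrable _ _]
  refine Finset.sum_congr rfl fun s' _ => ?_
  rw [intervalIntegral.integral_const_mul]
  unfold rk
  ring

/-! ### rescaled test functions -/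

/-- the rescaled function -/
noncomputable def scal (R : ℝ → ℝ) (κ α : ℝ) : ℝ := κ * R (κ * α)

lemma ph_cont {β a b : ℝ} (hβ : 0 < β) (hab : a < b) : Continuous (ph β a b) := by
  have hba : 0 < b - a := by linarith
  have hK : 0 ≤ 2 * β ^ 2 + β / (b - a) := by positivity
  have : LipschitzWith (2 * β ^ 2 + β / (b - a)).toNNReal (ph β a b) := by
    refine LipschitzWith.of_dist_le_mul fun x y => ?_
    rw [Real.dist_eq, Real.dist_eq, Real.coe_toNNReal _ hK]
    exact ph_lip hβ.le hab x y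
  exact this.continuous

lemma rk_scal {R : ℝ → ℝ} {κ : ℝ} (hc : Continuous R) (hs : ∀ α, κ ≤ |α| → R α = 0) (h0 : 0 < κ)
    (h1 : κ ≤ 1) (y : ℝ) :
    rk (scal R κ) y = ∫ α in (-1 : ℝ)..1, R α * Real.cos (2 * Real.pi * (y / (2 * Real.pi * κ)) * α)
      := by
  unfold rk scal
  have hpi := Real.pi_pos
  have hc : Continuous fun α : ℝ => R α * Real.cos (y / κ * α) := hc.mul (by fun_prop)
  have e1 : ∫ α in (-1 : ℝ)..1, R α * Real.cos (2 * Real.pi * (y / (2 * Real.pi * κ)) * α) =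
      ∫ α in (-1 : ℝ)..1, R α * Real.cos (y / κ * α) := by
    refine intervalIntegral.integral_congr fun α _ => ?_
    show R α * Real.cos (2 * Real.pi * (y / (2 * Real.pi * κ)) * α) = R α * Real.cos (y / κ * α)
    congr 2
    field_simp
  rw [e1]
  have e2 : ∫ α in (-1 : ℝ)..1, κ * R (κ * α) * Real.cos (y * α) =
      ∫ α in (-κ)..κ, R α * Real.cos (y / κ * α) := by
    have h2 := intervalIntegral.mul_integral_comp_mul_left (a := -1) (b := 1) (c := κ)
      (f := fun α : ℝ => R α * Real.cos (y / κ * α))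
    rw [mul_neg, mul_one] at h2
    rw [← h2, ← intervalIntegral.integral_const_mul]
    refine intervalIntegral.integral_congr fun α _ => ?_
    show κ * R (κ * α) * Real.cos (y * α) = κ * (R (κ * α) * Real.cos (y / κ * (κ * α)))
    have : y / κ * (κ * α) = y * α := by field_simp
    rw [this, mul_assoc]
  rw [e2]
  have hz : ∀ a b : ℝ, (∀ x ∈ Set.uIcc a b, κ ≤ |x|) →
      ∫ α in a..b, R α * Real.cos (y / κ * α) = 0 := by
    intro a b hab
    rw [intervalIntegral.integral_congr (g := fun _ => (0 : ℝ))]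
    · simp
    · intro x hx
      show R x * _ = 0
      rw [hs x (hab x hx), zero_mul]
  rw [← intervalIntegral.integral_add_adjacent_intervals (a := -1) (b := -κ) (c := 1)
    (hc.intervalIntegrable _ _) (hc.intervalIntegrable _ _),
    ← intervalIntegral.integral_add_adjacent_intervals (a := -κ) (b := κ) (c := 1)
    (hc.intervalIntegrable _ _) (hc.intervalIntegrable _ _), hz (-1) (-κ) (fun x hx => by
      rw [Set.uIcc_of_le (by linarith)] at hx
      rw [abs_of_nonpos (by linarith [hx.2])]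
      linarith [hx.2]), hz κ 1 (fun x hx => by
      rw [Set.uIcc_of_le h1] at hx
      exact hx.1.trans (le_abs_self x))]
  ring

lemma scal_dec {R : ℝ → ℝ} {κ : ℝ} (hc : Continuous R) (hs : ∀ α, κ ≤ |α| → R α = 0) (h0 : 0 < κ)
    (h1 : κ ≤ 1) (hd : ∃ K : ℝ, ∀ x, |∫ α in (-1 : ℝ)..1, R α * Real.cos (2 * Real.pi * x * α)| ≤
      K / (1 + x ^ 2)) :
    ∃ K : ℝ, ∀ x : ℝ, |rk (scal R κ) x| ≤ K / (1 + x ^ 2) := by
  obtain ⟨K, hK⟩ := hd
  have hpi := Real.pi_gt_three
  have hK0 : 0 ≤ K := by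
    have := (abs_nonneg _).trans (hK 0)
    simpa using this
  refine ⟨K * (1 + (2 * Real.pi) ^ 2), fun x => ?_⟩
  rw [rk_scal hc hs h0 h1]
  refine (hK _).trans ?_
  rw [div_le_div_iff₀ (by positivity) (by positivity), mul_assoc]
  apply mul_le_mul_of_nonneg_left _ hK0
  set z := x / (2 * Real.pi * κ) with hz
  have hx : x = z * (2 * Real.pi * κ) := by rw [hz]; field_simp
  have h2 : x ^ 2 ≤ z ^ 2 * (2 * Real.pi) ^ 2 := by
    rw [hx]
    have h3 : κ ^ 2 ≤ 1 := by nlinarith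
    have h4 : (z * (2 * Real.pi * κ)) ^ 2 = z ^ 2 * (2 * Real.pi) ^ 2 * κ ^ 2 := by ring
    rw [h4]
    have h5 : 0 ≤ z ^ 2 * (2 * Real.pi) ^ 2 := by positivity
    nlinarith
  nlinarith [sq_nonneg z, sq_nonneg (2 * Real.pi)]

lemma cR_scal {R : ℝ → ℝ} {κ : ℝ} (hc : Continuous R) (hs : ∀ α, κ ≤ |α| → R α = 0) (h0 : 0 < κ)
    (h1 : κ ≤ 1) : cR (scal R κ) κ = R 0 + 2 * ∫ α in (0 : ℝ)..κ, α * R α := by
  unfold cR scal
  have hc : Continuous fun α : ℝ => α * R α := continuous_id.mul hc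
  have h2 := intervalIntegral.mul_integral_comp_mul_left (a := 0) (b := 1) (c := κ)
    (f := fun α : ℝ => α * R α)
  rw [mul_zero, mul_one] at h2
  have h3 : ∫ α in (0 : ℝ)..1, α * (κ * R (κ * α)) =
      ∫ α in (0 : ℝ)..1, (κ * α) * R (κ * α) :=
    intervalIntegral.integral_congr fun α _ => by
      show α * (κ * R (κ * α)) = κ * α * R (κ * α)
      ring
  rw [h3, ← h2, mul_zero]
  field_simp

/-- the main term of the truncated Selberg kernel -/
lemma cR_ph {β a b : ℝ} (hβ : 0 < β) (hβ1 : β ≤ 1) (ha : 0 < a) (hab : a < b) (hb : b ≤ 1) :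
    gg β a ≤ cR (scal (ph β a b) b) b := by
  have hc := ph_cont hβ hab
  have hs : ∀ α, b ≤ |α| → ph β a b α = 0 := fun α hα => by
    unfold ph; rw [cut_zero hab hα, mul_zero]
  rw [cR_scal hc hs (by linarith) hb]
  have h1 := main_ge hβ hβ1 ha hab hb
  have h2 : ∫ α in (-b)..b, |α| * ph β a b α = 2 * ∫ α in (0 : ℝ)..b, α * ph β a b α := by
    have hcc : Continuous fun α : ℝ => |α| * ph β a b α := continuous_abs.mul hc
    rw [int_sym _ hcc, ← intervalIntegral.integral_const_mul]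
    refine intervalIntegral.integral_congr fun α hα => ?_
    rw [Set.uIcc_of_le (by linarith)] at hα
    show |α| * ph β a b α + |(-α)| * ph β a b (-α) = 2 * (α * ph β a b α)
    have hp : ph β a b (-α) = ph β a b α := by unfold ph ps cut; rw [abs_neg]
    rw [abs_neg, hp, abs_of_nonneg hα.1]
    ring
  rw [h2] at h1
  exact h1

/-- truncation of the Selberg kernel, using positivity -/
lemma trunc_le {β a b : ℝ} (hβ : 0 < β) (hβ1 : β ≤ 1) (ha : 0 < a) (hab : a < b) (hb : b ≤ 1)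
    (g : ℝ → ℝ) (F : ℂ → ℂ) (L A B : ℝ) :
    PGG (scal (ph β a b) b) g F (b * L) A B ≤ PGG (ps 1) g F (L / β) A B := by
  have hb0 : 0 < b := by linarith
  have hphc := ph_cont hβ hab
  have hscc : Continuous (scal (ph β a b) b) := by
    unfold scal
    exact continuous_const.mul (hphc.comp (by fun_prop))
  rw [← PGG_int hscc, ← PGG_int (ps_cont 1)]
  have hSc := SGw_cont g F A B
  -- first integral
  have h1 : ∫ α in (-1 : ℝ)..1, scal (ph β a b) b α * SGw g F A B (b * L * α) =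
      ∫ α in (-b)..b, ph β a b α * SGw g F A B (L * α) := by
    have h2 := intervalIntegral.mul_integral_comp_mul_left (a := -1) (b := 1) (c := b)
      (f := fun α : ℝ => ph β a b α * SGw g F A B (L * α))
    rw [mul_neg, mul_one] at h2
    rw [← h2, ← intervalIntegral.integral_const_mul]
    refine intervalIntegral.integral_congr fun α _ => ?_
    show b * ph β a b (b * α) * SGw g F A B (b * L * α) =
      b * (ph β a b (b * α) * SGw g F A B (L * (b * α)))
    have : b * L * α = L * (b * α) := by ring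
    rw [this, mul_assoc]
  have h3 : ∫ α in (-b)..b, ph β a b α * SGw g F A B (L * α) ≤
      ∫ α in (-b)..b, ps β α * SGw g F A B (L * α) := by
    refine intervalIntegral.integral_mono_on (by linarith)
      ((hphc.mul (hSc.comp (by fun_prop))).intervalIntegrable _ _)
      (((ps_cont β).mul (hSc.comp (by fun_prop))).intervalIntegrable _ _) fun α _ => ?_
    apply mul_le_mul_of_nonneg_right _ (SGw_nonneg _ _ _ _ _)
    unfold ph
    exact mul_le_of_le_one_right (ps_nonneg hβ.le α) (cut_le a b α)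
  have h4 : ∫ α in (-b)..b, ps β α * SGw g F A B (L * α) ≤
      ∫ α in (-(1 / β))..(1 / β), ps β α * SGw g F A B (L * α) := by
    have hb1 : b ≤ 1 / β := by rw [le_div_iff₀ hβ]; nlinarith
    refine intervalIntegral.integral_mono_interval (by linarith) (by linarith) hb1 ?_
      (((ps_cont β).mul (hSc.comp (by fun_prop))).intervalIntegrable _ _)
    exact Filter.Eventually.of_forall fun α =>
      mul_nonneg (ps_nonneg hβ.le α) (SGw_nonneg _ _ _ _ _)
  have h5 : ∫ α in (-(1 / β))..(1 / β), ps β α * SGw g F A B (L * α) =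
      ∫ α in (-1 : ℝ)..1, ps 1 α * SGw g F A B (L / β * α) := by
    have h2 := intervalIntegral.mul_integral_comp_mul_left (a := -1) (b := 1) (c := 1 / β)
      (f := fun α : ℝ => ps β α * SGw g F A B (L * α))
    rw [mul_neg, mul_one] at h2
    rw [← h2, ← intervalIntegral.integral_const_mul]
    refine intervalIntegral.integral_congr fun α _ => ?_
    show 1 / β * (ps β (1 / β * α) * SGw g F A B (L * (1 / β * α))) =
      ps 1 α * SGw g F A B (L / β * α)
    have e1 : L * (1 / β * α) = L / β * α := by field_simp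
    have e2 : 1 / β * ps β (1 / β * α) = ps 1 α := by
      unfold ps
      have e3 : β * |1 / β * α| = 1 * |α| := by
        rw [abs_mul, abs_of_pos (by positivity : 0 < 1 / β)]
        field_simp
      rw [e3]
      field_simp
    rw [e1, ← mul_assoc, e2]
  rw [h1, ← h5]
  exact h3.trans h4

/-! ### close pairs -/

/-- weighted number of close pairs -/
noncomputable def QW (w : ℝ → ℝ) (F : ℂ → ℂ) (ρ A B : ℝ) : ℝ :=
  ∑ s ∈ Zf F A B, ∑ s' ∈ Zf F A B, (mult F s : ℝ) * (mult F s' : ℝ) *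
    ((if |s.im - s'.im| ≤ ρ then 1 else 0) * w s.im)

lemma rk_ps_HH (z : ℝ) : rk (ps 1) (2 * Real.pi * z) = HH z := by
  have h1 := RR_ps one_pos z
  rw [div_one, div_one] at h1
  rw [← h1]
  unfold rk RR
  refine intervalIntegral.integral_congr fun α _ => ?_
  show ps 1 α * Real.cos (2 * Real.pi * z * α) = ps 1 α * Real.cos (2 * Real.pi * α * z)
  have : 2 * Real.pi * z * α = 2 * Real.pi * α * z := by ring
  rw [this]

/-- the Selberg kernel is a minorant -/
lemma PU_le_QW {w : ℝ → ℝ} (hw : ∀ t, 0 ≤ w t) (F : ℂ → ℂ) {β L : ℝ} (hβ : 0 < β) (hL : 0 < L)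
    (A B : ℝ) : PU (ps 1) F (L / β) A B w ≤ QW w F (2 * Real.pi * β / L) A B := by
  have hpi := Real.pi_pos
  unfold PU QW
  refine Finset.sum_le_sum fun s _ => Finset.sum_le_sum fun s' _ => ?_
  apply mul_le_mul_of_nonneg_left _ (by positivity)
  apply mul_le_mul_of_nonneg_right _ (hw _)
  set d := s.im - s'.im with hd
  have e1 : L / β * d = 2 * Real.pi * (d * L / (2 * Real.pi) / β) := by field_simp
  rw [e1, rk_ps_HH]
  split_ifs with h
  · exact HH_le _
  · push Not at h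
    apply HH_neg
    rw [abs_div, abs_div, abs_mul, abs_of_pos hL, abs_of_pos hβ,
      abs_of_pos (show 0 < 2 * Real.pi by positivity), div_div, lt_div_iff₀ (by positivity)]
    rw [div_lt_iff₀ hL] at h
    linarith

/-- comparison of the weights `g(γ)²` and `exp (-(γ-γ')²/4) g(γ) g(γ')` -/
lemma weight_gg {g : ℝ → ℝ} {D D1 : ℝ} (hD : ∀ t, |g t| ≤ D)
    (hD1 : ∀ x y, |g x - g y| ≤ D1 * |x - y|) (x y : ℝ) :
    |g x ^ 2 - Real.exp (-(x - y) ^ 2 / 4) * (g x * g y)| ≤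
      (2 * D ^ 2 + D * (D1 + D)) * Real.sqrt |x - y| := by
  have hD0 : 0 ≤ D := (abs_nonneg _).trans (hD 0)
  have hD10 : 0 ≤ D1 := by
    have := (abs_nonneg _).trans (hD1 0 1)
    simpa using this
  have h1 := min_sqrt (abs_nonneg (x - y))
  refine le_trans ?_ (mul_le_mul_of_nonneg_left h1 (by positivity))
  have he0 := Real.exp_pos (-(x - y) ^ 2 / 4)
  have he1 : Real.exp (-(x - y) ^ 2 / 4) ≤ 1 := by
    rw [Real.exp_le_one_iff]; nlinarith [sq_nonneg (x - y)]
  have he2 := Real.add_one_le_exp (-(x - y) ^ 2 / 4)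
  rcases le_or_gt |x - y| 1 with h | h
  · rw [min_eq_right h]
    have hx2 : (x - y) ^ 2 ≤ |x - y| := by
      rw [← sq_abs]; nlinarith [abs_nonneg (x - y)]
    have e : g x ^ 2 - Real.exp (-(x - y) ^ 2 / 4) * (g x * g y) =
        g x * ((g x - g y) + (1 - Real.exp (-(x - y) ^ 2 / 4)) * g y) := by ring
    rw [e, abs_mul]
    have h2 : |(g x - g y) + (1 - Real.exp (-(x - y) ^ 2 / 4)) * g y| ≤ (D1 + D) * |x - y| := by
      refine (abs_add_le _ _).trans ?_
      rw [abs_mul, abs_of_nonneg (by linarith : 0 ≤ 1 - Real.exp (-(x - y) ^ 2 / 4))]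
      have h3 : (1 - Real.exp (-(x - y) ^ 2 / 4)) * |g y| ≤ |x - y| * D := by
        have := hD y
        have h4 : 1 - Real.exp (-(x - y) ^ 2 / 4) ≤ |x - y| := by
          have := abs_nonneg (x - y)
          linarith
        have h5 := abs_nonneg (g y)
        have h6 : 0 ≤ 1 - Real.exp (-(x - y) ^ 2 / 4) := by linarith
        gcongr
      have := hD1 x y
      linarith
    have h3 := hD x
    calc |g x| * |(g x - g y) + (1 - Real.exp (-(x - y) ^ 2 / 4)) * g y| ≤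
        D * ((D1 + D) * |x - y|) := by gcongr
      _ ≤ _ := by
        have := abs_nonneg (x - y)
        nlinarith [mul_nonneg (sq_nonneg D) this]
  · rw [min_eq_left h.le]
    have h2 : |Real.exp (-(x - y) ^ 2 / 4) * (g x * g y)| ≤ D ^ 2 := by
      rw [abs_mul, abs_mul, abs_of_pos he0]
      have h3 := hD x
      have h4 := hD y
      calc Real.exp (-(x - y) ^ 2 / 4) * (|g x| * |g y|) ≤ 1 * (D * D) := by gcongr
        _ = _ := by ring
    have h3 : |g x ^ 2| ≤ D ^ 2 := by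
      rw [abs_pow]
      exact pow_le_pow_left₀ (abs_nonneg _) (hD x) 2
    calc |g x ^ 2 - Real.exp (-(x - y) ^ 2 / 4) * (g x * g y)| ≤
        |g x ^ 2| + |Real.exp (-(x - y) ^ 2 / 4) * (g x * g y)| := abs_sub _ _
      _ ≤ D ^ 2 + D ^ 2 := add_le_add h3 h2
      _ ≤ (2 * D ^ 2 + D * (D1 + D)) * 1 := by nlinarith [mul_nonneg hD0 hD10, sq_nonneg D]

/-- replacing `g(γ)²` by `exp (-(γ-γ')²/4) g(γ) g(γ')` -/
lemma PGG_PU {F : ℂ → ℂ} (hF : GoodL F) (hline : Line F) {ψ g : ℝ → ℝ} {K D D1 : ℝ}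
    (hdec : ∀ x, |rk ψ x| ≤ K / (1 + x ^ 2)) (hD : ∀ t, |g t| ≤ D)
    (hD1 : ∀ x y, |g x - g y| ≤ D1 * |x - y|) (lam η : ℝ) (hlam : 0 < lam) (hlam1 : lam ≤ 1)
    (hη : 0 < η) :
    ∃ T0 : ℝ, 10 ≤ T0 ∧ ∀ T : ℝ, T0 ≤ T → ∀ Λ : ℝ, lam * Real.log T ≤ Λ →
      |PU ψ F Λ (T + 1) (2 * T - 1) (fun t => g t ^ 2) - PGG ψ g F Λ (T + 1) (2 * T - 1)| ≤
        η * (T * Real.log T) := by
  obtain ⟨C, T1, hC, hT1, hP⟩ := P_bound hF hline 1 one_pos le_rfl
  obtain ⟨C', T1', hC', hT1', hP'⟩ := P_bound hF hline (1 / 2) (by norm_num) (by norm_num)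
  have hD0 : 0 ≤ D := (abs_nonneg _).trans (hD 0)
  have hD10 : 0 ≤ D1 := by
    have := (abs_nonneg _).trans (hD1 0 1)
    simpa using this
  have hK : 0 ≤ K := by
    have := (abs_nonneg _).trans (hdec 0)
    simpa using this
  set W : ℝ := 2 * D ^ 2 + D * (D1 + D) with hW
  have hW0 : 0 ≤ W := by positivity
  set E : ℝ := W * (80 * K / lam ^ 2) * C' with hE
  have hE0 : 0 ≤ E := by positivity
  obtain ⟨T2, hT2⟩ := (Real.tendsto_log_atTop.eventually_ge_atTop
    ((E / η) ^ 2 + 1)).exists_forall_of_atTop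
  have ev1 : ∀ᶠ T : ℝ in atTop, (4 : ℝ) ≤ T ^ (1 / 2 : ℝ) :=
    (tendsto_rpow_atTop (by norm_num)).eventually_ge_atTop _
  obtain ⟨T3, hT3⟩ := ev1.exists_forall_of_atTop
  refine ⟨max (max T1' T2) (max T3 10), (le_max_right _ _).trans (le_max_right _ _),
    fun T hT Λ hΛ => ?_⟩
  have hTT1 : T1' ≤ T := ((le_max_left _ _).trans (le_max_left _ _)).trans hT
  have hTT2 : T2 ≤ T := ((le_max_right _ _).trans (le_max_left _ _)).trans hT
  have hTT3 : T3 ≤ T := ((le_max_left _ _).trans (le_max_right _ _)).trans hT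
  have hT10 : 10 ≤ T := ((le_max_right _ _).trans (le_max_right _ _)).trans hT
  have hpos : 0 < T := by linarith
  set L := Real.log T with hL
  have hLg := hT2 T hTT2
  have hL0 : 0 < L := by nlinarith [sq_nonneg (E / η)]
  have h4 := hT3 T hTT3
  have hpow : T ^ (1 / 2 : ℝ) ≤ 2 * T - 1 - (T + 1) := by
    have h5 : T ^ (1 / 2 : ℝ) * T ^ (1 / 2 : ℝ) = T := by
      rw [← Real.rpow_add hpos]; norm_num
    nlinarith
  have hPc := hP' T hTT1 (T + 1) (2 * T - 1) le_rfl le_rfl hpow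
  have h1 := small_pair (F := F) (A := T + 1) (B := 2 * T - 1) hdec hlam hlam1 hL0 hΛ
    (fun s s' => g s.im ^ 2 - Real.exp (-(s.im - s'.im) ^ 2 / 4) * (g s.im * g s'.im))
    (fun s s' => weight_gg hD hD1 s.im s'.im) hW0
  have h2 : PU ψ F Λ (T + 1) (2 * T - 1) (fun t => g t ^ 2) - PGG ψ g F Λ (T + 1) (2 * T - 1) =
      ∑ s ∈ Zf F (T + 1) (2 * T - 1), ∑ s' ∈ Zf F (T + 1) (2 * T - 1),
        (mult F s : ℝ) * (mult F s' : ℝ) * (rk ψ (Λ * (s.im - s'.im)) *
          (g s.im ^ 2 - Real.exp (-(s.im - s'.im) ^ 2 / 4) * (g s.im * g s'.im))) := by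
    unfold PU PGG
    rw [← Finset.sum_sub_distrib]
    refine Finset.sum_congr rfl fun s _ => ?_
    rw [← Finset.sum_sub_distrib]
    refine Finset.sum_congr rfl fun s' _ => ?_
    ring
  rw [h2]
  refine h1.trans ?_
  have hsL : E / η ≤ Real.sqrt L := by
    apply Real.le_sqrt_of_sq_le
    linarith
  have hsL0 : 0 < Real.sqrt L := Real.sqrt_pos.2 hL0
  have hTL : 0 < T * L := by positivity
  calc W * (80 * K / lam ^ 2) / Real.sqrt L * Pc F (T + 1) (2 * T - 1) L ≤
      W * (80 * K / lam ^ 2) / Real.sqrt L * (C' * ((2 * T - 1 - (T + 1)) * L)) := by gcongr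
    _ ≤ W * (80 * K / lam ^ 2) / Real.sqrt L * (C' * (T * L)) := by
        gcongr
        linarith
    _ = E / Real.sqrt L * (T * L) := by rw [hE]; ring
    _ ≤ η * (T * L) := by
        gcongr
        rw [div_le_iff₀ hsL0]
        rw [div_le_iff₀ hη] at hsL
        linarith

/-- **close pairs with an almost periodic weight** -/
theorem close_pairs (RH : RiemannHypothesis) (hline : Line riemannZeta) {g : ℝ → ℝ} {D D1 M : ℝ}
    (hD : ∀ t, |g t| ≤ D) (hD1 : ∀ x y, |g x - g y| ≤ D1 * |x - y|)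
    (hM : APm (fun t => g t ^ 2) M) (hM0 : 0 ≤ M) (β ε : ℝ) (hβ : 0 < β) (hβ1 : β ≤ 1)
    (hε : 0 < ε) :
    ∃ T0 : ℝ, 10 ≤ T0 ∧ ∀ T : ℝ, T0 ≤ T →
      (M * gg β 1 - ε) * (T * Real.log T / (2 * Real.pi)) ≤
        QW (fun t => g t ^ 2) riemannZeta (2 * Real.pi * β / Real.log T) (T + 1) (2 * T - 1) := by
  have hpi := Real.pi_pos
  have hF : GoodL riemannZeta := good_zeta
  obtain ⟨a, ha0, ha1, ha2⟩ : ∃ a : ℝ, 0 < a ∧ a < 1 ∧
      M * gg β 1 - ε / 2 < M * gg β a := by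
    have hc : Continuous fun x => M * gg β x := continuous_const.mul (gg_cont β)
    have e1 : ∀ᶠ x : ℝ in 𝓝[<] (1 : ℝ), x < 1 := self_mem_nhdsWithin
    have e2 : ∀ᶠ x : ℝ in 𝓝[<] (1 : ℝ), 0 < x := nhdsWithin_le_nhds (lt_mem_nhds one_pos)
    have e3 : ∀ᶠ x : ℝ in 𝓝[<] (1 : ℝ), M * gg β 1 - ε / 2 < M * gg β x :=
      nhdsWithin_le_nhds (hc.continuousAt.eventually (lt_mem_nhds (by linarith)))
    obtain ⟨x, ⟨h1, h2⟩, h3⟩ := ((e1.and e2).and e3).exists
    exact ⟨x, h2, h1, h3⟩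
  set b : ℝ := (a + 1) / 2 with hb
  have hab : a < b := by rw [hb]; linarith
  have hb1 : b < 1 := by rw [hb]; linarith
  have hb0 : 0 < b := by linarith
  set ψ := scal (ph β a b) b with hψ
  have hphc := ph_cont hβ hab
  have hphs : ∀ α, b ≤ |α| → ph β a b α = 0 := fun α hα => by
    unfold ph; rw [cut_zero hab hα, mul_zero]
  have hphe : ∀ α, ph β a b (-α) = ph β a b α := fun α => by unfold ph ps cut; rw [abs_neg]
  have hψc : Continuous ψ := by
    rw [hψ]; unfold scal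
    exact continuous_const.mul (hphc.comp (by fun_prop))
  have hψe : ∀ α, ψ (-α) = ψ α := fun α => by
    rw [hψ]; unfold scal
    rw [mul_neg, hphe]
  have hψ1 : ψ 1 = 0 := by
    rw [hψ]; unfold scal
    rw [mul_one, hphs b (le_abs_self b), mul_zero]
  obtain ⟨K1, hK1⟩ := scal_dec hphc hphs hb0 hb1.le (ph_dec hβ hβ1 ha0 hab hb1.le)
  obtain ⟨K2, hK2⟩ := rk_ps_dec
  have hcR := cR_ph hβ hβ1 ha0 hab hb1.le
  set η : ℝ := ε / (8 * (2 * Real.pi)) with hη
  have hη0 : 0 < η := by positivity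
  have hDd : ∀ t, |g t ^ 2| ≤ D ^ 2 := fun t => by
    rw [abs_pow]; exact pow_le_pow_left₀ (abs_nonneg _) (hD t) 2
  obtain ⟨T1, hT1, hpd⟩ := pair_dyadic RH hline hψc hψe hψ1 hK1 hM b η hb0 hb1 hη0
  obtain ⟨T2, hT2, hpu⟩ := PU_dyadic hF hline hK1 (D ^ 2) b η (by positivity) hb0 hb1.le hη0
  obtain ⟨T3, hT3, hg1⟩ := PGG_PU hF hline hK1 hD hD1 b η hb0 hb1.le hη0
  obtain ⟨T4, hT4, hg2⟩ := PGG_PU hF hline hK2 hD hD1 1 η one_pos le_rfl hη0
  refine ⟨max (max T1 T2) (max T3 T4), hT1.trans ((le_max_left _ _).trans (le_max_left _ _)),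
    fun T hT => ?_⟩
  have hTT1 : T1 ≤ T := ((le_max_left _ _).trans (le_max_left _ _)).trans hT
  have hTT2 : T2 ≤ T := ((le_max_right _ _).trans (le_max_left _ _)).trans hT
  have hTT3 : T3 ≤ T := ((le_max_left _ _).trans (le_max_right _ _)).trans hT
  have hTT4 : T4 ≤ T := ((le_max_right _ _).trans (le_max_right _ _)).trans hT
  have hT10 : 10 ≤ T := hT1.trans hTT1
  have hpos : 0 < T := by linarith
  set L := Real.log T with hL
  have hL0 : 0 < L := Real.log_pos (by linarith)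
  have a1 := hpd T hTT1
  have a2 := hpu T hTT2 (b * L) le_rfl (fun t => g t ^ 2) hDd
  have a3 := hg1 T hTT3 (b * L) le_rfl
  have hLβ : 1 * L ≤ L / β := by
    rw [one_mul, le_div_iff₀ hβ]; nlinarith
  have a4 := hg2 T hTT4 (L / β) hLβ
  have a5 := trunc_le hβ hβ1 ha0 hab hb1.le g riemannZeta L (T + 1) (2 * T - 1)
  have a6 := PU_le_QW (w := fun t => g t ^ 2) (fun t => sq_nonneg _) riemannZeta hβ hL0
    (T + 1) (2 * T - 1)
  rw [← hψ] at a5
  set Y := T * L with hY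
  have hY0 : 0 < Y := by positivity
  have a7 : Y / (2 * Real.pi) * (M * gg β a) ≤ Y / (2 * Real.pi) * (M * cR ψ b) := by
    have : 0 ≤ Y / (2 * Real.pi) := by positivity
    gcongr
  have a8 : (M * gg β 1 - ε / 2) * (Y / (2 * Real.pi)) ≤ Y / (2 * Real.pi) * (M * gg β a) := by
    rw [mul_comm]
    have : 0 ≤ Y / (2 * Real.pi) := by positivity
    gcongr
  have a9 : 4 * (η * Y) = ε / 2 * (Y / (2 * Real.pi)) := by
    rw [hη]; field_simp; ring
  have b1 := (abs_le.1 a1).1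
  have b2 := (abs_le.1 a2).2
  have b3 := (abs_le.1 a3).2
  have b4 := (abs_le.1 a4).1
  have e1 : (M * gg β 1 - ε) * (Y / (2 * Real.pi)) =
      (M * gg β 1 - ε / 2) * (Y / (2 * Real.pi)) - ε / 2 * (Y / (2 * Real.pi)) := by ring
  rw [e1]
  linarith

end TH803TW
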