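import Pool.Agent.TH803.TW.First
import Pool.Agent.H143R2.TraceG
import Pool.Agent.H295R2.SI.Main
import Pool.Agent.H228R2.SIPair

/-! Twisted first moment and twisted pair sum for a trigonometric polynomial. -/

open Complex Filter Topology Set MeasureTheory
open scoped BigOperators ComplexConjugate

namespace TH803TW

open H370 H370.A2 H370.AS H295SI

/-- real part of a trigonometric polynomial -/
noncomputable def tp (S : Finset ℝ) (c : ℝ → ℂ) (t : ℝ) : ℝ :=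
  (∑ τ ∈ S, c τ * cexp (I * τ * t)).re

lemma tp_cont (S : Finset ℝ) (c : ℝ → ℂ) : Continuous (tp S c) := by
  unfold tp
  exact Complex.continuous_re.comp (by fun_prop)

lemma kapG_real {g : ℝ → ℝ} (hg : Win g) (x : ℝ) : (kapG g (x : ℂ)) = ((kapG g (x : ℂ)).re : ℂ) := by
  have h1 : kapG g (x : ℂ) = ((∫ y in (-1 / 2 : ℝ)..(1 / 2), g y * Real.cos (x * y) : ℝ) : ℂ) := by
    have h2 : kapG g (x : ℂ) = (kapG g (x : ℂ) + kapG g (-(x : ℂ))) / 2 := by
      rw [H143TG.kapG_even hg]; ring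
    rw [h2]
    unfold kapG
    have hgc := hg.cont
    rw [← intervalIntegral.integral_add, ← intervalIntegral.integral_div,
      ← intervalIntegral.integral_ofReal]
    · refine intervalIntegral.integral_congr fun y _ => ?_
      show ((g y : ℂ) * cexp (I * (x : ℂ) * y) + (g y : ℂ) * cexp (I * (-(x : ℂ)) * y)) / 2 =
        ((g y * Real.cos (x * y) : ℝ) : ℂ)
      rw [Complex.ofReal_mul, Complex.ofReal_cos]
      have e1 : I * (x : ℂ) * y = ((x * y : ℝ) : ℂ) * I := by push_cast; ring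
      have e2 : I * (-(x : ℂ)) * y = (-((x * y : ℝ) : ℂ)) * I := by push_cast; ring
      rw [e1, e2, Complex.cos]
      ring
    · exact (by fun_prop : Continuous fun y : ℝ => (g y : ℂ) * cexp (I * (x : ℂ) * y)).intervalIntegrable
        _ _
    · exact (by fun_prop : Continuous fun y : ℝ => (g y : ℂ) *
        cexp (I * (-(x : ℂ)) * y)).intervalIntegrable _ _
  rw [h1, Complex.ofReal_re]

/-- the real kernel -/
noncomputable def KK (g : ℝ → ℝ) (Λ x : ℝ) : ℝ :=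
  (kapG g ((Λ * x : ℝ) : ℂ)).re ^ 2 * Real.exp (-x ^ 2 / 4)

lemma KK_nonneg (g : ℝ → ℝ) (Λ x : ℝ) : 0 ≤ KK g Λ x := by unfold KK; positivity

lemma KK_zero {g : ℝ → ℝ} (hg : Win g) (Λ : ℝ) : KK g Λ 0 = 1 := by
  unfold KK
  have := H143TG.kapG_zero hg
  simp only [mul_zero, Complex.ofReal_zero]
  rw [this]
  norm_num

section

variable {F : ℂ → ℂ} (hF : GoodL F) (hline : Line F) {g R : ℝ → ℝ} (hg : Win g)
  (hR : Conv R) (hK : KSq g R)

include hline hg hK in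
lemma kernel_eq {A B : ℝ} (hA : 1 ≤ A) {s s' : ℂ} (hs : s ∈ zset F A B) (hs' : s' ∈ zset F A B)
    (Λ : ℝ) :
    (∫ α in (-1 : ℝ)..1, (R α : ℂ) * cexp (I * (Λ * (zz s - zz s')) * α)) *
      cexp (-(zz s - zz s') ^ 2 / 4) = (KK g Λ (s.im - s'.im) : ℂ) := by
  rw [← hK (Λ * (zz s - zz s')), zz_line hline hA hs, zz_line hline hA hs']
  have e1 : (Λ : ℂ) * ((s.im : ℂ) - s'.im) = ((Λ * (s.im - s'.im) : ℝ) : ℂ) := by push_cast; ring
  rw [e1, kapG_real hg]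
  unfold KK
  push_cast
  rfl

/-- the pair sum with a weight at the midpoint -/
noncomputable def PW (g : ℝ → ℝ) (F : ℂ → ℂ) (Λ A B : ℝ) (w : ℝ → ℝ) : ℝ :=
  ∑ s ∈ Zf F A B, ∑ s' ∈ Zf F A B, (mult F s : ℝ) * (mult F s' : ℝ) *
    (KK g Λ (s.im - s'.im) * w ((s.im + s'.im) / 2))

include hline hg hK in
lemma QTp_eq (hF : GoodL F) {A B : ℝ} (hA : 1 ≤ A) (Λ τ : ℝ) : QTp R F Λ A B τ =
    ∑ s ∈ Zf F A B, ∑ s' ∈ Zf F A B, (mult F s : ℂ) * (mult F s' : ℂ) *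
    ((KK g Λ (s.im - s'.im) : ℂ) * cexp (I * τ * (((s.im + s'.im) / 2 : ℝ) : ℂ))) := by
  unfold QTp
  refine Finset.sum_congr rfl fun s hs => Finset.sum_congr rfl fun s' hs' => ?_
  rw [mem_Zf hF hA] at hs hs'
  rw [kernel_eq hline hg hK hA hs hs', zz_line hline hA hs, zz_line hline hA hs']
  push_cast
  rfl

include hF hline hg hK in
lemma PW_tp {A B : ℝ} (hA : 1 ≤ A) (Λ : ℝ) (S : Finset ℝ) (c : ℝ → ℂ) :
    PW g F Λ A B (tp S c) = (∑ τ ∈ S, c τ * QTp R F Λ A B τ).re := by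
  have h1 : ∀ τ ∈ S, c τ * QTp R F Λ A B τ = ∑ s ∈ Zf F A B, ∑ s' ∈ Zf F A B,
      (((mult F s : ℝ) * (mult F s' : ℝ) * KK g Λ (s.im - s'.im) : ℝ) : ℂ) *
        (c τ * cexp (I * τ * (((s.im + s'.im) / 2 : ℝ) : ℂ))) := by
    intro τ _
    rw [QTp_eq hline hg hK hF hA, Finset.mul_sum]
    refine Finset.sum_congr rfl fun s _ => ?_
    rw [Finset.mul_sum]
    refine Finset.sum_congr rfl fun s' _ => ?_
    push_cast
    ring
  rw [Finset.sum_congr rfl h1, Finset.sum_comm]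
  unfold PW
  rw [Complex.re_sum]
  refine Finset.sum_congr rfl fun s _ => ?_
  rw [Finset.sum_comm, Complex.re_sum]
  refine Finset.sum_congr rfl fun s' _ => ?_
  rw [← Finset.mul_sum, Complex.re_ofReal_mul]
  unfold tp
  ring

include hline hg in
lemma phiG_KK {A B : ℝ} (hA : 1 ≤ A) {s s' : ℂ} (hs : s ∈ zset F A B) (hs' : s' ∈ zset F A B)
    (Λ : ℝ) : (phiG g Λ (zz s - zz s')) ^ 2 = (KK g Λ (s.im - s'.im) : ℂ) := by
  rw [zz_line hline hA hs, zz_line hline hA hs']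
  have e1 : (s.im : ℂ) - s'.im = ((s.im - s'.im : ℝ) : ℂ) := by push_cast; ring
  have e2 : (Λ : ℂ) * ((s.im - s'.im : ℝ) : ℂ) = ((Λ * (s.im - s'.im) : ℝ) : ℂ) := by
    push_cast; ring
  unfold phiG KK
  rw [e1, e2, mul_pow, ← Complex.exp_nat_mul]
  have e3 : ((2 : ℕ) : ℂ) * (-((s.im - s'.im : ℝ) : ℂ) ^ 2 / 8) =
      ((-(s.im - s'.im) ^ 2 / 4 : ℝ) : ℂ) := by push_cast; ring
  have e4 := kapG_real hg (Λ * (s.im - s'.im))
  rw [e3, Complex.ofReal_mul (_ ^ 2), Complex.ofReal_pow, Complex.ofReal_exp, ← e4]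

include hF hline hg in
lemma QQG_PW {A B : ℝ} (hA : 1 ≤ A) (Λ : ℝ) : QQG g F Λ A B = PW g F Λ A B (fun _ => 1) := by
  rw [H228SI.QQG_eq hF hA]
  unfold PW
  rw [Complex.re_sum]
  refine Finset.sum_congr rfl fun s hs => ?_
  rw [Complex.re_sum]
  refine Finset.sum_congr rfl fun s' hs' => ?_
  rw [mem_Zf hF hA] at hs hs'
  rw [phiG_KK hline hg hA hs hs', mul_one]
  have : (mult F s : ℂ) * (mult F s' : ℂ) * (KK g Λ (s.im - s'.im) : ℂ) =
      (((mult F s : ℝ) * (mult F s' : ℝ) * KK g Λ (s.im - s'.im) : ℝ) : ℂ) := by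
    push_cast; ring
  rw [this, Complex.ofReal_re]

include hF hline hg hK in
lemma QTp_zero {A B : ℝ} (hA : 1 ≤ A) (Λ : ℝ) : QTp R F Λ A B 0 = (QQG g F Λ A B : ℂ) := by
  rw [QTp_eq hline hg hK hF hA, QQG_PW hF hline hg hA]
  unfold PW
  rw [Complex.ofReal_sum]
  refine Finset.sum_congr rfl fun s _ => ?_
  rw [Complex.ofReal_sum]
  refine Finset.sum_congr rfl fun s' _ => ?_
  push_cast
  simp

lemma PW_mono {A B Λ : ℝ} {w w' : ℝ → ℝ} (h : ∀ t, w t ≤ w' t) :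
    PW g F Λ A B w ≤ PW g F Λ A B w' := by
  unfold PW
  refine Finset.sum_le_sum fun s _ => Finset.sum_le_sum fun s' _ => ?_
  have := KK_nonneg g Λ (s.im - s'.im)
  have := h ((s.im + s'.im) / 2)
  gcongr

lemma PW_add {A B Λ : ℝ} (w w' : ℝ → ℝ) :
    PW g F Λ A B (fun t => w t + w' t) = PW g F Λ A B w + PW g F Λ A B w' := by
  unfold PW
  rw [← Finset.sum_add_distrib]
  refine Finset.sum_congr rfl fun s _ => ?_
  rw [← Finset.sum_add_distrib]
  refine Finset.sum_congr rfl fun s' _ => ?_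
  ring

lemma PW_const {A B Λ : ℝ} (k : ℝ) :
    PW g F Λ A B (fun _ => k) = k * PW g F Λ A B (fun _ => 1) := by
  unfold PW
  rw [Finset.mul_sum]
  refine Finset.sum_congr rfl fun s _ => ?_
  rw [Finset.mul_sum]
  refine Finset.sum_congr rfl fun s' _ => ?_
  ring

/-- weighted sum over the zeros with multiplicity -/
noncomputable def MW (F : ℂ → ℂ) (A B : ℝ) (w : ℝ → ℝ) : ℝ :=
  ∑ s ∈ Zf F A B, (mult F s : ℝ) * w s.im

include hF hline in
lemma MW_tp {A B : ℝ} (hA : 1 ≤ A) (S : Finset ℝ) (c : ℝ → ℂ) :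
    MW F A B (tp S c) = (∑ τ ∈ S, c τ * E1 F A B τ).re := by
  have h1 : ∀ τ ∈ S, c τ * E1 F A B τ = ∑ s ∈ Zf F A B, ((mult F s : ℝ) : ℂ) *
      (c τ * cexp (I * τ * s.im)) := by
    intro τ _
    unfold E1
    rw [Finset.mul_sum]
    refine Finset.sum_congr rfl fun s hs => ?_
    rw [mem_Zf hF hA] at hs
    rw [zz_line hline hA hs]
    push_cast
    ring
  rw [Finset.sum_congr rfl h1, Finset.sum_comm]
  unfold MW
  rw [Complex.re_sum]
  refine Finset.sum_congr rfl fun s _ => ?_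
  rw [← Finset.mul_sum, Complex.re_ofReal_mul]
  rfl

lemma MW_one {A B : ℝ} (hF : GoodL F) (hA : 1 ≤ A) : MW F A B (fun _ => 1) = NN F A B := by
  rw [NN_eq hF hA]
  unfold MW
  push_cast
  simp

lemma E1_zero {A B : ℝ} (hF : GoodL F) (hA : 1 ≤ A) : E1 F A B 0 = ((NN F A B : ℝ) : ℂ) := by
  rw [NN_eq hF hA]
  unfold E1
  push_cast
  simp

end

/-- splitting off the zero frequency -/
lemma split_zero {S : Finset ℝ} (h0 : (0 : ℝ) ∈ S) (c E : ℝ → ℂ) (x : ℝ) (hx : E 0 = (x : ℂ)) :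
    |(∑ τ ∈ S, c τ * E τ).re - (c 0).re * x| ≤ ∑ τ ∈ S.erase 0, ‖c τ‖ * ‖E τ‖ := by
  classical
  rw [← Finset.add_sum_erase S _ h0, hx, Complex.add_re]
  have h1 : (c 0 * (x : ℂ)).re = (c 0).re * x := by rw [Complex.re_mul_ofReal]
  rw [h1, add_sub_cancel_left]
  refine (Complex.abs_re_le_norm _).trans ((norm_sum_le _ _).trans ?_)
  refine Finset.sum_le_sum fun τ _ => ?_
  rw [norm_mul]

/-- **twisted sums in all intervals** -/
theorem core {F : ℂ → ℂ} (hF : GoodL F) (hline : Line F) {g R : ℝ → ℝ} (hg : Win g)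
    (hR : Conv R) (hK : KSq g R) {a : ℕ → ℂ}
    (ha : ∀ n, ‖a n‖ ≤ ArithmeticFunction.vonMangoldt n)
    (hld : ∀ s : ℂ, 1 < s.re → 1 ≤ s.im → deriv F s / F s = - ∑' n : ℕ, a n * (n : ℂ) ^ (-s))
    {S : Finset ℝ} (h0 : (0 : ℝ) ∈ S) (c : ℝ → ℂ) (h ε lam η : ℝ) (hε : 0 < ε) (hεh : ε < h)
    (hh1 : h ≤ 1) (hlam : 0 < lam) (hη : 0 < η) :
    ∃ T0 : ℝ, 10 ≤ T0 ∧ ∀ T : ℝ, T0 ≤ T → ∀ A B : ℝ, T + 1 ≤ A → B ≤ 2 * T - 1 →
      T ^ h ≤ B - A →
      |MW F A B (tp S c) - (c 0).re * NN F A B| ≤ η * ((B - A) * Real.log T) ∧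
      ∀ Λ : ℝ, lam * Real.log T ≤ Λ → Λ ≤ (h - ε) * Real.log T →
      |PW g F Λ A B (tp S c) - (c 0).re * QQG g F Λ A B| ≤ η * ((B - A) * Real.log T) := by
  classical
  have hR0 : 0 ≤ R 0 := hR.nonneg 0
  have hRc := H613SI.conv_cont hR
  -- total size of the coefficients
  set Ct : ℝ := ∑ τ ∈ S.erase 0, ‖c τ‖ * (2 * Real.exp (τ ^ 2 / 4) * R 0) with hCt
  have hCt0 : 0 ≤ Ct := Finset.sum_nonneg fun τ _ => by positivity
  have hex1 : ∀ τ ∈ S.erase 0, ∃ T0 : ℝ, ∀ T : ℝ, T0 ≤ T → ∀ A B : ℝ, T + 1 ≤ A →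
      B ≤ 2 * T - 1 → T ^ h ≤ B - A → ∀ Λ : ℝ, lam * Real.log T ≤ Λ →
      Λ ≤ (h - ε) * Real.log T →
      ∫ α in (0 : ℝ)..1, ‖JT F A B (Λ * α) τ‖ ≤ η / (Ct + 1) * ((B - A) * Real.log T) := by
    intro τ hτ
    obtain ⟨T0, -, hT⟩ := JT_int hF ha hld hline (Finset.ne_of_mem_erase hτ) h ε lam
      (η / (Ct + 1)) hε hεh hh1 hlam (by positivity)
    exact ⟨T0, hT⟩
  have hex2 : ∀ τ ∈ S.erase 0, ∃ K T0 : ℝ, 0 < K ∧ ∀ T : ℝ, T0 ≤ T → ∀ A B : ℝ, T + 1 ≤ A →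
      B ≤ 2 * T - 1 → (1 + Real.log T) ^ 2 ≤ B - A → ‖E1 F A B τ‖ ≤ K * (B - A) := by
    intro τ hτ
    obtain ⟨K, T0, hK, -, hT⟩ := first_moment hF hline ha hld (Finset.ne_of_mem_erase hτ)
    exact ⟨K, T0, hK, hT⟩
  choose! Ta hTa using hex1
  choose! Kb Tb hKb hTb using hex2
  set CK : ℝ := ∑ τ ∈ S.erase 0, ‖c τ‖ * Kb τ with hCK
  have hCK0 : 0 ≤ CK := Finset.sum_nonneg fun τ hτ => mul_nonneg (norm_nonneg _) (hKb τ hτ).le
  have ev1 := ev_log_pow 1 1 h 2 one_pos one_pos (by linarith)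
  have ev2 : ∀ᶠ T : ℝ in atTop, CK / η ≤ Real.log T :=
    Real.tendsto_log_atTop.eventually_ge_atTop _
  obtain ⟨T2, hT2⟩ := (ev1.and ev2).exists_forall_of_atTop
  set Tm : ℝ := ∑ τ ∈ S.erase 0, (|Ta τ| + |Tb τ|) with hTm
  have hTm' : ∀ τ ∈ S.erase 0, Ta τ ≤ Tm ∧ Tb τ ≤ Tm := by
    intro τ hτ
    have h1 : |Ta τ| + |Tb τ| ≤ Tm := Finset.single_le_sum
      (f := fun τ => |Ta τ| + |Tb τ|) (fun τ _ => by positivity) hτ
    constructor
    · have := le_abs_self (Ta τ); have := abs_nonneg (Tb τ); linarith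
    · have := le_abs_self (Tb τ); have := abs_nonneg (Ta τ); linarith
  refine ⟨max 10 (max Tm T2), le_max_left _ _, fun T hT A B hA hB hAB => ?_⟩
  have hT10 : 10 ≤ T := (le_max_left _ _).trans hT
  have hTTm : Tm ≤ T := ((le_max_left _ _).trans (le_max_right _ _)).trans hT
  obtain ⟨e1, e2⟩ := hT2 T (((le_max_right _ _).trans (le_max_right _ _)).trans hT)
  have hTpos : 0 < T := by linarith
  set L := Real.log T with hL
  have hL0 : 0 ≤ L := Real.log_nonneg (by linarith)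
  have hU : 1 ≤ A := by linarith
  have hH0 : 0 < B - A := (Real.rpow_pos_of_pos hTpos h).trans_le hAB
  constructor
  · rw [MW_tp hF hline hU]
    refine (split_zero h0 c (E1 F A B) _ (E1_zero hF hU)).trans ?_
    calc ∑ τ ∈ S.erase 0, ‖c τ‖ * ‖E1 F A B τ‖ ≤
        ∑ τ ∈ S.erase 0, ‖c τ‖ * (Kb τ * (B - A)) := by
          refine Finset.sum_le_sum fun τ hτ => ?_
          have := hTb τ hτ T ((hTm' τ hτ).2.trans hTTm) A B hA hB (by linarith)
          gcongr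
      _ = CK * (B - A) := by
          rw [hCK, Finset.sum_mul]
          refine Finset.sum_congr rfl fun τ _ => by ring
      _ ≤ (η * L) * (B - A) := by
          rw [div_le_iff₀ hη] at e2
          gcongr
          linarith
      _ = _ := by ring
  · intro Λ hΛ1 hΛ2
    rw [PW_tp hF hline hg hK hU]
    refine (split_zero h0 c (fun τ => QTp R F Λ A B τ) _ (QTp_zero hF hline hg hK hU Λ)).trans ?_
    have hbound : ∀ τ ∈ S.erase 0, ‖QTp R F Λ A B τ‖ ≤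
        (2 * Real.exp (τ ^ 2 / 4) * R 0) * (η / (Ct + 1) * ((B - A) * L)) := by
      intro τ hτ
      have h1 := QTp_norm hF hU (U2 := B) hRc Λ τ hRc (fun α => by rw [abs_of_nonneg (hR.nonneg α)]) hR.even
      refine h1.trans ?_
      have hJc : Continuous fun α : ℝ => JT F A B (Λ * α) τ :=
        (JT_cont hF hU τ).comp (by fun_prop)
      have h2 : ∫ α in (0 : ℝ)..1, R α * ‖JT F A B (Λ * α) τ‖ ≤
          R 0 * ∫ α in (0 : ℝ)..1, ‖JT F A B (Λ * α) τ‖ := by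
        rw [← intervalIntegral.integral_const_mul]
        refine intervalIntegral.integral_mono_on zero_le_one
          ((hRc.mul hJc.norm).intervalIntegrable _ _)
          ((continuous_const.mul hJc.norm).intervalIntegrable _ _) fun α hα => ?_
        have := H613SI.conv_le hR α hα.1
        gcongr
      have h3 := hTa τ hτ T ((hTm' τ hτ).1.trans hTTm) A B hA hB hAB Λ hΛ1 hΛ2
      calc 2 * Real.exp (τ ^ 2 / 4) * ∫ α in (0 : ℝ)..1, R α * ‖JT F A B (Λ * α) τ‖ ≤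
          2 * Real.exp (τ ^ 2 / 4) * (R 0 * (η / (Ct + 1) * ((B - A) * L))) := by
            gcongr
            exact h2.trans (by gcongr)
        _ = _ := by ring
    calc ∑ τ ∈ S.erase 0, ‖c τ‖ * ‖QTp R F Λ A B τ‖ ≤
        ∑ τ ∈ S.erase 0, ‖c τ‖ * ((2 * Real.exp (τ ^ 2 / 4) * R 0) *
          (η / (Ct + 1) * ((B - A) * L))) := by
          refine Finset.sum_le_sum fun τ hτ => ?_
          have := hbound τ hτ
          gcongr
      _ = Ct * (η / (Ct + 1) * ((B - A) * L)) := by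
          rw [hCt, Finset.sum_mul]
          refine Finset.sum_congr rfl fun τ _ => by ring
      _ = Ct / (Ct + 1) * (η * ((B - A) * L)) := by field_simp
      _ ≤ 1 * (η * ((B - A) * L)) := by
          apply mul_le_mul_of_nonneg_right _ (by positivity)
          rw [div_le_one (by positivity)]
          linarith
      _ = _ := one_mul _

end TH803TW
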