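import Pool.Agent.TH803.TW.Bdry
import Pool.Agent.H345R2.A3.Pairs

/-! Decay of the transforms of the Selberg kernel and of its truncations. -/

open Complex Filter Topology Set MeasureTheory
open scoped BigOperators ComplexConjugate

namespace TH803TW

open H370 H370.A2 H370.A3 H295SI

/-- two integrations by parts -/
lemma cos_parts {f : ℝ → ℝ} (hf : ContDiff ℝ 2 f) {a b : ℝ} (hab : a ≤ b) : ∃ C : ℝ, 0 ≤ C ∧
    ∀ k : ℝ, |k ^ 2 * (∫ y in a..b, f y * Real.cos (k * y)) -
      k * (f b * Real.sin (k * b) - f a * Real.sin (k * a))| ≤ C := by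
  have hd1 : Differentiable ℝ f := hf.differentiable (by norm_num)
  have hf' : ContDiff ℝ 1 (deriv f) := by
    have : ContDiff ℝ (1 + 1) f := by norm_num; exact hf
    exact (contDiff_succ_iff_deriv.1 this).2.2
  have hd2 : Differentiable ℝ (deriv f) := hf'.differentiable (by norm_num)
  have hc2 : Continuous (deriv (deriv f)) := hf'.continuous_deriv (by norm_num)
  have hc0 : Continuous f := hf.continuous
  have hI : 0 ≤ ∫ y in a..b, |deriv (deriv f) y| :=
    intervalIntegral.integral_nonneg hab fun y _ => abs_nonneg _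
  refine ⟨|deriv f b| + |deriv f a| + ∫ y in a..b, |deriv (deriv f) y|, by positivity,
    fun k => ?_⟩
  have hder : ∀ y ∈ Set.uIcc a b, HasDerivAt (fun y => k * f y * Real.sin (k * y) +
      deriv f y * Real.cos (k * y))
      (k ^ 2 * (f y * Real.cos (k * y)) + deriv (deriv f) y * Real.cos (k * y)) y := by
    intro y _
    have h1 : HasDerivAt (fun y : ℝ => k * y) k y := by simpa using (hasDerivAt_id y).const_mul k
    have h2 := ((hd1 y).hasDerivAt.const_mul k).mul h1.sin
    have h3 := (hd2 y).hasDerivAt.mul h1.cos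
    refine (h2.add h3).congr_deriv ?_
    ring
  have hint := intervalIntegral.integral_eq_sub_of_hasDerivAt hder
    ((by fun_prop : Continuous fun y => k ^ 2 * (f y * Real.cos (k * y)) +
      deriv (deriv f) y * Real.cos (k * y)).intervalIntegrable _ _)
  rw [intervalIntegral.integral_add
    ((by fun_prop : Continuous fun y => k ^ 2 * (f y * Real.cos (k * y))).intervalIntegrable _ _)
    ((by fun_prop : Continuous fun y =>
      deriv (deriv f) y * Real.cos (k * y)).intervalIntegrable _ _),
    intervalIntegral.integral_const_mul] at hint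
  have e : k ^ 2 * (∫ y in a..b, f y * Real.cos (k * y)) -
      k * (f b * Real.sin (k * b) - f a * Real.sin (k * a)) =
      deriv f b * Real.cos (k * b) - deriv f a * Real.cos (k * a) -
        ∫ y in a..b, deriv (deriv f) y * Real.cos (k * y) := by linarith
  rw [e]
  have h1 : |∫ y in a..b, deriv (deriv f) y * Real.cos (k * y)| ≤
      ∫ y in a..b, |deriv (deriv f) y| := by
    refine (intervalIntegral.abs_integral_le_integral_abs hab).trans ?_
    refine intervalIntegral.integral_mono_on hab
      ((by fun_prop : Continuous fun y =>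
        |deriv (deriv f) y * Real.cos (k * y)|).intervalIntegrable _ _)
      (hc2.abs.intervalIntegrable _ _) fun y _ => ?_
    rw [abs_mul]
    exact mul_le_of_le_one_right (abs_nonneg _) (Real.abs_cos_le_one _)
  have h2 : |deriv f b * Real.cos (k * b)| ≤ |deriv f b| := by
    rw [abs_mul]; exact mul_le_of_le_one_right (abs_nonneg _) (Real.abs_cos_le_one _)
  have h3 : |deriv f a * Real.cos (k * a)| ≤ |deriv f a| := by
    rw [abs_mul]; exact mul_le_of_le_one_right (abs_nonneg _) (Real.abs_cos_le_one _)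
  calc |deriv f b * Real.cos (k * b) - deriv f a * Real.cos (k * a) -
        ∫ y in a..b, deriv (deriv f) y * Real.cos (k * y)| ≤
      |deriv f b * Real.cos (k * b) - deriv f a * Real.cos (k * a)| +
        |∫ y in a..b, deriv (deriv f) y * Real.cos (k * y)| := abs_sub _ _
    _ ≤ (|deriv f b * Real.cos (k * b)| + |deriv f a * Real.cos (k * a)|) + _ := by
        gcongr
        exact abs_sub _ _
    _ ≤ _ := by linarith

lemma ss_smooth : ContDiff ℝ 2 ss := by unfold ss; fun_prop

/-- a bound `C / k²` and a trivial bound give a bound `K / (1 + x²)` -/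
lemma dec_of {g : ℝ → ℝ} {D C c : ℝ} (hc : 0 < c) (hD : ∀ x, |g x| ≤ D)
    (hC : ∀ x, (c * x) ^ 2 * |g x| ≤ C) : ∃ K : ℝ, ∀ x, |g x| ≤ K / (1 + x ^ 2) := by
  refine ⟨D + C / c ^ 2, fun x => ?_⟩
  rw [le_div_iff₀ (by positivity)]
  have h1 := hC x
  have h2 := hD x
  have h3 : |g x| * x ^ 2 ≤ C / c ^ 2 := by
    rw [le_div_iff₀ (by positivity)]
    calc |g x| * x ^ 2 * c ^ 2 = (c * x) ^ 2 * |g x| := by ring
      _ ≤ C := h1
  linarith

/-- decay of the Selberg kernel -/
lemma rk_ps_dec : ∃ K : ℝ, ∀ x, |rk (ps 1) x| ≤ K / (1 + x ^ 2) := by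
  have hps : ∀ y ∈ Set.Icc (0 : ℝ) 1, ps 1 y = ss y := by
    intro y hy
    unfold ps
    rw [one_mul, one_mul, abs_of_nonneg hy.1, min_eq_left hy.2]
  have hc : ∀ x : ℝ, Continuous fun α : ℝ => ps 1 α * Real.cos (x * α) := fun x =>
    (ps_cont 1).mul (by fun_prop)
  have heq : ∀ x, rk (ps 1) x = 2 * ∫ y in (0 : ℝ)..1, ss y * Real.cos (x * y) := by
    intro x
    unfold rk
    have h1 : ∫ α in (-1 : ℝ)..0, ps 1 α * Real.cos (x * α) =
        ∫ α in (0 : ℝ)..1, ps 1 α * Real.cos (x * α) := by
      have h2 := intervalIntegral.integral_comp_neg (a := 0) (b := 1)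
        (fun α : ℝ => ps 1 α * Real.cos (x * α))
      rw [neg_zero] at h2
      rw [← h2]
      refine intervalIntegral.integral_congr fun α _ => ?_
      show ps 1 (-α) * Real.cos (x * -α) = ps 1 α * Real.cos (x * α)
      rw [mul_neg, Real.cos_neg]
      unfold ps
      rw [abs_neg]
    rw [← intervalIntegral.integral_add_adjacent_intervals (a := -1) (b := 0) (c := 1)
      ((hc x).intervalIntegrable _ _) ((hc x).intervalIntegrable _ _), h1, ← two_mul]
    congr 1
    refine intervalIntegral.integral_congr fun α hα => ?_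
    rw [Set.uIcc_of_le zero_le_one] at hα
    show ps 1 α * _ = ss α * _
    rw [hps α hα]
  obtain ⟨C, hC0, hC⟩ := cos_parts ss_smooth (zero_le_one (α := ℝ))
  refine dec_of (D := 2) (C := 2 * C) (c := 1) one_pos (fun x => ?_) (fun x => ?_)
  · unfold rk
    have h1 : ‖∫ α in (-1 : ℝ)..1, ps 1 α * Real.cos (x * α)‖ ≤ 1 * |1 - (-1 : ℝ)| := by
      refine intervalIntegral.norm_integral_le_of_norm_le_const fun α _ => ?_
      rw [Real.norm_eq_abs, abs_mul, abs_of_nonneg (ps_nonneg zero_le_one α)]
      exact mul_le_one₀ (ps_le zero_le_one α) (abs_nonneg _) (Real.abs_cos_le_one _)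
    rw [Real.norm_eq_abs] at h1
    refine h1.trans ?_
    norm_num
  · have h1 := hC x
    rw [ss_one, zero_mul, mul_zero, Real.sin_zero, mul_zero, sub_self, mul_zero, sub_zero] at h1
    rw [heq, one_mul, ← abs_of_nonneg (sq_nonneg x), ← abs_mul]
    calc |x ^ 2 * (2 * ∫ y in (0 : ℝ)..1, ss y * Real.cos (x * y))| =
        2 * |x ^ 2 * ∫ y in (0 : ℝ)..1, ss y * Real.cos (x * y)| := by
          rw [← mul_assoc, mul_comm (x ^ 2) 2, mul_assoc, abs_mul, abs_of_pos (two_pos (α := ℝ))]
      _ ≤ 2 * C := by linarith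

/-- decay of the truncated kernels -/
lemma ph_dec {β a b : ℝ} (hβ : 0 < β) (hβ1 : β ≤ 1) (ha : 0 < a) (hab : a < b) (hb : b ≤ 1) :
    ∃ K : ℝ, ∀ x, |∫ α in (-1 : ℝ)..1, ph β a b α * Real.cos (2 * Real.pi * x * α)| ≤
      K / (1 + x ^ 2) := by
  have hpi := Real.pi_pos
  have hba : 0 < b - a := by linarith
  have hphc : Continuous (ph β a b) := by
    have hK : 0 ≤ 2 * β ^ 2 + β / (b - a) := by positivity
    have : LipschitzWith (2 * β ^ 2 + β / (b - a)).toNNReal (ph β a b) := by
      refine LipschitzWith.of_dist_le_mul fun x y => ?_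
      rw [Real.dist_eq, Real.dist_eq, Real.coe_toNNReal _ hK]
      exact ph_lip hβ.le hab x y
    exact this.continuous
  have hc : ∀ x : ℝ, Continuous fun α : ℝ => ph β a b α * Real.cos (2 * Real.pi * x * α) :=
    fun x => hphc.mul (by fun_prop)
  have hp1 : ∀ y ∈ Set.Icc (0 : ℝ) a, ph β a b y = β * ss (β * y) := by
    intro y hy
    have hy1 : |y| = y := abs_of_nonneg hy.1
    unfold ph ps
    rw [cut_one hab (by rw [hy1]; exact hy.2), hy1, min_eq_left, mul_one]
    nlinarith [hy.1, hy.2]
  have hp2 : ∀ y ∈ Set.Icc a b, ph β a b y = β * ss (β * y) * ((b - y) / (b - a)) := by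
    intro y hy
    have hy0 : 0 ≤ y := ha.le.trans hy.1
    have hy1 : |y| = y := abs_of_nonneg hy0
    unfold ph ps cut
    rw [hy1, min_eq_left (by nlinarith [hy.2] : β * y ≤ 1),
      min_eq_right (by rw [div_le_one hba]; linarith [hy.1]),
      max_eq_right (div_nonneg (by linarith [hy.2]) hba.le)]
  have hp3 : ∀ y ∈ Set.Icc b 1, ph β a b y = 0 := by
    intro y hy
    have hy0 : 0 ≤ y := by linarith [hy.1]
    unfold ph
    rw [cut_zero hab (by rw [abs_of_nonneg hy0]; exact hy.1), mul_zero]
  have heq : ∀ x, ∫ α in (-1 : ℝ)..1, ph β a b α * Real.cos (2 * Real.pi * x * α) =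
      2 * ((∫ y in (0 : ℝ)..a, β * ss (β * y) * Real.cos (2 * Real.pi * x * y)) +
        ∫ y in a..b, β * ss (β * y) * ((b - y) / (b - a)) * Real.cos (2 * Real.pi * x * y)) := by
    intro x
    have h1 : ∫ α in (-1 : ℝ)..0, ph β a b α * Real.cos (2 * Real.pi * x * α) =
        ∫ α in (0 : ℝ)..1, ph β a b α * Real.cos (2 * Real.pi * x * α) := by
      have h2 := intervalIntegral.integral_comp_neg (a := 0) (b := 1)
        (fun α : ℝ => ph β a b α * Real.cos (2 * Real.pi * x * α))
      rw [neg_zero] at h2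
      rw [← h2]
      refine intervalIntegral.integral_congr fun α _ => ?_
      show ph β a b (-α) * Real.cos (2 * Real.pi * x * -α) =
        ph β a b α * Real.cos (2 * Real.pi * x * α)
      rw [mul_neg, Real.cos_neg]
      unfold ph ps cut
      rw [abs_neg]
    rw [← intervalIntegral.integral_add_adjacent_intervals (a := -1) (b := 0) (c := 1)
      ((hc x).intervalIntegrable _ _) ((hc x).intervalIntegrable _ _), h1, ← two_mul]
    congr 1
    rw [← intervalIntegral.integral_add_adjacent_intervals (a := 0) (b := a) (c := 1)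
      ((hc x).intervalIntegrable _ _) ((hc x).intervalIntegrable _ _),
      ← intervalIntegral.integral_add_adjacent_intervals (a := a) (b := b) (c := 1)
      ((hc x).intervalIntegrable _ _) ((hc x).intervalIntegrable _ _)]
    have h3 : ∫ α in b..1, ph β a b α * Real.cos (2 * Real.pi * x * α) = 0 := by
      rw [intervalIntegral.integral_congr (g := fun _ => (0 : ℝ))]
      · simp
      · intro y hy
        rw [Set.uIcc_of_le hb] at hy
        show ph β a b y * _ = 0
        rw [hp3 y hy, zero_mul]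
    have h4 : ∫ α in (0 : ℝ)..a, ph β a b α * Real.cos (2 * Real.pi * x * α) =
        ∫ y in (0 : ℝ)..a, β * ss (β * y) * Real.cos (2 * Real.pi * x * y) := by
      refine intervalIntegral.integral_congr fun y hy => ?_
      rw [Set.uIcc_of_le ha.le] at hy
      show ph β a b y * _ = _
      rw [hp1 y hy]
    have h5 : ∫ α in a..b, ph β a b α * Real.cos (2 * Real.pi * x * α) =
        ∫ y in a..b, β * ss (β * y) * ((b - y) / (b - a)) * Real.cos (2 * Real.pi * x * y) := by
      refine intervalIntegral.integral_congr fun y hy => ?_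
      rw [Set.uIcc_of_le hab.le] at hy
      show ph β a b y * _ = _
      rw [hp2 y hy]
    rw [h3, h4, h5, add_zero]
  have hs1 : ContDiff ℝ 2 fun y : ℝ => β * ss (β * y) :=
    contDiff_const.mul (ss_smooth.comp (by fun_prop))
  have hs2 : ContDiff ℝ 2 fun y : ℝ => β * ss (β * y) * ((b - y) / (b - a)) :=
    hs1.mul (by fun_prop)
  obtain ⟨C1, hC10, hC1⟩ := cos_parts hs1 ha.le
  obtain ⟨C2, hC20, hC2⟩ := cos_parts hs2 hab.le
  refine dec_of (D := 2 * β) (C := 2 * (C1 + C2)) (c := 2 * Real.pi) (by positivity)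
    (fun x => ?_) (fun x => ?_)
  · have h1 : ‖∫ α in (-1 : ℝ)..1, ph β a b α * Real.cos (2 * Real.pi * x * α)‖ ≤
        β * |1 - (-1 : ℝ)| := by
      refine intervalIntegral.norm_integral_le_of_norm_le_const fun α _ => ?_
      have h2 : 0 ≤ ph β a b α := mul_nonneg (ps_nonneg hβ.le α) (cut_nonneg _ _ _)
      have h3 : ph β a b α ≤ β := by
        have := mul_le_mul (ps_le hβ.le α) (cut_le a b α) (cut_nonneg _ _ _) hβ.le
        rw [mul_one] at this
        exact this
      rw [Real.norm_eq_abs, abs_mul, abs_of_nonneg h2]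
      exact (mul_le_of_le_one_right h2 (Real.abs_cos_le_one _)).trans h3
    rw [Real.norm_eq_abs] at h1
    refine h1.trans ?_
    norm_num
    linarith
  · have h1 := hC1 (2 * Real.pi * x)
    have h2 := hC2 (2 * Real.pi * x)
    have e1 : (b - a) / (b - a) = 1 := div_self hba.ne'
    have e2 : (b - b) / (b - a) = 0 := by simp
    simp only [mul_zero, Real.sin_zero, sub_zero, e1, e2, zero_mul, mul_one, zero_sub] at h1 h2
    rw [heq, ← abs_of_nonneg (sq_nonneg (2 * Real.pi * x)), ← abs_mul]
    set k := 2 * Real.pi * x with hk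
    set I1 := ∫ y in (0 : ℝ)..a, β * ss (β * y) * Real.cos (k * y) with hI1
    set I2 := ∫ y in a..b, β * ss (β * y) * ((b - y) / (b - a)) * Real.cos (k * y) with hI2
    have e3 : k ^ 2 * (2 * (I1 + I2)) =
        2 * ((k ^ 2 * I1 - k * (β * ss (β * a) * Real.sin (k * a))) +
          (k ^ 2 * I2 - k * -(β * ss (β * a) * Real.sin (k * a)))) := by ring
    rw [e3, abs_mul, abs_of_pos (two_pos (α := ℝ))]
    have h3 := abs_add_le (k ^ 2 * I1 - k * (β * ss (β * a) * Real.sin (k * a)))
      (k ^ 2 * I2 - k * -(β * ss (β * a) * Real.sin (k * a)))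
    linarith

end TH803TW
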