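import Pool.Agent.TH803.TW.Line

/-! The far pairs, and the twisted mean square of a Dirichlet polynomial. -/

open Finset Complex MeasureTheory
open scoped ComplexConjugate

namespace TH803TW

lemma far_sum (y δ : ℝ) (hδ : 0 < δ) (X : ℕ) :
    ∑ n ∈ (Icc 1 X).filter (fun n : ℕ => δ ≤ |(n : ℝ) - y|), 1 / |(n : ℝ) - y| ≤
      2 / δ + 2 * (1 + Real.log X) := by
  classical
  set k : ℤ := ⌊y⌋ with hk
  have hk1 : (k : ℝ) ≤ y := Int.floor_le y
  have hk2 : y < k + 1 := Int.lt_floor_add_one y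
  set k1 : ℤ := min k (X + 1) with hk1d
  set k2 : ℤ := max (k + 1) 0 with hk2d
  -- pointwise
  have hpt : ∀ n ∈ (Icc 1 X).filter (fun n : ℕ => δ ≤ |(n : ℝ) - y|), 1 / |(n : ℝ) - y| ≤
      (if (n : ℤ) = k then 1 / δ else 0) + (if (n : ℤ) = k + 1 then 1 / δ else 0) +
      (if (n : ℤ) < k1 then 1 / ((k1 - n : ℤ) : ℝ) else 0) +
      (if k2 < (n : ℤ) then 1 / ((n - k2 : ℤ) : ℝ) else 0) := by
    intro n hn
    rw [mem_filter, mem_Icc] at hn
    obtain ⟨⟨h1, h2⟩, h3⟩ := hn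
    have g1 : 0 ≤ (if (n : ℤ) < k1 then 1 / ((k1 - n : ℤ) : ℝ) else 0) := by
      split_ifs with h
      · have : (0 : ℝ) < ((k1 - n : ℤ) : ℝ) := by exact_mod_cast (by omega : 0 < k1 - n)
        positivity
      · exact le_rfl
    have g2 : 0 ≤ (if k2 < (n : ℤ) then 1 / ((n - k2 : ℤ) : ℝ) else 0) := by
      split_ifs with h
      · have : (0 : ℝ) < ((n - k2 : ℤ) : ℝ) := by exact_mod_cast (by omega : 0 < (n : ℤ) - k2)
        positivity
      · exact le_rfl
    have g3 : 0 ≤ (if (n : ℤ) = k then 1 / δ else 0) := by split_ifs <;> positivity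
    have g4 : 0 ≤ (if (n : ℤ) = k + 1 then 1 / δ else 0) := by split_ifs <;> positivity
    have g5 : 1 / |(n : ℝ) - y| ≤ 1 / δ := one_div_le_one_div_of_le hδ h3
    rcases lt_trichotomy (n : ℤ) k with h | h | h
    · have h4 : (n : ℤ) < k1 := by omega
      rw [if_pos h4]
      have h5 : (1 : ℤ) ≤ k1 - n := by omega
      have h6 : ((k1 - n : ℤ) : ℝ) ≤ |(n : ℝ) - y| := by
        have h7 : (k1 : ℝ) ≤ k := by exact_mod_cast min_le_left _ _
        have h8 := neg_le_abs ((n : ℝ) - y)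
        push_cast
        linarith
      have h7 : 1 / |(n : ℝ) - y| ≤ 1 / ((k1 - n : ℤ) : ℝ) :=
        one_div_le_one_div_of_le (by exact_mod_cast h5) h6
      linarith
    · rw [if_pos h]
      linarith
    · rcases eq_or_lt_of_le (show k + 1 ≤ (n : ℤ) by omega) with h' | h'
      · rw [if_pos h'.symm]
        linarith
      · have h4 : k2 < (n : ℤ) := by omega
        rw [if_pos h4]
        have h5 : (1 : ℤ) ≤ n - k2 := by omega
        have h6 : ((n - k2 : ℤ) : ℝ) ≤ |(n : ℝ) - y| := by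
          have h7 : (k : ℝ) + 1 ≤ k2 := by exact_mod_cast le_max_left (k + 1) 0
          have h8 := le_abs_self ((n : ℝ) - y)
          push_cast
          linarith
        have h7 : 1 / |(n : ℝ) - y| ≤ 1 / ((n - k2 : ℤ) : ℝ) :=
          one_div_le_one_div_of_le (by exact_mod_cast h5) h6
        linarith
  refine (sum_le_sum hpt).trans ?_
  -- extend to all n
  have hext : ∀ f : ℕ → ℝ, (∀ n, 0 ≤ f n) →
      ∑ n ∈ (Icc 1 X).filter (fun n : ℕ => δ ≤ |(n : ℝ) - y|), f n ≤ ∑ n ∈ Icc 1 X, f n :=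
    fun f hf => sum_le_sum_of_subset_of_nonneg (filter_subset _ _) fun n _ _ => hf n
  rw [sum_add_distrib, sum_add_distrib, sum_add_distrib]
  have s1 : ∀ c : ℤ, ∑ n ∈ (Icc 1 X).filter (fun n : ℕ => δ ≤ |(n : ℝ) - y|),
      (if (n : ℤ) = c then 1 / δ else 0) ≤ 1 / δ := by
    intro c
    refine (hext _ fun n => by split_ifs <;> positivity).trans ?_
    rw [← sum_filter]
    have h1 : ((Icc 1 X).filter (fun n : ℕ => (n : ℤ) = c)).card ≤ 1 := by
      rw [card_le_one]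
      intro a ha b hb
      rw [mem_filter] at ha hb
      have := ha.2.trans hb.2.symm
      exact_mod_cast this
    rw [sum_const, nsmul_eq_mul]
    have h2 : (((Icc 1 X).filter (fun n : ℕ => (n : ℤ) = c)).card : ℝ) ≤ 1 := by exact_mod_cast h1
    have h3 : 0 ≤ 1 / δ := by positivity
    nlinarith
  have s3 : ∑ n ∈ (Icc 1 X).filter (fun n : ℕ => δ ≤ |(n : ℝ) - y|),
      (if (n : ℤ) < k1 then 1 / ((k1 - n : ℤ) : ℝ) else 0) ≤ 1 + Real.log X := by
    refine (hext _ fun n => ?_).trans ?_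
    · split_ifs with h
      · have : (0 : ℝ) < ((k1 - n : ℤ) : ℝ) := by exact_mod_cast (by omega : 0 < k1 - n)
        positivity
      · exact le_rfl
    rw [← sum_filter]
    refine le_trans ?_ (harm X)
    have h1 : ∑ n ∈ (Icc 1 X).filter (fun n : ℕ => (n : ℤ) < k1), 1 / ((k1 - n : ℤ) : ℝ) =
        ∑ j ∈ ((Icc 1 X).filter (fun n : ℕ => (n : ℤ) < k1)).image
          (fun n : ℕ => (k1 - n).toNat), 1 / (j : ℝ) := by
      rw [sum_image]
      · refine sum_congr rfl fun n hn => ?_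
        rw [mem_filter] at hn
        have h2 : ((k1 - n).toNat : ℤ) = k1 - n := Int.toNat_of_nonneg (by omega)
        have h3 : (((k1 - n).toNat : ℕ) : ℝ) = ((k1 - n : ℤ) : ℝ) := by exact_mod_cast h2
        rw [h3]
      · intro a ha b hb hab
        have ha' := (mem_filter.1 (mem_coe.1 ha)).2
        have hb' := (mem_filter.1 (mem_coe.1 hb)).2
        simp only at hab
        omega
    rw [h1]
    refine sum_le_sum_of_subset_of_nonneg ?_ fun _ _ _ => by positivity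
    intro j hj
    obtain ⟨n, hn, rfl⟩ := mem_image.1 hj
    rw [mem_filter, mem_Icc] at hn
    rw [mem_Icc]
    omega
  have s4 : ∑ n ∈ (Icc 1 X).filter (fun n : ℕ => δ ≤ |(n : ℝ) - y|),
      (if k2 < (n : ℤ) then 1 / ((n - k2 : ℤ) : ℝ) else 0) ≤ 1 + Real.log X := by
    refine (hext _ fun n => ?_).trans ?_
    · split_ifs with h
      · have : (0 : ℝ) < ((n - k2 : ℤ) : ℝ) := by exact_mod_cast (by omega : 0 < (n : ℤ) - k2)
        positivity
      · exact le_rfl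
    rw [← sum_filter]
    refine le_trans ?_ (harm X)
    have h1 : ∑ n ∈ (Icc 1 X).filter (fun n : ℕ => k2 < (n : ℤ)), 1 / ((n - k2 : ℤ) : ℝ) =
        ∑ j ∈ ((Icc 1 X).filter (fun n : ℕ => k2 < (n : ℤ))).image
          (fun n : ℕ => ((n : ℤ) - k2).toNat), 1 / (j : ℝ) := by
      rw [sum_image]
      · refine sum_congr rfl fun n hn => ?_
        rw [mem_filter] at hn
        have h2 : (((n : ℤ) - k2).toNat : ℤ) = n - k2 := Int.toNat_of_nonneg (by omega)
        have h3 : ((((n : ℤ) - k2).toNat : ℕ) : ℝ) = ((n - k2 : ℤ) : ℝ) := by exact_mod_cast h2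
        rw [h3]
      · intro a ha b hb hab
        have ha' := (mem_filter.1 (mem_coe.1 ha)).2
        have hb' := (mem_filter.1 (mem_coe.1 hb)).2
        simp only at hab
        omega
    rw [h1]
    refine sum_le_sum_of_subset_of_nonneg ?_ fun _ _ _ => by positivity
    intro j hj
    obtain ⟨n, hn, rfl⟩ := mem_image.1 hj
    rw [mem_filter, mem_Icc] at hn
    rw [mem_Icc]
    omega
  have h1 := s1 k
  have h2 := s1 (k + 1)
  have e : 2 / δ = 1 / δ + 1 / δ := by ring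
  rw [e]
  linarith

/-- far pairs -/
noncomputable def far (r δ : ℝ) (X : ℕ) : Finset (ℕ × ℕ) := by
  classical
  exact (Icc 1 X ×ˢ Icc 1 X).filter fun p => ¬ |(p.2 : ℝ) - p.1 * r| < δ

lemma mem_far {r δ : ℝ} {X : ℕ} {p : ℕ × ℕ} : p ∈ far r δ X ↔
    (1 ≤ p.1 ∧ p.1 ≤ X) ∧ (1 ≤ p.2 ∧ p.2 ≤ X) ∧ δ ≤ |(p.2 : ℝ) - p.1 * r| := by
  classical
  unfold far
  simp only [mem_filter, mem_product, mem_Icc, not_lt]
  tauto

lemma far_bilinear {r δ : ℝ} (hr : 0 < r) (hδ : 0 < δ) (X : ℕ) (β : ℕ → ℝ) :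
    ∑ p ∈ far r δ X, β p.1 * β p.2 * (1 / |(p.2 : ℝ) - p.1 * r|) ≤
      (2 / δ + (1 + 1 / r) * (1 + Real.log X)) * ∑ n ∈ Icc 1 X, β n ^ 2 := by
  classical
  have hS : 0 ≤ ∑ n ∈ Icc 1 X, β n ^ 2 := sum_nonneg fun _ _ => sq_nonneg _
  have h1 : ∀ p ∈ far r δ X, β p.1 * β p.2 * (1 / |(p.2 : ℝ) - p.1 * r|) ≤
      β p.1 ^ 2 / 2 * (1 / |(p.2 : ℝ) - p.1 * r|) + β p.2 ^ 2 / 2 * (1 / |(p.2 : ℝ) - p.1 * r|) := by
    intro p _
    rw [← add_mul]
    apply mul_le_mul_of_nonneg_right _ (by positivity)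
    nlinarith [sq_nonneg (β p.1 - β p.2)]
  refine (sum_le_sum h1).trans ?_
  rw [sum_add_distrib]
  have hA : ∑ p ∈ far r δ X, β p.1 ^ 2 / 2 * (1 / |(p.2 : ℝ) - p.1 * r|) ≤
      (2 / δ + 2 * (1 + Real.log X)) / 2 * ∑ n ∈ Icc 1 X, β n ^ 2 := by
    have e : ∑ p ∈ far r δ X, β p.1 ^ 2 / 2 * (1 / |(p.2 : ℝ) - p.1 * r|) =
        ∑ m ∈ Icc 1 X, ∑ n ∈ (Icc 1 X).filter (fun n : ℕ => δ ≤ |(n : ℝ) - m * r|),
          β m ^ 2 / 2 * (1 / |(n : ℝ) - m * r|) := by
      have e2 : ∀ m ∈ Icc 1 X, ∑ n ∈ (Icc 1 X).filter (fun n : ℕ => δ ≤ |(n : ℝ) - m * r|),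
          β m ^ 2 / 2 * (1 / |(n : ℝ) - m * r|) = ∑ n ∈ Icc 1 X, if δ ≤ |(n : ℝ) - m * r| then
          β m ^ 2 / 2 * (1 / |(n : ℝ) - m * r|) else 0 := fun m _ => sum_filter _ _
      rw [sum_congr rfl e2, ← sum_product' (s := Icc 1 X) (t := Icc 1 X)
        (f := fun m n : ℕ => if δ ≤ |(n : ℝ) - m * r| then
          β m ^ 2 / 2 * (1 / |(n : ℝ) - m * r|) else 0), ← sum_filter]
      refine sum_congr ?_ fun _ _ => rfl
      ext p
      rw [mem_far, mem_filter, mem_product, mem_Icc, mem_Icc]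
      tauto
    rw [e, mul_sum]
    refine sum_le_sum fun m _ => ?_
    rw [← mul_sum]
    have h2 := far_sum (m * r) δ hδ X
    calc β m ^ 2 / 2 * ∑ n ∈ (Icc 1 X).filter (fun n : ℕ => δ ≤ |(n : ℝ) - m * r|),
          1 / |(n : ℝ) - m * r| ≤ β m ^ 2 / 2 * (2 / δ + 2 * (1 + Real.log X)) := by gcongr
      _ = _ := by ring
  have hB : ∑ p ∈ far r δ X, β p.2 ^ 2 / 2 * (1 / |(p.2 : ℝ) - p.1 * r|) ≤
      (2 / δ + 2 / r * (1 + Real.log X)) / 2 * ∑ n ∈ Icc 1 X, β n ^ 2 := by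
    have hiff : ∀ m n : ℕ, |(n : ℝ) - m * r| = r * |(m : ℝ) - n / r| := by
      intro m n
      rw [← abs_of_pos hr, ← abs_mul, abs_of_pos hr, abs_sub_comm]
      congr 1
      field_simp
    have e : ∑ p ∈ far r δ X, β p.2 ^ 2 / 2 * (1 / |(p.2 : ℝ) - p.1 * r|) =
        ∑ n ∈ Icc 1 X, ∑ m ∈ (Icc 1 X).filter (fun m : ℕ => δ / r ≤ |(m : ℝ) - n / r|),
          β n ^ 2 / 2 * (1 / r * (1 / |(m : ℝ) - n / r|)) := by
      have e2 : ∀ n ∈ Icc 1 X, ∑ m ∈ (Icc 1 X).filter (fun m : ℕ => δ / r ≤ |(m : ℝ) - n / r|),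
          β n ^ 2 / 2 * (1 / r * (1 / |(m : ℝ) - n / r|)) = ∑ m ∈ Icc 1 X,
          if δ / r ≤ |(m : ℝ) - n / r| then
          β n ^ 2 / 2 * (1 / r * (1 / |(m : ℝ) - n / r|)) else 0 := fun n _ => sum_filter _ _
      rw [sum_congr rfl e2, sum_comm, ← sum_product' (s := Icc 1 X) (t := Icc 1 X)
        (f := fun m n : ℕ => if δ / r ≤ |(m : ℝ) - n / r| then
          β n ^ 2 / 2 * (1 / r * (1 / |(m : ℝ) - n / r|)) else 0), ← sum_filter]
      refine sum_congr ?_ fun p _ => ?_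
      · ext p
        rw [mem_far, mem_filter, mem_product, mem_Icc, mem_Icc, hiff, div_le_iff₀ hr,
          mul_comm |(p.1 : ℝ) - p.2 / r| r]
        tauto
      · rw [hiff, one_div_mul_one_div]
    rw [e, mul_sum]
    refine sum_le_sum fun n _ => ?_
    rw [← mul_sum, ← mul_sum]
    have h2 := far_sum (n / r) (δ / r) (by positivity) X
    calc β n ^ 2 / 2 * (1 / r * ∑ m ∈ (Icc 1 X).filter (fun m : ℕ => δ / r ≤ |(m : ℝ) - n / r|),
          1 / |(m : ℝ) - n / r|) ≤ β n ^ 2 / 2 * (1 / r * (2 / (δ / r) + 2 * (1 + Real.log X))) := by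
          gcongr
      _ = _ := by field_simp
  refine (add_le_add hA hB).trans (le_of_eq ?_)
  ring

lemma log_lower {x y : ℝ} (hx : 0 < x) (hy : 0 < y) :
    |x - y| / max x y ≤ |Real.log x - Real.log y| := by
  have key : ∀ x y : ℝ, 0 < x → x ≤ y → (y - x) / y ≤ Real.log y - Real.log x := by
    intro x y hx hxy
    have hy : 0 < y := hx.trans_le hxy
    have h := Real.log_le_sub_one_of_pos (div_pos hx hy)
    rw [Real.log_div hx.ne' hy.ne'] at h
    have e : (y - x) / y = 1 - x / y := by field_simp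
    rw [e]
    linarith
  rcases le_total x y with h | h
  · rw [max_eq_right h, abs_sub_comm, abs_of_nonneg (by linarith), abs_sub_comm]
    exact (key x y hx h).trans (le_abs_self _)
  · rw [max_eq_left h, abs_of_nonneg (by linarith)]
    exact (key y x hy h).trans (le_abs_self _)

lemma exp_int (l A B : ℝ) (h : A ≤ B) :
    ‖∫ t in A..B, cexp (I * (l : ℂ) * t)‖ ≤ B - A ∧
    (l ≠ 0 → ‖∫ t in A..B, cexp (I * (l : ℂ) * t)‖ ≤ 2 / |l|) := by
  have hn : ∀ x : ℝ, ‖cexp (I * (l : ℂ) * x)‖ = 1 := by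
    intro x
    have : I * (l : ℂ) * x = ((l * x : ℝ) : ℂ) * I := by push_cast; ring
    rw [this, Complex.norm_exp_ofReal_mul_I]
  constructor
  · have h1 := intervalIntegral.norm_integral_le_of_norm_le_const (a := A) (b := B)
      (f := fun t : ℝ => cexp (I * (l : ℂ) * t)) (C := 1) (fun t _ => (hn t).le)
    rw [one_mul, abs_of_nonneg (by linarith)] at h1
    exact h1
  · intro hl
    have hc : I * (l : ℂ) ≠ 0 := mul_ne_zero I_ne_zero (by exact_mod_cast hl)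
    rw [integral_exp_mul_complex hc, norm_div, norm_mul, norm_I, one_mul, Complex.norm_real,
      Real.norm_eq_abs]
    gcongr
    refine (norm_sub_le _ _).trans ?_
    rw [hn, hn]; norm_num

/-- **the twisted mean square of a Dirichlet polynomial** -/
theorem tw_mean (b : ℕ → ℂ) (X : ℕ) (A B τ δ : ℝ) (h : A ≤ B) (hδ : 0 < δ) :
    ‖∫ t in A..B, ((‖∑ n ∈ Icc 1 X, b n * (n : ℂ) ^ (-(t : ℂ) * I)‖ ^ 2 : ℝ) : ℂ) *
      cexp (I * τ * t)‖ ≤
      (B - A) * ∑ p ∈ near (Real.exp (-τ)) δ X, ‖b p.1‖ * ‖b p.2‖ +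
      2 * (X * max 1 (Real.exp (-τ))) * ((2 / δ + (1 + 1 / Real.exp (-τ)) * (1 + Real.log X)) *
        ∑ n ∈ Icc 1 X, ‖b n‖ ^ 2) := by
  classical
  set r : ℝ := Real.exp (-τ) with hr
  have hr0 : 0 < r := Real.exp_pos _
  set M : ℝ := max 1 r with hM
  have hM1 : 1 ≤ M := le_max_left _ _
  have hMr : r ≤ M := le_max_right _ _
  -- expand
  have hexp : ∀ t : ℝ, ((‖∑ n ∈ Icc 1 X, b n * (n : ℂ) ^ (-(t : ℂ) * I)‖ ^ 2 : ℝ) : ℂ) *
      cexp (I * τ * t) =
      ∑ p ∈ Icc 1 X ×ˢ Icc 1 X, b p.1 * conj (b p.2) *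
        cexp (I * ((Real.log p.2 - Real.log p.1 + τ : ℝ) : ℂ) * t) := by
    intro t
    have h1 : ∀ z : ℂ, ((‖z‖ ^ 2 : ℝ) : ℂ) = z * conj z := by
      intro z; rw [Complex.mul_conj']; push_cast; rfl
    rw [h1, map_sum, Finset.sum_mul_sum, sum_product, sum_mul]
    refine Finset.sum_congr rfl fun m hm => ?_
    rw [sum_mul]
    refine Finset.sum_congr rfl fun n hn => ?_
    rw [Finset.mem_Icc] at hm hn
    have hm0 : (m : ℂ) ≠ 0 := by
      have : m ≠ 0 := by omega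
      exact_mod_cast this
    have hn0 : (n : ℂ) ≠ 0 := by
      have : n ≠ 0 := by omega
      exact_mod_cast this
    rw [map_mul, Complex.cpow_def_of_ne_zero hm0, Complex.cpow_def_of_ne_zero hn0,
      ← Complex.exp_conj, ← Complex.natCast_log, ← Complex.natCast_log]
    simp only [map_mul, map_neg, Complex.conj_ofReal, Complex.conj_I]
    rw [mul_mul_mul_comm, ← Complex.exp_add, mul_assoc, ← Complex.exp_add]
    congr 2
    push_cast
    ring
  simp_rw [hexp]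
  rw [intervalIntegral.integral_finsetSum]
  swap
  · intro p _
    exact (by fun_prop : Continuous fun t : ℝ => b p.1 * conj (b p.2) *
        cexp (I * ((Real.log p.2 - Real.log p.1 + τ : ℝ) : ℂ) * t)).intervalIntegrable _ _
  simp_rw [intervalIntegral.integral_const_mul]
  refine (norm_sum_le _ _).trans ?_
  rw [← sum_filter_add_sum_filter_not (Icc 1 X ×ˢ Icc 1 X)
    (fun p => |(p.2 : ℝ) - p.1 * r| < δ)]
  have hnear : (Icc 1 X ×ˢ Icc 1 X).filter (fun p => |(p.2 : ℝ) - p.1 * r| < δ) = near r δ X := by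
    ext p
    rw [mem_near, mem_filter, mem_product, mem_Icc, mem_Icc]
    tauto
  have hfar : (Icc 1 X ×ˢ Icc 1 X).filter (fun p => ¬ |(p.2 : ℝ) - p.1 * r| < δ) = far r δ X := by
    ext p
    rw [mem_far, mem_filter, mem_product, mem_Icc, mem_Icc, not_lt]
    tauto
  rw [hnear, hfar]
  refine add_le_add ?_ ?_
  · rw [mul_sum]
    refine sum_le_sum fun p _ => ?_
    rw [norm_mul, norm_mul, RCLike.norm_conj]
    have h1 := (exp_int (Real.log p.2 - Real.log p.1 + τ) A B h).1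
    calc ‖b p.1‖ * ‖b p.2‖ * ‖∫ t in A..B,
          cexp (I * ((Real.log p.2 - Real.log p.1 + τ : ℝ) : ℂ) * t)‖ ≤
        ‖b p.1‖ * ‖b p.2‖ * (B - A) := by gcongr
      _ = _ := by ring
  · refine le_trans ?_ (mul_le_mul_of_nonneg_left (far_bilinear hr0 hδ X fun n => ‖b n‖)
      (by positivity))
    rw [mul_sum]
    refine sum_le_sum fun p hp => ?_
    obtain ⟨⟨h1, h2⟩, ⟨h3, h4⟩, h5⟩ := mem_far.1 hp
    have hp1 : (0 : ℝ) < p.1 := by exact_mod_cast h1
    have hp2 : (0 : ℝ) < p.2 := by exact_mod_cast h3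
    have hpX1 : (p.1 : ℝ) ≤ X := by exact_mod_cast h2
    have hpX2 : (p.2 : ℝ) ≤ X := by exact_mod_cast h4
    have hX : (0 : ℝ) < X := hp1.trans_le hpX1
    set d : ℝ := |(p.2 : ℝ) - p.1 * r| with hd
    have hd0 : 0 < d := hδ.trans_le h5
    set l : ℝ := Real.log p.2 - Real.log p.1 + τ with hl
    have hl1 : l = Real.log p.2 - Real.log (p.1 * r) := by
      rw [Real.log_mul hp1.ne' hr0.ne', hr, Real.log_exp, hl]; ring
    have hlow : d / (X * M) ≤ |l| := by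
      rw [hl1]
      refine le_trans ?_ (log_lower hp2 (mul_pos hp1 hr0))
      have h6 : max (p.2 : ℝ) (p.1 * r) ≤ X * M := by
        apply max_le
        · calc (p.2 : ℝ) ≤ X * 1 := by linarith
            _ ≤ X * M := by gcongr
        · gcongr
      have h7 : 0 < max (p.2 : ℝ) (p.1 * r) := lt_max_of_lt_left hp2
      gcongr
    have hl0 : 0 < |l| := lt_of_lt_of_le (by positivity) hlow
    have h8 := (exp_int l A B h).2 (abs_pos.1 hl0)
    rw [norm_mul, norm_mul, RCLike.norm_conj]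
    have h9 : 2 / |l| ≤ 2 * (X * M) * (1 / d) := by
      rw [div_le_iff₀ hl0]
      calc (2 : ℝ) = 2 * (X * M) * (1 / d) * (d / (X * M)) := by field_simp
        _ ≤ _ := by gcongr
    calc ‖b p.1‖ * ‖b p.2‖ * ‖∫ t in A..B, cexp (I * (l : ℂ) * t)‖ ≤
        ‖b p.1‖ * ‖b p.2‖ * (2 * (X * M) * (1 / d)) := by
          gcongr
          exact h8.trans h9
      _ = _ := by ring

end TH803TW
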