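import Pool.Agent.TH803.TW.Wt

/-! The weighted short interval theorem. -/

open Complex Filter Topology Set MeasureTheory
open scoped BigOperators ComplexConjugate

namespace TH803TW

open H370 H370.A2 H370.AS H295SI

section

variable {F : ℂ → ℂ}

lemma MW_nonneg {A B : ℝ} {w : ℝ → ℝ} (hw : ∀ t, 0 ≤ w t) : 0 ≤ MW F A B w := by
  unfold MW
  exact Finset.sum_nonneg fun s _ => mul_nonneg (Nat.cast_nonneg _) (hw _)

lemma bdry_MW (hF : GoodL F) {A B A' B' : ℝ} (hA : 1 ≤ A') (h1 : A' ≤ A) (h2 : B ≤ B')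
    {w : ℝ → ℝ} (hw : ∀ t, 0 ≤ w t) {D : ℝ} (hD : ∀ t, w t ≤ D) :
    MW F A B w ≤ MW F A' B' w ∧
      MW F A' B' w ≤ MW F A B w + D * ((NN F A' B' : ℝ) - NN F A B) := by
  classical
  have hsub := Zf_sub hF hA h1 h2
  have e1 : MW F A' B' w = ∑ s ∈ Zf F A' B' \ Zf F A B, (mult F s : ℝ) * w s.im +
      MW F A B w := by
    unfold MW
    rw [Finset.sum_sdiff hsub]
  have e2 : (NN F A' B' : ℝ) = ∑ s ∈ Zf F A' B' \ Zf F A B, (mult F s : ℝ) + NN F A B := by
    rw [NN_eq hF hA, NN_eq hF (hA.trans h1)]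
    push_cast
    rw [Finset.sum_sdiff hsub]
  constructor
  · rw [e1]
    have : 0 ≤ ∑ s ∈ Zf F A' B' \ Zf F A B, (mult F s : ℝ) * w s.im :=
      Finset.sum_nonneg fun s _ => mul_nonneg (Nat.cast_nonneg _) (hw _)
    linarith
  · rw [e1, e2]
    have : ∑ s ∈ Zf F A' B' \ Zf F A B, (mult F s : ℝ) * w s.im ≤
        D * ∑ s ∈ Zf F A' B' \ Zf F A B, (mult F s : ℝ) := by
      rw [Finset.mul_sum]
      refine Finset.sum_le_sum fun s _ => ?_
      have := hD s.im
      have h0 : (0 : ℝ) ≤ mult F s := Nat.cast_nonneg _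
      nlinarith
    linarith

lemma bdry_Sq (hF : GoodL F) {A B A' B' : ℝ} (hA : 1 ≤ A') (h1 : A' ≤ A) (h2 : B ≤ B')
    {w : ℝ → ℝ} (hw : ∀ t, 0 ≤ w t) {D : ℝ} (hD : ∀ t, w t ≤ D) :
    SqW F A' B' w ≤ SqW F A B w + D * ((NN F A' B' : ℝ) - NN F A B) ^ 2 := by
  classical
  have hsub := Zf_sub hF hA h1 h2
  have e1 : SqW F A' B' w = ∑ s ∈ Zf F A' B' \ Zf F A B, (mult F s : ℝ) ^ 2 * w s.im +
      SqW F A B w := by
    unfold SqW
    rw [Finset.sum_sdiff hsub]
  have e2 : (NN F A' B' : ℝ) = ∑ s ∈ Zf F A' B' \ Zf F A B, (mult F s : ℝ) + NN F A B := by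
    rw [NN_eq hF hA, NN_eq hF (hA.trans h1)]
    push_cast
    rw [Finset.sum_sdiff hsub]
  have hD0 : 0 ≤ D := (hw 0).trans (hD 0)
  rw [e1, e2, add_sub_cancel_right]
  have h3 : ∑ s ∈ Zf F A' B' \ Zf F A B, (mult F s : ℝ) ^ 2 * w s.im ≤
      D * ∑ s ∈ Zf F A' B' \ Zf F A B, (mult F s : ℝ) ^ 2 := by
    rw [Finset.mul_sum]
    refine Finset.sum_le_sum fun s _ => ?_
    have := hD s.im
    nlinarith [sq_nonneg (mult F s : ℝ)]
  have h4 : ∑ s ∈ Zf F A' B' \ Zf F A B, (mult F s : ℝ) ^ 2 ≤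
      (∑ s ∈ Zf F A' B' \ Zf F A B, (mult F s : ℝ)) ^ 2 :=
    Finset.sum_sq_le_sq_sum_of_nonneg fun s _ => Nat.cast_nonneg _
  nlinarith

end

lemma fin1 {W W' M N N' D x : ℝ} (w1 : |W' - M * N'| ≤ 9 * x) (b1 : W' ≤ W)
    (b2 : W ≤ W' + D * x) (b6 : M * (N - N') ≤ M * x) (b7 : 0 ≤ M * (N - N'))
    (_hD : 0 ≤ D * x) (_hM : 0 ≤ M * x) : |W - M * N| ≤ (9 + D + M) * x := by
  obtain ⟨c1, c2⟩ := abs_le.mp w1
  have e1 : (9 + D + M) * x = 9 * x + D * x + M * x := by ring
  have e2 : M * (N - N') = M * N - M * N' := by ring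
  rw [e2] at b6 b7
  rw [e1, abs_le]
  constructor <;> linarith

lemma fin2 {S S' P M N D x η m q c : ℝ} (hx : x = η * m) (hx0 : 0 ≤ x) (hη : 0 ≤ η)
    (hη1 : η ≤ 1 / 100) (hM : 0 ≤ M) (hc : 0 ≤ c) (w : |P - M * q| ≤ 7 * x + η * q)
    (hq : q ≤ m * (c + 2 * η)) (hS : S ≤ P) (hS' : S' ≤ S + D * x) (hm : m ≤ N + 7 * x) :
    S' ≤ M * c * N + (8 + D + 2 * M + c + 7 * (M * c)) * x := by
  obtain ⟨-, c2⟩ := abs_le.mp w
  have q3 : (M + η) * q ≤ (M + η) * (m * (c + 2 * η)) :=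
    mul_le_mul_of_nonneg_left hq (by linarith)
  have q4 : (M + η) * (m * (c + 2 * η)) ≤ M * c * m + (2 * M + c + 1) * x := by
    have : (M + η) * (m * (c + 2 * η)) = M * c * m + (2 * M + c + 2 * η) * x := by
      rw [hx]; ring
    rw [this]
    have h1 : (2 * M + c + 2 * η) * x ≤ (2 * M + c + 1) * x :=
      mul_le_mul_of_nonneg_right (by linarith) hx0
    linarith
  have q5 : M * c * m ≤ M * c * (N + 7 * x) := mul_le_mul_of_nonneg_left hm (by positivity)
  have e1 : (M + η) * q = M * q + η * q := by ring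
  have e2 : M * c * (N + 7 * x) = M * c * N + 7 * (M * c) * x := by ring
  have e3 : (8 + D + 2 * M + c + 7 * (M * c)) * x =
      7 * x + D * x + (2 * M + c + 1) * x + 7 * (M * c) * x := by ring
  rw [e3]
  linarith

/-- **simple and distinct zeros against an almost periodic weight** -/
theorem shortW {F : ℂ → ℂ} (hF : GoodL F) (hline : Line F) {φ : ℝ → ℝ} {M : ℝ} (hφ : APm φ M)
    (hφ0 : ∀ t, 0 ≤ φ t) (hM : 0 ≤ M) (h ε : ℝ) (hh0 : 0 < h) (hh1 : h ≤ 1) (hε : 0 < ε) :
    ∃ T0 : ℝ, 10 ≤ T0 ∧ ∀ T : ℝ, T0 ≤ T → ∀ H : ℝ, T ^ h ≤ H → H ≤ T / 2 →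
      |MW F T (T + H) φ - M * NN F T (T + H)| ≤ ε * NN F T (T + H) ∧
      SqW F T (T + H) φ ≤ (M * cc h + ε) * NN F T (T + H) ∧
      |(NN F T (T + H) : ℝ) - H * Real.log T / (2 * Real.pi)| ≤ ε * (H * Real.log T) := by
  have hs2 : 0 < Real.sqrt 2 := Real.sqrt_pos.2 (by norm_num)
  set s : ℝ := Real.sqrt 2 * h with hs
  have hs0 : 0 < s := by positivity
  have hs1 : s ≤ Real.sqrt 2 := by
    rw [hs]
    nlinarith
  have hW := H255SI.winS s hs0 hs1
  have hC := H793SI.convS s hs0 hs1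
  have hK := H218SI3.kSqS s hs0 hs1
  have hc := H228SI.constS h hh0 hh1
  rw [← hs] at hc
  set R : ℝ → ℝ := RS s with hR
  set J : ℝ := ∫ α in (0 : ℝ)..1, α * R α with hJ
  have hJ0 : 0 ≤ J := by
    apply intervalIntegral.integral_nonneg (by norm_num)
    intro u hu
    exact mul_nonneg hu.1 (hC.nonneg u)
  have hR0 : 0 ≤ R 0 := hC.nonneg 0
  have hcR : ∀ x, cR R x = R 0 / x + 2 * x * J := fun x => rfl
  have hcc0 : 0 ≤ cc h := by
    rw [← hc, hcR]
    positivity
  obtain ⟨D, hD0, hD⟩ := hφ.bdd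
  have hDu : ∀ t, φ t ≤ D := fun t => (le_abs_self _).trans (hD t)
  set e : ℝ := min ε 1 with he
  have he0 : 0 < e := lt_min hε one_pos
  have he1 : e ≤ ε := min_le_left _ _
  have he2 : e ≤ 1 := min_le_right _ _
  -- total constant
  set Q : ℝ := 1 + M + D + cc h + M * cc h with hQ
  have hMc : 0 ≤ M * cc h := by positivity
  have hQ1 : 1 ≤ Q := by linarith only [hQ, hM, hD0, hcc0, hMc]
  set η : ℝ := e / (100 * Q) with hη
  have hη0 : 0 < η := by positivity
  have hηQ : η * Q = e / 100 := by rw [hη]; field_simp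
  have hη1 : η ≤ 1 / 100 := by
    have : η * 1 ≤ η * Q := by gcongr
    linarith only [this, hηQ, he2]
  set δ : ℝ := min (h / 2) (η * h ^ 2 / (2 * (R 0 + 1))) with hδ
  have hδ0 : 0 < δ := lt_min (by positivity) (by positivity)
  have hδ1 : δ ≤ h / 2 := min_le_left _ _
  have hδ2 : δ * (2 * (R 0 + 1)) ≤ η * h ^ 2 := by
    have := min_le_right (h / 2) (η * h ^ 2 / (2 * (R 0 + 1)))
    rw [← hδ, le_div_iff₀ (by positivity)] at this
    exact this
  have hcδ : cR R (h - δ) ≤ cc h + η := by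
    rw [hcR, ← hc, hcR]
    have hhδ : 0 < h - δ := by linarith only [hδ1, hh0]
    have h5 : R 0 / (h - δ) ≤ R 0 / h + η := by
      rw [div_le_iff₀ hhδ, add_mul, div_mul_eq_mul_div, ← sub_le_iff_le_add]
      have h6 : R 0 - η * (h - δ) ≤ R 0 * (h - δ) / h := by
        rw [le_div_iff₀ hh0]
        have k1 : δ * R 0 ≤ η * h ^ 2 / 2 := by nlinarith only [hδ2, hδ0, hR0]
        have k2 : η * (h / 2) * h ≤ η * (h - δ) * h := by
          gcongr
          linarith only [hδ1]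
        nlinarith only [k1, k2]
      linarith only [h6]
    have h7 : 2 * (h - δ) * J ≤ 2 * h * J := by nlinarith only [hδ0, hJ0]
    linarith only [h5, h7]
  have hPS := H613SI.pairShort H627SI.lamSmooth H228SI.qqJJ H965SI.countShort
    (H804JJ.jjShort H399SI.explShort Pool.Agent.H431R2.SI.outerShort)
  obtain ⟨T2, hT2, hPC⟩ := hPS (gS s) R hW hC hK F hF h δ η hδ0 (by linarith) hh1 hη0
  obtain ⟨C, hC0, hends⟩ := H965SI.countShort F hF
  obtain ⟨a, ha, hld⟩ := hF.ld
  obtain ⟨T3, hT3, hwt⟩ := wt hF hline hW hC hK ha hld hφ (h - δ / 4) (δ / 4) (h - δ) η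
    (by positivity) (by linarith) (by linarith) (by linarith) hη0
  -- large T
  have ev1 := ev_log_pow η (C * 8) h 1 hη0 (by positivity) hh0
  have ev2 := ev_log_pow η (C ^ 2 * 8) h 2 hη0 (by positivity) hh0
  have ev3 : ∀ᶠ T : ℝ in atTop, T ^ (h - δ / 4) ≤ T ^ h - 2 := by
    have h1 : ∀ᶠ T : ℝ in atTop, (2 : ℝ) ≤ T ^ (δ / 4) :=
      (tendsto_rpow_atTop (by positivity)).eventually_ge_atTop _
    have h2 : ∀ᶠ T : ℝ in atTop, (2 : ℝ) ≤ T ^ (h - δ / 4) :=
      (tendsto_rpow_atTop (by linarith)).eventually_ge_atTop _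
    filter_upwards [h1, h2, eventually_gt_atTop (0 : ℝ)] with T h3 h4 h5
    have h6 : T ^ h = T ^ (h - δ / 4) * T ^ (δ / 4) := by
      rw [← Real.rpow_add h5]; congr 1; ring
    rw [h6]
    nlinarith only [h3, h4]
  have ev4 : ∀ᶠ T : ℝ in atTop, 2 / δ + 2 ≤ Real.log T :=
    Real.tendsto_log_atTop.eventually_ge_atTop _
  obtain ⟨T4, hT4⟩ := ((ev1.and ev2).and (ev3.and ev4)).exists_forall_of_atTop
  refine ⟨max (max 10 T2) (max (T3 + 1) T4), (le_max_left _ _).trans (le_max_left _ _),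
    fun T hT H hH1 hH2 => ?_⟩
  have hT10 : 10 ≤ T := ((le_max_left _ _).trans (le_max_left _ _)).trans hT
  have hTT2 : T2 ≤ T := ((le_max_right _ _).trans (le_max_left _ _)).trans hT
  have hTT3 : T3 ≤ T - 1 := by
    have := ((le_max_left _ _).trans (le_max_right _ _)).trans hT
    linarith only [this]
  obtain ⟨⟨a1, a2⟩, a3, a4⟩ := hT4 T (((le_max_right _ _).trans (le_max_right _ _)).trans hT)
  have hTpos : 0 < T := by linarith only [hT10]
  set L := Real.log T with hL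
  have hL1 : 1 ≤ L := by
    have : 0 < 2 / δ := by positivity
    linarith only [this, a4]
  have hH3 : 3 ≤ H := by
    have h1 : (1 : ℝ) ≤ T ^ (h - δ / 4) := Real.one_le_rpow (by linarith) (by linarith)
    linarith
  have hHpos : 0 < H := by linarith
  have hHT : H ≤ T := by linarith
  obtain ⟨U1, U2, hU1, hU1', hU2, hU2', hNN, hQQ⟩ := hPC T hTT2 H hH1 hHT
  set m : ℝ := H * L / (2 * Real.pi) with hm
  have hpi := Real.pi_pos
  have hpi2 : Real.pi < 3.15 := Real.pi_lt_d2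
  have hpi3 : 3.14 < Real.pi := Real.pi_gt_d2
  have hm0 : 0 < m := by positivity
  have hHL : H * L = 2 * Real.pi * m := by rw [hm]; field_simp
  have hHL7 : H * L ≤ 7 * m := by rw [hHL]; nlinarith only [hm0, hpi2]
  -- the log of T - 1
  have hlog1 : Real.log (T - 1) ≤ L := Real.log_le_log (by linarith only [hT10]) (by linarith only [])
  have hlog2 : L - 1 ≤ Real.log (T - 1) := by
    have h1 : T / Real.exp 1 ≤ T - 1 := by
      rw [div_le_iff₀ (Real.exp_pos _)]
      have := Real.exp_one_gt_d9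
      nlinarith only [this, hT10]
    have h2 := Real.log_le_log (by positivity) h1
    rw [Real.log_div (by linarith only [hT10]) (Real.exp_pos 1).ne', Real.log_exp] at h2
    exact h2
  have hlam1 : (h - δ) * Real.log (T - 1) ≤ (h - δ) * L :=
    mul_le_mul_of_nonneg_left hlog1 (by linarith only [hδ1, hh0])
  have hlam2 : (h - δ) * L ≤ (h - δ / 4 - δ / 4) * Real.log (T - 1) := by
    have h1 : (h - δ / 4 - δ / 4) * (L - 1) ≤ (h - δ / 4 - δ / 4) * Real.log (T - 1) :=
      mul_le_mul_of_nonneg_left hlog2 (by linarith only [hδ1, hh0])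
    have h2 : 2 ≤ δ * L := by
      have h3 : 2 / δ ≤ L := by linarith only [a4]
      rw [div_le_iff₀ hδ0] at h3
      linarith only [h3]
    nlinarith only [h1, h2, hδ0, hh1, hδ1]
  have hpow2 : (T - 1) ^ (h - δ / 4) ≤ U2 - U1 := by
    have h1 : (T - 1) ^ (h - δ / 4) ≤ T ^ (h - δ / 4) :=
      Real.rpow_le_rpow (by linarith only [hT10]) (by linarith only []) (by linarith only [hδ1, hh0])
    linarith only [h1, a3, hH1, hU1', hU2]
  obtain ⟨w1, w2⟩ := hwt (T - 1) hTT3 U1 U2 (by linarith only [hU1]) (by linarith only [hU2', hH2, hT10]) hpow2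
  have w3 := w2 ((h - δ) * L) hlam1 hlam2
  have hU : 1 ≤ U1 := by linarith only [hU1, hT10]
  have hUH : (U2 - U1) * Real.log (T - 1) ≤ 7 * m := by
    refine le_trans ?_ hHL7
    have h1 : 0 ≤ Real.log (T - 1) := by linarith only [hlog2, hL1]
    calc (U2 - U1) * Real.log (T - 1) ≤ H * Real.log (T - 1) := by
          gcongr; linarith only [hU1, hU2']
      _ ≤ H * L := by gcongr
  have hηUH : η * ((U2 - U1) * Real.log (T - 1)) ≤ 7 * (η * m) := by
    have := mul_le_mul_of_nonneg_left hUH hη0.le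
    linarith only [this]
  set N' : ℝ := (NN F U1 U2 : ℝ) with hN'
  set N : ℝ := (NN F T (T + H) : ℝ) with hN
  have hNN2 : |N' - m| ≤ 7 * (η * m) := by
    refine hNN.trans ?_
    have := mul_le_mul_of_nonneg_left hHL7 hη0.le
    linarith only [this]
  obtain ⟨n1, n2⟩ := abs_le.mp hNN2
  have hηm : 0 ≤ η * m := by positivity
  have hηm1 : η * m ≤ m / 100 := by
    have := mul_le_mul_of_nonneg_right hη1 hm0.le
    linarith only [this]
  have hend := (hends T hT10 H hH3 hHT U1 U2 hU1 hU1' hU2 hU2').2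
  rw [← hN, ← hN', ← hL] at hend
  have hmono : N' ≤ N := by
    rw [hN, hN']
    exact_mod_cast NN_mono hF (by linarith only [hT10]) hU1 hU2'
  have hHm : H ≤ 7 * m := by
    have : H * 1 ≤ H * L := by gcongr
    linarith only [this, hHL7]
  have hCL1 : C * L ≤ η * m := by
    have h1 : C * 8 * (1 + L) ≤ η * H := by
      have h2 := a1
      rw [pow_one] at h2
      exact h2.trans (by gcongr)
    have h3 : η * H ≤ 7 * (η * m) := by
      have := mul_le_mul_of_nonneg_left hHm hη0.le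
      linarith only [this]
    have h5 : 0 ≤ C * 8 := by positivity
    nlinarith only [h1, h3, hC0, hηm]
  have hCL2 : (C * L) ^ 2 ≤ η * m := by
    have h1 : C ^ 2 * 8 * (1 + L) ^ 2 ≤ η * H := a2.trans (by gcongr)
    have h3 : η * H ≤ 7 * (η * m) := by
      have := mul_le_mul_of_nonneg_left hHm hη0.le
      linarith only [this]
    have h4 : (C * L) ^ 2 ≤ C ^ 2 * (1 + L) ^ 2 := by
      rw [mul_pow]; gcongr; linarith only []
    linarith only [h1, h3, h4, hηm]
  have hdiff0 : 0 ≤ N - N' := by linarith only [hmono]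
  have hdiff1 : N - N' ≤ η * m := by linarith only [hend, hCL1]
  have hdiff2 : (N - N') ^ 2 ≤ η * m := by
    refine le_trans ?_ hCL2
    gcongr
    linarith only [hend]
  have hNm1 : 0.9 * m ≤ N := by linarith only [n1, hmono, hηm1, hm0]
  have hNm2 : m ≤ N / 0.9 := by rw [le_div_iff₀ (by norm_num)]; linarith only [hNm1]
  have hN'2 : N' ≤ 2 * m := by linarith only [n2, hηm1, hm0]
  have hN0 : 0 < N := by linarith only [hNm1, hm0]
  -- transfer from η m to e N
  have htrans : ∀ x : ℝ, 0 ≤ x → x ≤ 30 * Q → x * (η * m) ≤ e * N := by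
    intro x hx hxQ
    calc x * (η * m) ≤ (30 * Q) * (η * m) := by gcongr
      _ = 30 * (η * Q) * m := by ring
      _ = (3 / 10 * e) * m := by rw [hηQ]; ring
      _ ≤ (3 / 10 * e) * (N / 0.9) := by gcongr
      _ ≤ e * N := by
        rw [mul_div_assoc']
        rw [div_le_iff₀ (by norm_num)]
        nlinarith [mul_pos he0 hN0]
  have heN : e * N ≤ ε * N := by gcongr
  -- bounds
  obtain ⟨b1, b2⟩ := bdry_MW hF (A := U1) (B := U2) (A' := T) (B' := T + H) (by linarith only [hT10]) hU1 hU2'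
    hφ0 hDu
  have b3 := bdry_Sq hF (A := U1) (B := U2) (A' := T) (B' := T + H) (by linarith only [hT10]) hU1 hU2'
    hφ0 hDu
  rw [← hN, ← hN'] at b2 b3
  have b4 : D * (N - N') ≤ D * (η * m) := by gcongr
  have b5 : D * (N - N') ^ 2 ≤ D * (η * m) := by gcongr
  have b6 : M * (N - N') ≤ M * (η * m) := by gcongr
  have b7 : 0 ≤ M * (N - N') := by positivity
  have b8 : η * N' ≤ 2 * (η * m) := by
    have := mul_le_mul_of_nonneg_left hN'2 hη0.le
    linarith only [this]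
  have w1' : |MW F U1 U2 φ - M * N'| ≤ 9 * (η * m) := by
    refine w1.trans ?_
    linarith only [hηUH, b8]
  have w3' : |PW (gS s) F ((h - δ) * L) U1 U2 φ - M * QQG (gS s) F ((h - δ) * L) U1 U2| ≤
      7 * (η * m) + η * QQG (gS s) F ((h - δ) * L) U1 U2 := by
    refine w3.trans ?_
    linarith only [hηUH]
  have q1 : QQG (gS s) F ((h - δ) * L) U1 U2 ≤ m * (cc h + 2 * η) := by
    refine hQQ.trans ?_
    exact mul_le_mul_of_nonneg_left (by linarith only [hcδ]) hm0.le
  have q2 := SqW_le_PW hW (F := F) (A := U1) (B := U2) (Λ := (h - δ) * L) hφ0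
  have b2' : MW F T (T + H) φ ≤ MW F U1 U2 φ + D * (η * m) := by linarith only [b2, b4]
  have b3' : SqW F T (T + H) φ ≤ SqW F U1 U2 φ + D * (η * m) := by linarith only [b3, b5]
  have n3 : m ≤ N + 7 * (η * m) := by linarith only [n1, hmono]
  have f1 := fin1 w1' b1 b2' b6 b7 (by positivity) (by positivity)
  have f2 := fin2 (x := η * m) rfl hηm hη0.le hη1 hM hcc0 w3' q1 q2 b3' n3
  refine ⟨?_, ?_, ?_⟩
  · refine f1.trans ((htrans _ (by positivity) ?_).trans heN)
    rw [hQ]; linarith only [hMc, hM, hD0, hcc0]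
  · refine f2.trans ?_
    have h1 := (htrans (8 + D + 2 * M + cc h + 7 * (M * cc h)) (by positivity) (by
      rw [hQ]; linarith only [hMc, hM, hD0, hcc0])).trans heN
    linarith only [h1]
  · have h0 : |N - m| ≤ 8 * (η * m) := by
      rw [abs_le]
      constructor
      · linarith only [n1, hmono, hηm]
      · linarith only [n2, hdiff1]
    refine h0.trans ?_
    have h1 : η ≤ e / 100 := by
      rw [← hηQ]
      exact le_mul_of_one_le_right hη0.le hQ1
    have h2 : m ≤ H * L := by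
      rw [hHL]
      exact le_mul_of_one_le_left hm0.le (by linarith only [hpi3])
    have h3 : 0 < H * L := by positivity
    calc 8 * (η * m) ≤ 8 * (e / 100 * (H * L)) := by gcongr
      _ ≤ e * (H * L) := by
        have := mul_pos he0 h3
        linarith only [this]
      _ ≤ ε * (H * L) := by gcongr

end TH803TW
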