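import Pool.Agent.TH803.TW.Gapw
import Pool.Agent.TH803.TW.AP

/-! Second moment of the normalised gaps, and Riemann sums over the zeros. -/

open Complex Filter Topology Set MeasureTheory
open scoped BigOperators ComplexConjugate

namespace TH803TW

open H370 H370.A2 H370.A3 H295SI
open SP (RHs)
open SG (ord NZ zmult ZS)
open LG (dlt)

lemma sq_layers {δ y : ℝ} (hδ : 0 ≤ δ) (hy : 0 < y) (J : ℕ) (h : δ < 2 ^ J * y) :
    δ ^ 2 ≤ y ^ 2 + ∑ j ∈ Finset.range J, 4 ^ (j + 1) * y ^ 2 *
      (if 2 ^ j * y ≤ δ then 1 else 0) := by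
  induction J with
  | zero =>
    rw [pow_zero, one_mul] at h
    rw [Finset.range_zero, Finset.sum_empty, add_zero]
    gcongr
  | succ J ih =>
    rw [Finset.sum_range_succ]
    have hnn : 0 ≤ ∑ j ∈ Finset.range J, (4 : ℝ) ^ (j + 1) * y ^ 2 *
        (if 2 ^ j * y ≤ δ then 1 else 0) := by
      refine Finset.sum_nonneg fun j _ => ?_
      split_ifs <;> positivity
    rcases lt_or_ge δ (2 ^ J * y) with h1 | h1
    · have h2 := ih h1
      rw [if_neg (not_le.2 h1), mul_zero, add_zero]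
      exact h2
    · rw [if_pos h1, mul_one]
      have h2 : δ ^ 2 ≤ (2 ^ (J + 1) * y) ^ 2 := by gcongr
      have h3 : ((2 : ℝ) ^ (J + 1) * y) ^ 2 = 4 ^ (J + 1) * y ^ 2 := by
        rw [mul_pow, ← pow_mul, mul_comm (J + 1) 2, pow_mul]; norm_num
      rw [h3] at h2
      have := sq_nonneg y
      linarith

lemma dlt_nonneg {n : ℕ} (hn : 1 ≤ n) (h1 : 1 ≤ ord n) : 0 ≤ dlt n := by
  have hpi := Real.pi_pos
  have hm := SG.ord_mono hn (Nat.le_succ n)
  unfold dlt
  have h2 : Real.log (ord n) ≤ Real.log (ord (n + 1)) := Real.log_le_log (by linarith) hm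
  have h3 : 0 ≤ Real.log (ord n) := Real.log_nonneg h1
  have h4 : ord n * Real.log (ord n) ≤ ord (n + 1) * Real.log (ord (n + 1)) :=
    mul_le_mul hm h2 h3 (by have : ord n ≤ ord (n + 1) := hm; linarith)
  apply div_nonneg _ (by positivity)
  linarith

/-- the second moment of the normalised gaps -/
lemma gap_sq (RH : RiemannHypothesis) : ∃ C : ℝ, 0 < C ∧ ∀ N : ℕ, 1 ≤ N → ∀ S : Finset ℕ,
    (∀ n ∈ S, 1 ≤ n ∧ n ≤ N ∧ 1 ≤ ord n) → ∑ n ∈ S, dlt n ^ 2 ≤ C * N := by
  classical
  obtain ⟨c, y0, hc, hy0, h⟩ := LG.gap_uniform (rhs_of RH)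
  set y : ℝ := max (max y0 (Real.exp 1)) (3 / c) with hy
  have hyy0 : y0 ≤ y := (le_max_left _ _).trans (le_max_left _ _)
  have hye : Real.exp 1 ≤ y := (le_max_right _ _).trans (le_max_left _ _)
  have hyc : 3 / c ≤ y := le_max_right _ _
  have hypos : 0 < y := (Real.exp_pos 1).trans_le hye
  refine ⟨9 * y ^ 2, by positivity, fun N hN S hS => ?_⟩
  obtain ⟨J, hJ⟩ : ∃ J : ℕ, ∀ n ∈ S, dlt n < 2 ^ J * y := by
    obtain ⟨J, hJ⟩ := pow_unbounded_of_one_lt ((∑ n ∈ S, |dlt n|) / y) (one_lt_two (α := ℝ))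
    refine ⟨J, fun n hn => ?_⟩
    rw [div_lt_iff₀ hypos] at hJ
    exact ((le_abs_self _).trans (Finset.single_le_sum (f := fun n => |dlt n|)
      (fun _ _ => abs_nonneg _) hn)).trans_lt hJ
  have hN0 : (0 : ℝ) ≤ N := Nat.cast_nonneg _
  calc ∑ n ∈ S, dlt n ^ 2 ≤ ∑ n ∈ S, (y ^ 2 + ∑ j ∈ Finset.range J, 4 ^ (j + 1) * y ^ 2 *
      (if 2 ^ j * y ≤ dlt n then 1 else 0)) := by
        refine Finset.sum_le_sum fun n hn => ?_
        obtain ⟨h1, h2, h3⟩ := hS n hn
        exact sq_layers (dlt_nonneg h1 h3) hypos J (hJ n hn)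
    _ = S.card * y ^ 2 + ∑ j ∈ Finset.range J, 4 ^ (j + 1) * y ^ 2 *
        ((S.filter fun n => 2 ^ j * y ≤ dlt n).card : ℝ) := by
        rw [Finset.sum_add_distrib, Finset.sum_const, nsmul_eq_mul, Finset.sum_comm]
        congr 1
        refine Finset.sum_congr rfl fun j _ => ?_
        rw [← Finset.mul_sum, Finset.card_filter]
        push_cast
        rfl
    _ ≤ N * y ^ 2 + ∑ j ∈ Finset.range J, 4 ^ (j + 1) * y ^ 2 * (N * (1 / 8) ^ j) := by
        have hcard : (S.card : ℝ) ≤ N := by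
          have : S ⊆ Finset.Icc 1 N := fun n hn => by
            obtain ⟨h1, h2, -⟩ := hS n hn
            exact Finset.mem_Icc.2 ⟨h1, h2⟩
          have h2 := Finset.card_le_card this
          rw [Nat.card_Icc, Nat.add_sub_cancel] at h2
          exact_mod_cast h2
        have hj : ∀ j ∈ Finset.range J, (4 : ℝ) ^ (j + 1) * y ^ 2 *
            ((S.filter fun n => 2 ^ j * y ≤ dlt n).card : ℝ) ≤
            4 ^ (j + 1) * y ^ 2 * (N * (1 / 8) ^ j) := by
          intro j _
          have hz0 : y ≤ 2 ^ j * y := by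
            have : (1 : ℝ) ≤ 2 ^ j := one_le_pow₀ (by norm_num)
            nlinarith
          have h1 := h N hN (2 ^ j * y) (hyy0.trans hz0)
          have h2 : ((S.filter fun n => 2 ^ j * y ≤ dlt n).card : ℝ) ≤
              ({n : ℕ | 1 ≤ n ∧ n ≤ N ∧ 2 ^ j * y ≤ dlt n}.ncard : ℝ) := by
            rw [← Set.ncard_coe_finset]
            have hfin : {n : ℕ | 1 ≤ n ∧ n ≤ N ∧ 2 ^ j * y ≤ dlt n}.Finite :=
              (Set.finite_Iic N).subset fun n hn => hn.2.1
            have := Set.ncard_le_ncard (s := (↑(S.filter fun n => 2 ^ j * y ≤ dlt n) : Set ℕ))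
              (t := {n : ℕ | 1 ≤ n ∧ n ≤ N ∧ 2 ^ j * y ≤ dlt n}) (by
              intro n hn
              rw [Finset.mem_coe, Finset.mem_filter] at hn
              obtain ⟨g1, g2, -⟩ := hS n hn.1
              exact ⟨g1, g2, hn.2⟩) hfin
            exact_mod_cast this
          have h3 : Real.exp (-c * (2 ^ j * y) * Real.log (2 ^ j * y)) ≤ (1 / 8) ^ j := by
            have h4 : 1 ≤ Real.log (2 ^ j * y) := by
              have := Real.log_le_log (Real.exp_pos 1) (hye.trans hz0)
              rw [Real.log_exp] at this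
              exact this
            have h5 : 3 ≤ c * y := by rw [div_le_iff₀ hc] at hyc; linarith
            have h6 : (j : ℝ) ≤ 2 ^ j := by exact_mod_cast (Nat.lt_two_pow_self (n := j)).le
            have h7 : 3 * (j : ℝ) ≤ c * (2 ^ j * y) * Real.log (2 ^ j * y) := by
              calc 3 * (j : ℝ) ≤ (c * y) * 2 ^ j := by gcongr
                _ = c * (2 ^ j * y) * 1 := by ring
                _ ≤ _ := by gcongr
            have h8 : ((1 : ℝ) / 8) ^ j = Real.exp (-(Real.log 8 * j)) := by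
              rw [Real.exp_neg, ← Real.rpow_def_of_pos (by norm_num : (0 : ℝ) < 8),
                Real.rpow_natCast, one_div, inv_pow]
            rw [h8, Real.exp_le_exp]
            have h9 : Real.log 8 ≤ 3 := by
              have : Real.log 8 = 3 * Real.log 2 := by
                rw [show (8 : ℝ) = 2 ^ 3 by norm_num, Real.log_pow]; norm_num
              rw [this]
              have := Real.log_two_lt_d9
              linarith
            have h10 : Real.log 8 * j ≤ 3 * j := by gcongr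
            linarith
          gcongr
          exact h2.trans (h1.trans (by gcongr))
        exact add_le_add (mul_le_mul_of_nonneg_right hcard (sq_nonneg y)) (Finset.sum_le_sum hj)
    _ = N * y ^ 2 + 4 * y ^ 2 * N * ∑ j ∈ Finset.range J, (1 / 2 : ℝ) ^ j := by
        rw [Finset.mul_sum]
        congr 1
        refine Finset.sum_congr rfl fun j _ => ?_
        have : (4 : ℝ) ^ (j + 1) * (1 / 8) ^ j = 4 * (1 / 2) ^ j := by
          rw [pow_succ, mul_comm ((4 : ℝ) ^ j) 4, mul_assoc, ← mul_pow]; norm_num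
        calc (4 : ℝ) ^ (j + 1) * y ^ 2 * (N * (1 / 8) ^ j) =
            ((4 : ℝ) ^ (j + 1) * (1 / 8) ^ j) * (y ^ 2 * N) := by ring
          _ = _ := by rw [this]; ring
    _ ≤ N * y ^ 2 + 4 * y ^ 2 * N * 2 := by
        have : ∑ j ∈ Finset.range J, (1 / 2 : ℝ) ^ j ≤ 2 := by
          have h1 := geom_sum_eq (x := (1 / 2 : ℝ)) (by norm_num) J
          rw [h1]
          have : 0 < (1 / 2 : ℝ) ^ J := by positivity
          rw [div_le_iff_of_neg (by norm_num)]
          linarith
        gcongr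
    _ = _ := by ring

/-- the gap and the normalised gap -/
lemma d_le_dlt {n : ℕ} (hn : 1 ≤ n) {T : ℝ} (hT : 1 ≤ T) (h : T ≤ ord n) :
    (ord (n + 1) - ord n) * Real.log T / (2 * Real.pi) ≤ dlt n := by
  have hpi := Real.pi_pos
  have hm := SG.ord_mono hn (Nat.le_succ n)
  have hx : 0 < ord n := by linarith
  unfold dlt
  have h2 : Real.log (ord n) ≤ Real.log (ord (n + 1)) := Real.log_le_log hx hm
  have h3 : Real.log T ≤ Real.log (ord n) := Real.log_le_log (by linarith) h
  have h4 : (ord (n + 1) - ord n) * Real.log T ≤ (ord (n + 1) - ord n) * Real.log (ord n) :=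
    mul_le_mul_of_nonneg_left h3 (by linarith)
  have h5 : ord (n + 1) * Real.log (ord n) ≤ ord (n + 1) * Real.log (ord (n + 1)) :=
    mul_le_mul_of_nonneg_left h2 (by linarith)
  gcongr
  linarith

/-- Riemann sums over the ordinates -/
lemma riemann_sum {w : ℝ → ℝ} {V : ℝ} (hV : ∀ x y, |w x - w y| ≤ V * |x - y|) {p q : ℕ}
    (hp : 1 ≤ p) (hpq : p ≤ q) :
    (∫ t in (ord p)..(ord q), w t) - V * ∑ n ∈ Finset.Ico p q, (ord (n + 1) - ord n) ^ 2 ≤
      ∑ n ∈ Finset.Ico p q, w (ord n) * (ord (n + 1) - ord n) := by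
  have hV0 : 0 ≤ V := by
    have := (abs_nonneg _).trans (hV 0 1)
    simpa using this
  have hc : Continuous w := by
    have : LipschitzWith V.toNNReal w := by
      refine LipschitzWith.of_dist_le_mul fun x y => ?_
      rw [Real.dist_eq, Real.dist_eq, Real.coe_toNNReal _ hV0]
      exact hV x y
    exact this.continuous
  rw [← intervalIntegral.sum_integral_adjacent_intervals_Ico hpq
    (fun n _ => hc.intervalIntegrable _ _), Finset.mul_sum, ← Finset.sum_sub_distrib]
  refine Finset.sum_le_sum fun n hn => ?_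
  rw [Finset.mem_Ico] at hn
  have hm := SG.ord_mono (by omega : 1 ≤ n) (Nat.le_succ n)
  have h1 : ∫ t in (ord n)..(ord (n + 1)), w t ≤
      ∫ t in (ord n)..(ord (n + 1)), (w (ord n) + V * (ord (n + 1) - ord n)) := by
    refine intervalIntegral.integral_mono_on hm (hc.intervalIntegrable _ _)
      (continuous_const.intervalIntegrable _ _) fun t ht => ?_
    have h2 := (abs_le.1 (hV t (ord n))).2
    have h3 : |t - ord n| ≤ ord (n + 1) - ord n := by
      rw [abs_of_nonneg (by linarith [ht.1])]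
      linarith [ht.2]
    have h4 : V * |t - ord n| ≤ V * (ord (n + 1) - ord n) := by gcongr
    linarith
  rw [intervalIntegral.integral_const, smul_eq_mul] at h1
  have e : (ord (n + 1) - ord n) * (w (ord n) + V * (ord (n + 1) - ord n)) =
    w (ord n) * (ord (n + 1) - ord n) + V * (ord (n + 1) - ord n) ^ 2 := by ring
  rw [e] at h1
  linarith

/-- the mean over `[T, 2T]` -/
lemma mean_dyadic {φ : ℝ → ℝ} {M : ℝ} (h : APm φ M) (hc : Continuous φ) (ε : ℝ) (hε : 0 < ε) :
    ∃ T0 : ℝ, 1 ≤ T0 ∧ ∀ T : ℝ, T0 ≤ T → (M - ε) * T ≤ ∫ t in T..(2 * T), φ t := by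
  obtain ⟨S, c, h0, h1, h2⟩ := h (ε / 6) (by positivity)
  have h3 := tp_mean c h0
  have h4 : ∀ᶠ X : ℝ in atTop, |(∫ t in (0 : ℝ)..X, tp S c t) / X - (c 0).re| < ε / 6 := by
    have := (Metric.tendsto_nhds.1 h3) (ε / 6) (by positivity)
    filter_upwards [this] with X hX
    rw [Real.dist_eq] at hX
    exact hX
  obtain ⟨X0, hX0⟩ := h4.exists_forall_of_atTop
  refine ⟨max 1 X0, le_max_left _ _, fun T hT => ?_⟩
  have hT1 : 1 ≤ T := (le_max_left _ _).trans hT
  have hTX : X0 ≤ T := (le_max_right _ _).trans hT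
  have g1 := (abs_lt.1 (hX0 T hTX)).2
  have g2 := (abs_lt.1 (hX0 (2 * T) (by linarith))).1
  rw [sub_lt_iff_lt_add, div_lt_iff₀ (by linarith)] at g1
  rw [lt_sub_iff_add_lt, lt_div_iff₀ (by linarith)] at g2
  have htc : Continuous (tp S c) := tp_cont S c
  have g3 : ∫ t in T..(2 * T), tp S c t =
      (∫ t in (0 : ℝ)..(2 * T), tp S c t) - ∫ t in (0 : ℝ)..T, tp S c t := by
    rw [intervalIntegral.integral_interval_sub_left (htc.intervalIntegrable _ _)
      (htc.intervalIntegrable _ _)]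
  have g4 : ∫ t in T..(2 * T), (tp S c t - ε / 6) ≤ ∫ t in T..(2 * T), φ t := by
    refine intervalIntegral.integral_mono_on (by linarith)
      ((htc.sub continuous_const).intervalIntegrable _ _) (hc.intervalIntegrable _ _) fun t _ => ?_
    have := (abs_le.1 (h1 t)).1
    linarith
  rw [intervalIntegral.integral_sub (htc.intervalIntegrable _ _)
    (continuous_const.intervalIntegrable _ _), intervalIntegral.integral_const, smul_eq_mul] at g4
  have h5 := (abs_le.1 h2)
  have h6 : (c 0).re * T ≥ (M - ε / 6) * T := by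
    have : M - ε / 6 ≤ (c 0).re := by linarith [h5.1, h5.2]
    gcongr
  rw [g3] at g4
  have h7 : 0 < ε * T := by positivity
  linarith

end TH803TW
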