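import Pool.Agent.TH803.TW.Clo
import Pool.Agent.H345R2.A3.Gap

/-! Small gaps with an almost periodic weight. -/

open Complex Filter Topology Set MeasureTheory
open scoped BigOperators ComplexConjugate

namespace TH803TW

open H370 H370.A2 H370.A3 H295SI
open SP (RHs)
open SG (ord NZ zmult ZS)

lemma rhs_of (RH : RiemannHypothesis) : RHs := by
  intro s h1 h2 h0
  apply RH s h0
  · rintro ⟨k, hk⟩
    have := congrArg Complex.re hk
    simp at this
    have hk0 : (0 : ℝ) ≤ k := Nat.cast_nonneg k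
    linarith
  · intro h; rw [h] at h2; simp at h2

/-- the third moment of the local counts -/
lemma cube_dyadic (RH : RiemannHypothesis) : ∃ C T0 : ℝ, 0 < C ∧ 10 ≤ T0 ∧ ∀ T : ℝ, T0 ≤ T →
    ∀ ρ : ℝ, 0 ≤ ρ → ρ ≤ 2 * Real.pi / Real.log T →
    ∑ s ∈ Zf riemannZeta (T + 1) (2 * T - 1), (mult riemannZeta s : ℝ) *
        (kk (T + 1) (2 * T - 1) ρ s : ℝ) ^ 2 ≤ C * (T * Real.log T) := by
  classical
  have hpi := Real.pi_pos
  obtain ⟨C, T1, hC, hT1, hc⟩ := cube_sum (rhs_of RH) (1 / 2) (4 * Real.pi) (by norm_num)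
    (by norm_num) (by positivity)
  have ev1 : ∀ᶠ T : ℝ in atTop, 8 * Real.log T ≤ T / 20 := by
    have h1 := Real.isLittleO_log_id_atTop.bound (show (0 : ℝ) < 1 / 160 by norm_num)
    filter_upwards [h1, eventually_ge_atTop 1] with T h2 h3
    rw [Real.norm_of_nonneg (Real.log_nonneg h3), id, Real.norm_of_nonneg (by linarith)] at h2
    linarith
  have ev2 : ∀ᶠ T : ℝ in atTop, 20 * Real.pi ≤ Real.log T :=
    Real.tendsto_log_atTop.eventually_ge_atTop _
  have ev3 : ∀ᶠ T : ℝ in atTop, (5 : ℝ) ≤ T ^ (1 / 2 : ℝ) :=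
    (tendsto_rpow_atTop (by norm_num)).eventually_ge_atTop _
  obtain ⟨T2, hT2⟩ := (ev1.and (ev2.and ev3)).exists_forall_of_atTop
  refine ⟨4 * C, max 100 (max (2 * T1) T2), by positivity,
    le_trans (by norm_num) (le_max_left _ _), fun T hT ρ hρ0 hρ => ?_⟩
  have hT100 : 100 ≤ T := (le_max_left _ _).trans hT
  have hTT1 : 2 * T1 ≤ T := ((le_max_left _ _).trans (le_max_right _ _)).trans hT
  obtain ⟨e1, e2, e3⟩ := hT2 T (((le_max_right _ _).trans (le_max_right _ _)).trans hT)
  have hpos : 0 < T := by linarith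
  set L := Real.log T with hL
  have hL0 : 0 < L := by linarith
  have hρ1 : ρ ≤ T / 10 := by
    have h1 : 2 * Real.pi / L ≤ 1 := by
      rw [div_le_one hL0]; linarith
    linarith
  -- a block
  have hblock : ∀ Tb A B : ℝ, T / 2 ≤ Tb → Tb ≤ 2 * T → Tb + 4 * Real.log Tb ≤ A →
      B ≤ 2 * Tb - 4 * Real.log Tb → T / 2 ≤ B - A → B - A ≤ T → 1 ≤ A →
      ∑ s ∈ Zf riemannZeta A B, (mult riemannZeta s : ℝ) *
        (kk A B ρ s : ℝ) ^ 2 ≤ 2 * C * (T * L) := by
    intro Tb A B hb1 hb2 hb3 hb4 hb5 hb6 hA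
    have hTb0 : 0 < Tb := by linarith
    have hlogb : Real.log Tb ≤ 2 * L := by
      have h1 : Real.log Tb ≤ Real.log (T ^ 2) := Real.log_le_log hTb0 (by nlinarith)
      rw [Real.log_pow] at h1
      push_cast at h1
      exact h1
    have hlogb0 : 0 < Real.log Tb := Real.log_pos (by linarith)
    have h1 := hc Tb (by linarith) A B hb3 hb4 (by
      calc Tb ^ (1 / 2 : ℝ) ≤ (2 * T) ^ (1 / 2 : ℝ) := Real.rpow_le_rpow hTb0.le hb2 (by norm_num)
        _ = 2 ^ (1 / 2 : ℝ) * T ^ (1 / 2 : ℝ) := Real.mul_rpow (by norm_num) hpos.le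
        _ ≤ 2 * T ^ (1 / 2 : ℝ) := by
            gcongr
            calc (2 : ℝ) ^ (1 / 2 : ℝ) ≤ 2 ^ (1 : ℝ) :=
                  Real.rpow_le_rpow_of_exponent_le (by norm_num) (by norm_num)
              _ = 2 := Real.rpow_one 2
        _ ≤ T / 2 := by
            have h5 : T ^ (1 / 2 : ℝ) * T ^ (1 / 2 : ℝ) = T := by
              rw [← Real.rpow_add hpos]; norm_num
            nlinarith
        _ ≤ B - A := hb5)
    have hρρ : ρ ≤ 4 * Real.pi / Real.log Tb := by
      refine hρ.trans ?_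
      rw [div_le_div_iff₀ hL0 hlogb0]
      calc 2 * Real.pi * Real.log Tb ≤ 2 * Real.pi * (2 * L) := by gcongr
        _ = 4 * Real.pi * L := by ring
    calc _ ≤ ∑ s ∈ Zf riemannZeta A B, (mult riemannZeta s : ℝ) *
        (kk A B (4 * Real.pi / Real.log Tb) s : ℝ) ^ 2 := by
          refine Finset.sum_le_sum fun s _ => ?_
          have h2 : (kk A B ρ s : ℝ) ≤ (kk A B (4 * Real.pi / Real.log Tb) s : ℝ) := by
            exact_mod_cast kk_mono A B hρρ s
          gcongr
      _ ≤ C * ((B - A) * Real.log Tb) := h1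
      _ ≤ C * (T * (2 * L)) := by gcongr
      _ = _ := by ring
  have hloc : ∀ A B : ℝ, T + 1 ≤ A ∨ A = T + 1 → T + 1 ≤ A → B ≤ 2 * T - 1 → ∀ s : ℂ,
      (∀ s' ∈ Zf riemannZeta (T + 1) (2 * T - 1), |s.im - s'.im| ≤ ρ →
        s' ∈ Zf riemannZeta A B) →
      (kk (T + 1) (2 * T - 1) ρ s : ℝ) ≤ (kk A B ρ s : ℝ) := by
    intro A B _ hA hB s hs
    rw [kk_cast, kk_cast]
    refine Finset.sum_le_sum_of_subset_of_nonneg ?_ fun _ _ _ => Nat.cast_nonneg _
    intro s' hs'
    rw [Finset.mem_filter] at hs' ⊢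
    exact ⟨hs s' hs'.1 hs'.2, hs'.2⟩
  have b1 := hblock (9 / 10 * T) (T + 1) (8 / 5 * T) (by linarith) (by linarith) (by
      have : Real.log (9 / 10 * T) ≤ L := Real.log_le_log (by positivity) (by linarith)
      linarith) (by
      have : Real.log (9 / 10 * T) ≤ L := Real.log_le_log (by positivity) (by linarith)
      linarith) (by linarith) (by linarith) (by linarith)
  have b2 := hblock (6 / 5 * T) (7 / 5 * T) (2 * T - 1) (by linarith) (by linarith) (by
      have : Real.log (6 / 5 * T) ≤ 2 * L := by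
        have h1 : Real.log (6 / 5 * T) ≤ Real.log (T ^ 2) :=
          Real.log_le_log (by positivity) (by nlinarith)
        rw [Real.log_pow] at h1
        push_cast at h1
        exact h1
      linarith) (by
      have : Real.log (6 / 5 * T) ≤ 2 * L := by
        have h1 : Real.log (6 / 5 * T) ≤ Real.log (T ^ 2) :=
          Real.log_le_log (by positivity) (by nlinarith)
        rw [Real.log_pow] at h1
        push_cast at h1
        exact h1
      linarith) (by linarith) (by linarith) (by linarith)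
  have hA1 : 1 ≤ T + 1 := by linarith
  rw [← Finset.sum_filter_add_sum_filter_not (Zf riemannZeta (T + 1) (2 * T - 1))
    (fun s => s.im ≤ 3 / 2 * T)]
  have c1 : ∑ s ∈ (Zf riemannZeta (T + 1) (2 * T - 1)).filter (fun s => s.im ≤ 3 / 2 * T),
      (mult riemannZeta s : ℝ) * (kk (T + 1) (2 * T - 1) ρ s : ℝ) ^ 2 ≤
      ∑ s ∈ Zf riemannZeta (T + 1) (8 / 5 * T), (mult riemannZeta s : ℝ) *
        (kk (T + 1) (8 / 5 * T) ρ s : ℝ) ^ 2 := by
    calc _ ≤ ∑ s ∈ (Zf riemannZeta (T + 1) (2 * T - 1)).filter (fun s => s.im ≤ 3 / 2 * T),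
        (mult riemannZeta s : ℝ) * (kk (T + 1) (8 / 5 * T) ρ s : ℝ) ^ 2 := by
          refine Finset.sum_le_sum fun s hs => ?_
          rw [Finset.mem_filter] at hs
          have h2 := hloc (T + 1) (8 / 5 * T) (Or.inr rfl) le_rfl (by linarith) s (by
            intro s' hs' hd
            rw [mem_Zf good_zeta hA1] at hs' ⊢
            obtain ⟨p1, p2, p3, p4, p5⟩ := hs'
            have := (abs_le.1 hd).1
            exact ⟨p1, p2, p3, by linarith [hs.2], p5⟩)
          gcongr
      _ ≤ _ := by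
          refine Finset.sum_le_sum_of_subset_of_nonneg ?_ fun _ _ _ => by positivity
          intro s hs
          rw [Finset.mem_filter, mem_Zf good_zeta hA1] at hs
          rw [mem_Zf good_zeta hA1]
          obtain ⟨⟨p1, p2, p3, p4, p5⟩, p6⟩ := hs
          exact ⟨p1, p2, p3, by linarith, p5⟩
  have c2 : ∑ s ∈ (Zf riemannZeta (T + 1) (2 * T - 1)).filter (fun s => ¬ s.im ≤ 3 / 2 * T),
      (mult riemannZeta s : ℝ) * (kk (T + 1) (2 * T - 1) ρ s : ℝ) ^ 2 ≤
      ∑ s ∈ Zf riemannZeta (7 / 5 * T) (2 * T - 1), (mult riemannZeta s : ℝ) *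
        (kk (7 / 5 * T) (2 * T - 1) ρ s : ℝ) ^ 2 := by
    have hA2 : 1 ≤ 7 / 5 * T := by linarith
    calc _ ≤ ∑ s ∈ (Zf riemannZeta (T + 1) (2 * T - 1)).filter (fun s => ¬ s.im ≤ 3 / 2 * T),
        (mult riemannZeta s : ℝ) * (kk (7 / 5 * T) (2 * T - 1) ρ s : ℝ) ^ 2 := by
          refine Finset.sum_le_sum fun s hs => ?_
          rw [Finset.mem_filter] at hs
          have h2 := hloc (7 / 5 * T) (2 * T - 1) (Or.inl (by linarith)) (by linarith) le_rfl s (by
            intro s' hs' hd
            rw [mem_Zf good_zeta hA1] at hs'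
            rw [mem_Zf good_zeta hA2]
            obtain ⟨p1, p2, p3, p4, p5⟩ := hs'
            have h3 := (abs_le.1 hd).2
            have h4 := hs.2
            push Not at h4
            exact ⟨p1, p2, by linarith, p4, p5⟩)
          gcongr
      _ ≤ _ := by
          refine Finset.sum_le_sum_of_subset_of_nonneg ?_ fun _ _ _ => by positivity
          intro s hs
          rw [Finset.mem_filter, mem_Zf good_zeta hA1] at hs
          rw [mem_Zf good_zeta hA2]
          obtain ⟨⟨p1, p2, p3, p4, p5⟩, p6⟩ := hs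
          push Not at p6
          exact ⟨p1, p2, by linarith, p4, p5⟩
  linarith

/-- the indices attached to a zero with a close neighbour -/
lemma near_idx (hRH : RiemannHypothesis) {A B ρ : ℝ} (hA : 1 ≤ A) (hρ : 0 ≤ ρ) {s : ℂ}
    (hsZ : s ∈ Zf riemannZeta A B) (hk : 2 ≤ kk A B ρ s) {n : ℕ}
    (hn : n ∈ Finset.Ioc (NZ s.im - mult riemannZeta s) (NZ s.im)) :
    ord n = s.im ∧ (n ∈ EE' A B ρ ∨ ∃ n', n = n' + 1 ∧ n' ∈ EE' A B ρ) := by
  classical
  have hmle : ∀ s ∈ Zf riemannZeta A B, mult riemannZeta s ≤ NZ s.im := by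
    intro s hs
    obtain ⟨h1, h2, h3, h4⟩ := on_line hRH hA hs
    have := LG.CU.mult_le_NZ (by linarith : 0 < s.im) h4
    rw [h1] at this
    exact this
  have hmpos : ∀ s ∈ Zf riemannZeta A B, 1 ≤ mult riemannZeta s := by
    intro s hs
    obtain ⟨h1, h2, h3, h4⟩ := on_line hRH hA hs
    have := SG.zmult_pos (s := s) (by linarith) (by rw [← h1]; exact h4)
    exact this
  have hord : ∀ s ∈ Zf riemannZeta A B, ∀ n, NZ s.im < n + mult riemannZeta s → n ≤ NZ s.im →
      1 ≤ n → ord n = s.im := by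
    intro s hs n h5 h6 h7
    obtain ⟨h1, h2, h3, h4⟩ := on_line hRH hA hs
    exact LG.CU.ord_eq_of (by linarith) h4 (by rw [h1]; exact h5) h6 h7
  rw [Finset.mem_Ioc] at hn
  obtain ⟨hn1, hn2⟩ := hn
  have hm := hmle s hsZ
  obtain ⟨g1, g2, g3, g4⟩ := on_line hRH hA hsZ
  have en := hord s hsZ n (by omega) hn2 (by omega)
  refine ⟨en, ?_⟩
  by_cases hm2 : 2 ≤ mult riemannZeta s
  · -- multiple zero
    by_cases hlast : n = NZ s.im
    · right
      refine ⟨n - 1, by omega, ?_⟩
      have e2 := hord s hsZ (n - 1) (by omega) (by omega) (by omega)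
      have e3 : n - 1 + 1 = n := by omega
      refine ⟨by omega, by rw [e2]; exact g2, by rw [e3, en]; exact g3, ?_⟩
      rw [e3, en, e2]
      linarith
    · left
      have e2 := hord s hsZ (n + 1) (by omega) (by omega) (by omega)
      refine ⟨by omega, by rw [en]; exact g2, by rw [e2]; exact g3, ?_⟩
      rw [e2, en]
      linarith
  · -- another zero
    have hm1 : mult riemannZeta s = 1 := by have := hmpos s hsZ; omega
    obtain ⟨s', hs', hne, hclose⟩ : ∃ s' ∈ Zf riemannZeta A B, s' ≠ s ∧ |s.im - s'.im| ≤ ρ := by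
      by_contra hcon
      push Not at hcon
      have : kk A B ρ s ≤ 1 := by
        unfold kk
        calc ∑ s' ∈ Zf riemannZeta A B, (mult riemannZeta s' *
              if |s.im - s'.im| ≤ ρ then 1 else 0) ≤
            ∑ s' ∈ Zf riemannZeta A B, (if s' = s then 1 else 0) := by
              refine Finset.sum_le_sum fun s' hs' => ?_
              by_cases h : s' = s
              · rw [if_pos h, h, hm1]
                split_ifs <;> omega
              · rw [if_neg h, if_neg (not_le.2 (hcon s' hs' h))]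
                omega
          _ ≤ 1 := by
              rw [Finset.sum_ite_eq']
              split_ifs <;> omega
      omega
    obtain ⟨q1, q2, q3, q4⟩ := on_line hRH hA hs'
    have hm' := hmle s' hs'
    have hp' := hmpos s' hs'
    have hneim : s'.im ≠ s.im := by
      intro h
      apply hne
      rw [← q1, ← g1, h]
    obtain ⟨c1, c2⟩ := abs_le.1 hclose
    rcases lt_or_gt_of_ne hneim with h | h
    · -- previous
      right
      have e2 := hord s' hs' (NZ s'.im) (by omega) le_rfl (by omega)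
      have h5 : NZ s'.im < n := by
        by_contra h6
        push Not at h6
        have := SG.ord_mono (by omega : 1 ≤ n) h6
        rw [e2, en] at this
        linarith
      have h6 : s'.im ≤ ord (n - 1) := by
        rw [← e2]
        exact SG.ord_mono (by omega) (by omega)
      refine ⟨n - 1, by omega, ?_⟩
      have e3 : n - 1 + 1 = n := by omega
      refine ⟨by omega, by linarith, by rw [e3, en]; exact g3, ?_⟩
      rw [e3, en]
      linarith
    · -- next
      left
      have e2 := hord s' hs' (NZ s'.im) (by omega) le_rfl (by omega)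
      have h5 : n < NZ s'.im := by
        by_contra h6
        push Not at h6
        have := SG.ord_mono (by omega : 1 ≤ NZ s'.im) h6
        rw [e2, en] at this
        linarith
      have h6 : ord (n + 1) ≤ s'.im := by
        rw [← e2]
        exact SG.ord_mono (by omega) (by omega)
      refine ⟨by omega, by rw [en]; exact g2, by linarith, ?_⟩
      rw [en]
      linarith

/-- sums over zeros with a close neighbour in terms of gaps -/
lemma W_le' (hRH : RiemannHypothesis) {A B ρ : ℝ} (hA : 1 ≤ A) (hρ : 0 ≤ ρ) {w : ℝ → ℝ}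
    (hw : ∀ t, 0 ≤ w t) :
    ∑ s ∈ (Zf riemannZeta A B).filter (fun s => 2 ≤ kk A B ρ s),
      (mult riemannZeta s : ℝ) * w s.im ≤
      ∑ n ∈ (EE_finite A B ρ).toFinset, (w (ord n) + w (ord (n + 1))) := by
  classical
  set S := (Zf riemannZeta A B).filter (fun s => 2 ≤ kk A B ρ s) with hS
  set J : ℂ → Finset ℕ := fun s => Finset.Ioc (NZ s.im - mult riemannZeta s) (NZ s.im) with hJ
  have hmle : ∀ s ∈ Zf riemannZeta A B, mult riemannZeta s ≤ NZ s.im := by
    intro s hs
    obtain ⟨h1, h2, h3, h4⟩ := on_line hRH hA hs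
    have := LG.CU.mult_le_NZ (by linarith : 0 < s.im) h4
    rw [h1] at this
    exact this
  have hcard : ∀ s ∈ Zf riemannZeta A B, (J s).card = mult riemannZeta s := by
    intro s hs
    have := hmle s hs
    rw [hJ, Nat.card_Ioc]
    omega
  have hSZ : ∀ s ∈ S, s ∈ Zf riemannZeta A B := fun s hs => (Finset.mem_filter.1 hs).1
  have hSk : ∀ s ∈ S, 2 ≤ kk A B ρ s := fun s hs => (Finset.mem_filter.1 hs).2
  have hidx : ∀ s ∈ S, ∀ n ∈ J s, ord n = s.im ∧
      (n ∈ EE' A B ρ ∨ ∃ n', n = n' + 1 ∧ n' ∈ EE' A B ρ) := fun s hs n hn =>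
    near_idx hRH hA hρ (hSZ s hs) (hSk s hs) hn
  have hdisj : (S : Set ℂ).PairwiseDisjoint J := by
    intro s hs s' hs' hne
    rw [Function.onFun, Finset.disjoint_left]
    intro n hn hn'
    have e1 := (hidx s hs n hn).1
    have e2 := (hidx s' hs' n hn').1
    apply hne
    obtain ⟨g1, _⟩ := on_line hRH hA (hSZ s hs)
    obtain ⟨g2, _⟩ := on_line hRH hA (hSZ s' hs')
    rw [← g1, ← g2, ← e1, ← e2]
  have hsum : ∑ s ∈ S, (mult riemannZeta s : ℝ) * w s.im = ∑ n ∈ S.biUnion J, w (ord n) := by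
    rw [Finset.sum_biUnion hdisj]
    refine Finset.sum_congr rfl fun s hs => ?_
    rw [← hcard s (hSZ s hs), Finset.sum_congr rfl (fun n hn => by
      rw [(hidx s hs n hn).1] : ∀ n ∈ J s, w (ord n) = w s.im), Finset.sum_const, nsmul_eq_mul]
  set E := (EE_finite A B ρ).toFinset with hE
  have hsub : S.biUnion J ⊆ E ∪ E.image (· + 1) := by
    intro n hn
    rw [Finset.mem_biUnion] at hn
    obtain ⟨s, hs, hn⟩ := hn
    rw [Finset.mem_union, Finset.mem_image, hE, Set.Finite.mem_toFinset]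
    rcases (hidx s hs n hn).2 with h | ⟨n', h1, h2⟩
    · exact Or.inl h
    · exact Or.inr ⟨n', by rw [Set.Finite.mem_toFinset]; exact h2, h1.symm⟩
  rw [hsum, Finset.sum_add_distrib]
  calc ∑ n ∈ S.biUnion J, w (ord n) ≤ ∑ n ∈ E ∪ E.image (· + 1), w (ord n) :=
        Finset.sum_le_sum_of_subset_of_nonneg hsub fun _ _ _ => hw _
    _ ≤ ∑ n ∈ E, w (ord n) + ∑ n ∈ E.image (· + 1), w (ord n) := by
        rw [← Finset.sum_union_inter]
        have : 0 ≤ ∑ n ∈ E ∩ E.image (· + 1), w (ord n) := Finset.sum_nonneg fun _ _ => hw _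
        linarith
    _ = _ := by
        congr 1
        rw [Finset.sum_image (fun a _ b _ h => by
          have : a + 1 = b + 1 := h
          omega)]

end TH803TW
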