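import Pool.Agent.TH803.TW.Gapn
import Pool.Agent.H382L.GapUnif

/-! Small gaps with an almost periodic weight, conclusion. -/

open Complex Filter Topology Set MeasureTheory
open scoped BigOperators ComplexConjugate

namespace TH803TW

open H370 H370.A2 H370.A3 H295SI
open SP (RHs)
open SG (ord NZ zmult ZS)

/-- upper bound for the single sum in a dyadic interval -/
lemma MW_upper {F : ℂ → ℂ} (hF : GoodL F) (hline : Line F) {φ : ℝ → ℝ} {M : ℝ} (hφ : APm φ M)
    (hφ0 : ∀ t, 0 ≤ φ t) (hM : 0 ≤ M) (ε : ℝ) (hε : 0 < ε) :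
    ∃ T0 : ℝ, 10 ≤ T0 ∧ ∀ T : ℝ, T0 ≤ T →
      MW F T (2 * T) φ ≤ (M + ε) * (T * Real.log T / (2 * Real.pi)) := by
  classical
  have hpi := Real.pi_pos
  have hpi4 := Real.pi_lt_d2
  set e : ℝ := min 1 (ε / (14 + 13 * M)) with he
  have he0 : 0 < e := lt_min one_pos (by positivity)
  have he1 : e ≤ 1 := min_le_left _ _
  have he2 : e * (14 + 13 * M) ≤ ε := by
    have := min_le_right 1 (ε / (14 + 13 * M))
    rw [← he, le_div_iff₀ (by positivity)] at this
    exact this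
  obtain ⟨T1, hT1, h1⟩ := shortW hF hline hφ hφ0 hM (1 / 2) e (by norm_num) (by norm_num) he0
  have ev1 : ∀ᶠ T : ℝ in atTop, (4 : ℝ) ≤ T ^ (1 / 2 : ℝ) :=
    (tendsto_rpow_atTop (by norm_num)).eventually_ge_atTop _
  have ev2 : ∀ᶠ T : ℝ in atTop, 1 / e ≤ Real.log T :=
    Real.tendsto_log_atTop.eventually_ge_atTop _
  obtain ⟨T2, hT2⟩ := (ev1.and ev2).exists_forall_of_atTop
  refine ⟨max T1 T2, hT1.trans (le_max_left _ _), fun T hT => ?_⟩
  have hTT1 : T1 ≤ T := (le_max_left _ _).trans hT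
  obtain ⟨e1, e2⟩ := hT2 T ((le_max_right _ _).trans hT)
  have hT10 : 10 ≤ T := hT1.trans hTT1
  have hpos : 0 < T := by linarith
  set L := Real.log T with hL
  have hL0 : 0 < L := Real.log_pos (by linarith)
  have h5 : T ^ (1 / 2 : ℝ) * T ^ (1 / 2 : ℝ) = T := by
    rw [← Real.rpow_add hpos]; norm_num
  obtain ⟨a1, -, a3⟩ := h1 T hTT1 (T / 2) (by nlinarith) le_rfl
  have e3 : T + T / 2 = 3 / 2 * T := by ring
  rw [e3] at a1 a3
  obtain ⟨b1, -, b3⟩ := h1 (3 / 2 * T) (by linarith) (T / 2) (by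
    calc (3 / 2 * T) ^ (1 / 2 : ℝ) = (3 / 2) ^ (1 / 2 : ℝ) * T ^ (1 / 2 : ℝ) :=
          Real.mul_rpow (by norm_num) hpos.le
      _ ≤ 2 * T ^ (1 / 2 : ℝ) := by
          gcongr
          calc (3 / 2 : ℝ) ^ (1 / 2 : ℝ) ≤ (3 / 2) ^ (1 : ℝ) :=
                Real.rpow_le_rpow_of_exponent_le (by norm_num) (by norm_num)
            _ ≤ 2 := by norm_num
      _ ≤ T / 2 := by nlinarith) (by linarith)
  have e4 : 3 / 2 * T + T / 2 = 2 * T := by ring
  rw [e4] at b1 b3
  have hlog : Real.log (3 / 2 * T) ≤ (1 + e) * L := by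
    rw [Real.log_mul (by norm_num) hpos.ne']
    have h6 : Real.log (3 / 2) ≤ 1 := by
      have := Real.log_le_sub_one_of_pos (show (0 : ℝ) < 3 / 2 by norm_num)
      linarith
    rw [div_le_iff₀ he0] at e2
    linarith
  have hlog0 : 0 ≤ Real.log (3 / 2 * T) := Real.log_nonneg (by linarith)
  have hsum : MW F T (2 * T) φ ≤ MW F T (3 / 2 * T) φ + MW F (3 / 2 * T) (2 * T) φ := by
    unfold MW
    have hsub : Zf F T (2 * T) ⊆ Zf F T (3 / 2 * T) ∪ Zf F (3 / 2 * T) (2 * T) := by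
      intro s hs
      rw [mem_Zf hF (by linarith)] at hs
      rw [Finset.mem_union, mem_Zf hF (by linarith), mem_Zf hF (by linarith)]
      obtain ⟨p1, p2, p3, p4, p5⟩ := hs
      rcases le_or_gt s.im (3 / 2 * T) with h | h
      · exact Or.inl ⟨p1, p2, p3, h, p5⟩
      · exact Or.inr ⟨p1, p2, h, p4, p5⟩
    refine (Finset.sum_le_sum_of_subset_of_nonneg hsub fun s _ _ =>
      mul_nonneg (Nat.cast_nonneg _) (hφ0 _)).trans ?_
    rw [← Finset.sum_union_inter]
    have : 0 ≤ ∑ s ∈ Zf F T (3 / 2 * T) ∩ Zf F (3 / 2 * T) (2 * T), (mult F s : ℝ) * φ s.im :=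
      Finset.sum_nonneg fun s _ => mul_nonneg (Nat.cast_nonneg _) (hφ0 _)
    linarith
  have c1 := (abs_le.1 a1).2
  have c3 := (abs_le.1 a3).2
  have d1 := (abs_le.1 b1).2
  have d3 := (abs_le.1 b3).2
  have hN1 : (NN F T (3 / 2 * T) : ℝ) ≤ (1 + 7 * e) * (T / 2 * L / (2 * Real.pi)) := by
    have : e * (T / 2 * L) = 2 * Real.pi * e * (T / 2 * L / (2 * Real.pi)) := by field_simp
    have h7 : 2 * Real.pi * e * (T / 2 * L / (2 * Real.pi)) ≤
        7 * e * (T / 2 * L / (2 * Real.pi)) := by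
      gcongr
      linarith
    linarith
  have hN2 : (NN F (3 / 2 * T) (2 * T) : ℝ) ≤
      (1 + 7 * e) * ((1 + e) * (T / 2 * L / (2 * Real.pi))) := by
    have : e * (T / 2 * Real.log (3 / 2 * T)) =
        2 * Real.pi * e * (T / 2 * Real.log (3 / 2 * T) / (2 * Real.pi)) := by field_simp
    have h7 : 2 * Real.pi * e * (T / 2 * Real.log (3 / 2 * T) / (2 * Real.pi)) ≤
        7 * e * (T / 2 * Real.log (3 / 2 * T) / (2 * Real.pi)) := by
      gcongr
      linarith
    have h8 : T / 2 * Real.log (3 / 2 * T) / (2 * Real.pi) ≤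
        (1 + e) * (T / 2 * L / (2 * Real.pi)) := by
      have : (1 + e) * (T / 2 * L / (2 * Real.pi)) = T / 2 * ((1 + e) * L) / (2 * Real.pi) := by
        ring
      rw [this]
      gcongr
    calc (NN F (3 / 2 * T) (2 * T) : ℝ) ≤
        (1 + 7 * e) * (T / 2 * Real.log (3 / 2 * T) / (2 * Real.pi)) := by linarith
      _ ≤ _ := by gcongr
  set Z := T / 2 * L / (2 * Real.pi) with hZ
  have hZ0 : 0 < Z := by positivity
  have hY : T * L / (2 * Real.pi) = 2 * Z := by rw [hZ]; ring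
  rw [hY]
  have hfin : (M + e) * ((1 + 7 * e) * Z + (1 + 7 * e) * ((1 + e) * Z)) ≤ (M + ε) * (2 * Z) := by
    have h9 : (M + e) * ((1 + 7 * e) * (2 + e)) ≤ (M + ε) * 2 := by
      have q1 : (1 + 7 * e) * (2 + e) ≤ 2 + 22 * e := by nlinarith
      have q2 : (M + e) * ((1 + 7 * e) * (2 + e)) ≤ (M + e) * (2 + 22 * e) := by gcongr
      nlinarith
    calc (M + e) * ((1 + 7 * e) * Z + (1 + 7 * e) * ((1 + e) * Z)) =
        ((M + e) * ((1 + 7 * e) * (2 + e))) * Z := by ring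
      _ ≤ ((M + ε) * 2) * Z := by gcongr
      _ = _ := by ring
  have hMe : 0 ≤ M + e := by linarith
  calc MW F T (2 * T) φ ≤ (M + e) * NN F T (3 / 2 * T) + (M + e) * NN F (3 / 2 * T) (2 * T) := by
        linarith
    _ ≤ (M + e) * ((1 + 7 * e) * Z) + (M + e) * ((1 + 7 * e) * ((1 + e) * Z)) := by gcongr
    _ = (M + e) * ((1 + 7 * e) * Z + (1 + 7 * e) * ((1 + e) * Z)) := by ring
    _ ≤ _ := hfin

lemma QW_kk (w : ℝ → ℝ) (ρ A B : ℝ) : QW w riemannZeta ρ A B = ∑ s ∈ Zf riemannZeta A B,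
    (mult riemannZeta s : ℝ) * w s.im * (kk A B ρ s : ℝ) := by
  unfold QW kk
  refine Finset.sum_congr rfl fun s _ => ?_
  push_cast
  rw [Finset.mul_sum]
  refine Finset.sum_congr rfl fun s' _ => ?_
  ring

/-- **small gaps with an almost periodic weight** -/
theorem small_gap_weight (RH : RiemannHypothesis) (hline : Line riemannZeta) {g : ℝ → ℝ}
    {D D1 M : ℝ} (hD : ∀ t, |g t| ≤ D) (hD1 : ∀ x y, |g x - g y| ≤ D1 * |x - y|)
    (hM : APm (fun t => g t ^ 2) M) (hM0 : 0 < M) (β : ℝ) (hβ : 0 < β) (hβ1 : β ≤ 1)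
    (hG : 1 < gg β 1) :
    ∃ c T0 : ℝ, 0 < c ∧ 10 ≤ T0 ∧ ∀ T : ℝ, T0 ≤ T → c * (T * Real.log T) ≤
      ∑ n ∈ (EE_finite (T + 1) (2 * T - 1) (2 * Real.pi * β / Real.log T)).toFinset,
        g (ord n) ^ 2 := by
  classical
  have hpi := Real.pi_pos
  have hpi3 := Real.pi_gt_three
  have hF : GoodL riemannZeta := good_zeta
  have hD0 : 0 ≤ D := (abs_nonneg _).trans (hD 0)
  have hD10 : 0 ≤ D1 := by
    have := (abs_nonneg _).trans (hD1 0 1)
    simpa using this
  set ε : ℝ := M * (gg β 1 - 1) / 4 with hε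
  have hε0 : 0 < ε := by
    have : 0 < gg β 1 - 1 := by linarith
    positivity
  obtain ⟨T1, hT1, h1⟩ := close_pairs RH hline hD hD1 hM hM0.le β ε hβ hβ1 hε0
  obtain ⟨T2, hT2, h2⟩ := MW_upper hF hline hM (fun t => sq_nonneg _) hM0.le ε hε0
  obtain ⟨C3, T3, hC3, hT3, h3⟩ := cube_dyadic RH
  obtain ⟨C4, T4, hC4, hT4, h4⟩ := LG.GapAux.NZ_up
  set X : ℝ := (D ^ 2 + 1) * C3 with hX
  have hX0 : 0 < X := by positivity
  set c : ℝ := ε ^ 2 / (Real.pi ^ 2 * X) with hc
  have hc0 : 0 < c := by positivity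
  set E5 : ℝ := 4 * D * D1 * Real.pi * C4 with hE5
  have hE50 : 0 ≤ E5 := by positivity
  obtain ⟨T5, hT5⟩ := (Real.tendsto_log_atTop.eventually_ge_atTop
    (2 * E5 / c + 1)).exists_forall_of_atTop
  refine ⟨c / 4, max (max T1 T2) (max T3 (max T4 T5)), by positivity,
    hT1.trans ((le_max_left _ _).trans (le_max_left _ _)), fun T hT => ?_⟩
  have hTT1 : T1 ≤ T := ((le_max_left _ _).trans (le_max_left _ _)).trans hT
  have hTT2 : T2 ≤ T := ((le_max_right _ _).trans (le_max_left _ _)).trans hT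
  have hTT3 : T3 ≤ T := ((le_max_left _ _).trans (le_max_right _ _)).trans hT
  have hTT4 : T4 ≤ T :=
    ((le_max_left _ _).trans ((le_max_right _ _).trans (le_max_right _ _))).trans hT
  have hLL := hT5 T (((le_max_right _ _).trans ((le_max_right _ _).trans (le_max_right _ _))).trans hT)
  have hT10 : 10 ≤ T := hT1.trans hTT1
  have hpos : 0 < T := by linarith
  set L := Real.log T with hL
  have hL0 : 0 < L := Real.log_pos (by linarith)
  set ρ := 2 * Real.pi * β / L with hρ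
  have hρ0 : 0 ≤ ρ := by positivity
  have hρ1 : ρ ≤ 2 * Real.pi / L := by
    calc ρ ≤ 2 * Real.pi * 1 / L := by rw [hρ]; gcongr
      _ = _ := by rw [mul_one]
  set w : ℝ → ℝ := fun t => g t ^ 2 with hw
  have hw0 : ∀ t, 0 ≤ w t := fun t => sq_nonneg _
  have hwD : ∀ t, w t ≤ D ^ 2 := fun t => by
    rw [hw]
    show g t ^ 2 ≤ D ^ 2
    rw [← sq_abs]
    exact pow_le_pow_left₀ (abs_nonneg _) (hD t) 2
  set Y := T * L / (2 * Real.pi) with hY
  have hY0 : 0 < Y := by positivity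
  have a1 := h1 T hTT1
  have a2 := h2 T hTT2
  have a3 := h3 T hTT3 ρ hρ0 hρ1
  rw [QW_kk] at a1
  set Z0 := Zf riemannZeta (T + 1) (2 * T - 1) with hZ0
  have a2' : ∑ s ∈ Z0, (mult riemannZeta s : ℝ) * w s.im ≤ (M + ε) * Y := by
    refine le_trans ?_ a2
    unfold MW
    refine Finset.sum_le_sum_of_subset_of_nonneg (Zf_sub hF (by linarith) (by linarith)
      (by linarith)) fun s _ _ => mul_nonneg (Nat.cast_nonneg _) (hw0 _)
  set S := Z0.filter (fun s => 2 ≤ kk (T + 1) (2 * T - 1) ρ s) with hS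
  have hSk : 2 * ε * Y ≤ ∑ s ∈ S, (mult riemannZeta s : ℝ) * w s.im *
      (kk (T + 1) (2 * T - 1) ρ s : ℝ) := by
    have q1 : ∑ s ∈ Z0, (mult riemannZeta s : ℝ) * w s.im *
        (kk (T + 1) (2 * T - 1) ρ s : ℝ) = ∑ s ∈ S, (mult riemannZeta s : ℝ) * w s.im *
        (kk (T + 1) (2 * T - 1) ρ s : ℝ) +
        ∑ s ∈ Z0.filter (fun s => ¬ 2 ≤ kk (T + 1) (2 * T - 1) ρ s),
          (mult riemannZeta s : ℝ) * w s.im * (kk (T + 1) (2 * T - 1) ρ s : ℝ) := by
      rw [hS, Finset.sum_filter_add_sum_filter_not]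
    have q2 : ∑ s ∈ Z0.filter (fun s => ¬ 2 ≤ kk (T + 1) (2 * T - 1) ρ s),
          (mult riemannZeta s : ℝ) * w s.im * (kk (T + 1) (2 * T - 1) ρ s : ℝ) ≤
        (M + ε) * Y := by
      refine le_trans ?_ a2'
      calc _ ≤ ∑ s ∈ Z0.filter (fun s => ¬ 2 ≤ kk (T + 1) (2 * T - 1) ρ s),
          (mult riemannZeta s : ℝ) * w s.im := by
            refine Finset.sum_le_sum fun s hs => ?_
            have q3 := (Finset.mem_filter.1 hs).2
            have q4 : (kk (T + 1) (2 * T - 1) ρ s : ℝ) ≤ 1 := by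
              have : kk (T + 1) (2 * T - 1) ρ s ≤ 1 := by omega
              exact_mod_cast this
            exact mul_le_of_le_one_right (mul_nonneg (Nat.cast_nonneg _) (hw0 _)) q4
        _ ≤ _ := Finset.sum_le_sum_of_subset_of_nonneg (Finset.filter_subset _ _)
            fun s _ _ => mul_nonneg (Nat.cast_nonneg _) (hw0 _)
    have q5 : (M * gg β 1 - ε) * Y = (M + ε) * Y + 2 * ε * Y := by
      have : M * gg β 1 = M + 4 * ε := by rw [hε]; ring
      rw [this]; ring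
    rw [q5] at a1
    linarith
  have hcs : (∑ s ∈ S, (mult riemannZeta s : ℝ) * w s.im *
      (kk (T + 1) (2 * T - 1) ρ s : ℝ)) ^ 2 ≤ (∑ s ∈ S, (mult riemannZeta s : ℝ) * w s.im) *
      ∑ s ∈ S, (mult riemannZeta s : ℝ) * w s.im *
      (kk (T + 1) (2 * T - 1) ρ s : ℝ) ^ 2 := by
    refine Finset.sum_sq_le_sum_mul_sum_of_sq_eq_mul S
      (fun s _ => mul_nonneg (Nat.cast_nonneg _) (hw0 _))
      (fun s _ => mul_nonneg (mul_nonneg (Nat.cast_nonneg _) (hw0 _)) (sq_nonneg _))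
      fun s _ => by ring
  have hS3 : ∑ s ∈ S, (mult riemannZeta s : ℝ) * w s.im *
      (kk (T + 1) (2 * T - 1) ρ s : ℝ) ^ 2 ≤ X * (T * L) := by
    calc _ ≤ ∑ s ∈ Z0, (mult riemannZeta s : ℝ) * w s.im *
        (kk (T + 1) (2 * T - 1) ρ s : ℝ) ^ 2 :=
          Finset.sum_le_sum_of_subset_of_nonneg (Finset.filter_subset _ _)
            fun s _ _ => mul_nonneg (mul_nonneg (Nat.cast_nonneg _) (hw0 _)) (sq_nonneg _)
      _ ≤ ∑ s ∈ Z0, (D ^ 2 + 1) * ((mult riemannZeta s : ℝ) *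
        (kk (T + 1) (2 * T - 1) ρ s : ℝ) ^ 2) := by
          refine Finset.sum_le_sum fun s _ => ?_
          have := hwD s.im
          calc (mult riemannZeta s : ℝ) * w s.im * (kk (T + 1) (2 * T - 1) ρ s : ℝ) ^ 2 =
              w s.im * ((mult riemannZeta s : ℝ) * (kk (T + 1) (2 * T - 1) ρ s : ℝ) ^ 2) := by ring
            _ ≤ _ := by
              apply mul_le_mul_of_nonneg_right (by linarith) (by positivity)
      _ = (D ^ 2 + 1) * ∑ s ∈ Z0, (mult riemannZeta s : ℝ) *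
        (kk (T + 1) (2 * T - 1) ρ s : ℝ) ^ 2 := by rw [Finset.mul_sum]
      _ ≤ (D ^ 2 + 1) * (C3 * (T * L)) := by gcongr
      _ = _ := by rw [hX]; ring
  have hTL : 0 < T * L := by positivity
  have hW0 : 0 ≤ ∑ s ∈ S, (mult riemannZeta s : ℝ) * w s.im :=
    Finset.sum_nonneg fun s _ => mul_nonneg (Nat.cast_nonneg _) (hw0 _)
  have hmain : c * (T * L) ≤ ∑ s ∈ S, (mult riemannZeta s : ℝ) * w s.im := by
    have q1 : (2 * ε * Y) ^ 2 ≤ (∑ s ∈ S, (mult riemannZeta s : ℝ) * w s.im) * (X * (T * L)) := by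
      calc (2 * ε * Y) ^ 2 ≤ (∑ s ∈ S, (mult riemannZeta s : ℝ) * w s.im *
            (kk (T + 1) (2 * T - 1) ρ s : ℝ)) ^ 2 := by gcongr
        _ ≤ _ := hcs
        _ ≤ _ := by gcongr
    have q2 : (2 * ε * Y) ^ 2 = (c * (T * L)) * (X * (T * L)) := by
      rw [hY, hc]
      field_simp
    rw [q2] at q1
    exact le_of_mul_le_mul_right q1 (by positivity)
  -- passage to gaps
  have hW := W_le' RH (A := T + 1) (B := 2 * T - 1) (by linarith) hρ0 hw0
  set E := (EE_finite (T + 1) (2 * T - 1) ρ).toFinset with hE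
  have hEc : (E.card : ℝ) ≤ C4 * (T * L) := by
    refine le_trans ?_ (h4 T hTT4)
    have : E.card ≤ NZ (2 * T) := by
      have q1 : E ⊆ Finset.Icc 1 (NZ (2 * T)) := by
        intro n hn
        rw [hE, Set.Finite.mem_toFinset] at hn
        obtain ⟨p1, p2, p3, p4⟩ := hn
        rw [Finset.mem_Icc]
        refine ⟨p1, (SG.ord_le_iff p1 _).mp ?_⟩
        have := SG.ord_mono p1 (Nat.le_succ n)
        linarith
      have q2 := Finset.card_le_card q1
      rw [Nat.card_Icc] at q2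
      omega
    exact_mod_cast this
  have hnext : ∀ n ∈ E, w (ord n) + w (ord (n + 1)) ≤ 2 * w (ord n) + 2 * D * D1 * ρ := by
    intro n hn
    rw [hE, Set.Finite.mem_toFinset] at hn
    obtain ⟨p1, p2, p3, p4⟩ := hn
    have p5 := SG.ord_mono p1 (Nat.le_succ n)
    have q1 : w (ord (n + 1)) - w (ord n) ≤ 2 * D * D1 * ρ := by
      have e1 : w (ord (n + 1)) - w (ord n) =
          (g (ord (n + 1)) - g (ord n)) * (g (ord (n + 1)) + g (ord n)) := by
        rw [hw]; ring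
      rw [e1]
      refine (le_abs_self _).trans ?_
      rw [abs_mul]
      have q2 := hD1 (ord (n + 1)) (ord n)
      have q3 : |g (ord (n + 1)) + g (ord n)| ≤ 2 * D := by
        refine (abs_add_le _ _).trans ?_
        have := hD (ord (n + 1))
        have := hD (ord n)
        linarith
      have q4 : |ord (n + 1) - ord n| ≤ ρ := by
        rw [abs_of_nonneg (by linarith)]
        exact p4
      calc |g (ord (n + 1)) - g (ord n)| * |g (ord (n + 1)) + g (ord n)| ≤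
          (D1 * ρ) * (2 * D) := by
            gcongr
            exact q2.trans (by gcongr)
        _ = _ := by ring
    linarith
  have hfin : c * (T * L) ≤ 2 * ∑ n ∈ E, w (ord n) + c / 2 * (T * L) := by
    calc c * (T * L) ≤ _ := hmain
      _ ≤ _ := hW
      _ ≤ ∑ n ∈ E, (2 * w (ord n) + 2 * D * D1 * ρ) := Finset.sum_le_sum hnext
      _ = 2 * ∑ n ∈ E, w (ord n) + E.card * (2 * D * D1 * ρ) := by
          rw [Finset.sum_add_distrib, Finset.sum_const, nsmul_eq_mul, Finset.mul_sum]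
      _ ≤ 2 * ∑ n ∈ E, w (ord n) + C4 * (T * L) * (2 * D * D1 * (2 * Real.pi / L)) := by
          gcongr
      _ = 2 * ∑ n ∈ E, w (ord n) + E5 / L * (T * L) := by
          rw [hE5]; field_simp; ring
      _ ≤ _ := by
          have : E5 / L ≤ c / 2 := by
            rw [div_le_iff₀ hL0]
            have q1 : 2 * E5 / c ≤ L := by linarith
            rw [div_le_iff₀ hc0] at q1
            linarith
          gcongr
  linarith

end TH803TW
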