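import Pool.Agent.TH803.TW.Par
import Pool.Agent.H345R2.A2.EFb
import Pool.Agent.H345R2.A2.Outer2

/-! The twisted mean square of the zero sum. -/

open Complex Filter Topology Set MeasureTheory
open scoped BigOperators ComplexConjugate ArithmeticFunction

namespace TH803TW

open H370

/-- the main term of the explicit formula -/
noncomputable def MM (a : ℕ → ℂ) (L u t : ℝ) : ℂ :=
  (1 / Real.sqrt (2 * Real.pi) : ℝ) * (L * cexp (I * u * t) * Real.exp (-u ^ 2 / 2) - PP a u t)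

lemma c0_sq : (1 / Real.sqrt (2 * Real.pi) : ℝ) ^ 2 ≤ 1 := by
  rw [div_pow, one_pow, Real.sq_sqrt (by positivity)]
  rw [div_le_one (by positivity)]
  linarith [Real.pi_gt_three]

lemma norm_zz (L u t : ℝ) (hL : 0 ≤ L) :
    ‖(L : ℂ) * cexp (I * u * t) * Real.exp (-u ^ 2 / 2)‖ = L * Real.exp (-u ^ 2 / 2) := by
  rw [norm_mul, norm_mul, Complex.norm_real, Complex.norm_real,
    Real.norm_of_nonneg hL, Real.norm_of_nonneg (Real.exp_pos _).le,
    show (I * u * t : ℂ) = ((u * t : ℝ) : ℂ) * I by push_cast; ring,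
    Complex.norm_exp_ofReal_mul_I, mul_one]

section

variable {a : ℕ → ℂ} (ha : ∀ n, ‖a n‖ ≤ ArithmeticFunction.vonMangoldt n)

include ha in
lemma MM_cont (L u : ℝ) : Continuous (fun t => MM a L u t) := by
  have := PP_cont ha u
  unfold MM
  fun_prop

include ha in
/-- twisted mean square of the main term -/
lemma MM_tw {τ : ℝ} (hτ : τ ≠ 0) (h ε η : ℝ) (hε : 0 < ε) (hεh : ε < h) (hh1 : h ≤ 1)
    (hη : 0 < η) :
    ∃ K T0 : ℝ, 0 < K ∧ 10 ≤ T0 ∧ ∀ T : ℝ, T0 ≤ T → ∀ A B H : ℝ, A ≤ B → T ^ h ≤ H →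
      B - A ≤ H → ∀ u : ℝ, 0 ≤ u → u ≤ (h - ε) * Real.log T →
      ‖∫ t in A..B, ((‖MM a (Real.log T) u t‖ ^ 2 : ℝ) : ℂ) * cexp (I * τ * t)‖ ≤
        K * (H * Real.log T * Real.exp (2 * u - u ^ 2 / 2) + H) + η * H * VV u := by
  obtain ⟨K, T0, hK, hT0, hP⟩ := prime_tw ha hτ h ε η hε hεh hh1 hη
  set S := ∑' n : ℕ, 1 / (n : ℝ) ^ 2 with hS
  have hS0 : 0 ≤ S := S_nonneg
  have ev1 := ev_log_pow 1 1 h 2 one_pos one_pos (by linarith)
  obtain ⟨T2, hT2⟩ := ev1.exists_forall_of_atTop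
  have hτ' : 0 < |τ| := abs_pos.2 hτ
  refine ⟨K + 2 / |τ| + 4 * S * Real.exp 2, max T0 T2, by positivity,
    hT0.trans (le_max_left _ _), fun T hT A B H hAB hH hBA u hu hu1 => ?_⟩
  have hTT0 : T0 ≤ T := (le_max_left _ _).trans hT
  have e1 := hT2 T ((le_max_right _ _).trans hT)
  have hp := hP T hTT0 A B H hAB hH hBA u hu hu1
  have hT10 : 10 ≤ T := hT0.trans hTT0
  have hTpos : 0 < T := by linarith
  set L := Real.log T with hL
  have hL0 : 0 ≤ L := Real.log_nonneg (by linarith)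
  have hH0 : 0 < H := (Real.rpow_pos_of_pos hTpos h).trans_le hH
  have hV := VV_nonneg u
  set c0 : ℝ := 1 / Real.sqrt (2 * Real.pi) with hc0
  have hc1 := c0_sq
  rw [← hc0] at hc1
  have hPPc := PP_cont ha u
  set z : ℝ → ℂ := fun t => (L : ℂ) * cexp (I * u * t) * Real.exp (-u ^ 2 / 2) with hz
  have hzc : Continuous z := by simp only [hz]; fun_prop
  have hec : Continuous (fun t : ℝ => cexp (I * τ * t)) := by fun_prop
  set R : ℝ → ℝ := fun t => -(2 * (z t * conj (PP a u t)).re) with hR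
  have hRc : Continuous R := by
    simp only [hR]
    exact (continuous_const.mul (Complex.continuous_re.comp
      (hzc.mul (Complex.continuous_conj.comp hPPc)))).neg
  have hsq : ∀ t, ‖MM a L u t‖ ^ 2 = c0 ^ 2 * ((L * Real.exp (-u ^ 2 / 2)) ^ 2 +
      ‖PP a u t‖ ^ 2 + R t) := by
    intro t
    unfold MM
    rw [← hc0, norm_mul, Complex.norm_real, Real.norm_eq_abs, mul_pow, sq_abs]
    congr 1
    rw [← norm_zz L u t hL0]
    have h1 := Complex.normSq_sub (z t) (PP a u t)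
    rw [Complex.normSq_eq_norm_sq, Complex.normSq_eq_norm_sq, Complex.normSq_eq_norm_sq] at h1
    simp only [hz] at h1 ⊢
    rw [h1]
    simp only [hR]
    ring
  have hRb : ∀ t, |R t| ≤ 4 * S * Real.exp 2 * (L * Real.exp (2 * u - u ^ 2 / 2)) := by
    intro t
    simp only [hR]
    rw [abs_neg, abs_mul, abs_of_pos (show (0 : ℝ) < 2 by norm_num)]
    have h1 : |(z t * conj (PP a u t)).re| ≤ L * Real.exp (-u ^ 2 / 2) *
        (2 * S * Real.exp (2 + 2 * u)) := by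
      refine (Complex.abs_re_le_norm _).trans ?_
      rw [norm_mul, RCLike.norm_conj]
      have h2 := PP_bound ha u t
      rw [← hS] at h2
      have h3 := norm_zz L u t hL0
      simp only [hz]
      rw [h3]
      gcongr
    have h4 : Real.exp (-u ^ 2 / 2) * Real.exp (2 + 2 * u) =
        Real.exp 2 * Real.exp (2 * u - u ^ 2 / 2) := by
      rw [← Real.exp_add, ← Real.exp_add]; congr 1; ring
    calc 2 * |(z t * conj (PP a u t)).re| ≤ 2 * (L * Real.exp (-u ^ 2 / 2) *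
        (2 * S * Real.exp (2 + 2 * u))) := by gcongr
      _ = 4 * S * L * (Real.exp (-u ^ 2 / 2) * Real.exp (2 + 2 * u)) := by ring
      _ = _ := by rw [h4]; ring
  have hAB0 : 0 ≤ B - A := by linarith
  have hint : ∫ t in A..B, ((‖MM a L u t‖ ^ 2 : ℝ) : ℂ) * cexp (I * τ * t) =
      ((c0 ^ 2 : ℝ) : ℂ) * ((((L * Real.exp (-u ^ 2 / 2)) ^ 2 : ℝ) : ℂ) *
        (∫ t in A..B, cexp (I * τ * t)) +
      (∫ t in A..B, ((‖PP a u t‖ ^ 2 : ℝ) : ℂ) * cexp (I * τ * t)) +
      ∫ t in A..B, ((R t : ℝ) : ℂ) * cexp (I * τ * t)) := by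
    rw [← intervalIntegral.integral_const_mul, ← intervalIntegral.integral_add,
      ← intervalIntegral.integral_add, ← intervalIntegral.integral_const_mul]
    · refine intervalIntegral.integral_congr fun t _ => ?_
      show ((‖MM a L u t‖ ^ 2 : ℝ) : ℂ) * cexp (I * τ * t) = _
      rw [hsq]
      push_cast
      ring
    · exact ((continuous_const.mul hec).add ((Complex.continuous_ofReal.comp
        (hPPc.norm.pow 2)).mul hec)).intervalIntegrable _ _
    · exact ((Complex.continuous_ofReal.comp hRc).mul hec).intervalIntegrable _ _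
    · exact (continuous_const.mul hec).intervalIntegrable _ _
    · exact ((Complex.continuous_ofReal.comp (hPPc.norm.pow 2)).mul hec).intervalIntegrable _ _
  rw [hint, norm_mul, Complex.norm_real, Real.norm_of_nonneg (by positivity)]
  have h1 : ‖(((L * Real.exp (-u ^ 2 / 2)) ^ 2 : ℝ) : ℂ) * (∫ t in A..B, cexp (I * τ * t))‖ ≤
      2 / |τ| * H := by
    rw [norm_mul, Complex.norm_real, Real.norm_of_nonneg (by positivity)]
    have h2 := (exp_int τ A B hAB).2 hτ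
    have h3 : (L * Real.exp (-u ^ 2 / 2)) ^ 2 ≤ H := by
      have h4 : Real.exp (-u ^ 2 / 2) ≤ 1 := by
        apply Real.exp_le_one_iff.mpr
        have := sq_nonneg u
        linarith
      calc (L * Real.exp (-u ^ 2 / 2)) ^ 2 ≤ (L * 1) ^ 2 := by gcongr
        _ ≤ (1 + L) ^ 2 := by rw [mul_one]; gcongr; linarith
        _ ≤ T ^ h := by linarith
        _ ≤ H := hH
    calc (L * Real.exp (-u ^ 2 / 2)) ^ 2 * ‖∫ t in A..B, cexp (I * τ * t)‖ ≤ H * (2 / |τ|) := by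
          gcongr
      _ = _ := by ring
  have h2 : ‖∫ t in A..B, ((R t : ℝ) : ℂ) * cexp (I * τ * t)‖ ≤
      4 * S * Real.exp 2 * (H * L * Real.exp (2 * u - u ^ 2 / 2)) := by
    have h3 := intervalIntegral.norm_integral_le_of_norm_le_const (a := A) (b := B)
      (f := fun t : ℝ => ((R t : ℝ) : ℂ) * cexp (I * τ * t))
      (C := 4 * S * Real.exp 2 * (L * Real.exp (2 * u - u ^ 2 / 2))) (fun t _ => by
        rw [norm_mul, tw_exp_norm, mul_one, Complex.norm_real]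
        exact hRb t)
    rw [abs_of_nonneg hAB0] at h3
    refine h3.trans ?_
    calc 4 * S * Real.exp 2 * (L * Real.exp (2 * u - u ^ 2 / 2)) * (B - A) ≤
        4 * S * Real.exp 2 * (L * Real.exp (2 * u - u ^ 2 / 2)) * H := by gcongr
      _ = _ := by ring
  have hX0 : 0 ≤ H * L * Real.exp (2 * u - u ^ 2 / 2) := by positivity
  have h4S : 0 ≤ 4 * S * Real.exp 2 := by positivity
  have hτ2 : 0 ≤ 2 / |τ| := by positivity
  have htot : ‖(((L * Real.exp (-u ^ 2 / 2)) ^ 2 : ℝ) : ℂ) *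
        (∫ t in A..B, cexp (I * τ * t)) +
      (∫ t in A..B, ((‖PP a u t‖ ^ 2 : ℝ) : ℂ) * cexp (I * τ * t)) +
      ∫ t in A..B, ((R t : ℝ) : ℂ) * cexp (I * τ * t)‖ ≤
      2 / |τ| * H + (K * H + η * H * VV u) +
        4 * S * Real.exp 2 * (H * L * Real.exp (2 * u - u ^ 2 / 2)) :=
    (norm_add_le _ _).trans (add_le_add ((norm_add_le _ _).trans (add_le_add h1 hp)) h2)
  calc c0 ^ 2 * _ ≤ 1 * _ := mul_le_mul_of_nonneg_right hc1 (norm_nonneg _)
    _ ≤ 2 / |τ| * H + (K * H + η * H * VV u) +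
        4 * S * Real.exp 2 * (H * L * Real.exp (2 * u - u ^ 2 / 2)) := by rw [one_mul]; exact htot
    _ ≤ (K + 2 / |τ| + 4 * S * Real.exp 2) * (H * L * Real.exp (2 * u - u ^ 2 / 2) + H) +
        η * H * VV u := by
        have m1 : 0 ≤ K * (H * L * Real.exp (2 * u - u ^ 2 / 2)) := by positivity
        have m2 : 0 ≤ 2 / |τ| * (H * L * Real.exp (2 * u - u ^ 2 / 2)) := by positivity
        have m3 : 0 ≤ 4 * S * Real.exp 2 * H := by positivity
        nlinarith

include ha in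
/-- mean square of the main term -/
lemma MM_ms (h ε : ℝ) (hε : 0 < ε) (hεh : ε < h) (hh1 : h ≤ 1) :
    ∃ T0 : ℝ, 10 ≤ T0 ∧ ∀ T : ℝ, T0 ≤ T → ∀ A B H : ℝ, A ≤ B → T ^ h ≤ H →
      B - A ≤ H → ∀ u : ℝ, 0 ≤ u → u ≤ (h - ε) * Real.log T →
      ∫ t in A..B, ‖MM a (Real.log T) u t‖ ^ 2 ≤
        2 * (H * (Real.log T) ^ 2 * Real.exp (-u ^ 2)) + 8 * (H * VV u) + 4 * H := by
  set S := ∑' n : ℕ, 1 / (n : ℝ) ^ 2 with hS
  have hS0 : 0 ≤ S := S_nonneg
  have ev1 := ev_log_pow 1 8 (ε / 2) 1 one_pos (by norm_num) (by positivity)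
  have ev6 := ev_exp (2 * S * Real.exp 4) 2 (ε ^ 2 / 16) (by positivity)
  obtain ⟨T2, hT2⟩ := (ev1.and ev6).exists_forall_of_atTop
  refine ⟨max 10 T2, le_max_left _ _, fun T hT A B H hAB hH hBA u hu hu1 => ?_⟩
  have hT10 : 10 ≤ T := (le_max_left _ _).trans hT
  obtain ⟨e1, e6⟩ := hT2 T ((le_max_right _ _).trans hT)
  have hTpos : 0 < T := by linarith
  set L := Real.log T with hL
  have hL0 : 0 ≤ L := Real.log_nonneg (by linarith)
  have huL : u ≤ L := by nlinarith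
  have hH0 : 0 < H := (Real.rpow_pos_of_pos hTpos h).trans_le hH
  set X : ℕ := ⌊T ^ (h - ε / 2)⌋₊ with hX
  have hXle : (X : ℝ) ≤ T ^ (h - ε / 2) := Nat.floor_le (by positivity)
  have hXT : (X : ℝ) ≤ T := by
    refine hXle.trans ?_
    calc T ^ (h - ε / 2) ≤ T ^ (1 : ℝ) := Real.rpow_le_rpow_of_exponent_le (by linarith)
          (by linarith)
      _ = T := Real.rpow_one T
  have hlogX0 : 0 ≤ Real.log X := Real.log_natCast_nonneg X
  have hlogX : Real.log X ≤ L := by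
    rcases Nat.eq_zero_or_pos X with h0 | h0
    · rw [h0]; simp; linarith
    · exact Real.log_le_log (by exact_mod_cast h0) hXT
  have hXlog : u + ε / 2 * L ≤ Real.log (X + 1) := by
    have h1 : T ^ (h - ε / 2) < X + 1 := Nat.lt_floor_add_one _
    have h2 : Real.log (T ^ (h - ε / 2)) ≤ Real.log (X + 1) :=
      Real.log_le_log (by positivity) h1.le
    rw [Real.log_rpow hTpos] at h2
    linarith
  have hTh : T ^ (h - ε / 2) * T ^ (ε / 2) = T ^ h := by
    rw [← Real.rpow_add hTpos]; congr 1; ring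
  have hms := PP_ms ha u (ε / 2 * L) A B 1 X one_pos hAB (by positivity) hXlog
  have hV := VV_nonneg u
  have hAB0 : 0 ≤ B - A := by linarith
  have h8 : 8 * (X : ℝ) * (1 + Real.log X) ≤ H := by
    calc 8 * (X : ℝ) * (1 + Real.log X) ≤ 8 * T ^ (h - ε / 2) * (1 + L) := by gcongr
      _ = T ^ (h - ε / 2) * (8 * (1 + L) ^ 1) := by ring
      _ ≤ T ^ (h - ε / 2) * (1 * T ^ (ε / 2)) := by gcongr
      _ = T ^ h := by rw [one_mul, hTh]
      _ ≤ H := hH
  have hE1 : 2 * S * (Real.exp (4 + 2 * u) * Real.exp (-(ε / 2 * L) ^ 2 / 4)) ≤ 1 := by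
    refine le_trans ?_ e6
    have h1 : Real.exp (4 + 2 * u) * Real.exp (-(ε / 2 * L) ^ 2 / 4) ≤
        Real.exp 4 * Real.exp (2 * L - ε ^ 2 / 16 * L ^ 2) := by
      rw [← Real.exp_add, ← Real.exp_add]
      apply Real.exp_le_exp.mpr
      nlinarith
    calc 2 * S * (Real.exp (4 + 2 * u) * Real.exp (-(ε / 2 * L) ^ 2 / 4)) ≤
        2 * S * (Real.exp 4 * Real.exp (2 * L - ε ^ 2 / 16 * L ^ 2)) := by gcongr
      _ = _ := by ring
  have hE2 : (2 * S * (Real.exp (4 + 2 * u) * Real.exp (-(ε / 2 * L) ^ 2 / 4))) ^ 2 ≤ 1 :=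
    pow_le_one₀ (by positivity) hE1
  have hPP : ∫ t in A..B, ‖PP a u t‖ ^ 2 ≤ 4 * (H * VV u) + 2 * H := by
    refine hms.trans ?_
    rw [← hS]
    calc (1 + 1) * ((B - A + 8 * X * (1 + Real.log X)) * VV u) + (1 + 1 / 1) * ((B - A) *
          (2 * S * (Real.exp (4 + 2 * u) * Real.exp (-(ε / 2 * L) ^ 2 / 4))) ^ 2) ≤
        (1 + 1) * ((H + H) * VV u) + (1 + 1 / 1) * (H * 1) := by gcongr
      _ = _ := by ring
  have hPPc := PP_cont ha u
  have hpt : ∀ t, ‖MM a L u t‖ ^ 2 ≤ 2 * (L ^ 2 * Real.exp (-u ^ 2)) + 2 * ‖PP a u t‖ ^ 2 := by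
    intro t
    unfold MM
    rw [norm_mul, mul_pow, Complex.norm_real, Real.norm_eq_abs, sq_abs]
    have h1 : ‖(L : ℂ) * cexp (I * u * t) * Real.exp (-u ^ 2 / 2) - PP a u t‖ ^ 2 ≤
        2 * (L ^ 2 * Real.exp (-u ^ 2)) + 2 * ‖PP a u t‖ ^ 2 := by
      have h2 := norm_sub_le ((L : ℂ) * cexp (I * u * t) * Real.exp (-u ^ 2 / 2)) (PP a u t)
      rw [norm_zz L u t hL0] at h2
      have h3 : Real.exp (-u ^ 2) = (Real.exp (-u ^ 2 / 2)) ^ 2 := by
        rw [← Real.exp_nat_mul]; congr 1; push_cast; ring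
      rw [h3]
      have h4 := norm_nonneg ((L : ℂ) * cexp (I * u * t) * Real.exp (-u ^ 2 / 2) - PP a u t)
      calc _ ≤ (L * Real.exp (-u ^ 2 / 2) + ‖PP a u t‖) ^ 2 := by gcongr
        _ ≤ _ := by nlinarith [sq_nonneg (L * Real.exp (-u ^ 2 / 2) - ‖PP a u t‖)]
    calc _ ≤ 1 * _ := mul_le_mul_of_nonneg_right c0_sq (by positivity)
      _ ≤ _ := by rw [one_mul]; exact h1
  calc ∫ t in A..B, ‖MM a L u t‖ ^ 2 ≤
      ∫ t in A..B, (2 * (L ^ 2 * Real.exp (-u ^ 2)) + 2 * ‖PP a u t‖ ^ 2) := by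
        refine intervalIntegral.integral_mono_on hAB ?_ ?_ fun t _ => hpt t
        · exact ((MM_cont ha L u).norm.pow 2).intervalIntegrable _ _
        · exact (continuous_const.add (continuous_const.mul (hPPc.norm.pow 2))).intervalIntegrable
            _ _
    _ = (B - A) * (2 * (L ^ 2 * Real.exp (-u ^ 2))) + 2 * ∫ t in A..B, ‖PP a u t‖ ^ 2 := by
        rw [intervalIntegral.integral_add, intervalIntegral.integral_const,
          intervalIntegral.integral_const_mul, smul_eq_mul]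
        · exact continuous_const.intervalIntegrable _ _
        · exact (continuous_const.mul (hPPc.norm.pow 2)).intervalIntegrable _ _
    _ ≤ H * (2 * (L ^ 2 * Real.exp (-u ^ 2))) + 2 * (4 * (H * VV u) + 2 * H) := by gcongr
    _ = _ := by ring

end

end TH803TW
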