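import Pool.Agent.TH803.TW.JTB
import Pool.Agent.H613R2.PairShort
import Pool.Agent.H627R2.SI.LamSmooth

/-! The twisted mean squares, integrated over the scale. -/

open Complex Filter Topology Set MeasureTheory
open scoped BigOperators ComplexConjugate

namespace TH803TW

open H370 H370.A2 H295SI

/-- the tent -/
noncomputable def tent (x : ℝ) : ℝ := 2 * max 0 (1 - |x|)

lemma tent_conv : Conv tent := by
  refine ⟨fun α => by unfold tent; positivity, ?_, ⟨2, by norm_num, fun x y => ?_⟩, ?_, ?_⟩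
  · intro x hx y hy hxy
    rw [Set.mem_Ici] at hx hy
    unfold tent
    rw [abs_of_nonneg hx, abs_of_nonneg hy]
    apply mul_le_mul_of_nonneg_left _ (by norm_num)
    apply max_le_max le_rfl
    linarith
  · unfold tent
    rw [← mul_sub, abs_mul, abs_of_pos (show (0 : ℝ) < 2 by norm_num)]
    apply mul_le_mul_of_nonneg_left _ (by norm_num)
    have h1 := abs_max_sub_max_le_abs (1 - |x|) (1 - |y|) 0
    rw [max_comm 0, max_comm 0]
    refine h1.trans ?_
    have h2 : 1 - |x| - (1 - |y|) = |y| - |x| := by ring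
    rw [h2, abs_sub_comm x y]
    exact abs_abs_sub_abs_le_abs_sub y x
  · intro α
    unfold tent
    rw [abs_neg]
  · intro α hα
    unfold tent
    rw [max_eq_left, mul_zero]
    have := le_abs_self α
    linarith

/-- the envelope -/
noncomputable def env (K η L H u : ℝ) : ℝ :=
  η * (H * L ^ 2 * Real.exp (-u ^ 2) + H * VV u) +
    K * (H * L * Real.exp (2 * u - u ^ 2 / 2) + H)

lemma env_nonneg {K η L H : ℝ} (hK : 0 ≤ K) (hη : 0 ≤ η) (hL : 0 ≤ L) (hH : 0 ≤ H) (u : ℝ) :
    0 ≤ env K η L H u := by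
  have := VV_nonneg u
  unfold env; positivity

lemma env_contOn (K η L H B : ℝ) : ContinuousOn (env K η L H) (Set.Iic B) := by
  unfold env
  have h1 := VV_cont B
  refine ContinuousOn.add (ContinuousOn.mul continuousOn_const
    (ContinuousOn.add (Continuous.continuousOn (by fun_prop)) (continuousOn_const.mul h1)))
    (Continuous.continuousOn (by fun_prop))

lemma env_int (c : ℝ) (hc : 0 < c) : ∃ C : ℝ, 0 < C ∧ ∀ K η L H Λ : ℝ, 0 ≤ K → 0 ≤ η → 1 ≤ L →
    0 ≤ H → c * L ≤ Λ → Λ ≤ L → 1 ≤ Λ →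
    ∫ α in (0 : ℝ)..1, env K η L H (Λ * α) ≤ η * C * (H * L) + (η + K) * C * H := by
  obtain ⟨C4, hC4, ha3⟩ := H613SI.a3_aux H627SI.lamSmooth tent_conv
  set spi := Real.sqrt Real.pi with hspi
  have hspi0 : 0 < spi := Real.sqrt_pos.mpr Real.pi_pos
  refine ⟨spi / c + 4 * spi + 2 * C4 + 2 * (Real.exp 4 * spi) / c + 4, by positivity,
    fun K η L H Λ hK hη hL hH h1 h2 h3 => ?_⟩
  have hΛ0 : 0 < Λ := by linarith
  set b : ℝ := 2 * Λ with hb
  have hb0 : 0 < b := by positivity
  have htc := H613SI.conv_cont tent_conv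
  have ht0 : tent 0 = 2 := by unfold tent; norm_num
  -- the integrand
  set f := env K η L H with hf
  have hf0 : ∀ u, 0 ≤ f u := env_nonneg hK hη (by linarith) hH
  have hcont : ∀ x y : ℝ, 0 ≤ x → x ≤ y → IntervalIntegrable (fun β : ℝ => f (b * β)) volume x y := by
    intro x y hx hxy
    apply ContinuousOn.intervalIntegrable
    refine (env_contOn K η L H (b * y)).comp (by fun_prop) ?_
    intro β hβ
    rw [Set.uIcc_of_le hxy] at hβ
    simp only [Set.mem_Iic]
    exact mul_le_mul_of_nonneg_left hβ.2 hb0.le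
  have hcontt : ∀ x y : ℝ, 0 ≤ x → x ≤ y →
      IntervalIntegrable (fun β : ℝ => tent β * f (b * β)) volume x y := fun x y hx hxy =>
    (hcont x y hx hxy).continuousOn_mul htc.continuousOn
  have e1 : ∫ α in (0 : ℝ)..1, f (Λ * α) = 2 * ∫ β in (0 : ℝ)..(1 / 2), f (b * β) := by
    have h4 := intervalIntegral.mul_integral_comp_mul_left (a := (0 : ℝ)) (b := 1 / 2)
      (f := fun α => f (Λ * α)) 2
    rw [mul_zero, show (2 : ℝ) * (1 / 2) = 1 by norm_num] at h4
    rw [← h4]
    congr 1
    refine intervalIntegral.integral_congr fun β _ => ?_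
    show f (Λ * (2 * β)) = f (b * β)
    rw [hb]; congr 1; ring
  have e2 : ∫ β in (0 : ℝ)..(1 / 2), f (b * β) ≤ ∫ β in (0 : ℝ)..1, tent β * f (b * β) := by
    calc ∫ β in (0 : ℝ)..(1 / 2), f (b * β) ≤ ∫ β in (0 : ℝ)..(1 / 2), tent β * f (b * β) := by
          refine intervalIntegral.integral_mono_on (by norm_num)
            (hcont 0 (1 / 2) le_rfl (by norm_num)) (hcontt 0 (1 / 2) le_rfl (by norm_num))
            fun β hβ => ?_
          have h5 : 1 ≤ tent β := by
            unfold tent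
            have h6 : 1 / 2 ≤ 1 - |β| := by rw [abs_of_nonneg hβ.1]; linarith [hβ.2]
            have := le_max_right 0 (1 - |β|)
            linarith
          have := hf0 (b * β)
          nlinarith
      _ ≤ _ := by
          refine intervalIntegral.integral_mono_interval le_rfl (by norm_num) (by norm_num) ?_
            (hcontt 0 1 le_rfl zero_le_one)
          exact Filter.Eventually.of_forall fun β =>
            mul_nonneg (tent_conv.nonneg β) (hf0 _)
  have hVc : ContinuousOn (fun α : ℝ => VV (b * α)) (Set.uIcc 0 1) := by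
    refine (VV_cont b).comp (by fun_prop) ?_
    intro α hα
    rw [Set.uIcc_of_le zero_le_one] at hα
    simp only [Set.mem_Iic]
    nlinarith [hα.2]
  have hint1 : IntervalIntegrable (fun α : ℝ => tent α * Real.exp (-(b * α) ^ 2)) volume 0 1 :=
    (by fun_prop : Continuous fun α : ℝ => tent α * Real.exp (-(b * α) ^ 2)).intervalIntegrable _ _
  have hint2 : IntervalIntegrable (fun α : ℝ => tent α * Real.exp (2 * (b * α) - (b * α) ^ 2 / 2))
      volume 0 1 :=
    (by fun_prop : Continuous fun α : ℝ =>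
      tent α * Real.exp (2 * (b * α) - (b * α) ^ 2 / 2)).intervalIntegrable _ _
  have hint3 : IntervalIntegrable (fun α : ℝ => tent α * VV (b * α)) volume 0 1 :=
    (htc.continuousOn.mul hVc).intervalIntegrable
  have hint4 : IntervalIntegrable tent volume 0 1 := htc.intervalIntegrable _ _
  have e3 : ∫ β in (0 : ℝ)..1, tent β * f (b * β) =
      η * H * L ^ 2 * (∫ β in (0 : ℝ)..1, tent β * Real.exp (-(b * β) ^ 2)) +
      η * H * (∫ β in (0 : ℝ)..1, tent β * VV (b * β)) +
      K * H * L * (∫ β in (0 : ℝ)..1, tent β * Real.exp (2 * (b * β) - (b * β) ^ 2 / 2)) +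
      K * H * ∫ β in (0 : ℝ)..1, tent β := by
    rw [← intervalIntegral.integral_const_mul, ← intervalIntegral.integral_const_mul,
      ← intervalIntegral.integral_const_mul, ← intervalIntegral.integral_const_mul,
      ← intervalIntegral.integral_add (hint1.const_mul _) (hint3.const_mul _),
      ← intervalIntegral.integral_add ((hint1.const_mul _).add (hint3.const_mul _))
        (hint2.const_mul _),
      ← intervalIntegral.integral_add (((hint1.const_mul _).add (hint3.const_mul _)).add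
        (hint2.const_mul _)) (hint4.const_mul _)]
    refine intervalIntegral.integral_congr fun β _ => ?_
    simp only [hf, env]
    ring
  have b1 := H613SI.a1_aux tent_conv b hb0
  have b2 := H613SI.a2_aux tent_conv b hb0
  have b3 := ha3 b (by linarith)
  have b4 : ∫ β in (0 : ℝ)..1, tent β ≤ 2 := by
    calc ∫ β in (0 : ℝ)..1, tent β ≤ ∫ β in (0 : ℝ)..1, (2 : ℝ) := by
          refine intervalIntegral.integral_mono_on zero_le_one hint4
            (continuous_const.intervalIntegrable _ _) fun α hα => ?_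
          have := H613SI.conv_le tent_conv α hα.1
          rw [ht0] at this
          exact this
      _ = 2 := by simp
  have b5 : ∫ α in (0 : ℝ)..1, α * tent α ≤ 1 := by
    calc ∫ α in (0 : ℝ)..1, α * tent α ≤ ∫ α in (0 : ℝ)..1, α * 2 := by
          refine intervalIntegral.integral_mono_on zero_le_one
            ((continuous_id.mul htc).intervalIntegrable _ _)
            ((by fun_prop : Continuous fun α : ℝ => α * 2).intervalIntegrable _ _) fun α hα => ?_
          have := H613SI.conv_le tent_conv α hα.1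
          rw [ht0] at this
          exact mul_le_mul_of_nonneg_left this hα.1
      _ = 1 := by
          rw [intervalIntegral.integral_mul_const, integral_id]; norm_num
  rw [ht0, ← hspi] at b1 b2
  have hbc : 2 * c * L ≤ b := by rw [hb]; linarith
  have hcL : 0 < 2 * c * L := by positivity
  have t1 : η * H * L ^ 2 * (∫ β in (0 : ℝ)..1, tent β * Real.exp (-(b * β) ^ 2)) ≤
      η * (H * L) * (spi / (2 * c)) := by
    calc η * H * L ^ 2 * (∫ β in (0 : ℝ)..1, tent β * Real.exp (-(b * β) ^ 2)) ≤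
        η * H * L ^ 2 * (2 * (spi / (2 * b))) := by gcongr
      _ = η * H * L ^ 2 * spi * (1 / b) := by field_simp
      _ ≤ η * H * L ^ 2 * spi * (1 / (2 * c * L)) := by gcongr
      _ = _ := by field_simp
  have t2 : η * H * (∫ β in (0 : ℝ)..1, tent β * VV (b * β)) ≤
      η * H * (spi * (2 * L) + C4) := by
    have hI0 : 0 ≤ ∫ α in (0 : ℝ)..1, α * tent α :=
      intervalIntegral.integral_nonneg zero_le_one fun α hα =>
        mul_nonneg hα.1 (tent_conv.nonneg α)
    have hbL : b ≤ 2 * L := by rw [hb]; linarith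
    have : spi * b * (∫ α in (0 : ℝ)..1, α * tent α) ≤ spi * (2 * L) * 1 := by gcongr
    apply mul_le_mul_of_nonneg_left _ (by positivity)
    linarith
  have t3 : K * H * L * (∫ β in (0 : ℝ)..1, tent β * Real.exp (2 * (b * β) - (b * β) ^ 2 / 2)) ≤
      K * H * ((Real.exp 4 * spi) / c) := by
    calc K * H * L * (∫ β in (0 : ℝ)..1, tent β * Real.exp (2 * (b * β) - (b * β) ^ 2 / 2)) ≤
        K * H * L * (2 * (Real.exp 4 * spi) / b) := by gcongr
      _ ≤ K * H * L * (2 * (Real.exp 4 * spi) / (2 * c * L)) := by gcongr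
      _ = _ := by field_simp
  have t4 : K * H * (∫ β in (0 : ℝ)..1, tent β) ≤ K * H * 2 := by gcongr
  rw [e1]
  calc 2 * ∫ β in (0 : ℝ)..(1 / 2), f (b * β) ≤
      2 * (η * (H * L) * (spi / (2 * c)) + η * H * (spi * (2 * L) + C4) +
        K * H * ((Real.exp 4 * spi) / c) + K * H * 2) := by
        refine mul_le_mul_of_nonneg_left ?_ (by norm_num)
        refine e2.trans ?_
        rw [e3]
        linarith
    _ = η * (spi / c + 4 * spi) * (H * L) + η * (2 * C4) * H +
        K * (2 * (Real.exp 4 * spi) / c + 4) * H := by field_simp; ring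
    _ ≤ _ := by
        have q1 : 0 ≤ η * (2 * C4 + 2 * (Real.exp 4 * spi) / c + 4) * (H * L) := by positivity
        have q2 : 0 ≤ η * (spi / c + 4 * spi + 2 * (Real.exp 4 * spi) / c + 4) * H := by positivity
        have q3 : 0 ≤ K * (spi / c + 4 * spi + 2 * C4) * H := by positivity
        nlinarith

/-- **the twisted mean squares, integrated over the scale** -/
theorem JT_int {F : ℂ → ℂ} (hF : GoodL F) {a : ℕ → ℂ}
    (ha : ∀ n, ‖a n‖ ≤ ArithmeticFunction.vonMangoldt n)
    (hld : ∀ s : ℂ, 1 < s.re → 1 ≤ s.im → deriv F s / F s = - ∑' n : ℕ, a n * (n : ℂ) ^ (-s))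
    (hline : Line F) {τ : ℝ}
    (hτ : τ ≠ 0) (h ε c η : ℝ) (hε : 0 < ε) (hεh : ε < h) (hh1 : h ≤ 1) (hc : 0 < c)
    (hη : 0 < η) :
    ∃ T0 : ℝ, 10 ≤ T0 ∧ ∀ T : ℝ, T0 ≤ T → ∀ A B : ℝ, T + 1 ≤ A → B ≤ 2 * T - 1 →
      T ^ h ≤ B - A → ∀ Λ : ℝ, c * Real.log T ≤ Λ → Λ ≤ (h - ε) * Real.log T →
      ∫ α in (0 : ℝ)..1, ‖JT F A B (Λ * α) τ‖ ≤ η * ((B - A) * Real.log T) := by
  obtain ⟨C, hC, henv⟩ := env_int c hc
  obtain ⟨K, T0, hK, hT0, hJ⟩ := JT_bound hF ha hld hline hτ h ε (η / (2 * C)) hε hεh hh1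
    (by positivity)
  set η0 : ℝ := η / (2 * C) with hη0
  have hη00 : 0 < η0 := by positivity
  have ev : ∀ᶠ T : ℝ in atTop, 1 ≤ Real.log T ∧ 1 / c ≤ Real.log T ∧
      2 * ((η0 + K) * C) / η ≤ Real.log T :=
    (Real.tendsto_log_atTop.eventually_ge_atTop _).and
      ((Real.tendsto_log_atTop.eventually_ge_atTop _).and
        (Real.tendsto_log_atTop.eventually_ge_atTop _))
  obtain ⟨T2, hT2⟩ := ev.exists_forall_of_atTop
  refine ⟨max T0 T2, hT0.trans (le_max_left _ _), fun T hT A B hA hB hAB Λ hΛ1 hΛ2 => ?_⟩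
  have hTT0 : T0 ≤ T := (le_max_left _ _).trans hT
  obtain ⟨l1, l2, l3⟩ := hT2 T ((le_max_right _ _).trans hT)
  have hT10 : 10 ≤ T := hT0.trans hTT0
  have hTpos : 0 < T := by linarith
  set L := Real.log T with hL
  have hH0 : 0 < B - A := (Real.rpow_pos_of_pos hTpos h).trans_le hAB
  set H := B - A with hH
  have hΛ3 : 1 ≤ Λ := by
    refine le_trans ?_ hΛ1
    rw [div_le_iff₀ hc] at l2
    linarith
  have hΛ0 : 0 < Λ := by linarith
  have hΛL : Λ ≤ L := by nlinarith
  have hU : 1 ≤ A := by linarith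
  have hJc : Continuous fun α : ℝ => JT F A B (Λ * α) τ := (JT_cont hF hU τ).comp (by fun_prop)
  have hcont : IntervalIntegrable (fun β : ℝ => env K η0 L H (Λ * β)) volume 0 1 := by
    apply ContinuousOn.intervalIntegrable
    refine (env_contOn K η0 L H Λ).comp (by fun_prop) ?_
    intro β hβ
    rw [Set.uIcc_of_le zero_le_one] at hβ
    simp only [Set.mem_Iic]
    nlinarith [hβ.2]
  have h1 : ∫ α in (0 : ℝ)..1, ‖JT F A B (Λ * α) τ‖ ≤
      ∫ α in (0 : ℝ)..1, env K η0 L H (Λ * α) := by
    refine intervalIntegral.integral_mono_on zero_le_one (hJc.norm.intervalIntegrable _ _) hcont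
      fun α hα => ?_
    have h2 := hJ T hTT0 A B hA hB hAB (Λ * α) (mul_nonneg hΛ0.le hα.1) (by
      calc Λ * α ≤ Λ * 1 := by gcongr; exact hα.2
        _ ≤ (h - ε) * L := by rw [mul_one]; exact hΛ2)
    exact h2
  refine h1.trans ((henv K η0 L H Λ hK.le hη00.le l1 hH0.le hΛ1 hΛL hΛ3).trans ?_)
  have h3 : η0 * C = η / 2 := by rw [hη0]; field_simp
  rw [h3]
  have h4 : (η0 + K) * C * H ≤ η / 2 * (H * L) := by
    rw [div_le_iff₀ hη] at l3
    have : (η0 + K) * C ≤ η / 2 * L := by linarith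
    calc (η0 + K) * C * H ≤ (η / 2 * L) * H := by gcongr
      _ = _ := by ring
  linarith

end TH803TW
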