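import Pool.Agent.TH803.TW.Pbd

/-! Twisted pair sums with a general band-limited kernel. -/

open Complex Filter Topology Set MeasureTheory
open scoped BigOperators ComplexConjugate

namespace TH803TW

open H370 H370.A2 H370.AS H295SI

/-- the cosine transform of a function on `[-1, 1]` -/
noncomputable def rk (ψ : ℝ → ℝ) (x : ℝ) : ℝ := ∫ α in (-1 : ℝ)..1, ψ α * Real.cos (x * α)

lemma rk_eq {ψ : ℝ → ℝ} (hψ : Continuous ψ) (hψe : ∀ α, ψ (-α) = ψ α) (x : ℝ) :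
    ∫ α in (-1 : ℝ)..1, (ψ α : ℂ) * cexp (I * (x : ℂ) * α) = (rk ψ x : ℂ) := by
  have hc : Continuous fun α : ℝ => (ψ α : ℂ) * cexp (I * (x : ℂ) * α) := by fun_prop
  have hc' : Continuous fun α : ℝ => (ψ α : ℂ) * cexp (I * (x : ℂ) * ((-α : ℝ) : ℂ)) := by fun_prop
  have h1 : ∫ α in (-1 : ℝ)..1, (ψ α : ℂ) * cexp (I * (x : ℂ) * ((-α : ℝ) : ℂ)) =
      ∫ α in (-1 : ℝ)..1, (ψ α : ℂ) * cexp (I * (x : ℂ) * α) := by
    have h2 := intervalIntegral.integral_comp_neg (a := -1) (b := 1)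
      (fun α : ℝ => (ψ α : ℂ) * cexp (I * (x : ℂ) * α))
    rw [neg_neg] at h2
    rw [← h2]
    refine intervalIntegral.integral_congr fun α _ => ?_
    show (ψ α : ℂ) * _ = (ψ (-α) : ℂ) * _
    rw [hψe]
  have h3 : ∫ α in (-1 : ℝ)..1, (ψ α : ℂ) * cexp (I * (x : ℂ) * α) =
      (∫ α in (-1 : ℝ)..1, ((ψ α : ℂ) * cexp (I * (x : ℂ) * α) +
        (ψ α : ℂ) * cexp (I * (x : ℂ) * ((-α : ℝ) : ℂ)))) / 2 := by
    rw [intervalIntegral.integral_add (hc.intervalIntegrable _ _) (hc'.intervalIntegrable _ _), h1]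
    ring
  rw [h3, ← intervalIntegral.integral_div]
  unfold rk
  rw [← intervalIntegral.integral_ofReal]
  refine intervalIntegral.integral_congr fun α _ => ?_
  show ((ψ α : ℂ) * cexp (I * (x : ℂ) * α) + (ψ α : ℂ) * cexp (I * (x : ℂ) * ((-α : ℝ) : ℂ))) / 2 =
    ((ψ α * Real.cos (x * α) : ℝ) : ℂ)
  rw [Complex.ofReal_mul, Complex.ofReal_cos]
  have e1 : I * (x : ℂ) * α = ((x * α : ℝ) : ℂ) * I := by push_cast; ring
  have e2 : I * (x : ℂ) * ((-α : ℝ) : ℂ) = (-((x * α : ℝ) : ℂ)) * I := by push_cast; ring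
  rw [e1, e2, Complex.cos]
  ring

/-- pair sum with Gaussian damping, weight at the midpoint -/
noncomputable def PG (ψ : ℝ → ℝ) (F : ℂ → ℂ) (Λ A B : ℝ) (w : ℝ → ℝ) : ℝ :=
  ∑ s ∈ Zf F A B, ∑ s' ∈ Zf F A B, (mult F s : ℝ) * (mult F s' : ℝ) *
    (rk ψ (Λ * (s.im - s'.im)) * Real.exp (-(s.im - s'.im) ^ 2 / 4) * w ((s.im + s'.im) / 2))

/-- pair sum, weight at the first zero -/
noncomputable def PU (ψ : ℝ → ℝ) (F : ℂ → ℂ) (Λ A B : ℝ) (w : ℝ → ℝ) : ℝ :=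
  ∑ s ∈ Zf F A B, ∑ s' ∈ Zf F A B, (mult F s : ℝ) * (mult F s' : ℝ) *
    (rk ψ (Λ * (s.im - s'.im)) * w s.im)

section

variable {F : ℂ → ℂ} (hF : GoodL F) (hline : Line F) {ψ : ℝ → ℝ} (hψ : Continuous ψ)
  (hψe : ∀ α, ψ (-α) = ψ α)

include hF hline hψ hψe in
lemma QTp_rk {A B : ℝ} (hA : 1 ≤ A) (Λ τ : ℝ) : QTp ψ F Λ A B τ =
    ∑ s ∈ Zf F A B, ∑ s' ∈ Zf F A B, (mult F s : ℂ) * (mult F s' : ℂ) *
    (((rk ψ (Λ * (s.im - s'.im)) * Real.exp (-(s.im - s'.im) ^ 2 / 4) : ℝ) : ℂ) *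
      cexp (I * τ * (((s.im + s'.im) / 2 : ℝ) : ℂ))) := by
  unfold QTp
  refine Finset.sum_congr rfl fun s hs => Finset.sum_congr rfl fun s' hs' => ?_
  rw [mem_Zf hF hA] at hs hs'
  rw [zz_line hline hA hs, zz_line hline hA hs']
  have e1 : (Λ : ℂ) * ((s.im : ℂ) - s'.im) = ((Λ * (s.im - s'.im) : ℝ) : ℂ) := by push_cast; ring
  rw [e1, rk_eq hψ hψe]
  push_cast
  ring

include hF hline hψ hψe in
lemma PG_tp {A B : ℝ} (hA : 1 ≤ A) (Λ : ℝ) (S : Finset ℝ) (c : ℝ → ℂ) :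
    PG ψ F Λ A B (tp S c) = (∑ τ ∈ S, c τ * QTp ψ F Λ A B τ).re := by
  have h1 : ∀ τ ∈ S, c τ * QTp ψ F Λ A B τ = ∑ s ∈ Zf F A B, ∑ s' ∈ Zf F A B,
      (((mult F s : ℝ) * (mult F s' : ℝ) * (rk ψ (Λ * (s.im - s'.im)) *
        Real.exp (-(s.im - s'.im) ^ 2 / 4)) : ℝ) : ℂ) *
        (c τ * cexp (I * τ * (((s.im + s'.im) / 2 : ℝ) : ℂ))) := by
    intro τ _
    rw [QTp_rk hF hline hψ hψe hA, Finset.mul_sum]
    refine Finset.sum_congr rfl fun s _ => ?_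
    rw [Finset.mul_sum]
    refine Finset.sum_congr rfl fun s' _ => ?_
    push_cast
    ring
  rw [Finset.sum_congr rfl h1, Finset.sum_comm]
  unfold PG
  rw [Complex.re_sum]
  refine Finset.sum_congr rfl fun s _ => ?_
  rw [Finset.sum_comm, Complex.re_sum]
  refine Finset.sum_congr rfl fun s' _ => ?_
  rw [← Finset.mul_sum, Complex.re_ofReal_mul]
  unfold tp
  ring

include hF hline hψ hψe in
lemma QTp_zero' {A B : ℝ} (hA : 1 ≤ A) (Λ : ℝ) :
    QTp ψ F Λ A B 0 = ((PG ψ F Λ A B (fun _ => 1) : ℝ) : ℂ) := by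
  rw [QTp_rk hF hline hψ hψe hA]
  unfold PG
  push_cast
  simp

/-- **twisted pair sums with a general kernel** -/
theorem coreK {F : ℂ → ℂ} (hF : GoodL F) (hline : Line F) {ψ : ℝ → ℝ} (hψ : Continuous ψ)
    (hψe : ∀ α, ψ (-α) = ψ α) {a : ℕ → ℂ}
    (ha : ∀ n, ‖a n‖ ≤ ArithmeticFunction.vonMangoldt n)
    (hld : ∀ s : ℂ, 1 < s.re → 1 ≤ s.im → deriv F s / F s = - ∑' n : ℕ, a n * (n : ℂ) ^ (-s))
    {S : Finset ℝ} (h0 : (0 : ℝ) ∈ S) (c : ℝ → ℂ) (h ε lam η : ℝ) (hε : 0 < ε) (hεh : ε < h)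
    (hh1 : h ≤ 1) (hlam : 0 < lam) (hη : 0 < η) :
    ∃ T0 : ℝ, 10 ≤ T0 ∧ ∀ T : ℝ, T0 ≤ T → ∀ A B : ℝ, T + 1 ≤ A → B ≤ 2 * T - 1 →
      T ^ h ≤ B - A → ∀ Λ : ℝ, lam * Real.log T ≤ Λ → Λ ≤ (h - ε) * Real.log T →
      |PG ψ F Λ A B (tp S c) - (c 0).re * PG ψ F Λ A B (fun _ => 1)| ≤
        η * ((B - A) * Real.log T) := by
  classical
  obtain ⟨D, hD0, hD⟩ : ∃ D : ℝ, 0 ≤ D ∧ ∀ α ∈ Set.Icc (0 : ℝ) 1, |ψ α| ≤ D := by
    obtain ⟨D, hD⟩ := isCompact_Icc.exists_bound_of_continuousOn (s := Set.Icc (0 : ℝ) 1)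
      hψ.continuousOn
    refine ⟨D, (norm_nonneg _).trans (hD 0 ⟨le_rfl, zero_le_one⟩), fun α hα => ?_⟩
    exact hD α hα
  have hac : Continuous fun α => |ψ α| := hψ.abs
  have hae : ∀ α, (fun α => |ψ α|) (-α) = (fun α => |ψ α|) α := fun α => by simp only [hψe]
  set Ct : ℝ := ∑ τ ∈ S.erase 0, ‖c τ‖ * (2 * Real.exp (τ ^ 2 / 4) * D) with hCt
  have hCt0 : 0 ≤ Ct := Finset.sum_nonneg fun τ _ => by positivity
  have hex1 : ∀ τ ∈ S.erase 0, ∃ T0 : ℝ, ∀ T : ℝ, T0 ≤ T → ∀ A B : ℝ, T + 1 ≤ A →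
      B ≤ 2 * T - 1 → T ^ h ≤ B - A → ∀ Λ : ℝ, lam * Real.log T ≤ Λ →
      Λ ≤ (h - ε) * Real.log T →
      ∫ α in (0 : ℝ)..1, ‖JT F A B (Λ * α) τ‖ ≤ η / (Ct + 1) * ((B - A) * Real.log T) := by
    intro τ hτ
    obtain ⟨T0, -, hT⟩ := JT_int hF ha hld hline (Finset.ne_of_mem_erase hτ) h ε lam
      (η / (Ct + 1)) hε hεh hh1 hlam (by positivity)
    exact ⟨T0, hT⟩
  choose! Ta hTa using hex1
  set Tm : ℝ := ∑ τ ∈ S.erase 0, |Ta τ| with hTm
  have hTm' : ∀ τ ∈ S.erase 0, Ta τ ≤ Tm := by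
    intro τ hτ
    exact (le_abs_self _).trans (Finset.single_le_sum (f := fun τ => |Ta τ|)
      (fun τ _ => abs_nonneg _) hτ)
  refine ⟨max 10 Tm, le_max_left _ _, fun T hT A B hA hB hAB Λ hΛ1 hΛ2 => ?_⟩
  have hT10 : 10 ≤ T := (le_max_left _ _).trans hT
  have hTTm : Tm ≤ T := (le_max_right _ _).trans hT
  have hTpos : 0 < T := by linarith
  set L := Real.log T with hL
  have hL0 : 0 ≤ L := Real.log_nonneg (by linarith)
  have hU : 1 ≤ A := by linarith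
  have hH0 : 0 < B - A := (Real.rpow_pos_of_pos hTpos h).trans_le hAB
  rw [PG_tp hF hline hψ hψe hU]
  refine (split_zero h0 c (fun τ => QTp ψ F Λ A B τ) _ (QTp_zero' hF hline hψ hψe hU Λ)).trans ?_
  have hbound : ∀ τ ∈ S.erase 0, ‖QTp ψ F Λ A B τ‖ ≤
      (2 * Real.exp (τ ^ 2 / 4) * D) * (η / (Ct + 1) * ((B - A) * L)) := by
    intro τ hτ
    have h1 := QTp_norm hF hU (U2 := B) hψ Λ τ hac (fun α => le_rfl) hae
    refine h1.trans ?_
    have hJc : Continuous fun α : ℝ => JT F A B (Λ * α) τ :=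
      (JT_cont hF hU τ).comp (by fun_prop)
    have h2 : ∫ α in (0 : ℝ)..1, |ψ α| * ‖JT F A B (Λ * α) τ‖ ≤
        D * ∫ α in (0 : ℝ)..1, ‖JT F A B (Λ * α) τ‖ := by
      rw [← intervalIntegral.integral_const_mul]
      refine intervalIntegral.integral_mono_on zero_le_one
        ((hac.mul hJc.norm).intervalIntegrable _ _)
        ((continuous_const.mul hJc.norm).intervalIntegrable _ _) fun α hα => ?_
      have := hD α hα
      gcongr
    have h3 := hTa τ hτ T ((hTm' τ hτ).trans hTTm) A B hA hB hAB Λ hΛ1 hΛ2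
    calc 2 * Real.exp (τ ^ 2 / 4) * ∫ α in (0 : ℝ)..1, |ψ α| * ‖JT F A B (Λ * α) τ‖ ≤
        2 * Real.exp (τ ^ 2 / 4) * (D * (η / (Ct + 1) * ((B - A) * L))) := by
          gcongr
          exact h2.trans (by gcongr)
      _ = _ := by ring
  calc ∑ τ ∈ S.erase 0, ‖c τ‖ * ‖QTp ψ F Λ A B τ‖ ≤
      ∑ τ ∈ S.erase 0, ‖c τ‖ * ((2 * Real.exp (τ ^ 2 / 4) * D) *
        (η / (Ct + 1) * ((B - A) * L))) := by
        refine Finset.sum_le_sum fun τ hτ => ?_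
        have := hbound τ hτ
        gcongr
    _ = Ct * (η / (Ct + 1) * ((B - A) * L)) := by
        rw [hCt, Finset.sum_mul]
        refine Finset.sum_congr rfl fun τ _ => by ring
    _ = Ct / (Ct + 1) * (η * ((B - A) * L)) := by field_simp
    _ ≤ 1 * (η * ((B - A) * L)) := by
        apply mul_le_mul_of_nonneg_right _ (by positivity)
        rw [div_le_one (by positivity)]
        linarith
    _ = _ := one_mul _

end

/-! ### decaying kernels -/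

section

variable {F : ℂ → ℂ} {ψ : ℝ → ℝ} {K : ℝ}

/-- the decay in terms of the scale `L` -/
lemma dec_pt (hdec : ∀ x, |rk ψ x| ≤ K / (1 + x ^ 2)) {Λ L lam : ℝ} (hlam : 0 < lam)
    (hlam1 : lam ≤ 1) (hL : 0 < L) (hΛ : lam * L ≤ Λ) (u : ℝ) :
    |rk ψ (Λ * u)| ≤ 2 * K / lam ^ 2 * (1 / (1 + |u| * L) ^ 2) := by
  have hK : 0 ≤ K := by
    have := (abs_nonneg _).trans (hdec 0)
    simpa using this
  refine (hdec _).trans ?_
  rw [mul_one_div, div_div, div_le_div_iff₀ (by positivity) (by positivity)]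
  have h1 : lam ^ 2 * (1 + |u| * L) ^ 2 ≤ 2 * (1 + (Λ * u) ^ 2) := by
    have h2 : (1 + |u| * L) ^ 2 ≤ 2 * (1 + (|u| * L) ^ 2) := by nlinarith [sq_nonneg (1 - |u| * L)]
    have h3 : lam ^ 2 * (|u| * L) ^ 2 ≤ (Λ * u) ^ 2 := by
      have h4 : lam * (|u| * L) ≤ Λ * |u| := by
        have := mul_le_mul_of_nonneg_right hΛ (abs_nonneg u)
        linarith
      have h5 : (lam * (|u| * L)) ^ 2 ≤ (Λ * |u|) ^ 2 := by gcongr
      calc lam ^ 2 * (|u| * L) ^ 2 = (lam * (|u| * L)) ^ 2 := by ring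
        _ ≤ (Λ * |u|) ^ 2 := h5
        _ = (Λ * u) ^ 2 := by rw [mul_pow, sq_abs, ← mul_pow]
    have h6 : lam ^ 2 ≤ 1 := by nlinarith
    have h7 : lam ^ 2 * (1 + |u| * L) ^ 2 ≤ lam ^ 2 * (2 * (1 + (|u| * L) ^ 2)) := by gcongr
    nlinarith
  calc K * (lam ^ 2 * (1 + |u| * L) ^ 2) ≤ K * (2 * (1 + (Λ * u) ^ 2)) := by gcongr
    _ = 2 * K * (1 + (Λ * u) ^ 2) := by ring

lemma pow_cmp {y : ℝ} (hy : 0 ≤ y) : 1 / (1 + y) ^ 2 ≤ 1 / (1 + y) ^ ((3 : ℝ) / 2) := by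
  apply one_div_le_one_div_of_le (Real.rpow_pos_of_pos (by linarith) _)
  rw [← Real.rpow_natCast]
  exact Real.rpow_le_rpow_of_exponent_le (by linarith) (by norm_num)

lemma pow_cmp2 {y : ℝ} (hy : 0 ≤ y) : 1 / (1 + y) ^ 2 * Real.sqrt y ≤
    1 / (1 + y) ^ ((3 : ℝ) / 2) := by
  have h1 : Real.sqrt y ≤ (1 + y) ^ ((1 : ℝ) / 2) := by
    rw [← Real.sqrt_eq_rpow]
    exact Real.sqrt_le_sqrt (by linarith)
  have h2 : (0 : ℝ) < 1 + y := by linarith
  calc 1 / (1 + y) ^ 2 * Real.sqrt y ≤ 1 / (1 + y) ^ 2 * (1 + y) ^ ((1 : ℝ) / 2) := by gcongr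
    _ = (1 + y) ^ (-2 : ℝ) * (1 + y) ^ ((1 : ℝ) / 2) := by
        rw [Real.rpow_neg h2.le, one_div]
        norm_num
    _ = (1 + y) ^ (-((3 : ℝ) / 2)) := by rw [← Real.rpow_add h2]; norm_num
    _ = _ := by rw [Real.rpow_neg h2.le, one_div]

/-- absolute bound for the pair sum -/
lemma abs_pair (hdec : ∀ x, |rk ψ x| ≤ K / (1 + x ^ 2)) {Λ L lam A B : ℝ} (hlam : 0 < lam)
    (hlam1 : lam ≤ 1) (hL : 0 < L) (hΛ : lam * L ≤ Λ) {W : ℝ} (w : ℂ → ℂ → ℝ)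
    (hw : ∀ s s', |w s s'| ≤ W) :
    |∑ s ∈ Zf F A B, ∑ s' ∈ Zf F A B, (mult F s : ℝ) * (mult F s' : ℝ) *
      (rk ψ (Λ * (s.im - s'.im)) * w s s')| ≤
      W * (80 * K / lam ^ 2) * Pc F A B L := by
  have hK : 0 ≤ K := by
    have := (abs_nonneg _).trans (hdec 0)
    simpa using this
  have hW : 0 ≤ W := (abs_nonneg _).trans (hw 0 0)
  refine (Finset.abs_sum_le_sum_abs _ _).trans ?_
  calc ∑ s ∈ Zf F A B, |∑ s' ∈ Zf F A B, (mult F s : ℝ) * (mult F s' : ℝ) *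
      (rk ψ (Λ * (s.im - s'.im)) * w s s')| ≤
      ∑ s ∈ Zf F A B, ∑ s' ∈ Zf F A B, (2 * K / lam ^ 2 * W) * ((mult F s : ℝ) * (mult F s' : ℝ) *
        (1 / (1 + |s.im - s'.im| * L) ^ ((3 : ℝ) / 2))) := by
        refine Finset.sum_le_sum fun s _ => ?_
        refine (Finset.abs_sum_le_sum_abs _ _).trans (Finset.sum_le_sum fun s' _ => ?_)
        rw [abs_mul, abs_of_nonneg (by positivity : (0 : ℝ) ≤ (mult F s : ℝ) * (mult F s' : ℝ)),
          abs_mul]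
        have h1 := dec_pt hdec hlam hlam1 hL hΛ (s.im - s'.im)
        have h2 := pow_cmp (y := |s.im - s'.im| * L) (by positivity)
        have h3 := hw s s'
        calc (mult F s : ℝ) * (mult F s' : ℝ) * (|rk ψ (Λ * (s.im - s'.im))| * |w s s'|) ≤
            (mult F s : ℝ) * (mult F s' : ℝ) * ((2 * K / lam ^ 2 *
              (1 / (1 + |s.im - s'.im| * L) ^ ((3 : ℝ) / 2))) * W) := by
              gcongr
              exact h1.trans (by gcongr)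
          _ = _ := by ring
    _ = (2 * K / lam ^ 2 * W) * ∑ s ∈ Zf F A B, ∑ s' ∈ Zf F A B, ((mult F s : ℝ) *
        (mult F s' : ℝ) * (1 / (1 + |s.im - s'.im| * L) ^ ((3 : ℝ) / 2))) := by
        rw [Finset.mul_sum]
        refine Finset.sum_congr rfl fun s _ => ?_
        rw [Finset.mul_sum]
    _ ≤ (2 * K / lam ^ 2 * W) * (20 * (1 * Pc F A B L + 1 / 1 * Pc F A B L)) := by
        apply mul_le_mul_of_nonneg_left _ (by positivity)
        exact cell_bound (x := fun s : ℂ => s.im) (Zf F A B) (Zf F A B)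
          (m := fun s => (mult F s : ℝ)) (fun s => Nat.cast_nonneg _) hL one_pos
    _ = _ := by ring

/-- pair sums with a factor that is small for close pairs -/
lemma small_pair (hdec : ∀ x, |rk ψ x| ≤ K / (1 + x ^ 2)) {Λ L lam A B : ℝ} (hlam : 0 < lam)
    (hlam1 : lam ≤ 1) (hL : 0 < L) (hΛ : lam * L ≤ Λ) {W : ℝ} (w : ℂ → ℂ → ℝ)
    (hw : ∀ s s', |w s s'| ≤ W * Real.sqrt |s.im - s'.im|) (hW : 0 ≤ W) :
    |∑ s ∈ Zf F A B, ∑ s' ∈ Zf F A B, (mult F s : ℝ) * (mult F s' : ℝ) *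
      (rk ψ (Λ * (s.im - s'.im)) * w s s')| ≤
      W * (80 * K / lam ^ 2) / Real.sqrt L * Pc F A B L := by
  have hK : 0 ≤ K := by
    have := (abs_nonneg _).trans (hdec 0)
    simpa using this
  have hsL : 0 < Real.sqrt L := Real.sqrt_pos.2 hL
  refine (Finset.abs_sum_le_sum_abs _ _).trans ?_
  calc ∑ s ∈ Zf F A B, |∑ s' ∈ Zf F A B, (mult F s : ℝ) * (mult F s' : ℝ) *
      (rk ψ (Λ * (s.im - s'.im)) * w s s')| ≤
      ∑ s ∈ Zf F A B, ∑ s' ∈ Zf F A B, (2 * K / lam ^ 2 * (W / Real.sqrt L)) *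
        ((mult F s : ℝ) * (mult F s' : ℝ) *
        (1 / (1 + |s.im - s'.im| * L) ^ ((3 : ℝ) / 2))) := by
        refine Finset.sum_le_sum fun s _ => ?_
        refine (Finset.abs_sum_le_sum_abs _ _).trans (Finset.sum_le_sum fun s' _ => ?_)
        rw [abs_mul, abs_of_nonneg (by positivity : (0 : ℝ) ≤ (mult F s : ℝ) * (mult F s' : ℝ)),
          abs_mul]
        have h1 := dec_pt hdec hlam hlam1 hL hΛ (s.im - s'.im)
        have h2 := pow_cmp2 (y := |s.im - s'.im| * L) (by positivity)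
        have h3 := hw s s'
        rw [Real.sqrt_mul (abs_nonneg _)] at h2
        calc (mult F s : ℝ) * (mult F s' : ℝ) * (|rk ψ (Λ * (s.im - s'.im))| * |w s s'|) ≤
            (mult F s : ℝ) * (mult F s' : ℝ) * ((2 * K / lam ^ 2 *
              (1 / (1 + |s.im - s'.im| * L) ^ 2)) * (W * Real.sqrt |s.im - s'.im|)) := by
              gcongr
          _ = (mult F s : ℝ) * (mult F s' : ℝ) * ((2 * K / lam ^ 2 * (W / Real.sqrt L)) *
              (1 / (1 + |s.im - s'.im| * L) ^ 2 *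
                (Real.sqrt |s.im - s'.im| * Real.sqrt L))) := by
              field_simp
          _ ≤ (mult F s : ℝ) * (mult F s' : ℝ) * ((2 * K / lam ^ 2 * (W / Real.sqrt L)) *
              (1 / (1 + |s.im - s'.im| * L) ^ ((3 : ℝ) / 2))) := by gcongr
          _ = _ := by ring
    _ = (2 * K / lam ^ 2 * (W / Real.sqrt L)) * ∑ s ∈ Zf F A B, ∑ s' ∈ Zf F A B,
        ((mult F s : ℝ) * (mult F s' : ℝ) *
          (1 / (1 + |s.im - s'.im| * L) ^ ((3 : ℝ) / 2))) := by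
        rw [Finset.mul_sum]
        refine Finset.sum_congr rfl fun s _ => ?_
        rw [Finset.mul_sum]
    _ ≤ (2 * K / lam ^ 2 * (W / Real.sqrt L)) * (20 * (1 * Pc F A B L + 1 / 1 * Pc F A B L)) := by
        apply mul_le_mul_of_nonneg_left _ (by positivity)
        exact cell_bound (x := fun s : ℂ => s.im) (Zf F A B) (Zf F A B)
          (m := fun s => (mult F s : ℝ)) (fun s => Nat.cast_nonneg _) hL one_pos
    _ = _ := by ring

end

/-! ### trigonometric polynomials are Lipschitz -/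

lemma tp_lip (S : Finset ℝ) (c : ℝ → ℂ) (t t' : ℝ) :
    |tp S c t - tp S c t'| ≤ (∑ τ ∈ S, ‖c τ‖ * |τ|) * |t - t'| := by
  unfold tp
  rw [← Complex.sub_re, ← Finset.sum_sub_distrib]
  refine (Complex.abs_re_le_norm _).trans ((norm_sum_le _ _).trans ?_)
  rw [Finset.sum_mul]
  refine Finset.sum_le_sum fun τ _ => ?_
  rw [← mul_sub, norm_mul, mul_assoc ‖c τ‖]
  apply mul_le_mul_of_nonneg_left _ (norm_nonneg _)
  have h1 : cexp (I * τ * t) - cexp (I * τ * t') =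
      cexp (I * τ * t') * (cexp (I * ((τ * (t - t') : ℝ) : ℂ)) - 1) := by
    rw [mul_sub, mul_one, ← Complex.exp_add]
    congr 2
    push_cast
    ring
  rw [h1, norm_mul, tw_exp_norm, one_mul]
  have h2 := Real.norm_exp_I_mul_ofReal_sub_one_le (x := τ * (t - t'))
  rw [Real.norm_eq_abs, abs_mul] at h2
  exact h2

lemma min_sqrt {x : ℝ} (hx : 0 ≤ x) : min 1 x ≤ Real.sqrt x := by
  rcases le_or_gt x 1 with h | h
  · rw [min_eq_right h]
    exact Real.le_sqrt_of_sq_le (by nlinarith)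
  · rw [min_eq_left h.le]
    rw [Real.le_sqrt' one_pos]
    linarith

/-- comparison of the two weights -/
lemma weight_cmp (S : Finset ℝ) (c : ℝ → ℂ) (x y : ℝ) :
    |Real.exp (-(x - y) ^ 2 / 4) * tp S c ((x + y) / 2) - tp S c x| ≤
      (3 * (∑ τ ∈ S, ‖c τ‖) + ∑ τ ∈ S, ‖c τ‖ * |τ|) * Real.sqrt |x - y| := by
  set W := ∑ τ ∈ S, ‖c τ‖ with hW
  set V := ∑ τ ∈ S, ‖c τ‖ * |τ| with hV
  have hW0 : 0 ≤ W := Finset.sum_nonneg fun _ _ => norm_nonneg _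
  have hV0 : 0 ≤ V := Finset.sum_nonneg fun _ _ => by positivity
  have h1 := min_sqrt (abs_nonneg (x - y))
  refine le_trans ?_ (mul_le_mul_of_nonneg_left h1 (by positivity))
  have e1 : Real.exp (-(x - y) ^ 2 / 4) * tp S c ((x + y) / 2) - tp S c x =
      (Real.exp (-(x - y) ^ 2 / 4) - 1) * tp S c ((x + y) / 2) +
        (tp S c ((x + y) / 2) - tp S c x) := by ring
  rw [e1]
  refine (abs_add_le _ _).trans ?_
  rw [abs_mul]
  have h2 := tp_bound S c ((x + y) / 2)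
  have h3 := tp_bound S c x
  have h4 := tp_lip S c ((x + y) / 2) x
  have h5 : |(x + y) / 2 - x| = |x - y| / 2 := by
    rw [show (x + y) / 2 - x = -(x - y) / 2 by ring, abs_div, abs_neg]
    norm_num
  rw [h5] at h4
  have h6 : |Real.exp (-(x - y) ^ 2 / 4) - 1| ≤ min 1 |x - y| := by
    have h7 : Real.exp (-(x - y) ^ 2 / 4) ≤ 1 := by
      rw [Real.exp_le_one_iff]; nlinarith [sq_nonneg (x - y)]
    have h8 := Real.exp_pos (-(x - y) ^ 2 / 4)
    have h9 := Real.add_one_le_exp (-(x - y) ^ 2 / 4)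
    rw [abs_sub_comm, abs_of_nonneg (by linarith)]
    refine le_min (by linarith) ?_
    rcases le_or_gt |x - y| 1 with h | h
    · have : (x - y) ^ 2 ≤ |x - y| := by
        rw [← sq_abs]; nlinarith [abs_nonneg (x - y)]
      linarith [abs_nonneg (x - y)]
    · linarith
  have h10 : |tp S c ((x + y) / 2) - tp S c x| ≤ (2 * W + V) * min 1 |x - y| := by
    rcases le_or_gt |x - y| 1 with h | h
    · rw [min_eq_right h]
      have : V * (|x - y| / 2) ≤ (2 * W + V) * |x - y| := by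
        have := abs_nonneg (x - y)
        nlinarith
      linarith
    · rw [min_eq_left h.le]
      have : |tp S c ((x + y) / 2) - tp S c x| ≤ W + W :=
        (abs_sub _ _).trans (add_le_add h2 h3)
      linarith
  have h11 : |Real.exp (-(x - y) ^ 2 / 4) - 1| * |tp S c ((x + y) / 2)| ≤ min 1 |x - y| * W := by
    gcongr
  have h12 : (3 * W + V) * min 1 |x - y| = min 1 |x - y| * W + (2 * W + V) * min 1 |x - y| := by
    ring
  rw [h12]
  linarith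

end TH803TW
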