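import Pool.Agent.TH803.TW.ShP
import Pool.Agent.TH803.TW.Ker

/-! Isolated simple zeros with an almost periodic weight. -/

open Complex Filter Topology Set MeasureTheory
open scoped BigOperators ComplexConjugate

namespace TH803TW

open H370 H370.A2 H370.AS H295SI

lemma kap_cos {g : ℝ → ℝ} (hg : Win g) (x : ℝ) :
    (kapG g (x : ℂ)).re = ∫ y in (-1 / 2 : ℝ)..(1 / 2), g y * Real.cos (x * y) := by
  have hgc := hg.cont
  have h2 : kapG g (x : ℂ) = (kapG g (x : ℂ) + kapG g (-(x : ℂ))) / 2 := by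
    rw [H143TG.kapG_even hg]; ring
  have h3 : kapG g (x : ℂ) = ((∫ y in (-1 / 2 : ℝ)..(1 / 2), g y * Real.cos (x * y) : ℝ) : ℂ) := by
    rw [h2]
    unfold kapG
    rw [← intervalIntegral.integral_add, ← intervalIntegral.integral_div,
      ← intervalIntegral.integral_ofReal]
    · refine intervalIntegral.integral_congr fun y _ => ?_
      show ((g y : ℂ) * cexp (I * (x : ℂ) * y) + (g y : ℂ) * cexp (I * (-(x : ℂ)) * y)) / 2 =
        ((g y * Real.cos (x * y) : ℝ) : ℂ)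
      rw [Complex.ofReal_mul, Complex.ofReal_cos]
      have e1 : I * (x : ℂ) * y = ((x * y : ℝ) : ℂ) * I := by push_cast; ring
      have e2 : I * (-(x : ℂ)) * y = (-((x * y : ℝ) : ℂ)) * I := by push_cast; ring
      rw [e1, e2, Complex.cos]
      ring
    · exact (by fun_prop : Continuous fun y : ℝ => (g y : ℂ) *
        cexp (I * (x : ℂ) * y)).intervalIntegrable _ _
    · exact (by fun_prop : Continuous fun y : ℝ => (g y : ℂ) *
        cexp (I * (-(x : ℂ)) * y)).intervalIntegrable _ _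
  rw [h3, Complex.ofReal_re]

lemma trig_var {y : ℝ} (h0 : 0 ≤ y) (h1 : y ≤ 1) :
    3 * y * Real.cos y ≤ (3 - y ^ 2) * Real.sin y := by
  have hpi := Real.pi_gt_three
  have hmono : MonotoneOn (fun y : ℝ => (3 - y ^ 2) * Real.sin y - 3 * y * Real.cos y)
      (Set.Icc 0 1) := by
    have hd : ∀ y : ℝ, HasDerivAt (fun y : ℝ => (3 - y ^ 2) * Real.sin y - 3 * y * Real.cos y)
        (y * (Real.sin y - y * Real.cos y)) y := by
      intro y
      have q1 : HasDerivAt (fun y : ℝ => 3 - y ^ 2) (-(2 * y)) y := by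
        have := ((hasDerivAt_id y).fun_pow 2).const_sub 3
        simpa using this
      have q2 : HasDerivAt (fun y : ℝ => 3 * y) 3 y := by
        simpa using (hasDerivAt_id y).const_mul 3
      have q3 := (q1.mul (Real.hasDerivAt_sin y)).sub (q2.mul (Real.hasDerivAt_cos y))
      refine q3.congr_deriv ?_
      ring
    apply monotoneOn_of_deriv_nonneg (convex_Icc 0 1)
    · exact fun y _ => (hd y).continuousAt.continuousWithinAt
    · exact fun y _ => (hd y).differentiableAt.differentiableWithinAt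
    · intro y hy
      rw [interior_Icc] at hy
      rw [(hd y).deriv]
      have h2 : 0 < Real.cos y := Real.cos_pos_of_mem_Ioo ⟨by linarith [hy.1], by linarith [hy.2]⟩
      have h3 := (Real.lt_tan hy.1 (by linarith [hy.2])).le
      have h4 : y * Real.cos y ≤ Real.sin y := by
        rw [Real.tan_eq_sin_div_cos, le_div_iff₀ h2] at h3
        exact h3
      exact mul_nonneg hy.1.le (by linarith)
  have h2 := hmono ⟨le_rfl, zero_le_one⟩ ⟨h0, h1⟩ h0
  simp only at h2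
  norm_num at h2
  linarith

/-- the variance of the window -/
lemma gS_var {s : ℝ} (h0 : 0 < s) (h1 : s ≤ Real.sqrt 2) :
    ∫ x in (-1 / 2 : ℝ)..(1 / 2), gS s x * x ^ 2 ≤ 1 / 12 := by
  have hs2 : s ≤ 2 := by
    have : Real.sqrt 2 ≤ 2 := by
      rw [Real.sqrt_le_left (by norm_num)]; norm_num
    linarith
  have hpi := Real.pi_gt_three
  have hsin : 0 < Real.sin (s / 2) := Real.sin_pos_of_pos_of_lt_pi (by linarith) (by linarith)
  have hder : ∀ x ∈ Set.uIcc (-1 / 2 : ℝ) (1 / 2), HasDerivAt (fun x : ℝ =>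
      s / (2 * Real.sin (s / 2)) * (x ^ 2 * Real.sin (s * x) / s + 2 * x * Real.cos (s * x) / s ^ 2 -
        2 * Real.sin (s * x) / s ^ 3)) (gS s x * x ^ 2) x := by
    intro x _
    have q0 : HasDerivAt (fun y : ℝ => s * y) s x := by
      simpa using (hasDerivAt_id x).const_mul s
    have q1 : HasDerivAt (fun y : ℝ => y ^ 2) (2 * x) x := by
      simpa using (hasDerivAt_id x).fun_pow 2
    have q2 : HasDerivAt (fun y : ℝ => 2 * y) 2 x := by
      simpa using (hasDerivAt_id x).const_mul 2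
    have q3 := ((((q1.mul q0.sin).div_const s).add ((q2.mul q0.cos).div_const (s ^ 2))).sub
      ((q0.sin.const_mul 2).div_const (s ^ 3))).const_mul (s / (2 * Real.sin (s / 2)))
    refine q3.congr_deriv ?_
    unfold gS
    field_simp
    ring
  have hc : Continuous fun x : ℝ => gS s x * x ^ 2 := by
    unfold gS
    fun_prop
  rw [intervalIntegral.integral_eq_sub_of_hasDerivAt hder (hc.intervalIntegrable _ _)]
  have e1 : s * (1 / 2) = s / 2 := by ring
  have e2 : s * (-1 / 2) = -(s / 2) := by ring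
  simp only [e1, e2, Real.sin_neg, Real.cos_neg]
  set y := s / 2 with hy
  have hsy : s = 2 * y := by rw [hy]; ring
  have hy0 : 0 < y := by positivity
  have h3 := trig_var hy0.le (by rw [hy]; linarith)
  rw [hsy]
  have e3 : 2 * y / (2 * Real.sin y) * ((1 / 2) ^ 2 * Real.sin y / (2 * y) +
      2 * (1 / 2) * Real.cos y / (2 * y) ^ 2 - 2 * Real.sin y / (2 * y) ^ 3) -
      2 * y / (2 * Real.sin y) * ((-1 / 2) ^ 2 * -Real.sin y / (2 * y) +
      2 * (-1 / 2) * Real.cos y / (2 * y) ^ 2 - 2 * -Real.sin y / (2 * y) ^ 3) =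
      (y ^ 2 * Real.sin y + 2 * y * Real.cos y - 2 * Real.sin y) / (4 * y ^ 2 * Real.sin y) := by
    field_simp
    ring
  rw [e3, div_le_iff₀ (by positivity)]
  nlinarith

lemma kap_low {s : ℝ} (h0 : 0 < s) (h1 : s ≤ Real.sqrt 2) (x : ℝ) :
    1 - x ^ 2 / 24 ≤ (kapG (gS s) (x : ℂ)).re := by
  have hg : Win (gS s) := H255SI.winS s h0 h1
  have hgc := hg.cont
  rw [kap_cos hg]
  have h4 : ∫ y in (-1 / 2 : ℝ)..(1 / 2), (gS s y - x ^ 2 / 2 * (gS s y * y ^ 2)) ≤
      ∫ y in (-1 / 2 : ℝ)..(1 / 2), gS s y * Real.cos (x * y) := by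
    refine intervalIntegral.integral_mono_on (by norm_num)
      ((by fun_prop : Continuous fun y => gS s y - x ^ 2 / 2 * (gS s y * y ^ 2)).intervalIntegrable _ _)
      ((hgc.mul (by fun_prop)).intervalIntegrable _ _) fun y hy => ?_
    have h5 := hg.nonneg y hy.1 hy.2
    have h6 := Real.one_sub_sq_div_two_le_cos (x := x * y)
    calc gS s y - x ^ 2 / 2 * (gS s y * y ^ 2) = gS s y * (1 - (x * y) ^ 2 / 2) := by ring
      _ ≤ _ := by gcongr
  have h5 : ∫ y in (-1 / 2 : ℝ)..(1 / 2), (gS s y - x ^ 2 / 2 * (gS s y * y ^ 2)) =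
      1 - x ^ 2 / 2 * ∫ y in (-1 / 2 : ℝ)..(1 / 2), gS s y * y ^ 2 := by
    rw [intervalIntegral.integral_sub (hgc.intervalIntegrable _ _)
      ((by fun_prop : Continuous fun y => x ^ 2 / 2 * (gS s y * y ^ 2)).intervalIntegrable _ _),
      intervalIntegral.integral_const_mul, hg.mass]
  rw [h5] at h4
  have h6 := gS_var h0 h1
  have h7 : x ^ 2 / 2 * ∫ y in (-1 / 2 : ℝ)..(1 / 2), gS s y * y ^ 2 ≤ x ^ 2 / 2 * (1 / 12) := by
    gcongr
  linarith

/-- lower bound for the kernel -/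
lemma KK_low {s h a Λ L x : ℝ} (h0 : 0 < s) (h1 : s ≤ Real.sqrt 2) (ha : 0 ≤ a) (hh : 0 ≤ h)
    (hE : 0 ≤ 1 - (2 * Real.pi * a * h) ^ 2 / 24) (hL : 0 < L) (hΛ0 : 0 ≤ Λ) (hΛ : Λ ≤ h * L)
    (hx : |x| ≤ 2 * Real.pi * a / L) :
    (1 - (2 * Real.pi * a * h) ^ 2 / 24) ^ 2 * (1 - (2 * Real.pi * a / L) ^ 2 / 4) ≤
      KK (gS s) Λ x := by
  have hpi := Real.pi_pos
  unfold KK
  have h2 : |Λ * x| ≤ 2 * Real.pi * a * h := by
    rw [abs_mul, abs_of_nonneg hΛ0]
    calc Λ * |x| ≤ h * L * (2 * Real.pi * a / L) := by gcongr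
      _ = 2 * Real.pi * a * h := by field_simp
  have h3 : (Λ * x) ^ 2 ≤ (2 * Real.pi * a * h) ^ 2 := by
    rw [← sq_abs (Λ * x)]
    gcongr
  have h4 : 1 - (2 * Real.pi * a * h) ^ 2 / 24 ≤ (kapG (gS s) ((Λ * x : ℝ) : ℂ)).re := by
    have := kap_low h0 h1 (Λ * x)
    linarith
  have h5 : 1 - (2 * Real.pi * a / L) ^ 2 / 4 ≤ Real.exp (-x ^ 2 / 4) := by
    have h6 := Real.add_one_le_exp (-x ^ 2 / 4)
    have h7 : x ^ 2 ≤ (2 * Real.pi * a / L) ^ 2 := by
      rw [← sq_abs x]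
      gcongr
    linarith
  calc (1 - (2 * Real.pi * a * h) ^ 2 / 24) ^ 2 * (1 - (2 * Real.pi * a / L) ^ 2 / 4) ≤
      (1 - (2 * Real.pi * a * h) ^ 2 / 24) ^ 2 * Real.exp (-x ^ 2 / 4) := by gcongr
    _ ≤ _ := by gcongr

/-- number of zeros near `s` -/
noncomputable def kF (F : ℂ → ℂ) (A B ρ : ℝ) (s : ℂ) : ℝ :=
  ∑ s' ∈ Zf F A B, (mult F s' : ℝ) * (if |s.im - s'.im| ≤ ρ then 1 else 0)

/-- close pairs in terms of the cells -/
lemma kF_sum (F : ℂ → ℂ) (A B : ℝ) {L b : ℝ} (hL : 0 < L) (hb : 0 ≤ b) :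
    ∑ s ∈ Zf F A B, (mult F s : ℝ) * kF F A B (b / L) s ≤
      40 * (1 + b) ^ ((3 : ℝ) / 2) * Pc F A B L := by
  have h1 := cell_bound (x := fun s : ℂ => s.im) (Zf F A B) (Zf F A B)
    (m := fun s => (mult F s : ℝ)) (fun s => Nat.cast_nonneg _) hL one_pos
  have h2 : 20 * (1 * PP1 (Zf F A B) (fun s => (mult F s : ℝ)) (fun s => s.im) L +
      1 / 1 * PP1 (Zf F A B) (fun s => (mult F s : ℝ)) (fun s => s.im) L) = 40 * Pc F A B L := by
    unfold Pc; ring
  rw [h2] at h1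
  have hb0 : 0 < (1 + b) ^ ((3 : ℝ) / 2) := Real.rpow_pos_of_pos (by linarith) _
  calc ∑ s ∈ Zf F A B, (mult F s : ℝ) * kF F A B (b / L) s ≤
      ∑ s ∈ Zf F A B, ∑ s' ∈ Zf F A B, (1 + b) ^ ((3 : ℝ) / 2) *
        ((mult F s : ℝ) * (mult F s' : ℝ) * (1 / (1 + |s.im - s'.im| * L) ^ ((3 : ℝ) / 2))) := by
        refine Finset.sum_le_sum fun s _ => ?_
        unfold kF
        rw [Finset.mul_sum]
        refine Finset.sum_le_sum fun s' _ => ?_
        have hp : 0 < (1 + |s.im - s'.im| * L) ^ ((3 : ℝ) / 2) :=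
          Real.rpow_pos_of_pos (by positivity) _
        split_ifs with h
        · have h3 : (1 + |s.im - s'.im| * L) ^ ((3 : ℝ) / 2) ≤ (1 + b) ^ ((3 : ℝ) / 2) := by
            apply Real.rpow_le_rpow (by positivity) _ (by norm_num)
            rw [le_div_iff₀ hL] at h
            linarith
          have h4 : 1 ≤ (1 + b) ^ ((3 : ℝ) / 2) *
              (1 / (1 + |s.im - s'.im| * L) ^ ((3 : ℝ) / 2)) := by
            rw [mul_one_div, le_div_iff₀ hp, one_mul]
            exact h3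
          calc (mult F s : ℝ) * ((mult F s' : ℝ) * 1) = (mult F s : ℝ) * (mult F s' : ℝ) * 1 := by
                ring
            _ ≤ (mult F s : ℝ) * (mult F s' : ℝ) * ((1 + b) ^ ((3 : ℝ) / 2) *
              (1 / (1 + |s.im - s'.im| * L) ^ ((3 : ℝ) / 2))) := by gcongr
            _ = _ := by ring
        · rw [mul_zero, mul_zero]
          positivity
    _ = (1 + b) ^ ((3 : ℝ) / 2) * ∑ s ∈ Zf F A B, ∑ s' ∈ Zf F A B, (mult F s : ℝ) *
        (mult F s' : ℝ) * (1 / (1 + |s.im - s'.im| * L) ^ ((3 : ℝ) / 2)) := by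
        rw [Finset.mul_sum]
        refine Finset.sum_congr rfl fun s _ => ?_
        rw [Finset.mul_sum]
    _ ≤ (1 + b) ^ ((3 : ℝ) / 2) * (40 * Pc F A B L) := by gcongr
    _ = _ := by ring

/-- the pointwise inequality behind the isolation argument -/
lemma iso_pt {F : ℂ → ℂ} {A B ρ k0 e : ℝ} {g : ℝ → ℝ} {Λ : ℝ} {w : ℝ → ℝ} (hg : Win g)
    (hw : ∀ t, 0 ≤ w t) (hk0 : 0 ≤ k0) (he : 0 ≤ e)
    (hlow : ∀ x, |x| ≤ ρ → k0 ≤ KK g Λ x) (hmid : ∀ x y, |x - y| ≤ ρ → w x ≤ w ((x + y) / 2) + e)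
    (hρ : 0 ≤ ρ) :
    ∑ s ∈ Zf F A B, (mult F s : ℝ) * (w s.im * ((mult F s : ℝ) + k0 * (kF F A B ρ s - mult F s))) ≤
      PW g F Λ A B w + k0 * e * ∑ s ∈ Zf F A B, (mult F s : ℝ) * kF F A B ρ s := by
  classical
  unfold PW
  rw [Finset.mul_sum, ← Finset.sum_add_distrib]
  refine Finset.sum_le_sum fun s hs => ?_
  have hk : kF F A B ρ s = (mult F s : ℝ) + ∑ s' ∈ (Zf F A B).erase s,
      (mult F s' : ℝ) * (if |s.im - s'.im| ≤ ρ then 1 else 0) := by
    unfold kF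
    rw [← Finset.add_sum_erase _ _ hs]
    rw [sub_self, abs_zero, if_pos hρ, mul_one]
  have hP : ∑ s' ∈ Zf F A B, (mult F s : ℝ) * (mult F s' : ℝ) *
      (KK g Λ (s.im - s'.im) * w ((s.im + s'.im) / 2)) = (mult F s : ℝ) * (mult F s : ℝ) * w s.im +
      ∑ s' ∈ (Zf F A B).erase s, (mult F s : ℝ) * (mult F s' : ℝ) *
      (KK g Λ (s.im - s'.im) * w ((s.im + s'.im) / 2)) := by
    rw [← Finset.add_sum_erase _ _ hs]
    rw [sub_self, KK_zero hg, one_mul]
    congr 3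
    ring
  rw [hP]
  have hE : ∀ s' ∈ (Zf F A B).erase s, (mult F s : ℝ) * (w s.im * (k0 * ((mult F s' : ℝ) *
      (if |s.im - s'.im| ≤ ρ then 1 else 0)))) ≤
      (mult F s : ℝ) * (mult F s' : ℝ) * (KK g Λ (s.im - s'.im) * w ((s.im + s'.im) / 2)) +
      k0 * e * ((mult F s : ℝ) * ((mult F s' : ℝ) *
      (if |s.im - s'.im| ≤ ρ then 1 else 0))) := by
    intro s' _
    split_ifs with h
    · have h1 := hlow _ h
      have h2 := hmid s.im s'.im h
      have h3 := hw ((s.im + s'.im) / 2)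
      have h4 : k0 * w ((s.im + s'.im) / 2) ≤ KK g Λ (s.im - s'.im) * w ((s.im + s'.im) / 2) := by
        gcongr
      have h5 : k0 * w s.im ≤ k0 * (w ((s.im + s'.im) / 2) + e) := by gcongr
      have h6 : k0 * w s.im ≤ KK g Λ (s.im - s'.im) * w ((s.im + s'.im) / 2) + k0 * e := by
        linarith
      have h7 : (0 : ℝ) ≤ (mult F s : ℝ) * (mult F s' : ℝ) := by positivity
      calc (mult F s : ℝ) * (w s.im * (k0 * ((mult F s' : ℝ) * 1))) =
          (mult F s : ℝ) * (mult F s' : ℝ) * (k0 * w s.im) := by ring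
        _ ≤ (mult F s : ℝ) * (mult F s' : ℝ) *
            (KK g Λ (s.im - s'.im) * w ((s.im + s'.im) / 2) + k0 * e) := by gcongr
        _ = _ := by ring
    · have h1 := KK_nonneg g Λ (s.im - s'.im)
      have h3 := hw ((s.im + s'.im) / 2)
      have : (mult F s : ℝ) * (w s.im * (k0 * ((mult F s' : ℝ) * 0))) = 0 := by ring
      rw [this]
      positivity
  have hsum := Finset.sum_le_sum hE
  rw [Finset.sum_add_distrib, ← Finset.mul_sum, ← Finset.mul_sum, ← Finset.mul_sum,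
    ← Finset.mul_sum, ← Finset.mul_sum] at hsum
  set S1 := ∑ s' ∈ (Zf F A B).erase s, (mult F s' : ℝ) *
    (if |s.im - s'.im| ≤ ρ then 1 else 0) with hS1
  rw [hk]
  have h8 : 0 ≤ k0 * e * ((mult F s : ℝ) * (mult F s : ℝ)) := by positivity
  have e1 : (mult F s : ℝ) * (w s.im * ((mult F s : ℝ) + k0 * ((mult F s : ℝ) + S1 - mult F s))) =
      (mult F s : ℝ) * (mult F s : ℝ) * w s.im + (mult F s : ℝ) * (w s.im * (k0 * S1)) := by ring
  have e2 : k0 * e * ((mult F s : ℝ) * ((mult F s : ℝ) + S1)) =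
      k0 * e * ((mult F s : ℝ) * (mult F s : ℝ)) + k0 * e * ((mult F s : ℝ) * S1) := by ring
  rw [e1, e2]
  linarith

end TH803TW
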