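import Pool.Agent.TH803.TW.Iso
import Pool.Agent.TH803.TW.Split

/-! Isolated simple zeros with an almost periodic weight, conclusion. -/

open Complex Filter Topology Set MeasureTheory
open scoped BigOperators ComplexConjugate

namespace TH803TW

open H370 H370.A2 H370.AS H295SI

/-- final arithmetic -/
lemma iso_arith {S Sg SG P N M c k0 K0 e e1 Cc X ε A1 θ : ℝ} (hN : 0 ≤ N) (hk : 0 < k0)
    (hS : (M - 2 * e) * N ≤ S) (hP : P ≤ (M * c + e) * N) (hX : X ≤ Cc * N) (he1 : 0 ≤ e1)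
    (hI : S + k0 * (S - Sg) ≤ P + k0 * e1 * X) (hK0 : 0 < K0) (hK01 : K0 ≤ 1)
    (hk0 : k0 = K0 * (1 - θ)) (hθ0 : 0 ≤ θ) (hθ1 : θ ≤ 1 / 2) (hA1 : M * (c - 1) ≤ A1)
    (hε : 0 < ε)
    (hθ : θ * (8 * (A1 + 1)) ≤ ε * K0) (he : e = ε * K0 / 48) (he1C : e1 * Cc = ε / 4)
    (hG : Sg ≤ SG + e * N) :
    (M - M * (c - 1) / K0 - ε) * N ≤ SG := by
  have h2 : k0 * e1 * X ≤ k0 * e1 * (Cc * N) :=
    mul_le_mul_of_nonneg_left hX (mul_nonneg hk.le he1)
  have h3 : (1 + k0) * ((M - 2 * e) * N) ≤ (1 + k0) * S :=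
    mul_le_mul_of_nonneg_left hS (by linarith only [hk])
  have h21 : k0 * e1 * (Cc * N) = k0 * (ε / 4) * N := by rw [← he1C]; ring
  have h4 : (k0 * (M - 2 * e - ε / 4) - (M * (c - 1) + 3 * e)) * N ≤ k0 * Sg := by
    have h5 : (k0 * (M - 2 * e - ε / 4) - (M * (c - 1) + 3 * e)) * N =
      (1 + k0) * ((M - 2 * e) * N) - (M * c + e) * N - k0 * (ε / 4) * N := by ring
    have h6 : k0 * (S - Sg) = k0 * S - k0 * Sg := by ring
    have h7 : (1 + k0) * S = S + k0 * S := by ring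
    rw [h5]
    linarith only [h2, h3, h21, h6, h7, hI, hP]
  -- compare with the target
  have hk2 : K0 / 2 ≤ k0 := by
    have : K0 * θ ≤ K0 * (1 / 2) := mul_le_mul_of_nonneg_left hθ1 hK0.le
    rw [hk0, mul_sub, mul_one]
    linarith only [this]
  have h6 : M * (c - 1) * K0 ≤ k0 * (M * (c - 1)) + K0 * (ε / 8) * K0 := by
    have q1 : M * (c - 1) * K0 - k0 * (M * (c - 1)) = K0 * (θ * (M * (c - 1))) := by
      rw [hk0]; ring
    have q2 : θ * (M * (c - 1)) ≤ θ * A1 := mul_le_mul_of_nonneg_left hA1 hθ0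
    have q3 : θ * A1 ≤ ε / 8 * K0 := by
      have : θ * (8 * (A1 + 1)) = 8 * (θ * A1) + 8 * θ := by ring
      linarith only [this, hθ, hθ0]
    have q4 : K0 * (θ * (M * (c - 1))) ≤ K0 * (ε / 8 * K0) :=
      mul_le_mul_of_nonneg_left (q2.trans q3) hK0.le
    linarith only [q1, q4]
  have h8 : M * (c - 1) ≤ k0 * (M * (c - 1) / K0) + K0 * (ε / 8) := by
    have q1 : M * (c - 1) = M * (c - 1) * K0 / K0 := by field_simp
    have q2 : (k0 * (M * (c - 1) / K0) + K0 * (ε / 8)) * K0 =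
        k0 * (M * (c - 1)) + K0 * (ε / 8) * K0 := by field_simp
    rw [← q2] at h6
    exact le_of_mul_le_mul_right h6 hK0
  have h10 : 3 * e + 3 * (k0 * e) ≤ k0 * ε / 4 := by
    have p1 : ε * K0 ≤ 2 * (ε * k0) := by
      have := mul_le_mul_of_nonneg_left hk2 hε.le
      linarith only [this]
    have p2 : k0 * ε * K0 ≤ k0 * ε * 1 := mul_le_mul_of_nonneg_left hK01 (mul_pos hk hε).le
    have p3 : k0 * e = k0 * ε * K0 / 48 := by rw [he]; ring
    rw [p3, he]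
    linarith only [p1, p2, mul_pos hk hε]
  have h12 : K0 * (ε / 8) ≤ k0 * ε / 4 := by
    have := mul_le_mul_of_nonneg_right hk2 hε.le
    linarith only [this]
  have h13 : 0 ≤ k0 * ε := (mul_pos hk hε).le
  have h7 : k0 * (M - M * (c - 1) / K0 - ε + e) ≤
      k0 * (M - 2 * e - ε / 4) - (M * (c - 1) + 3 * e) := by
    have e1 : k0 * (M - M * (c - 1) / K0 - ε + e) =
        k0 * M - k0 * (M * (c - 1) / K0) - k0 * ε + k0 * e := by ring
    have e2 : k0 * (M - 2 * e - ε / 4) = k0 * M - 2 * (k0 * e) - k0 * ε / 4 := by ring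
    rw [e1, e2]
    linarith only [h8, h10, h12, h13]
  have h9 : k0 * ((M - M * (c - 1) / K0 - ε + e) * N) ≤ k0 * Sg := by
    calc k0 * ((M - M * (c - 1) / K0 - ε + e) * N) =
        (k0 * (M - M * (c - 1) / K0 - ε + e)) * N := by ring
      _ ≤ (k0 * (M - 2 * e - ε / 4) - (M * (c - 1) + 3 * e)) * N :=
          mul_le_mul_of_nonneg_right h7 hN
      _ ≤ k0 * Sg := h4
  have h11 := le_of_mul_le_mul_left h9 hk
  have h14 : (M - M * (c - 1) / K0 - ε + e) * N = (M - M * (c - 1) / K0 - ε) * N + e * N := by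
    ring
  rw [h14] at h11
  linarith only [h11, hG]

section

variable {F : ℂ → ℂ}

lemma kF_ge {U1 U2 ρ : ℝ} (hρ0 : 0 ≤ ρ) {s : ℂ} (hs : s ∈ Zf F U1 U2) :
    (mult F s : ℝ) ≤ kF F U1 U2 ρ s := by
  unfold kF
  have := Finset.single_le_sum (f := fun s' => (mult F s' : ℝ) *
    (if |s.im - s'.im| ≤ ρ then 1 else 0)) (fun s' _ => by split_ifs <;> positivity) hs
  simp only [sub_self, abs_zero, if_pos hρ0, mul_one] at this
  exact this

lemma mult_ge (hF : GoodL F) {U1 U2 : ℝ} (hA : 1 ≤ U1) {s : ℂ} (hs : s ∈ Zf F U1 U2) :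
    1 ≤ mult F s := by
  rw [mem_Zf hF hA] at hs
  exact Loc.mult_pos' hF (by linarith [hs.2.2.1]) hs.2.2.2.2

lemma kF_ge2 (hF : GoodL F) {U1 U2 ρ : ℝ} (hA : 1 ≤ U1) (hρ0 : 0 ≤ ρ) {s s' : ℂ}
    (hs : s ∈ Zf F U1 U2) (hs' : s' ∈ Zf F U1 U2) (hne : s' ≠ s) (hd : |s.im - s'.im| ≤ ρ) :
    2 ≤ kF F U1 U2 ρ s := by
  classical
  have h4 : ∑ x ∈ {s, s'}, (mult F x : ℝ) * (if |s.im - x.im| ≤ ρ then 1 else 0) ≤
      kF F U1 U2 ρ s := by
    unfold kF
    refine Finset.sum_le_sum_of_subset_of_nonneg ?_ fun x _ _ => by split_ifs <;> positivity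
    intro x hx
    rw [Finset.mem_insert, Finset.mem_singleton] at hx
    rcases hx with rfl | rfl
    · exact hs
    · exact hs'
  rw [Finset.sum_pair hne.symm, sub_self, abs_zero, if_pos hρ0, if_pos hd, mul_one,
    mul_one] at h4
  have h5 : (1 : ℝ) ≤ mult F s := by exact_mod_cast mult_ge hF hA hs
  have h6 : (1 : ℝ) ≤ mult F s' := by exact_mod_cast mult_ge hF hA hs'
  linarith

lemma iso_comb (hF : GoodL F) {U1 U2 ρ k0 e1 Λ : ℝ} {g φ : ℝ → ℝ} (hA : 1 ≤ U1) (hg : Win g)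
    (hφ0 : ∀ t, 0 ≤ φ t) (hk0 : 0 ≤ k0) (hk1 : k0 ≤ 1) (he : 0 ≤ e1)
    (hlow : ∀ x, |x| ≤ ρ → k0 ≤ KK g Λ x)
    (hmid : ∀ x y, |x - y| ≤ ρ → φ x ≤ φ ((x + y) / 2) + e1) (hρ : 0 ≤ ρ) :
    MW F U1 U2 φ + k0 * (MW F U1 U2 φ - ∑ s ∈ (Zf F U1 U2).filter (fun s => kF F U1 U2 ρ s < 2),
      (mult F s : ℝ) * φ s.im) ≤
      PW g F Λ U1 U2 φ + k0 * e1 * ∑ s ∈ Zf F U1 U2, (mult F s : ℝ) * kF F U1 U2 ρ s := by
  refine le_trans ?_ (iso_pt (F := F) (A := U1) (B := U2) hg hφ0 hk0 he hlow hmid hρ)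
  have h4 : MW F U1 U2 φ - ∑ s ∈ (Zf F U1 U2).filter (fun s => kF F U1 U2 ρ s < 2),
      (mult F s : ℝ) * φ s.im = ∑ s ∈ (Zf F U1 U2).filter (fun s => ¬ kF F U1 U2 ρ s < 2),
      (mult F s : ℝ) * φ s.im := by
    unfold MW
    rw [← Finset.sum_filter_add_sum_filter_not (Zf F U1 U2) (fun s => kF F U1 U2 ρ s < 2)]
    ring
  rw [h4, Finset.mul_sum]
  unfold MW
  rw [← Finset.sum_filter_add_sum_filter_not (Zf F U1 U2) (fun s => kF F U1 U2 ρ s < 2),
    ← Finset.sum_filter_add_sum_filter_not (Zf F U1 U2) (fun s => kF F U1 U2 ρ s < 2) (fun s =>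
      (mult F s : ℝ) * (φ s.im * ((mult F s : ℝ) + k0 * (kF F U1 U2 ρ s - mult F s)))), add_assoc,
    ← Finset.sum_add_distrib]
  refine add_le_add (Finset.sum_le_sum fun s hs => ?_) (Finset.sum_le_sum fun s hs => ?_)
  · rw [Finset.mem_filter] at hs
    have h5 : (1 : ℝ) ≤ mult F s := by exact_mod_cast mult_ge hF hA hs.1
    have h6 := kF_ge hρ hs.1
    have h7 := hφ0 s.im
    have h8 : 1 ≤ (mult F s : ℝ) + k0 * (kF F U1 U2 ρ s - mult F s) := by
      have : 0 ≤ k0 * (kF F U1 U2 ρ s - mult F s) := mul_nonneg hk0 (by linarith)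
      linarith
    have h9 : φ s.im * 1 ≤ φ s.im * ((mult F s : ℝ) + k0 * (kF F U1 U2 ρ s - mult F s)) :=
      mul_le_mul_of_nonneg_left h8 h7
    rw [mul_one] at h9
    exact mul_le_mul_of_nonneg_left h9 (Nat.cast_nonneg _)
  · rw [Finset.mem_filter] at hs
    have h5 : (1 : ℝ) ≤ mult F s := by exact_mod_cast mult_ge hF hA hs.1
    have h6 := kF_ge hρ hs.1
    have h7 := hφ0 s.im
    have h10 := hs.2
    push Not at h10
    have h8 : 1 + k0 ≤ (mult F s : ℝ) + k0 * (kF F U1 U2 ρ s - mult F s) := by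
      rcases Nat.lt_or_ge (mult F s) 2 with h11 | h11
      · have h12 : mult F s = 1 := by
          have := mult_ge hF hA hs.1
          omega
        rw [h12]
        push_cast
        have : k0 * 1 ≤ k0 * (kF F U1 U2 ρ s - 1) :=
          mul_le_mul_of_nonneg_left (by linarith) hk0
        linarith
      · have h12 : (2 : ℝ) ≤ mult F s := by exact_mod_cast h11
        have : 0 ≤ k0 * (kF F U1 U2 ρ s - mult F s) := mul_nonneg hk0 (by linarith)
        linarith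
    have h9 : φ s.im * (1 + k0) ≤
        φ s.im * ((mult F s : ℝ) + k0 * (kF F U1 U2 ρ s - mult F s)) :=
      mul_le_mul_of_nonneg_left h8 h7
    calc (mult F s : ℝ) * φ s.im + k0 * ((mult F s : ℝ) * φ s.im) =
        (mult F s : ℝ) * (φ s.im * (1 + k0)) := by ring
      _ ≤ _ := mul_le_mul_of_nonneg_left h9 (Nat.cast_nonneg _)

lemma iso_bdry (hF : GoodL F) {T T' V1 V2 U1 U2 ρ D : ℝ} {φ : ℝ → ℝ} (hT : 1 ≤ T) (h1 : T ≤ U1)
    (h2 : U2 ≤ T') (h3 : U1 ≤ V1) (h4 : V2 ≤ U2) (hρ : 0 ≤ ρ)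
    (hφ0 : ∀ t, 0 ≤ φ t) (hφD : ∀ t, φ t ≤ D) :
    ∑ s ∈ (Zf F U1 U2).filter (fun s => kF F U1 U2 ρ s < 2), (mult F s : ℝ) * φ s.im ≤
      ∑ s ∈ (Zf F V1 V2).filter (fun s => kF F U1 U2 ρ s < 2), φ s.im +
        D * ((NN F T T' : ℝ) - NN F V1 V2) := by
  classical
  set G := (Zf F V1 V2).filter (fun s => kF F U1 U2 ρ s < 2) with hG
  have hsub : Zf F V1 V2 ⊆ Zf F U1 U2 := Zf_sub hF (by linarith) h3 h4
  have hG1 : ∀ s ∈ G, mult F s = 1 := by
    intro s hs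
    rw [hG, Finset.mem_filter] at hs
    have h6 := kF_ge hρ (hsub hs.1)
    have h7 := mult_ge hF (h1.trans' hT) (hsub hs.1)
    have h8 : (mult F s : ℝ) < 2 := by linarith [hs.2]
    have h9 : mult F s < 2 := by exact_mod_cast h8
    omega
  have h5 : (Zf F U1 U2).filter (fun s => kF F U1 U2 ρ s < 2) ⊆ G ∪ (Zf F T T' \ Zf F V1 V2) := by
    intro s hs
    rw [Finset.mem_filter] at hs
    rw [Finset.mem_union, hG, Finset.mem_filter, Finset.mem_sdiff]
    by_cases h5 : s ∈ Zf F V1 V2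
    · exact Or.inl ⟨h5, hs.2⟩
    · exact Or.inr ⟨Zf_sub hF hT h1 h2 hs.1, h5⟩
  have hw0 : ∀ s : ℂ, 0 ≤ (mult F s : ℝ) * φ s.im := fun s =>
    mul_nonneg (Nat.cast_nonneg _) (hφ0 _)
  have h6 : ∑ s ∈ (Zf F U1 U2).filter (fun s => kF F U1 U2 ρ s < 2), (mult F s : ℝ) * φ s.im ≤
      ∑ s ∈ G, (mult F s : ℝ) * φ s.im + ∑ s ∈ Zf F T T' \ Zf F V1 V2, (mult F s : ℝ) * φ s.im := by
    refine (Finset.sum_le_sum_of_subset_of_nonneg h5 fun s _ _ => hw0 s).trans ?_
    rw [← Finset.sum_union_inter]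
    have : 0 ≤ ∑ s ∈ G ∩ (Zf F T T' \ Zf F V1 V2), (mult F s : ℝ) * φ s.im :=
      Finset.sum_nonneg fun s _ => hw0 s
    linarith
  have h7 : ∑ s ∈ G, (mult F s : ℝ) * φ s.im = ∑ s ∈ G, φ s.im :=
    Finset.sum_congr rfl fun s hs => by rw [hG1 s hs, Nat.cast_one, one_mul]
  have h8 : ∑ s ∈ Zf F T T' \ Zf F V1 V2, (mult F s : ℝ) * φ s.im ≤
      D * ((NN F T T' : ℝ) - NN F V1 V2) := by
    have h9 : ∑ s ∈ Zf F T T' \ Zf F V1 V2, (mult F s : ℝ) = (NN F T T' : ℝ) - NN F V1 V2 := by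
      have h10 := Finset.sum_sdiff (f := fun s => (mult F s : ℝ))
        (Zf_sub hF hT (h1.trans h3) (h4.trans h2))
      have h11 : (NN F T T' : ℝ) = ∑ s ∈ Zf F T T', (mult F s : ℝ) := by
        rw [NN_eq hF hT]; push_cast; rfl
      have h12 : (NN F V1 V2 : ℝ) = ∑ s ∈ Zf F V1 V2, (mult F s : ℝ) := by
        rw [NN_eq hF (by linarith)]; push_cast; rfl
      rw [h11, h12]
      linarith
    rw [← h9, Finset.mul_sum]
    refine Finset.sum_le_sum fun s _ => ?_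
    have := hφD s.im
    have h10 : (0 : ℝ) ≤ mult F s := Nat.cast_nonneg _
    nlinarith
  rw [h7] at h6
  linarith

end


/-- **isolated simple zeros against an almost periodic weight** -/
theorem iso_short {F : ℂ → ℂ} (hF : GoodL F) (hline : Line F) {φ : ℝ → ℝ} {M : ℝ} (hφ : APm φ M)
    (hφ0 : ∀ t, 0 ≤ φ t) (hM : 0 ≤ M) (h a ε : ℝ) (hh0 : 0 < h) (hh1 : h ≤ 1) (ha : 0 < a)
    (hE : 0 < 1 - (2 * Real.pi * a * h) ^ 2 / 24) (hε : 0 < ε) :
    ∃ T0 : ℝ, 10 ≤ T0 ∧ ∀ T : ℝ, T0 ≤ T → ∀ H : ℝ, T ^ h ≤ H → H ≤ T / 2 →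
      ∃ G : Finset ℂ, G ⊆ Zf F (T + 2) (T + H - 2) ∧
      (∀ s ∈ G, mult F s = 1 ∧ ∀ s' ∈ zset F (T + 1) (T + H - 1),
        |s.im - s'.im| ≤ 2 * Real.pi * a / Real.log T → s' = s) ∧
      (M - M * (cc h - 1) / (1 - (2 * Real.pi * a * h) ^ 2 / 24) ^ 2 - ε) *
        NN F T (T + H) ≤ ∑ s ∈ G, φ s.im := by
  classical
  have hpi := Real.pi_pos
  have hpi2 : Real.pi < 3.15 := Real.pi_lt_d2
  have hs2 : 0 < Real.sqrt 2 := Real.sqrt_pos.2 (by norm_num)
  have hs0 : 0 < Real.sqrt 2 * h := by positivity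
  have hs1 : Real.sqrt 2 * h ≤ Real.sqrt 2 := mul_le_of_le_one_right hs2.le hh1
  have hW := H255SI.winS _ hs0 hs1
  set E : ℝ := 1 - (2 * Real.pi * a * h) ^ 2 / 24 with hEdef
  set K0 : ℝ := E ^ 2 with hK0
  have hE1 : E ≤ 1 := by
    have := sq_nonneg (2 * Real.pi * a * h)
    rw [hEdef]; linarith only [this]
  have hK00 : 0 < K0 := by positivity
  have hK01 : K0 ≤ 1 := pow_le_one₀ hE.le hE1
  set A1 : ℝ := |M * (cc h - 1)| with hA1
  have hA10 : 0 ≤ A1 := abs_nonneg _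
  set θ : ℝ := min (1 / 2) (ε * K0 / (8 * (A1 + 1))) with hθ
  have hθ0 : 0 < θ := lt_min (by norm_num) (by positivity)
  have hθ1 : θ ≤ 1 / 2 := min_le_left _ _
  have hθ2 : θ * (8 * (A1 + 1)) ≤ ε * K0 := by
    have := min_le_right (1 / 2) (ε * K0 / (8 * (A1 + 1)))
    rw [← hθ, le_div_iff₀ (by positivity)] at this
    exact this
  set k0 : ℝ := K0 * (1 - θ) with hk0
  have hk00 : 0 < k0 := by
    have : 0 < 1 - θ := by linarith only [hθ1]
    positivity
  have hk01 : k0 ≤ K0 := mul_le_of_le_one_right hK00.le (by linarith only [hθ0])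
  have hk03 : k0 ≤ 1 := hk01.trans hK01
  obtain ⟨D, hD0, hD⟩ := hφ.bdd
  have hDu : ∀ t, φ t ≤ D := fun t => (le_abs_self _).trans (hD t)
  set b : ℝ := 2 * Real.pi * a with hb
  have hb0 : 0 < b := by positivity
  obtain ⟨Cp, Tp, hCp, hTp, hPb⟩ := P_bound hF hline (h / 2) (by positivity) (by linarith)
  have hbp : 0 < (1 + b) ^ ((3 : ℝ) / 2) := Real.rpow_pos_of_pos (by linarith) _
  set Cc : ℝ := 8 * (40 * (1 + b) ^ ((3 : ℝ) / 2) * Cp) with hCc
  have hCc0 : 0 < Cc := by positivity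
  set e1 : ℝ := ε / (4 * Cc) with he1
  have he10 : 0 < e1 := by positivity
  have he1C : e1 * Cc = ε / 4 := by rw [he1]; field_simp
  set e : ℝ := ε * K0 / 48 with he
  have he0 : 0 < e := by positivity
  obtain ⟨Sf, cf, -, htp, -⟩ := hφ (e1 / 4) (by positivity)
  set V : ℝ := ∑ τ ∈ Sf, ‖cf τ‖ * |τ| with hV
  have hV0 : 0 ≤ V := Finset.sum_nonneg fun _ _ => by positivity
  obtain ⟨T1, hT1, h1⟩ := shortP hF hline hφ hφ0 hM h e hh0 hh1 he0
  obtain ⟨T2, hT2, h2⟩ := shortW hF hline hφ hφ0 hM h (min e (1 / 40)) hh0 hh1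
    (lt_min he0 (by norm_num))
  obtain ⟨C0, hC0, hends⟩ := H965SI.countShort F hF
  have ev1 := ev_log_pow 1 (24 * ((D + 1) * (4 * C0)) / e) h 1 one_pos (by positivity) hh0
  have ev2 : ∀ᶠ T : ℝ in atTop, 2 * V * b / e1 + b + b ^ 2 / θ + 3 ≤ Real.log T :=
    Real.tendsto_log_atTop.eventually_ge_atTop _
  have ev3 : ∀ᶠ T : ℝ in atTop, (5 : ℝ) ≤ T ^ (h / 2) :=
    (tendsto_rpow_atTop (by positivity)).eventually_ge_atTop _
  obtain ⟨T3, hT3⟩ := (ev1.and (ev2.and ev3)).exists_forall_of_atTop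
  refine ⟨max (max T1 T2) (max (Tp + 1) T3), hT1.trans ((le_max_left _ _).trans (le_max_left _ _)),
    fun T hT H hH1 hH2 => ?_⟩
  have hTT1 : T1 ≤ T := ((le_max_left _ _).trans (le_max_left _ _)).trans hT
  have hTT2 : T2 ≤ T := ((le_max_right _ _).trans (le_max_left _ _)).trans hT
  have hTTp : Tp + 1 ≤ T := ((le_max_left _ _).trans (le_max_right _ _)).trans hT
  obtain ⟨v1, v2, v3⟩ := hT3 T (((le_max_right _ _).trans (le_max_right _ _)).trans hT)
  have hT10 : 10 ≤ T := hT1.trans hTT1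
  have hpos : 0 < T := by linarith only [hT10]
  set L := Real.log T with hL
  have hterm1 : 0 ≤ 2 * V * b / e1 := by positivity
  have hterm2 : 0 ≤ b ^ 2 / θ := by positivity
  have hL3 : 3 ≤ L := by linarith only [v2, hterm1, hterm2, hb0]
  have hL0 : 0 < L := by linarith only [hL3]
  have hTh : T ^ h = T ^ (h / 2) * T ^ (h / 2) := by
    rw [← Real.rpow_add hpos]; congr 1; ring
  have hH25 : 25 ≤ H := by
    have h4 := mul_le_mul v3 v3 (by norm_num) (by positivity : (0 : ℝ) ≤ T ^ (h / 2))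
    rw [hTh] at hH1
    linarith only [h4, hH1]
  have hH0 : 0 < H := by linarith only [hH25]
  obtain ⟨U1, U2, Λ, hU1, hU1', hU2, hU2', hΛ1, hΛ2, hP⟩ := h1 T hTT1 H hH1 hH2
  obtain ⟨a1, -, a3⟩ := h2 T hTT2 H hH1 hH2
  have hm1 : min e (1 / 40) ≤ e := min_le_left _ _
  have hm2 : min e (1 / 40) ≤ 1 / 40 := min_le_right _ _
  set N : ℝ := (NN F T (T + H) : ℝ) with hN
  have hN0 : 0 ≤ N := Nat.cast_nonneg _
  have hHL : 0 < H * L := by positivity
  have hNlow : H * L / 8 ≤ N := by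
    have h4 := (abs_le.1 a3).1
    have h5 : H * L * (3 / 20) ≤ H * L / (2 * Real.pi) := by
      rw [le_div_iff₀ (by positivity)]
      linarith only [mul_lt_mul_of_pos_left hpi2 hHL, hHL]
    have h6 : min e (1 / 40) * (H * L) ≤ 1 / 40 * (H * L) :=
      mul_le_mul_of_nonneg_right hm2 hHL.le
    linarith only [h4, h5, h6]
  set ρ : ℝ := b / L with hρ
  have hρ0 : 0 < ρ := by positivity
  have hρ1 : ρ ≤ 1 := by rw [hρ, div_le_one hL0]; linarith only [v2, hterm1, hterm2]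
  -- kernel
  have hlow : ∀ x, |x| ≤ ρ → k0 ≤ KK (gS (Real.sqrt 2 * h)) Λ x := by
    intro x hx
    have hΛ0 : 0 ≤ Λ := le_trans (by positivity) hΛ1
    have h4 := KK_low (s := Real.sqrt 2 * h) (h := h) (a := a) (Λ := Λ) (L := L) (x := x) hs0 hs1
      ha.le hh0.le hE.le hL0 hΛ0 hΛ2 hx
    refine le_trans ?_ h4
    rw [hk0]
    have h5 : (2 * Real.pi * a / L) ^ 2 / 4 ≤ θ := by
      rw [← hb, div_pow, div_div, div_le_iff₀ (by positivity)]
      have h6 : b ^ 2 / θ ≤ L := by linarith only [v2, hterm1, hb0]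
      rw [div_le_iff₀ hθ0] at h6
      have q1 := mul_pos hθ0 hL0
      have q2 := mul_le_mul_of_nonneg_left hL3 q1.le
      linarith only [h6, q1, q2]
    have h7 : 1 - θ ≤ 1 - (2 * Real.pi * a / L) ^ 2 / 4 := by linarith only [h5]
    exact mul_le_mul_of_nonneg_left h7 hK00.le
  -- midpoints
  have hmid : ∀ x y, |x - y| ≤ ρ → φ x ≤ φ ((x + y) / 2) + e1 := by
    intro x y hxy
    have h4 := (abs_le.1 (htp x)).2
    have h5 := (abs_le.1 (htp ((x + y) / 2))).1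
    have h6 := (abs_le.1 (tp_lip Sf cf x ((x + y) / 2))).2
    have h7 : |x - (x + y) / 2| ≤ ρ := by
      rw [show x - (x + y) / 2 = (x - y) / 2 by ring, abs_div, abs_of_pos (two_pos (α := ℝ))]
      linarith only [abs_nonneg (x - y), hxy]
    have h8 : V * |x - (x + y) / 2| ≤ e1 / 2 := by
      calc V * |x - (x + y) / 2| ≤ V * ρ := mul_le_mul_of_nonneg_left h7 hV0
        _ ≤ e1 / 2 := by
          rw [hρ, mul_div_assoc', div_le_iff₀ hL0]
          have h9 : 2 * V * b / e1 ≤ L := by linarith only [v2, hterm2, hb0]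
          rw [div_le_iff₀ he10] at h9
          linarith only [h9]
    linarith only [h4, h5, h6, h8]
  have hA1' : 1 ≤ U1 := by linarith only [hT10, hU1]
  have hXN : ∑ s ∈ Zf F U1 U2, (mult F s : ℝ) * kF F U1 U2 ρ s ≤ Cc * N := by
    have h4 := kF_sum F U1 U2 hL0 hb0.le
    refine h4.trans ?_
    have hlogT : Real.log (T - 1) ≤ L := Real.log_le_log (by linarith only [hT10]) (by linarith only [])
    have hlogT0 : 0 < Real.log (T - 1) := Real.log_pos (by linarith only [hT10])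
    have h5 : Pc F U1 U2 L ≤ Pc F U1 U2 (Real.log (T - 1)) := Pc_anti F U1 U2 hlogT0 hlogT
    have h7 : (T - 1) ^ (h / 2) ≤ T ^ (h / 2) :=
      Real.rpow_le_rpow (by linarith only [hT10]) (by linarith only []) (by positivity)
    have h71 : T ^ (h / 2) * 5 ≤ T ^ h := by
      rw [hTh]
      exact mul_le_mul_of_nonneg_left v3 (by positivity)
    have h6 := hPb (T - 1) (by linarith only [hTTp]) U1 U2 (by linarith only [hU1])
      (by linarith only [hU2', hH2, hT10]) (by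
      linarith only [h7, h71, hH1, hU1', hU2, v3])
    have h8 : Pc F U1 U2 L ≤ Cp * (H * L) := by
      refine h5.trans (h6.trans ?_)
      have h9 : U2 - U1 ≤ H := by linarith only [hU1, hU2']
      exact mul_le_mul_of_nonneg_left (mul_le_mul h9 hlogT hlogT0.le hH0.le) hCp.le
    calc 40 * (1 + b) ^ ((3 : ℝ) / 2) * Pc F U1 U2 L ≤
        40 * (1 + b) ^ ((3 : ℝ) / 2) * (Cp * (H * L)) :=
          mul_le_mul_of_nonneg_left h8 (by positivity)
      _ = Cc * (H * L / 8) := by rw [hCc]; ring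
      _ ≤ Cc * N := mul_le_mul_of_nonneg_left hNlow hCc0.le
  have hI := iso_comb hF (U2 := U2) hA1' hW hφ0 hk00.le hk03 he10.le hlow hmid hρ0.le
  -- boundary counts
  have hlog1 : Real.log (T + 1) ≤ 2 * L := by
    have h4 : T + 1 ≤ T ^ 2 := by nlinarith only [hT10]
    have : Real.log (T + 1) ≤ Real.log (T ^ 2) := Real.log_le_log (by linarith only [hT10]) h4
    rw [Real.log_pow] at this
    push_cast at this
    exact this
  have b1 := (hends T hT10 H (by linarith only [hH25]) (by linarith only [hH2, hT10]) (T + 1)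
    (T + H - 1) (by linarith only []) le_rfl le_rfl (by linarith only [])).2
  have b2 := (hends (T + 1) (by linarith only [hT10]) (H - 2) (by linarith only [hH25])
    (by linarith only [hH2, hT10]) (T + 2) (T + H - 2)
    (by linarith only []) (by linarith only []) (by linarith only []) (by linarith only [])).2
  have b2e : T + 1 + (H - 2) = T + H - 1 := by ring
  rw [b2e] at b2
  have b3 := (hends T hT10 H (by linarith only [hH25]) (by linarith only [hH2, hT10]) U1 U2 hU1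
    hU1' hU2 hU2').2
  rw [← hN, ← hL] at b1 b3
  have hC0L : 0 < C0 * L := by positivity
  have hbd1 : N - NN F (T + 2) (T + H - 2) ≤ 4 * C0 * L := by
    have : C0 * Real.log (T + 1) ≤ C0 * (2 * L) := mul_le_mul_of_nonneg_left hlog1 hC0.le
    linarith only [b1, b2, this, hC0L]
  have hDL : (D + 1) * (4 * C0 * L) ≤ e * N := by
    rw [pow_one, one_mul] at v1
    have h4 : 24 * ((D + 1) * (4 * C0)) / e * (1 + L) ≤ H := v1.trans hH1
    have h5 : 24 * ((D + 1) * (4 * C0)) * (1 + L) ≤ H * e := by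
      have h6 : 24 * ((D + 1) * (4 * C0)) / e * (1 + L) =
          24 * ((D + 1) * (4 * C0)) * (1 + L) / e := by ring
      rw [h6, div_le_iff₀ he0] at h4
      exact h4
    have h7 : H * e ≤ 8 * (e * N) := by
      have h8 : H * 1 ≤ H * L := mul_le_mul_of_nonneg_left (by linarith only [hL3]) hH0.le
      have h9 : e * (H * L / 8) ≤ e * N := mul_le_mul_of_nonneg_left hNlow he0.le
      have h10 : e * H ≤ e * (H * L) := mul_le_mul_of_nonneg_left (by linarith only [h8]) he0.le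
      linarith only [h9, h10]
    have h10 : 0 ≤ (D + 1) * (4 * C0) := by positivity
    have h11 : 0 ≤ (D + 1) * (4 * C0 * L) := by positivity
    have h12 : 24 * ((D + 1) * (4 * C0)) * (1 + L) =
      24 * ((D + 1) * (4 * C0)) + 24 * ((D + 1) * (4 * C0 * L)) := by ring
    linarith only [h5, h7, h10, h11, h12]
  have hDD : ∀ x : ℝ, x ≤ 4 * C0 * L → D * x ≤ e * N := by
    intro x hx
    refine le_trans ?_ hDL
    have h4 : D * x ≤ D * (4 * C0 * L) := mul_le_mul_of_nonneg_left hx hD0.le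
    have h5 : (D + 1) * (4 * C0 * L) = D * (4 * C0 * L) + 4 * (C0 * L) := by ring
    linarith only [h4, h5, hC0L]
  have hSlow : (M - 2 * e) * N ≤ MW F U1 U2 φ := by
    have h4 := (bdry_MW hF (A := U1) (B := U2) (A' := T) (B' := T + H) (by linarith only [hT10])
      hU1 hU2' hφ0 hDu).2
    rw [← hN] at h4
    have h5 := (abs_le.1 a1).1
    have h6 : min e (1 / 40) * N ≤ e * N := mul_le_mul_of_nonneg_right hm1 hN0
    have h7 := hDD (N - NN F U1 U2) (by linarith only [b3, hC0L])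
    have h8 : (M - 2 * e) * N = M * N - 2 * (e * N) := by ring
    linarith only [h4, h5, h6, h7, h8]
  have hGbd := iso_bdry (ρ := ρ) hF (T := T) (T' := T + H) (V1 := T + 2) (V2 := T + H - 2)
    (U1 := U1) (U2 := U2) (by linarith only [hT10]) hU1 hU2' (by linarith only [hU1'])
    (by linarith only [hU2]) hρ0.le hφ0 hDu
  rw [← hN] at hGbd
  have hDG := hDD _ hbd1
  set G := (Zf F (T + 2) (T + H - 2)).filter (fun s => kF F U1 U2 ρ s < 2) with hG
  have hsubZ : Zf F (T + 2) (T + H - 2) ⊆ Zf F U1 U2 :=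
    Zf_sub hF hA1' (by linarith only [hU1']) (by linarith only [hU2])
  refine ⟨G, Finset.filter_subset _ _, fun s hs => ?_, ?_⟩
  · rw [hG, Finset.mem_filter] at hs
    have h4 := hsubZ hs.1
    refine ⟨?_, fun s' hs' hd => ?_⟩
    · have h6 := kF_ge hρ0.le h4
      have h7 := mult_ge hF hA1' h4
      have h8 : (mult F s : ℝ) < 2 := lt_of_le_of_lt h6 hs.2
      have h9 : mult F s < 2 := by exact_mod_cast h8
      omega
    · by_contra hne
      have h6 : s' ∈ Zf F U1 U2 := by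
        rw [mem_Zf hF hA1']
        obtain ⟨p1, p2, p3, p4, p5⟩ := hs'
        exact ⟨p1, p2, by linarith only [p3, hU1'], by linarith only [p4, hU2], p5⟩
      have := kF_ge2 hF hA1' hρ0.le h4 h6 hne hd
      exact absurd hs.2 (not_lt.2 this)
  · exact iso_arith hN0 hk00 hSlow hP hXN he10.le hI hK00 hK01 hk0 hθ0.le hθ1 (le_abs_self _)
      hε hθ2 he he1C (by linarith only [hGbd, hDG])

end TH803TW
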