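import Pool.Agent.TH803.TW.IsoN

/-! Isolated zeros in terms of the normalised gaps, all lengths. -/

open Complex Filter Topology Set MeasureTheory
open scoped BigOperators ComplexConjugate

namespace TH803TW

open H370 H370.A2 H370.A3 H295SI
open SP (RHs)
open SG (ord NZ zmult ZS)
open LG (dlt)

lemma NN_NZ (RH : RiemannHypothesis) {A B : ℝ} (hA : 1 ≤ A) (hAB : A ≤ B) :
    (NN riemannZeta A B : ℝ) = NZ B - NZ A := by
  have h1 := H177.Lat.sum_conv RH (A := A) (B := B) hA (fun _ => 1)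
  rw [Finset.sum_const, nsmul_eq_mul, mul_one, Nat.card_Ioc] at h1
  have h2 : (NN riemannZeta A B : ℝ) = ∑ s ∈ Zf riemannZeta A B, (mult riemannZeta s : ℝ) * 1 := by
    rw [NN_eq good_zeta hA]; push_cast
    exact Finset.sum_congr rfl fun s _ => (mul_one _).symm
  rw [h2, h1, Nat.cast_sub (SG.NZ_mono hAB)]

/-- isolated zeros, all lengths -/
theorem iso_all (RH : RiemannHypothesis) (hline : Line riemannZeta) {φ : ℝ → ℝ} {M : ℝ}
    (hφ : APm φ M)
    (hφ0 : ∀ t, 0 ≤ φ t) (hM : 0 ≤ M) (h a ε : ℝ) (hh0 : 0 < h) (hh1 : h ≤ 1) (ha : 0 < a)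
    (hE : 0 < 1 - (2 * Real.pi * a * h) ^ 2 / 24) (hε : 0 < ε) :
    ∃ T0 : ℝ, 10 ≤ T0 ∧ ∀ T : ℝ, T0 ≤ T → ∀ H : ℝ, T ^ h ≤ H → H ≤ T →
      (M - M * (cc h - 1) / (1 - (2 * Real.pi * a * h) ^ 2 / 24) ^ 2 - ε) *
        ((NZ (T + H) : ℝ) - NZ T) ≤ ∑ n ∈ (Finset.Ioc (NZ T) (NZ (T + H))).filter
          (fun n => a < dlt (n - 1) ∧ a < dlt n), φ (ord n) := by
  classical
  have hpi := Real.pi_pos
  -- choose the exponent
  obtain ⟨h', hh', hh'1, hE', hcc⟩ : ∃ h' : ℝ, 0 < h' ∧ h' < h ∧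
      0 < 1 - (2 * Real.pi * a * h') ^ 2 / 24 ∧
      M * (cc h' - 1) / (1 - (2 * Real.pi * a * h') ^ 2 / 24) ^ 2 ≤
        M * (cc h - 1) / (1 - (2 * Real.pi * a * h) ^ 2 / 24) ^ 2 + ε / 2 := by
    have hcont : ContinuousAt (fun x : ℝ => M * (cc x - 1) /
        (1 - (2 * Real.pi * a * x) ^ 2 / 24) ^ 2) h := by
      refine ContinuousAt.div ?_ (by fun_prop) (by positivity)
      exact continuousAt_const.mul ((cc_cont hh0 hh1).sub continuousAt_const)
    have h2 : ∀ᶠ x in 𝓝[<] h, M * (cc x - 1) / (1 - (2 * Real.pi * a * x) ^ 2 / 24) ^ 2 <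
        M * (cc h - 1) / (1 - (2 * Real.pi * a * h) ^ 2 / 24) ^ 2 + ε / 2 :=
      (hcont.tendsto.mono_left nhdsWithin_le_nhds).eventually_lt_const (by linarith)
    have h4 : ∀ᶠ x in 𝓝[<] h, x < h := eventually_mem_nhdsWithin
    have h5 : ∀ᶠ x in 𝓝[<] h, 0 < x := (eventually_gt_nhds hh0).filter_mono nhdsWithin_le_nhds
    obtain ⟨x, ⟨h6, h7⟩, h8⟩ := ((h2.and h4).and h5).exists
    refine ⟨x, h8, h7, ?_, h6.le⟩
    have h9 : (2 * Real.pi * a * x) ^ 2 ≤ (2 * Real.pi * a * h) ^ 2 := by gcongr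
    linarith
  obtain ⟨T1, hT1, h1⟩ := iso_idx RH hline hφ hφ0 hM h' a (ε / 2) hh' (hh'1.le.trans hh1) ha hE'
    (by positivity)
  have ev1 : ∀ᶠ T : ℝ in atTop, (8 : ℝ) ≤ T ^ (1 - h') :=
    (tendsto_rpow_atTop (by linarith)).eventually_ge_atTop _
  obtain ⟨T2, hT2⟩ := ev1.exists_forall_of_atTop
  refine ⟨max T1 T2, hT1.trans (le_max_left _ _), fun T hT H hH1 hH2 => ?_⟩
  have hTT1 : T1 ≤ T := (le_max_left _ _).trans hT
  have e1 := hT2 T ((le_max_right _ _).trans hT)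
  have hT10 : 10 ≤ T := hT1.trans hTT1
  have hpos : 0 < T := by linarith
  have hH0 : 0 < H := (Real.rpow_pos_of_pos hpos h).trans_le hH1
  have hTh : T ^ h' ≤ T ^ h := Real.rpow_le_rpow_of_exponent_le (by linarith) hh'1.le
  have hT8 : 8 * T ^ h' ≤ T := by
    have : T ^ (1 - h') * T ^ h' = T := by
      rw [← Real.rpow_add hpos]
      simp
    have h9 : 0 < T ^ h' := Real.rpow_pos_of_pos hpos _
    nlinarith
  set κ1 : ℝ := M - M * (cc h' - 1) / (1 - (2 * Real.pi * a * h') ^ 2 / 24) ^ 2 - ε / 2 with hκ1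
  have hκ : M - M * (cc h - 1) / (1 - (2 * Real.pi * a * h) ^ 2 / 24) ^ 2 - ε ≤ κ1 := by
    rw [hκ1]; linarith
  have hNmono : (0 : ℝ) ≤ (NZ (T + H) : ℝ) - NZ T := by
    have : NZ T ≤ NZ (T + H) := SG.NZ_mono (by linarith)
    have h9 : (NZ T : ℝ) ≤ NZ (T + H) := by exact_mod_cast this
    linarith
  refine (mul_le_mul_of_nonneg_right hκ hNmono).trans ?_
  rcases le_or_gt H (T / 2) with hc | hc
  · have h2 := h1 T hTT1 H (hTh.trans hH1) hc
    rw [NN_NZ RH (by linarith) (by linarith)] at h2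
    exact h2
  · have h2 := h1 T hTT1 (H / 2) (by linarith) (by linarith)
    have h3 := h1 (T + H / 2) (by linarith) (H / 2) (by
      have h9 : (T + H / 2) ^ h' ≤ (2 * T) ^ h' :=
        Real.rpow_le_rpow (by linarith) (by linarith) hh'.le
      have h10 : (2 * T) ^ h' ≤ 2 * T ^ h' := by
        rw [Real.mul_rpow (by norm_num) hpos.le]
        apply mul_le_mul_of_nonneg_right _ (Real.rpow_pos_of_pos hpos _).le
        calc (2 : ℝ) ^ h' ≤ 2 ^ (1 : ℝ) :=
              Real.rpow_le_rpow_of_exponent_le (by norm_num) (by linarith)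
          _ = 2 := Real.rpow_one 2
      linarith) (by linarith)
    have e2 : T + H / 2 + H / 2 = T + H := by ring
    rw [e2, NN_NZ RH (by linarith) (by linarith)] at h3
    rw [NN_NZ RH (by linarith) (by linarith)] at h2
    have m1 : NZ T ≤ NZ (T + H / 2) := SG.NZ_mono (by linarith)
    have m2 : NZ (T + H / 2) ≤ NZ (T + H) := SG.NZ_mono (by linarith)
    have h4 : ∑ n ∈ (Finset.Ioc (NZ T) (NZ (T + H))).filter
          (fun n => a < dlt (n - 1) ∧ a < dlt n), φ (ord n) =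
        ∑ n ∈ (Finset.Ioc (NZ T) (NZ (T + H / 2))).filter
          (fun n => a < dlt (n - 1) ∧ a < dlt n), φ (ord n) +
        ∑ n ∈ (Finset.Ioc (NZ (T + H / 2)) (NZ (T + H))).filter
          (fun n => a < dlt (n - 1) ∧ a < dlt n), φ (ord n) := by
      rw [← Finset.sum_union]
      · congr 1
        ext n
        simp only [Finset.mem_union, Finset.mem_filter, Finset.mem_Ioc]
        constructor
        · rintro ⟨⟨g1, g2⟩, g3⟩
          rcases le_or_gt n (NZ (T + H / 2)) with g4 | g4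
          · exact Or.inl ⟨⟨g1, g4⟩, g3⟩
          · exact Or.inr ⟨⟨g4, g2⟩, g3⟩
        · rintro (⟨⟨g1, g2⟩, g3⟩ | ⟨⟨g1, g2⟩, g3⟩)
          · exact ⟨⟨g1, g2.trans m2⟩, g3⟩
          · exact ⟨⟨m1.trans_lt g1, g2⟩, g3⟩
      · rw [Finset.disjoint_left]
        intro n hn hn'
        rw [Finset.mem_filter, Finset.mem_Ioc] at hn hn'
        omega
    rw [h4]
    linarith

end TH803TW
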