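import Pool.Agent.TH803.TW.GapSq
import Pool.Agent.TH803.TW.Split
import Pool.Agent.H177R3.LatA

/-! Large gaps with an almost periodic weight. -/

open Complex Filter Topology Set MeasureTheory
open scoped BigOperators ComplexConjugate

namespace TH803TW

open H370 H370.A2 H370.A3 H295SI
open SP (RHs)
open SG (ord NZ zmult ZS)
open LG (dlt)

/-- there are zeros in short intervals -/
lemma zero_near (hline : Line riemannZeta) : ∃ T0 : ℝ, 10 ≤ T0 ∧ ∀ T : ℝ, T0 ≤ T →
    NZ T < NZ (T + T ^ (1 / 2 : ℝ)) := by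
  have hF : GoodL riemannZeta := good_zeta
  have hφ : APm (fun _ => (1 : ℝ)) 1 := by
    intro ε hε
    refine ⟨{0}, fun _ => 1, Finset.mem_singleton_self _, fun t => ?_, by simp [hε.le]⟩
    unfold tp
    simp [hε.le]
  obtain ⟨T1, hT1, h1⟩ := shortW hF hline hφ (fun _ => zero_le_one) zero_le_one (1 / 2) (1 / 40)
    (by norm_num) (by norm_num) (by norm_num)
  have ev1 : ∀ᶠ T : ℝ in atTop, (2 : ℝ) ≤ T ^ (1 / 2 : ℝ) :=
    (tendsto_rpow_atTop (by norm_num)).eventually_ge_atTop _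
  obtain ⟨T2, hT2⟩ := ev1.exists_forall_of_atTop
  refine ⟨max T1 T2, hT1.trans (le_max_left _ _), fun T hT => ?_⟩
  have hTT1 : T1 ≤ T := (le_max_left _ _).trans hT
  have e1 := hT2 T ((le_max_right _ _).trans hT)
  have hT10 : 10 ≤ T := hT1.trans hTT1
  have hpos : 0 < T := by linarith
  have h5 : T ^ (1 / 2 : ℝ) * T ^ (1 / 2 : ℝ) = T := by
    rw [← Real.rpow_add hpos]; norm_num
  obtain ⟨-, -, a3⟩ := h1 T hTT1 (T ^ (1 / 2 : ℝ)) le_rfl (by nlinarith)
  set H := T ^ (1 / 2 : ℝ) with hH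
  have hL0 : 0 < Real.log T := Real.log_pos (by linarith)
  have hHL : 0 < H * Real.log T := by positivity
  have hpi := Real.pi_pos
  have hpi2 : Real.pi < 3.15 := Real.pi_lt_d2
  have h6 : H * Real.log T * (3 / 20) ≤ H * Real.log T / (2 * Real.pi) := by
    rw [le_div_iff₀ (by positivity)]
    linarith only [mul_lt_mul_of_pos_left hpi2 hHL, hHL]
  have h7 : (0 : ℝ) < NN riemannZeta T (T + H) := by
    have := (abs_le.1 a3).1
    linarith
  have h8 : 0 < NN riemannZeta T (T + H) := by exact_mod_cast h7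
  have hfin : (H370.zset riemannZeta T (T + H)).Finite :=
    H370.zset_finite H370.good_zeta T (T + H) (by linarith)
  have h4 := SG.NZ_add_le T (T + H) (by linarith) hfin.toFinset (by
    intro s hs
    rw [Set.Finite.mem_toFinset] at hs
    obtain ⟨s1, s2, s3, s4, s5⟩ := hs
    exact ⟨⟨s5, s1, s2, by linarith, s4⟩, s3⟩)
  have h9 : NN riemannZeta T (T + H) = ∑ s ∈ hfin.toFinset, zmult s := by
    unfold NN
    rw [finsum_mem_eq_finite_toFinset_sum _ hfin]
    rfl
  omega

/-- **large gaps with an almost periodic weight** -/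
theorem large_gap_weight (RH : RiemannHypothesis) (hline : Line riemannZeta) {g : ℝ → ℝ}
    {D D1 M : ℝ} (hD : ∀ t, |g t| ≤ D) (hD1 : ∀ x y, |g x - g y| ≤ D1 * |x - y|)
    (hM : APm (fun t => g t ^ 2) M) (hM0 : 0 < M) :
    ∃ c κ T0 : ℝ, 0 < c ∧ 0 < κ ∧ 10 ≤ T0 ∧ ∀ T : ℝ, T0 ≤ T → c * (T * Real.log T) ≤
      ∑ n ∈ (Finset.Ico (NZ (T + 1) + 1) (NZ (2 * T - 1))).filter (fun n => 1 + κ < dlt n),
        g (ord n) ^ 2 := by
  classical
  have hpi := Real.pi_pos
  have hpi3 := Real.pi_gt_three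
  have hpi2 : Real.pi < 3.15 := Real.pi_lt_d2
  have hF : GoodL riemannZeta := good_zeta
  have hD0 : 0 ≤ D := (abs_nonneg _).trans (hD 0)
  have hD10 : 0 ≤ D1 := by
    have := (abs_nonneg _).trans (hD1 0 1)
    simpa using this
  set w : ℝ → ℝ := fun t => g t ^ 2 with hw
  have hw0 : ∀ t, 0 ≤ w t := fun t => sq_nonneg _
  have hwD : ∀ t, w t ≤ D ^ 2 := fun t => by
    rw [hw]
    show g t ^ 2 ≤ D ^ 2
    rw [← sq_abs]
    exact pow_le_pow_left₀ (abs_nonneg _) (hD t) 2
  set V : ℝ := 2 * D * D1 with hV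
  have hV0 : 0 ≤ V := by positivity
  have hwV : ∀ x y, |w x - w y| ≤ V * |x - y| := by
    intro x y
    have e1 : w x - w y = (g x - g y) * (g x + g y) := by rw [hw]; ring
    rw [e1, abs_mul]
    have q2 := hD1 x y
    have q3 : |g x + g y| ≤ 2 * D := by
      refine (abs_add_le _ _).trans ?_
      have := hD x
      have := hD y
      linarith
    calc |g x - g y| * |g x + g y| ≤ (D1 * |x - y|) * (2 * D) := by gcongr
      _ = _ := by rw [hV]; ring
  have hwc : Continuous w := by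
    have : LipschitzWith V.toNNReal w := by
      refine LipschitzWith.of_dist_le_mul fun x y => ?_
      rw [Real.dist_eq, Real.dist_eq, Real.coe_toNNReal _ hV0]
      exact hwV x y
    exact this.continuous
  -- small gaps with `β = 7/10`
  have hG : 1 < gg (7 / 10) 1 := by
    have := gg_lower (β := 7 / 10) (lam := 1) (by norm_num) zero_le_one
    norm_num at this
    linarith
  obtain ⟨c1, T1, hc1, hT1, h1⟩ := small_gap_weight RH hline hD hD1 hM hM0 (7 / 10) (by norm_num)
    (by norm_num) hG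
  set c2 : ℝ := 3 / 20 * c1 with hc2
  have hc20 : 0 < c2 := by positivity
  obtain ⟨ε, hε⟩ : ∃ ε : ℝ, ε = c2 := ⟨c2, rfl⟩
  have hε0 : 0 < ε := by rw [hε]; exact hc20
  set κ : ℝ := c2 / (2 * (M + ε)) with hκ
  have hκ0 : 0 < κ := by positivity
  obtain ⟨T2, hT2, h2⟩ := MW_upper hF hline hM (fun t => sq_nonneg _) hM0.le ε hε0
  obtain ⟨T3, hT3, h3⟩ := mean_dyadic hM hwc ε hε0
  obtain ⟨T4, hT4, h4⟩ := zero_near hline
  obtain ⟨C5, hC5, h5⟩ := gap_sq RH
  obtain ⟨C6, T6, hC6, hT6, h6⟩ := LG.GapAux.NZ_up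
  set X : ℝ := (D ^ 2 + 1) * (C5 * C6) with hX
  have hX0 : 0 < X := by positivity
  set c3 : ℝ := (c2 / 2) ^ 2 / X with hc3
  have hc30 : 0 < c3 := by positivity
  have ev1 : ∀ᶠ T : ℝ in atTop, 8 * (D ^ 2 + 1) / ε + 16 ≤ T ^ (1 / 2 : ℝ) :=
    (tendsto_rpow_atTop (by norm_num)).eventually_ge_atTop _
  have ev2 : ∀ᶠ T : ℝ in atTop, 40 * V * (C5 * C6) / ε + 1 ≤ Real.log T :=
    Real.tendsto_log_atTop.eventually_ge_atTop _
  obtain ⟨T7, hT7⟩ := (ev1.and ev2).exists_forall_of_atTop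
  refine ⟨c3, κ, max (max (max T1 T2) (max T3 T4)) (max (max T6 T7) 10), hc30, hκ0,
    (le_max_right _ _).trans (le_max_right _ _), fun T hT => ?_⟩
  have hTT1 : T1 ≤ T :=
    ((le_max_left _ _).trans ((le_max_left _ _).trans (le_max_left _ _))).trans hT
  have hTT2 : T2 ≤ T :=
    ((le_max_right _ _).trans ((le_max_left _ _).trans (le_max_left _ _))).trans hT
  have hTT3 : T3 ≤ T :=
    ((le_max_left _ _).trans ((le_max_right _ _).trans (le_max_left _ _))).trans hT
  have hTT4 : T4 ≤ T :=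
    ((le_max_right _ _).trans ((le_max_right _ _).trans (le_max_left _ _))).trans hT
  have hTT6 : T6 ≤ T :=
    ((le_max_left _ _).trans ((le_max_left _ _).trans (le_max_right _ _))).trans hT
  have hTT7 : T7 ≤ T :=
    ((le_max_right _ _).trans ((le_max_left _ _).trans (le_max_right _ _))).trans hT
  obtain ⟨v1, v2⟩ := hT7 T hTT7
  have hT10 : 10 ≤ T := hT1.trans hTT1
  have hpos : 0 < T := by linarith only [hT10]
  set L := Real.log T with hL
  have hL0 : 0 < L := Real.log_pos (by linarith only [hT10])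
  set R := T ^ (1 / 2 : ℝ) with hR
  have hRR : R * R = T := by rw [hR, ← Real.rpow_add hpos]; norm_num
  have hR0 : 0 < R := Real.rpow_pos_of_pos hpos _
  have hTL : 0 < T * L := by positivity
  set Y := T * L / (2 * Real.pi) with hY
  have hY0 : 0 < Y := by positivity
  have hYTL : Y ≤ T * L / 6 := by
    rw [hY]
    apply div_le_div_of_nonneg_left hTL.le (by norm_num) (by linarith only [hpi3])
  set A : ℝ := T + 1 with hA
  set B : ℝ := 2 * T - 1 with hB
  set p : ℕ := NZ A + 1 with hp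
  set q : ℕ := NZ B with hq
  have hA1 : 1 ≤ A := by rw [hA]; linarith only [hT10]
  -- positions of the first and last zeros
  have hRv : 16 ≤ R := by
    have : 0 ≤ 8 * (D ^ 2 + 1) / ε := by positivity
    linarith only [v1, this]
  have hT2R : 16 * R ≤ T := by rw [← hRR]; exact mul_le_mul_of_nonneg_right hRv hR0.le
  have hfirst : ord p ≤ T + 4 * R := by
    have q1 := h4 A (by rw [hA]; linarith only [hTT4])
    have q2 : A ^ (1 / 2 : ℝ) ≤ 2 * R := by
      calc A ^ (1 / 2 : ℝ) ≤ (2 * T) ^ (1 / 2 : ℝ) :=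
            Real.rpow_le_rpow (by linarith only [hA1]) (by rw [hA]; linarith only [hT10])
              (by norm_num)
        _ = 2 ^ (1 / 2 : ℝ) * R := Real.mul_rpow (by norm_num) hpos.le
        _ ≤ 2 * R := by
            apply mul_le_mul_of_nonneg_right _ hR0.le
            calc (2 : ℝ) ^ (1 / 2 : ℝ) ≤ 2 ^ (1 : ℝ) :=
                  Real.rpow_le_rpow_of_exponent_le (by norm_num) (by norm_num)
              _ = 2 := Real.rpow_one 2
    have q3 := (SG.ord_le_iff (by omega : 1 ≤ p) (A + A ^ (1 / 2 : ℝ))).mpr (by omega)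
    rw [hA] at q2 q3
    linarith only [q2, q3, hRv]
  have hq1 : 1 ≤ q := by
    have q1 := h4 T hTT4
    have q2 : NZ (T + R) ≤ NZ B := SG.NZ_mono (by rw [hB]; linarith only [hT2R, hRv])
    rw [← hR] at q1
    omega
  have hlast : 2 * T - 4 * R ≤ ord q := by
    by_contra hcon
    push Not at hcon
    set t0 : ℝ := 2 * T - 4 * R with ht0
    have ht0T : T ≤ t0 := by rw [ht0]; linarith only [hT2R, hR0]
    have q1 := h4 t0 (hTT4.trans ht0T)
    have q2 : t0 ^ (1 / 2 : ℝ) ≤ 2 * R := by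
      calc t0 ^ (1 / 2 : ℝ) ≤ (2 * T) ^ (1 / 2 : ℝ) :=
            Real.rpow_le_rpow (by linarith only [ht0T, hpos]) (by rw [ht0]; linarith only [hR0])
              (by norm_num)
        _ = 2 ^ (1 / 2 : ℝ) * R := Real.mul_rpow (by norm_num) hpos.le
        _ ≤ 2 * R := by
            apply mul_le_mul_of_nonneg_right _ hR0.le
            calc (2 : ℝ) ^ (1 / 2 : ℝ) ≤ 2 ^ (1 : ℝ) :=
                  Real.rpow_le_rpow_of_exponent_le (by norm_num) (by norm_num)
              _ = 2 := Real.rpow_one 2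
    have q3 : NZ (t0 + t0 ^ (1 / 2 : ℝ)) ≤ NZ B :=
      SG.NZ_mono (by rw [hB, ht0] at *; linarith only [q2, hRv])
    have q4 : q ≤ NZ t0 := (SG.ord_le_iff hq1 t0).mp hcon.le
    omega
  have hpq : p ≤ q := by
    by_contra hcon
    push Not at hcon
    have q3 : q ≤ NZ A := by omega
    have q4 := (SG.ord_le_iff hq1 A).mpr q3
    rw [hA] at q4
    linarith only [q4, hlast, hT2R, hRv, hR0]
  have hp1 : 1 ≤ p := by omega
  have hTp : T ≤ ord p := by
    by_contra hcon
    push Not at hcon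
    have q1 := (SG.ord_le_iff hp1 A).mp (by rw [hA]; linarith only [hcon])
    omega
  have hqT : ord q ≤ 2 * T := by
    have := (SG.ord_le_iff hq1 B).mpr le_rfl
    rw [hB] at this
    linarith only [this]
  set I := Finset.Ico p q with hI
  have hIn : ∀ n ∈ I, 1 ≤ n ∧ T ≤ ord n ∧ ord (n + 1) ≤ 2 * T := by
    intro n hn
    rw [hI, Finset.mem_Ico] at hn
    refine ⟨by omega, hTp.trans (SG.ord_mono hp1 hn.1), ?_⟩
    exact (SG.ord_mono (by omega) (by omega : n + 1 ≤ q)).trans hqT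
  have hsum : ∑ n ∈ I, w (ord n) ≤ (M + ε) * Y := by
    refine le_trans ?_ (h2 T hTT2)
    have q1 := H177.Lat.sum_conv RH (A := A) (B := B) hA1 w
    have q2 : ∑ n ∈ I, w (ord n) ≤ ∑ n ∈ Finset.Ioc (NZ A) (NZ B), w (ord n) := by
      refine Finset.sum_le_sum_of_subset_of_nonneg ?_ fun _ _ _ => hw0 _
      intro n hn
      rw [hI, Finset.mem_Ico] at hn
      rw [Finset.mem_Ioc]
      omega
    rw [← q1] at q2
    refine q2.trans ?_
    unfold MW
    exact Finset.sum_le_sum_of_subset_of_nonneg (Zf_sub hF (by linarith only [hT10])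
      (by rw [hA]; linarith only []) (by rw [hB]; linarith only []))
      fun s _ _ => mul_nonneg (Nat.cast_nonneg _) (hw0 _)
  -- normalised gaps
  set x : ℕ → ℝ := fun n => (ord (n + 1) - ord n) * L / (2 * Real.pi) with hx
  have hx0 : ∀ n ∈ I, 0 ≤ x n := fun n hn => by
    obtain ⟨g1, g2, g3⟩ := hIn n hn
    have := SG.ord_mono g1 (Nat.le_succ n)
    have h7 : 0 ≤ ord (n + 1) - ord n := by
      have : ord n ≤ ord (n + 1) := this
      linarith only [this]
    rw [hx]
    positivity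
  have hxd : ∀ n ∈ I, x n ≤ dlt n := fun n hn => by
    obtain ⟨g1, g2, g3⟩ := hIn n hn
    exact d_le_dlt g1 (by linarith only [hT10]) g2
  have hx2 : ∑ n ∈ I, x n ^ 2 ≤ C5 * C6 * (T * L) := by
    have q1 : ∑ n ∈ I, x n ^ 2 ≤ ∑ n ∈ I, dlt n ^ 2 :=
      Finset.sum_le_sum fun n hn => pow_le_pow_left₀ (hx0 n hn) (hxd n hn) 2
    have hN1 : 1 ≤ NZ (2 * T) := by
      have : NZ B ≤ NZ (2 * T) := SG.NZ_mono (by rw [hB]; linarith only [])
      omega
    have q2 := h5 (NZ (2 * T)) hN1 I (fun n hn => by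
      obtain ⟨g1, g2, g3⟩ := hIn n hn
      refine ⟨g1, (SG.ord_le_iff g1 _).mp ?_, by linarith only [g2, hT10]⟩
      have : ord n ≤ ord (n + 1) := SG.ord_mono g1 (Nat.le_succ n)
      linarith only [this, g3])
    have q3 := h6 T hTT6
    calc ∑ n ∈ I, x n ^ 2 ≤ C5 * NZ (2 * T) := q1.trans q2
      _ ≤ C5 * (C6 * (T * L)) := mul_le_mul_of_nonneg_left q3 hC5.le
      _ = _ := by ring
  -- lower bound for the weighted sum of the gaps
  have hlow : (M - 3 * ε) * Y ≤ ∑ n ∈ I, w (ord n) * x n := by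
    have q1 := riemann_sum hwV hp1 hpq
    have q2 := h3 T hTT3
    have q3 : ∫ t in T..(2 * T), w t ≤ (∫ t in (ord p)..(ord q), w t) + D ^ 2 * (8 * R) := by
      have e1 : ∫ t in T..(2 * T), w t = (∫ t in T..(ord p), w t) +
          (∫ t in (ord p)..(ord q), w t) + ∫ t in (ord q)..(2 * T), w t := by
        rw [intervalIntegral.integral_add_adjacent_intervals (hwc.intervalIntegrable _ _)
          (hwc.intervalIntegrable _ _), intervalIntegral.integral_add_adjacent_intervals
          (hwc.intervalIntegrable _ _) (hwc.intervalIntegrable _ _)]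
      have e2 : ∫ t in T..(ord p), w t ≤ D ^ 2 * (4 * R) := by
        have : ∫ t in T..(ord p), w t ≤ ∫ t in T..(ord p), D ^ 2 :=
          intervalIntegral.integral_mono_on hTp (hwc.intervalIntegrable _ _)
            (continuous_const.intervalIntegrable _ _) fun t _ => hwD t
        rw [intervalIntegral.integral_const, smul_eq_mul] at this
        refine this.trans ?_
        rw [mul_comm]
        exact mul_le_mul_of_nonneg_left (by linarith only [hfirst]) (sq_nonneg D)
      have e3 : ∫ t in (ord q)..(2 * T), w t ≤ D ^ 2 * (4 * R) := by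
        have : ∫ t in (ord q)..(2 * T), w t ≤ ∫ t in (ord q)..(2 * T), D ^ 2 :=
          intervalIntegral.integral_mono_on hqT (hwc.intervalIntegrable _ _)
            (continuous_const.intervalIntegrable _ _) fun t _ => hwD t
        rw [intervalIntegral.integral_const, smul_eq_mul] at this
        refine this.trans ?_
        rw [mul_comm]
        exact mul_le_mul_of_nonneg_left (by linarith only [hlast]) (sq_nonneg D)
      rw [e1]
      linarith only [e2, e3]
    have q4 : D ^ 2 * (8 * R) ≤ ε * T := by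
      have e1 : 8 * (D ^ 2 + 1) / ε ≤ R := by linarith only [v1]
      rw [div_le_iff₀ hε0] at e1
      have e2 : 8 * (D ^ 2 + 1) * R ≤ R * ε * R := mul_le_mul_of_nonneg_right e1 hR0.le
      have e3 : R * ε * R = ε * T := by rw [← hRR]; ring
      rw [e3] at e2
      linarith only [e2, hR0]
    have q5 : (M - 2 * ε) * T - V * ∑ n ∈ I, (ord (n + 1) - ord n) ^ 2 ≤
        ∑ n ∈ I, w (ord n) * (ord (n + 1) - ord n) := by
      linarith only [q1, q2, q3, q4]
    have hc0 : 0 < L / (2 * Real.pi) := by positivity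
    have q6 := mul_le_mul_of_nonneg_left q5 hc0.le
    have e4 : L / (2 * Real.pi) * ∑ n ∈ I, w (ord n) * (ord (n + 1) - ord n) =
        ∑ n ∈ I, w (ord n) * x n := by
      rw [Finset.mul_sum]
      refine Finset.sum_congr rfl fun n _ => ?_
      rw [hx]
      ring
    have e5 : L / (2 * Real.pi) * (V * ∑ n ∈ I, (ord (n + 1) - ord n) ^ 2) =
        2 * Real.pi / L * V * ∑ n ∈ I, x n ^ 2 := by
      rw [Finset.mul_sum, Finset.mul_sum, Finset.mul_sum]
      refine Finset.sum_congr rfl fun n _ => ?_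
      rw [hx]
      field_simp
    have e6 : 2 * Real.pi / L * V * ∑ n ∈ I, x n ^ 2 ≤ ε * Y := by
      calc 2 * Real.pi / L * V * ∑ n ∈ I, x n ^ 2 ≤
          2 * Real.pi / L * V * (C5 * C6 * (T * L)) :=
            mul_le_mul_of_nonneg_left hx2 (by positivity)
        _ = 4 * Real.pi ^ 2 * (V * (C5 * C6)) / L * Y := by
            rw [hY]; field_simp; ring
        _ ≤ ε * Y := by
            apply mul_le_mul_of_nonneg_right _ hY0.le
            rw [div_le_iff₀ hL0]
            have g1 : 40 * V * (C5 * C6) / ε ≤ L := by linarith only [v2]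
            rw [div_le_iff₀ hε0] at g1
            have g2 : 4 * Real.pi ^ 2 ≤ 40 := by nlinarith only [hpi2, hpi]
            have g3 : 4 * Real.pi ^ 2 * (V * (C5 * C6)) ≤ 40 * (V * (C5 * C6)) :=
              mul_le_mul_of_nonneg_right g2 (by positivity)
            linarith only [g1, g3]
    have e7 : L / (2 * Real.pi) * ((M - 2 * ε) * T - V * ∑ n ∈ I, (ord (n + 1) - ord n) ^ 2) =
        (M - 2 * ε) * Y - L / (2 * Real.pi) * (V * ∑ n ∈ I, (ord (n + 1) - ord n) ^ 2) := by
      rw [hY]; ring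
    rw [e4, e7, e5] at q6
    linarith only [q6, e6]
  -- the small gaps
  set E := (EE_finite A B (2 * Real.pi * (7 / 10) / L)).toFinset with hE
  have hEI : E ⊆ I := by
    intro n hn
    rw [hE, Set.Finite.mem_toFinset] at hn
    obtain ⟨g1, g2, g3, g4⟩ := hn
    rw [hI, Finset.mem_Ico]
    have g5 := (SG.ord_le_iff (by omega : 1 ≤ n + 1) B).mp g3
    refine ⟨?_, by omega⟩
    by_contra hcon
    push Not at hcon
    have := (SG.ord_le_iff g1 A).mpr (by omega)
    linarith only [this, g2]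
  have hEx : ∀ n ∈ E, x n ≤ 7 / 10 := by
    intro n hn
    rw [hE, Set.Finite.mem_toFinset] at hn
    obtain ⟨g1, g2, g3, g4⟩ := hn
    rw [hx]
    show (ord (n + 1) - ord n) * L / (2 * Real.pi) ≤ 7 / 10
    rw [div_le_iff₀ (by positivity)]
    rw [le_div_iff₀ hL0] at g4
    linarith only [g4]
  have hEw : c1 * (T * L) ≤ ∑ n ∈ E, w (ord n) := h1 T hTT1
  have hEs : ∑ n ∈ E, w (ord n) * (x n - 1) ≤ -(3 / 10) * ∑ n ∈ E, w (ord n) := by
    rw [Finset.mul_sum]
    refine Finset.sum_le_sum fun n hn => ?_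
    have g1 := hEx n hn
    have g2 := hw0 (ord n)
    have g3 := mul_le_mul_of_nonneg_left g1 g2
    linarith only [g3]
  have hIs : -(4 * ε) * Y ≤ ∑ n ∈ I, w (ord n) * (x n - 1) := by
    have e1 : ∑ n ∈ I, w (ord n) * (x n - 1) = ∑ n ∈ I, w (ord n) * x n - ∑ n ∈ I, w (ord n) := by
      rw [← Finset.sum_sub_distrib]
      exact Finset.sum_congr rfl fun n _ => by ring
    rw [e1]
    linarith only [hlow, hsum]
  set S' := I.filter (fun n => 1 + κ < dlt n) with hS'
  have hIE : c2 * (T * L) ≤ ∑ n ∈ I \ E, w (ord n) * (x n - 1) := by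
    have e1 := Finset.sum_sdiff (f := fun n => w (ord n) * (x n - 1)) hEI
    have e2 : 4 * ε * Y ≤ 4 * ε * (T * L / 6) := mul_le_mul_of_nonneg_left hYTL (by positivity)
    have e3 : 3 / 10 * (c1 * (T * L)) ≤ 3 / 10 * ∑ n ∈ E, w (ord n) :=
      mul_le_mul_of_nonneg_left hEw (by norm_num)
    have e4 : 3 / 10 * (c1 * (T * L)) = 2 * (c2 * (T * L)) := by rw [hc2]; ring
    have e5 : 4 * ε * (T * L / 6) = 2 / 3 * (c2 * (T * L)) := by rw [hε]; ring
    have e6 : 0 < c2 * (T * L) := by positivity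
    linarith only [e1, e2, e3, e4, e5, e6, hEs, hIs]
  have hIE2 : ∑ n ∈ I \ E, w (ord n) * (x n - 1) ≤ κ * ∑ n ∈ I, w (ord n) +
      ∑ n ∈ S', w (ord n) * x n := by
    have e1 : ∑ n ∈ I \ E, w (ord n) * (x n - 1) ≤ ∑ n ∈ I \ E, (κ * w (ord n) +
        if 1 + κ < dlt n then w (ord n) * x n else 0) := by
      refine Finset.sum_le_sum fun n hn => ?_
      rw [Finset.mem_sdiff] at hn
      have g1 := hw0 (ord n)
      have g2 := mul_nonneg hκ0.le g1
      split_ifs with h
      · linarith only [g1, g2]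
      · push Not at h
        have g3 := (hxd n hn.1).trans h
        have g4 := mul_le_mul_of_nonneg_left g3 g1
        linarith only [g4]
    have e2 : ∑ n ∈ I \ E, (κ * w (ord n) +
        if 1 + κ < dlt n then w (ord n) * x n else 0) ≤ ∑ n ∈ I, (κ * w (ord n) +
        if 1 + κ < dlt n then w (ord n) * x n else 0) := by
      refine Finset.sum_le_sum_of_subset_of_nonneg Finset.sdiff_subset fun n hn _ => ?_
      have g1 := hw0 (ord n)
      have g2 := mul_nonneg hκ0.le g1
      have g3 := mul_nonneg g1 (hx0 n hn)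
      split_ifs
      · linarith only [g2, g3]
      · linarith only [g2]
    refine e1.trans (e2.trans_eq ?_)
    rw [Finset.sum_add_distrib, Finset.mul_sum, hS', Finset.sum_filter]
  have hS1 : c2 / 2 * (T * L) ≤ ∑ n ∈ S', w (ord n) * x n := by
    have e1 : κ * ∑ n ∈ I, w (ord n) ≤ κ * ((M + ε) * Y) :=
      mul_le_mul_of_nonneg_left hsum hκ0.le
    have e2 : κ * ((M + ε) * Y) = c2 / 2 * Y := by
      rw [hκ]
      have : M + ε ≠ 0 := by positivity
      field_simp
    have e3 : c2 / 2 * Y ≤ c2 / 2 * (T * L) := by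
      apply mul_le_mul_of_nonneg_left _ (by positivity)
      linarith only [hYTL, hTL]
    linarith only [hIE, hIE2, e1, e2, e3]
  have hcs : (∑ n ∈ S', w (ord n) * x n) ^ 2 ≤ (∑ n ∈ S', w (ord n)) *
      ∑ n ∈ S', w (ord n) * x n ^ 2 := by
    refine Finset.sum_sq_le_sum_mul_sum_of_sq_le_mul S' (fun n _ => hw0 _)
      (fun n _ => mul_nonneg (hw0 _) (sq_nonneg _)) fun n _ => ?_
    exact le_of_eq (by ring)
  have hS2 : ∑ n ∈ S', w (ord n) * x n ^ 2 ≤ X * (T * L) := by
    calc ∑ n ∈ S', w (ord n) * x n ^ 2 ≤ ∑ n ∈ I, w (ord n) * x n ^ 2 :=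
          Finset.sum_le_sum_of_subset_of_nonneg (Finset.filter_subset _ _)
            fun n _ _ => mul_nonneg (hw0 _) (sq_nonneg _)
      _ ≤ ∑ n ∈ I, (D ^ 2 + 1) * x n ^ 2 := by
          refine Finset.sum_le_sum fun n _ => ?_
          apply mul_le_mul_of_nonneg_right _ (sq_nonneg _)
          linarith only [hwD (ord n)]
      _ = (D ^ 2 + 1) * ∑ n ∈ I, x n ^ 2 := by rw [Finset.mul_sum]
      _ ≤ (D ^ 2 + 1) * (C5 * C6 * (T * L)) := mul_le_mul_of_nonneg_left hx2 (by positivity)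
      _ = _ := by rw [hX]; ring
  have hW0 : 0 ≤ ∑ n ∈ S', w (ord n) := Finset.sum_nonneg fun n _ => hw0 _
  have h7 : (c2 / 2 * (T * L)) ^ 2 ≤ (∑ n ∈ S', w (ord n)) * (X * (T * L)) := by
    calc (c2 / 2 * (T * L)) ^ 2 ≤ (∑ n ∈ S', w (ord n) * x n) ^ 2 :=
          pow_le_pow_left₀ (by positivity) hS1 2
      _ ≤ _ := hcs
      _ ≤ _ := mul_le_mul_of_nonneg_left hS2 hW0
  have h8 : (c2 / 2 * (T * L)) ^ 2 = (c3 * (T * L)) * (X * (T * L)) := by
    rw [hc3]
    field_simp
  rw [h8] at h7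
  exact le_of_mul_le_mul_right h7 (by positivity)

end TH803TW
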