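import Pool.Agent.TH803.TW.Iso2
import Pool.Agent.TH803.TW.Large

/-! Isolated zeros in terms of the normalised gaps. -/

open Complex Filter Topology Set MeasureTheory
open scoped BigOperators ComplexConjugate

namespace TH803TW

open H370 H370.A2 H370.A3 H295SI
open SP (RHs)
open SG (ord NZ zmult ZS)
open LG (dlt)

lemma ord_zero (RH : RiemannHypothesis) {A B : ℝ} (hA : 1 ≤ A) {n : ℕ} (hn : 1 ≤ n)
    (h1 : A < ord n) (h2 : ord n ≤ B) : ∃ s ∈ Zf riemannZeta A B, s.im = ord n := by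
  classical
  by_contra hcon
  push Not at hcon
  have h3 := H177.Lat.sum_conv RH (A := A) (B := B) hA (fun t => if t = ord n then 1 else 0)
  have h4 : ∑ s ∈ Zf riemannZeta A B, (mult riemannZeta s : ℝ) *
      (if s.im = ord n then 1 else 0) = 0 := by
    refine Finset.sum_eq_zero fun s hs => ?_
    rw [if_neg (hcon s hs), mul_zero]
  rw [h4] at h3
  have h5 : n ∈ Finset.Ioc (NZ A) (NZ B) := by
    rw [Finset.mem_Ioc]
    refine ⟨?_, (SG.ord_le_iff hn B).mp h2⟩
    by_contra hc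
    push Not at hc
    have := (SG.ord_le_iff hn A).mpr hc
    linarith
  have h6 : (1 : ℝ) ≤ ∑ m ∈ Finset.Ioc (NZ A) (NZ B), (if ord m = ord n then 1 else 0) := by
    have := Finset.single_le_sum (f := fun m => if ord m = ord n then (1 : ℝ) else 0)
      (fun m _ => by split_ifs <;> norm_num) h5
    simpa using this
  linarith

/-- two indices with the same ordinate -/
lemma ord_twice (RH : RiemannHypothesis) {A B : ℝ} (hA : 1 ≤ A) {n m : ℕ} (hn : 1 ≤ n)
    (hm : 1 ≤ m) (hnm : n ≠ m) (he : ord n = ord m)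
    (h1 : A < ord n) (h2 : ord n ≤ B) {s : ℂ} (hs : s.im = ord n)
    (huniq : ∀ s' ∈ Zf riemannZeta A B, s'.im = ord n → s' = s) : 2 ≤ mult riemannZeta s := by
  classical
  have h3 := H177.Lat.sum_conv RH (A := A) (B := B) hA (fun t => if t = ord n then 1 else 0)
  have hmem : ∀ k : ℕ, 1 ≤ k → ord k = ord n → k ∈ Finset.Ioc (NZ A) (NZ B) := by
    intro k hk hke
    rw [Finset.mem_Ioc]
    refine ⟨?_, (SG.ord_le_iff hk B).mp (by rw [hke]; exact h2)⟩
    by_contra hc
    push Not at hc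
    have := (SG.ord_le_iff hk A).mpr hc
    linarith
  have h6 : (2 : ℝ) ≤ ∑ k ∈ Finset.Ioc (NZ A) (NZ B), (if ord k = ord n then 1 else 0) := by
    have h7 : ∑ k ∈ {n, m}, (if ord k = ord n then (1 : ℝ) else 0) ≤
        ∑ k ∈ Finset.Ioc (NZ A) (NZ B), (if ord k = ord n then 1 else 0) := by
      refine Finset.sum_le_sum_of_subset_of_nonneg ?_ fun k _ _ => by split_ifs <;> norm_num
      intro k hk
      rw [Finset.mem_insert, Finset.mem_singleton] at hk
      rcases hk with rfl | rfl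
      · exact hmem _ hn rfl
      · exact hmem _ hm he.symm
    rw [Finset.sum_pair hnm, if_pos rfl, if_pos he.symm] at h7
    linarith
  rw [← h3] at h6
  have h8 : ∑ s' ∈ Zf riemannZeta A B, (mult riemannZeta s' : ℝ) *
      (if s'.im = ord n then 1 else 0) ≤ ∑ s' ∈ Zf riemannZeta A B,
      (if s' = s then (mult riemannZeta s : ℝ) else 0) := by
    refine Finset.sum_le_sum fun s' hs' => ?_
    by_cases h : s'.im = ord n
    · have := huniq s' hs' h
      subst this
      rw [if_pos h, if_pos rfl, mul_one]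
    · rw [if_neg h, mul_zero]
      split_ifs
      · exact Nat.cast_nonneg _
      · exact le_rfl
  rw [Finset.sum_ite_eq'] at h8
  have h9 : (2 : ℝ) ≤ mult riemannZeta s := by
    refine h6.trans (h8.trans ?_)
    split_ifs
    · exact le_rfl
    · exact Nat.cast_nonneg _
  exact_mod_cast h9

lemma NZ_ge_two (hline : Line riemannZeta) : ∃ T0 : ℝ, 10 ≤ T0 ∧ ∀ T : ℝ, T0 ≤ T → 1 ≤ NZ T := by
  obtain ⟨T1, hT1, h1⟩ := zero_near hline
  have hp : 0 < T1 ^ (1 / 2 : ℝ) := Real.rpow_pos_of_pos (by linarith) _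
  refine ⟨T1 + T1 ^ (1 / 2 : ℝ), by linarith, fun T hT => ?_⟩
  have h2 := h1 T1 le_rfl
  have h3 := SG.NZ_mono hT
  omega

lemma xlog_mono {x y : ℝ} (hx : 0 < x) (hxy : x ≤ y) (hy : 1 ≤ y) :
    x * Real.log x ≤ y * Real.log y := by
  rcases le_or_gt x 1 with h | h
  · have h1 : Real.log x ≤ 0 := Real.log_nonpos hx.le h
    have h2 : 0 ≤ Real.log y := Real.log_nonneg hy
    have h3 : x * Real.log x ≤ 0 := mul_nonpos_of_nonneg_of_nonpos hx.le h1
    have h4 : 0 ≤ y * Real.log y := by positivity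
    linarith
  · have h1 : Real.log x ≤ Real.log y := Real.log_le_log hx hxy
    exact mul_le_mul hxy h1 (Real.log_nonneg h.le) (by linarith)

/-- isolated zeros in terms of the normalised gaps -/
theorem iso_idx (RH : RiemannHypothesis) (hline : Line riemannZeta) {φ : ℝ → ℝ} {M : ℝ}
    (hφ : APm φ M)
    (hφ0 : ∀ t, 0 ≤ φ t) (hM : 0 ≤ M) (h a ε : ℝ) (hh0 : 0 < h) (hh1 : h ≤ 1) (ha : 0 < a)
    (hE : 0 < 1 - (2 * Real.pi * a * h) ^ 2 / 24) (hε : 0 < ε) :
    ∃ T0 : ℝ, 10 ≤ T0 ∧ ∀ T : ℝ, T0 ≤ T → ∀ H : ℝ, T ^ h ≤ H → H ≤ T / 2 →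
      (M - M * (cc h - 1) / (1 - (2 * Real.pi * a * h) ^ 2 / 24) ^ 2 - ε) *
        NN riemannZeta T (T + H) ≤ ∑ n ∈ (Finset.Ioc (NZ T) (NZ (T + H))).filter
          (fun n => a < dlt (n - 1) ∧ a < dlt n), φ (ord n) := by
  classical
  have hpi := Real.pi_pos
  obtain ⟨T1, hT1, h1⟩ := iso_short good_zeta hline hφ hφ0 hM h a ε hh0 hh1 ha hE hε
  obtain ⟨T2, hT2, h2⟩ := NZ_ge_two hline
  obtain ⟨T3, hT3⟩ := (Real.tendsto_log_atTop.eventually_ge_atTop
    (2 * Real.pi * a + 1)).exists_forall_of_atTop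
  refine ⟨max T1 (max T2 T3), hT1.trans (le_max_left _ _), fun T hT H hH1 hH2 => ?_⟩
  have hTT1 : T1 ≤ T := (le_max_left _ _).trans hT
  have hTT2 : T2 ≤ T := ((le_max_left _ _).trans (le_max_right _ _)).trans hT
  have hLa := hT3 T (((le_max_right _ _).trans (le_max_right _ _)).trans hT)
  have hT10 : 10 ≤ T := hT1.trans hTT1
  have hN1 := h2 T hTT2
  set L := Real.log T with hL
  have hL0 : 0 < L := by
    have : 0 < 2 * Real.pi * a := by positivity
    linarith
  set ρ : ℝ := 2 * Real.pi * a / L with hρ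
  have hρ0 : 0 < ρ := by positivity
  have hρ1 : ρ ≤ 1 := by rw [hρ, div_le_one hL0]; linarith
  obtain ⟨G, hG1, hG2, hG3⟩ := h1 T hTT1 H hH1 hH2
  refine hG3.trans ?_
  have hA1 : 1 ≤ T := by linarith
  have hH0 : 0 < H := (Real.rpow_pos_of_pos (by linarith) h).trans_le hH1
  have hGZ : ∀ s ∈ G, T + 2 < s.im ∧ s.im ≤ T + H - 2 ∧ s ∈ Zf riemannZeta T (T + H) := by
    intro s hs
    have h4 := hG1 hs
    rw [mem_Zf good_zeta (by linarith)] at h4
    obtain ⟨p1, p2, p3, p4, p5⟩ := h4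
    refine ⟨p3, p4, ?_⟩
    rw [mem_Zf good_zeta hA1]
    exact ⟨p1, p2, by linarith, by linarith, p5⟩
  set f : ℝ → ℝ := fun t => if t ∈ G.image (fun s => s.im) then φ t else 0 with hf
  have hf0 : ∀ t, 0 ≤ f t := fun t => by
    rw [hf]
    show 0 ≤ if t ∈ G.image (fun s => s.im) then φ t else 0
    split_ifs
    · exact hφ0 t
    · exact le_rfl
  have hconv := H177.Lat.sum_conv RH (A := T) (B := T + H) hA1 f
  have hleft : ∑ s ∈ G, φ s.im ≤ ∑ s ∈ Zf riemannZeta T (T + H), (mult riemannZeta s : ℝ) *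
      f s.im := by
    calc ∑ s ∈ G, φ s.im = ∑ s ∈ G, (mult riemannZeta s : ℝ) * f s.im := by
          refine Finset.sum_congr rfl fun s hs => ?_
          rw [(hG2 s hs).1, Nat.cast_one, one_mul, hf]
          show φ s.im = if s.im ∈ G.image (fun s => s.im) then φ s.im else 0
          rw [if_pos (Finset.mem_image_of_mem _ hs)]
      _ ≤ _ := Finset.sum_le_sum_of_subset_of_nonneg (fun s hs => (hGZ s hs).2.2)
          fun s _ _ => mul_nonneg (Nat.cast_nonneg _) (hf0 _)
  refine hleft.trans (hconv.le.trans ?_)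
  rw [Finset.sum_filter]
  refine Finset.sum_le_sum fun n hn => ?_
  rw [hf]
  show (if ord n ∈ G.image (fun s => s.im) then φ (ord n) else 0) ≤ _
  by_cases hmem : ord n ∈ G.image (fun s => s.im)
  swap
  · rw [if_neg hmem]
    split_ifs
    · exact hφ0 _
    · exact le_rfl
  rw [if_pos hmem]
  rw [Finset.mem_Ioc] at hn
  rw [Finset.mem_image] at hmem
  obtain ⟨s, hs, hsn⟩ := hmem
  have hn1 : 1 ≤ n := by omega
  have hn2 : 1 ≤ n - 1 := by omega
  obtain ⟨hs1, hs2, hs3⟩ := hGZ s hs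
  obtain ⟨hm, hiso⟩ := hG2 s hs
  rw [← hL] at hiso
  -- no other ordinate near
  have hzs : s ∈ zset riemannZeta (T + 1) (T + H - 1) := by
    rw [mem_Zf good_zeta hA1] at hs3
    obtain ⟨p1, p2, p3, p4, p5⟩ := hs3
    exact ⟨p1, p2, by linarith, by linarith, p5⟩
  have hnone : ∀ m : ℕ, 1 ≤ m → m ≠ n → ρ < |s.im - ord m| := by
    intro m hm1 hmn
    by_contra hcon
    push Not at hcon
    obtain ⟨c1, c2⟩ := abs_le.1 hcon
    obtain ⟨s', hs', hs'e⟩ := ord_zero RH (A := T + 1) (B := T + H - 1) (by linarith) hm1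
      (by linarith) (by linarith)
    have hs'z : s' ∈ zset riemannZeta (T + 1) (T + H - 1) := (mem_Zf good_zeta (by linarith)).1 hs'
    have he := hiso s' hs'z (by rw [hs'e]; exact hcon)
    rw [he] at hs'e
    have h5 := ord_twice RH (A := T + 1) (B := T + H - 1) (by linarith) hn1 hm1 hmn.symm
      (by rw [← hsn, hs'e]) (by rw [← hsn]; linarith) (by rw [← hsn]; linarith) (s := s) hsn
      (by
        intro s'' hs'' he''
        have hz'' := (mem_Zf good_zeta (by linarith)).1 hs''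
        refine hiso s'' hz'' ?_
        rw [he'', hsn, sub_self, abs_zero]
        exact hρ0.le)
    omega
  have hnext : ρ < ord (n + 1) - ord n := by
    have h5 := hnone (n + 1) (by omega) (by omega)
    have h6 := SG.ord_mono hn1 (Nat.le_succ n)
    have h7 : ord n ≤ ord (n + 1) := h6
    rw [hsn, abs_sub_comm, abs_of_nonneg (by linarith)] at h5
    exact h5
  have hprev : ρ < ord n - ord (n - 1) := by
    have h5 := hnone (n - 1) hn2 (by omega)
    have h6 := SG.ord_mono hn2 (by omega : n - 1 ≤ n)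
    rw [hsn, abs_of_nonneg (by linarith)] at h5
    exact h5
  have hTn : T ≤ ord n := by rw [← hsn]; linarith
  have haρ : a = ρ * L / (2 * Real.pi) := by rw [hρ]; field_simp
  have hd1 : a < dlt n := by
    have h5 := d_le_dlt hn1 hA1 hTn
    refine lt_of_lt_of_le ?_ h5
    rw [haρ]
    gcongr
  have hd2 : a < dlt (n - 1) := by
    have e1 : n - 1 + 1 = n := by omega
    rcases le_or_gt T (ord (n - 1)) with h6 | h6
    · have h5 := d_le_dlt hn2 hA1 h6
      rw [e1] at h5
      refine lt_of_lt_of_le ?_ h5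
      rw [haρ]
      gcongr
    · unfold dlt
      rw [e1]
      have h7 := xlog_mono (SG.ord_pos hn2) h6.le hA1
      have h8 : T + 2 < ord n := by rw [← hsn]; exact hs1
      have h9 : Real.log T ≤ Real.log (ord n) := Real.log_le_log (by linarith) hTn
      have h10 : (T + 2) * Real.log T ≤ ord n * Real.log (ord n) :=
        mul_le_mul h8.le h9 hL0.le (by linarith)
      rw [lt_div_iff₀ (by positivity)]
      rw [← hL] at h7 h10
      have h11 : 0 < 2 * Real.pi * a := by positivity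
      linarith
  rw [if_pos ⟨hd2, hd1⟩]

end TH803TW
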