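import Pool.Agent.TH803.TW.Prime
import Pool.Agent.H295R2.SI.Defs

/-! The twisted mean square of the zero sum as a sum over pairs of zeros. -/

open Complex Filter Topology Set MeasureTheory
open scoped BigOperators ComplexConjugate

namespace TH803TW

open H370 H295SI

lemma gauss_tw_eq (z w : ℂ) (τ t : ℝ) :
    cexp (-(z - t) ^ 2 / 2) * cexp (-(w - t) ^ 2 / 2) * cexp (I * τ * t) =
      cexp ((-1 : ℂ) * (t : ℂ) ^ 2 + (z + w + I * τ) * t + (-(z ^ 2 + w ^ 2) / 2)) := by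
  rw [← Complex.exp_add, ← Complex.exp_add]; congr 1; ring

lemma gauss_tw_int (z w : ℂ) (τ : ℝ) :
    Integrable (fun t : ℝ => cexp (-(z - t) ^ 2 / 2) * cexp (-(w - t) ^ 2 / 2) *
      cexp (I * τ * t)) := by
  simp_rw [gauss_tw_eq]
  exact integrable_cexp_quadratic' (by simp) _ _

lemma gauss_tw (z w : ℂ) (τ : ℝ) :
    ∫ t : ℝ, cexp (-(z - t) ^ 2 / 2) * cexp (-(w - t) ^ 2 / 2) * cexp (I * τ * t) =
      (Real.sqrt Real.pi : ℂ) * cexp (-(τ : ℂ) ^ 2 / 4) *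
        (cexp (-(z - w) ^ 2 / 4) * cexp (I * τ * ((z + w) / 2))) := by
  simp_rw [gauss_tw_eq]
  rw [integral_cexp_quadratic (by simp), neg_neg, div_one, pi_cpow_half, mul_assoc,
    ← Complex.exp_add, ← Complex.exp_add]
  congr 2
  have : (z + w + I * τ) ^ 2 = (z + w) ^ 2 + 2 * (z + w) * (I * τ) - τ ^ 2 := by
    have hI : I ^ 2 = -1 := I_sq
    linear_combination (τ : ℂ) ^ 2 * hI
  rw [this]
  ring

section zeros

variable {F : ℂ → ℂ} (hF : GoodL F) {U1 U2 : ℝ} (hU : 1 ≤ U1)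

/-- twisted mean square of the zero sum -/
noncomputable def JT (F : ℂ → ℂ) (U1 U2 u τ : ℝ) : ℂ :=
  ∫ t : ℝ, ((‖AA F U1 U2 u t‖ ^ 2 : ℝ) : ℂ) * cexp (I * τ * t)

include hF hU in
lemma JT_eq (u τ : ℝ) : JT F U1 U2 u τ = (Real.sqrt Real.pi : ℂ) * cexp (-(τ : ℂ) ^ 2 / 4) *
    ∑ s ∈ Zf F U1 U2, ∑ s' ∈ Zf F U1 U2, (mult F s : ℂ) * (mult F s' : ℂ) *
      (cexp (I * u * (zz s - zz s')) * (cexp (-(zz s - zz s') ^ 2 / 4) *
        cexp (I * τ * ((zz s + zz s') / 2)))) := by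
  have h1 : ∀ t : ℝ, ((‖AA F U1 U2 u t‖ ^ 2 : ℝ) : ℂ) * cexp (I * τ * t) =
      ∑ s ∈ Zf F U1 U2, ∑ s' ∈ Zf F U1 U2, (mult F s : ℂ) * (mult F s' : ℂ) *
        (cexp (I * u * (zz s - conj (zz s'))) *
        (cexp (-(zz s - t) ^ 2 / 2) * cexp (-(conj (zz s') - t) ^ 2 / 2) * cexp (I * τ * t))) := by
    intro t
    rw [← Complex.normSq_eq_norm_sq, ← Complex.mul_conj, AA_eq hF hU, map_sum,
      Finset.sum_mul_sum, Finset.sum_mul]
    refine Finset.sum_congr rfl fun s _ => ?_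
    rw [Finset.sum_mul]
    refine Finset.sum_congr rfl fun s' _ => ?_
    rw [map_mul, hh_conj, hh_eq, Complex.conj_natCast]
    have : cexp (I * u * (zz s - conj (zz s'))) =
        cexp (I * u * zz s) * cexp (-(I * u * conj (zz s'))) := by
      rw [← Complex.exp_add]; congr 1; ring
    rw [this]; ring
  unfold JT
  simp_rw [h1]
  rw [integral_finsetSum]
  swap
  · intro s _
    refine integrable_finsetSum _ fun s' _ => ?_
    exact ((gauss_tw_int _ _ _).const_mul _).const_mul _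
  rw [Finset.mul_sum]
  refine Finset.sum_congr rfl fun s _ => ?_
  rw [integral_finsetSum]
  swap
  · intro s' _
    exact ((gauss_tw_int _ _ _).const_mul _).const_mul _
  rw [Finset.mul_sum]
  have h2 : ∀ s' ∈ Zf F U1 U2, ∫ t : ℝ, (mult F s : ℂ) * (mult F s' : ℂ) *
        (cexp (I * u * (zz s - conj (zz s'))) *
        (cexp (-(zz s - t) ^ 2 / 2) * cexp (-(conj (zz s') - t) ^ 2 / 2) * cexp (I * τ * t))) =
      (fun w => (Real.sqrt Real.pi : ℂ) * cexp (-(τ : ℂ) ^ 2 / 4) *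
      ((mult F s : ℂ) * (mult F w : ℂ) *
      (cexp (I * u * (zz s - zz w)) * (cexp (-(zz s - zz w) ^ 2 / 4) *
        cexp (I * τ * ((zz s + zz w) / 2)))))) (1 - conj s') := by
    intro s' hs'
    rw [mem_Zf hF hU] at hs'
    rw [integral_const_mul, integral_const_mul, gauss_tw]
    simp only
    rw [zz_refl, mult_refl hF hs'.1 hs'.2.1 (by linarith [hs'.2.2.1])]
    ring
  rw [Finset.sum_congr rfl h2]
  exact sum_refl hF hU (fun w => (Real.sqrt Real.pi : ℂ) * cexp (-(τ : ℂ) ^ 2 / 4) *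
      ((mult F s : ℂ) * (mult F w : ℂ) *
      (cexp (I * u * (zz s - zz w)) * (cexp (-(zz s - zz w) ^ 2 / 4) *
        cexp (I * τ * ((zz s + zz w) / 2))))))

include hF hU in
lemma JT_cont (τ : ℝ) : Continuous (fun u : ℝ => JT F U1 U2 u τ) := by
  simp_rw [JT_eq hF hU]
  fun_prop

include hF hU in
lemma JT_even (u τ : ℝ) : JT F U1 U2 (-u) τ = JT F U1 U2 u τ := by
  rw [JT_eq hF hU, JT_eq hF hU, Finset.sum_comm]
  congr 1
  refine Finset.sum_congr rfl fun s _ => Finset.sum_congr rfl fun s' _ => ?_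
  have e1 : I * ((-u : ℝ) : ℂ) * (zz s' - zz s) = I * u * (zz s - zz s') := by push_cast; ring
  have e2 : -(zz s' - zz s) ^ 2 / 4 = -(zz s - zz s') ^ 2 / 4 := by ring
  rw [e1, e2, add_comm (zz s') (zz s)]; ring

/-- the twisted pair sum with the kernel `∫ ψ(α) e^{iΛα(z-z')} dα e^{-(z-z')²/4}` -/
noncomputable def QTp (ψ : ℝ → ℝ) (F : ℂ → ℂ) (Λ U1 U2 τ : ℝ) : ℂ :=
  ∑ s ∈ Zf F U1 U2, ∑ s' ∈ Zf F U1 U2, (mult F s : ℂ) * (mult F s' : ℂ) *
    ((∫ α in (-1 : ℝ)..1, (ψ α : ℂ) * cexp (I * (Λ * (zz s - zz s')) * α)) *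
      cexp (-(zz s - zz s') ^ 2 / 4) * cexp (I * τ * ((zz s + zz s') / 2)))

include hF hU in
lemma QTp_JT {ψ : ℝ → ℝ} (hψ : Continuous ψ) (Λ τ : ℝ) : QTp ψ F Λ U1 U2 τ =
    (cexp ((τ : ℂ) ^ 2 / 4) / Real.sqrt Real.pi) *
      ∫ α in (-1 : ℝ)..1, (ψ α : ℂ) * JT F U1 U2 (Λ * α) τ := by
  have hpi : (Real.sqrt Real.pi : ℂ) ≠ 0 := by
    rw [Ne, Complex.ofReal_eq_zero]; positivity
  have h3 : ∀ α : ℝ, (cexp ((τ : ℂ) ^ 2 / 4) / Real.sqrt Real.pi) *
      ((ψ α : ℂ) * JT F U1 U2 (Λ * α) τ) =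
      ∑ s ∈ Zf F U1 U2, ∑ s' ∈ Zf F U1 U2, (mult F s : ℂ) * (mult F s' : ℂ) * ((ψ α : ℂ) *
      cexp (I * (Λ * (zz s - zz s')) * α) * (cexp (-(zz s - zz s') ^ 2 / 4) *
        cexp (I * τ * ((zz s + zz s') / 2)))) := by
    intro α
    rw [JT_eq hF hU]
    have he : cexp ((τ : ℂ) ^ 2 / 4) * cexp (-(τ : ℂ) ^ 2 / 4) = 1 := by
      rw [← Complex.exp_add]
      have : (τ : ℂ) ^ 2 / 4 + -(τ : ℂ) ^ 2 / 4 = 0 := by ring
      rw [this, Complex.exp_zero]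
    have e1 : (cexp ((τ : ℂ) ^ 2 / 4) / Real.sqrt Real.pi) * ((ψ α : ℂ) *
        ((Real.sqrt Real.pi : ℂ) * cexp (-(τ : ℂ) ^ 2 / 4) *
        ∑ s ∈ Zf F U1 U2, ∑ s' ∈ Zf F U1 U2, (mult F s : ℂ) * (mult F s' : ℂ) *
          (cexp (I * ((Λ * α : ℝ) : ℂ) * (zz s - zz s')) * (cexp (-(zz s - zz s') ^ 2 / 4) *
            cexp (I * τ * ((zz s + zz s') / 2)))))) =
        (ψ α : ℂ) * ∑ s ∈ Zf F U1 U2, ∑ s' ∈ Zf F U1 U2, (mult F s : ℂ) * (mult F s' : ℂ) *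
          (cexp (I * ((Λ * α : ℝ) : ℂ) * (zz s - zz s')) * (cexp (-(zz s - zz s') ^ 2 / 4) *
            cexp (I * τ * ((zz s + zz s') / 2)))) := by
      set S0 := ∑ s ∈ Zf F U1 U2, ∑ s' ∈ Zf F U1 U2, (mult F s : ℂ) * (mult F s' : ℂ) *
          (cexp (I * ((Λ * α : ℝ) : ℂ) * (zz s - zz s')) * (cexp (-(zz s - zz s') ^ 2 / 4) *
            cexp (I * τ * ((zz s + zz s') / 2))))
      calc _ = (cexp ((τ : ℂ) ^ 2 / 4) * cexp (-(τ : ℂ) ^ 2 / 4)) *
            ((Real.sqrt Real.pi : ℂ) / Real.sqrt Real.pi) * ((ψ α : ℂ) * S0) := by ring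
        _ = _ := by rw [he, div_self hpi, one_mul, one_mul]
    rw [e1, Finset.mul_sum]
    refine Finset.sum_congr rfl fun s _ => ?_
    rw [Finset.mul_sum]
    refine Finset.sum_congr rfl fun s' _ => ?_
    have e2 : I * ((Λ * α : ℝ) : ℂ) * (zz s - zz s') = I * (Λ * (zz s - zz s')) * α := by
      push_cast; ring
    rw [e2]; ring
  rw [← intervalIntegral.integral_const_mul]
  simp_rw [h3]
  have hc : ∀ s s' : ℂ, Continuous fun α : ℝ => (mult F s : ℂ) * (mult F s' : ℂ) * ((ψ α : ℂ) *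
      cexp (I * (Λ * (zz s - zz s')) * α) * (cexp (-(zz s - zz s') ^ 2 / 4) *
        cexp (I * τ * ((zz s + zz s') / 2)))) := by
    intro s s'
    fun_prop
  rw [intervalIntegral.integral_finsetSum]
  swap
  · intro s _
    exact (continuous_finsetSum _ fun s' _ => hc s s').intervalIntegrable _ _
  unfold QTp
  refine Finset.sum_congr rfl fun s _ => ?_
  rw [intervalIntegral.integral_finsetSum]
  swap
  · intro s' _
    exact (hc s s').intervalIntegrable _ _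
  refine Finset.sum_congr rfl fun s' _ => ?_
  rw [intervalIntegral.integral_const_mul, intervalIntegral.integral_mul_const]
  ring

include hF hU in
/-- the twisted pair sum is bounded by the twisted mean squares -/
lemma QTp_norm {ψ : ℝ → ℝ} (hψ : Continuous ψ) (Λ τ : ℝ) {R : ℝ → ℝ} (hR : Continuous R)
    (hψR : ∀ α : ℝ, |ψ α| ≤ R α) (hRe : ∀ α, R (-α) = R α) : ‖QTp ψ F Λ U1 U2 τ‖ ≤
    2 * Real.exp (τ ^ 2 / 4) * ∫ α in (0 : ℝ)..1, R α * ‖JT F U1 U2 (Λ * α) τ‖ := by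
  rw [QTp_JT hF hU hψ]
  have hJc : Continuous fun α : ℝ => JT F U1 U2 (Λ * α) τ := (JT_cont hF hU τ).comp (by fun_prop)
  set G : ℝ → ℝ := fun α => R α * ‖JT F U1 U2 (Λ * α) τ‖ with hG
  have hGc : Continuous G := hR.mul hJc.norm
  have hGe : ∀ α, G (-α) = G α := by
    intro α
    simp only [hG]
    rw [hRe, mul_neg, JT_even hF hU]
  have h4 : ∫ α in (-1 : ℝ)..1, G α = 2 * ∫ α in (0 : ℝ)..1, G α := by
    rw [← intervalIntegral.integral_add_adjacent_intervals (b := 0)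
      (hGc.intervalIntegrable _ _) (hGc.intervalIntegrable _ _)]
    have h5 : ∫ α in (-1 : ℝ)..0, G α = ∫ α in (0 : ℝ)..1, G α := by
      have := intervalIntegral.integral_comp_neg (a := (0 : ℝ)) (b := 1) G
      simp_rw [hGe] at this
      rw [neg_zero] at this
      exact this.symm
    rw [h5]; ring
  have h6 : ‖∫ α in (-1 : ℝ)..1, (ψ α : ℂ) * JT F U1 U2 (Λ * α) τ‖ ≤
      ∫ α in (-1 : ℝ)..1, G α := by
    refine (intervalIntegral.norm_integral_le_integral_norm (by norm_num)).trans ?_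
    refine intervalIntegral.integral_mono_on (by norm_num) ?_ (hGc.intervalIntegrable _ _)
      fun α _ => ?_
    · exact ((Complex.continuous_ofReal.comp hψ).mul hJc).norm.intervalIntegrable _ _
    · simp only [hG]
      rw [norm_mul, Complex.norm_real]
      exact mul_le_mul_of_nonneg_right (hψR α) (norm_nonneg _)
  have h7 : ‖cexp ((τ : ℂ) ^ 2 / 4) / Real.sqrt Real.pi‖ ≤ Real.exp (τ ^ 2 / 4) := by
    rw [norm_div, Complex.norm_real, Real.norm_of_nonneg (Real.sqrt_nonneg _)]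
    have : (τ : ℂ) ^ 2 / 4 = ((τ ^ 2 / 4 : ℝ) : ℂ) := by push_cast; ring
    rw [this, Complex.norm_exp, Complex.ofReal_re]
    apply div_le_self (Real.exp_pos _).le
    rw [Real.one_le_sqrt]
    linarith [Real.pi_gt_three]
  have h8 : 0 ≤ ∫ α in (0 : ℝ)..1, G α := by
    apply intervalIntegral.integral_nonneg zero_le_one
    intro α _
    have h9 : 0 ≤ R α := (abs_nonneg _).trans (hψR α)
    simp only [hG]
    positivity
  rw [norm_mul]
  calc ‖cexp ((τ : ℂ) ^ 2 / 4) / Real.sqrt Real.pi‖ *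
        ‖∫ α in (-1 : ℝ)..1, (ψ α : ℂ) * JT F U1 U2 (Λ * α) τ‖ ≤
      Real.exp (τ ^ 2 / 4) * ∫ α in (-1 : ℝ)..1, G α := by gcongr
    _ = _ := by rw [h4]; ring

end zeros

end TH803TW
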