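import Pool.Agent.TH803.TW.Inner
import Pool.Agent.TH803.TW.ZSide

/-! The twisted mean square of the zero sum is small. -/

open Complex Filter Topology Set MeasureTheory
open scoped BigOperators ComplexConjugate

namespace TH803TW

open H370 H370.A2

/-- the zeros in the upper half plane lie on the critical line -/
def Line (F : ℂ → ℂ) : Prop :=
  ∀ s : ℂ, 0 < s.re → s.re < 1 → 1 ≤ s.im → F s = 0 → s.re = 1 / 2

lemma sq_diff {x y : ℂ} {η C : ℝ} (hη : 0 < η) (h : ‖x - y‖ ≤ C) :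
    |‖x‖ ^ 2 - ‖y‖ ^ 2| ≤ η * ‖y‖ ^ 2 + (1 + 1 / η) * C ^ 2 := by
  have hC : 0 ≤ C := (norm_nonneg _).trans h
  have h1 : |‖x‖ - ‖y‖| ≤ C := (abs_norm_sub_norm_le x y).trans h
  obtain ⟨h2, h3⟩ := abs_le.1 h1
  have hx := norm_nonneg x
  have hy := norm_nonneg y
  have h4 : 2 * (‖y‖ * C) ≤ η * ‖y‖ ^ 2 + 1 / η * C ^ 2 := by
    have h5 : η * ‖y‖ ^ 2 + 1 / η * C ^ 2 - 2 * (‖y‖ * C) = (1 / η) * (η * ‖y‖ - C) ^ 2 := by
      field_simp; ring
    have h6 : 0 ≤ (1 / η) * (η * ‖y‖ - C) ^ 2 := by positivity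
    linarith
  have h7 : |‖x‖ ^ 2 - ‖y‖ ^ 2| ≤ 2 * (‖y‖ * C) + C ^ 2 := by
    rw [abs_le]
    constructor <;> nlinarith
  linarith

theorem JT_bound {F : ℂ → ℂ} (hF : GoodL F) {a : ℕ → ℂ}
    (ha : ∀ n, ‖a n‖ ≤ ArithmeticFunction.vonMangoldt n)
    (hld : ∀ s : ℂ, 1 < s.re → 1 ≤ s.im → deriv F s / F s = - ∑' n : ℕ, a n * (n : ℂ) ^ (-s))
    (hline : Line F) {τ : ℝ}
    (hτ : τ ≠ 0) (h ε η : ℝ) (hε : 0 < ε) (hεh : ε < h) (hh1 : h ≤ 1) (hη : 0 < η) :
    ∃ K T0 : ℝ, 0 < K ∧ 10 ≤ T0 ∧ ∀ T : ℝ, T0 ≤ T → ∀ A B : ℝ, T + 1 ≤ A → B ≤ 2 * T - 1 →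
      T ^ h ≤ B - A → ∀ u : ℝ, 0 ≤ u → u ≤ (h - ε) * Real.log T →
      ‖JT F A B u τ‖ ≤ η * ((B - A) * (Real.log T) ^ 2 * Real.exp (-u ^ 2) + (B - A) * VV u) +
        K * ((B - A) * Real.log T * Real.exp (2 * u - u ^ 2 / 2) + (B - A)) := by
  obtain ⟨C, T1, hC, hT1, hEF⟩ := ef_sub2 hF ha hld
  obtain ⟨Co, T2, hCo, hT2, hout⟩ := outer_tau hF (le_refl (0 : ℝ))
  set η1 : ℝ := η / 16 with hη1
  have hη10 : 0 < η1 := by positivity
  obtain ⟨K1, T3, hK1, hT3, hM1⟩ := MM_tw ha hτ h ε η1 hε hεh hh1 hη10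
  obtain ⟨T4, hT4, hM2⟩ := MM_ms ha h ε hε hεh hh1
  have ev1 := ev_log_pow 1 Co h 3 one_pos hCo (by linarith)
  have ev2 := ev_log_pow 1 2 h 1 one_pos (by norm_num) (by linarith)
  obtain ⟨T5, hT5⟩ := (ev1.and ev2).exists_forall_of_atTop
  refine ⟨K1 + 4 * η1 + (1 + 1 / η1) * C ^ 2 + 1, max T1 (max T2 (max T3 (max T4 T5))),
    by positivity, hT1.trans (le_max_left _ _), fun T hT A B hA hB hAB u hu hu1 => ?_⟩
  have hTT1 : T1 ≤ T := (le_max_left _ _).trans hT
  have hTT2 : T2 ≤ T := ((le_max_left _ _).trans (le_max_right _ _)).trans hT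
  have hTT3 : T3 ≤ T := ((le_max_left _ _).trans ((le_max_right _ _).trans
    (le_max_right _ _))).trans hT
  have hTT4 : T4 ≤ T := ((le_max_left _ _).trans ((le_max_right _ _).trans
    ((le_max_right _ _).trans (le_max_right _ _)))).trans hT
  have hTT5 : T5 ≤ T := ((le_max_right _ _).trans ((le_max_right _ _).trans
    ((le_max_right _ _).trans (le_max_right _ _)))).trans hT
  obtain ⟨e1, e2⟩ := hT5 T hTT5
  have hT10 : 10 ≤ T := hT1.trans hTT1
  have hTpos : 0 < T := by linarith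
  set L := Real.log T with hL
  have hL0 : 0 ≤ L := Real.log_nonneg (by linarith)
  have huL : u ≤ L := by nlinarith
  set H : ℝ := B - A with hH
  have hTh : 0 < T ^ h := Real.rpow_pos_of_pos hTpos h
  have hH0 : 0 < H := hTh.trans_le hAB
  have hU : 1 ≤ A := by linarith
  have hab : A + L ≤ B - L := by
    rw [pow_one] at e2
    linarith
  have hV := VV_nonneg u
  have hint := AA_sq_int hF (U2 := B) hU u
  have hec : Continuous (fun t : ℝ => cexp (I * τ * t)) := by fun_prop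
  have hintC : Integrable (fun t : ℝ => ((‖AA F A B u t‖ ^ 2 : ℝ) : ℂ) * cexp (I * τ * t)) := by
    refine (hint.ofReal (𝕜 := ℂ)).mul_bdd (c := 1) hec.aestronglyMeasurable ?_
    exact Eventually.of_forall fun t => (tw_exp_norm τ t).le
  have hsplit : JT F A B u τ = (∫ t in (A + L)..(B - L), ((‖AA F A B u t‖ ^ 2 : ℝ) : ℂ) *
      cexp (I * τ * t)) +
      ∫ t in (Set.Icc (A + L) (B - L))ᶜ, ((‖AA F A B u t‖ ^ 2 : ℝ) : ℂ) * cexp (I * τ * t) := by
    unfold JT
    rw [← integral_add_compl measurableSet_Icc hintC, intervalIntegral.integral_of_le hab,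
      integral_Icc_eq_integral_Ioc]
  -- outer
  have houter : ‖∫ t in (Set.Icc (A + L) (B - L))ᶜ, ((‖AA F A B u t‖ ^ 2 : ℝ) : ℂ) *
      cexp (I * τ * t)‖ ≤ H := by
    refine (norm_integral_le_integral_norm _).trans ?_
    have h1 : ∀ t : ℝ, ‖((‖AA F A B u t‖ ^ 2 : ℝ) : ℂ) * cexp (I * τ * t)‖ =
        ‖AA F A B u t‖ ^ 2 := by
      intro t
      rw [norm_mul, tw_exp_norm, mul_one, Complex.norm_real, Real.norm_of_nonneg (by positivity)]
    simp_rw [h1]
    have h2 := hout T hTT2 A B (by linarith) (by linarith) (fun s hs _ => by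
      have := hline s hs.1 hs.2.1 (by linarith [hs.2.2.1]) hs.2.2.2.2
      rw [this]; norm_num) u hu huL
    refine h2.trans ?_
    rw [show (2 * 0 * u : ℝ) = 0 by ring, Real.exp_zero, mul_one]
    calc Co * L ^ 3 ≤ Co * (1 + L) ^ 3 := by gcongr; linarith
      _ ≤ 1 * T ^ h := e1
      _ ≤ H := by rw [one_mul]; exact hAB
  -- inner
  have hMc := MM_cont ha L u
  have hAc := AA_cont hF (U2 := B) hU u
  have hlen : B - L - (A + L) ≤ H := by rw [hH]; linarith
  have hm1 := hM1 T hTT3 (A + L) (B - L) H hab hAB hlen u hu hu1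
  have hm2 := hM2 T hTT4 (A + L) (B - L) H hab hAB hlen u hu hu1
  rw [← hL] at hm1 hm2
  have hpt : ∀ t ∈ Set.Icc (A + L) (B - L), |‖AA F A B u t‖ ^ 2 - ‖MM a L u t‖ ^ 2| ≤
      η1 * ‖MM a L u t‖ ^ 2 + (1 + 1 / η1) * C ^ 2 := by
    intro t ht
    exact sq_diff hη10 (hEF T hTT1 A B hA hB u t hu huL ht.1 ht.2)
  have hinner : ‖∫ t in (A + L)..(B - L), ((‖AA F A B u t‖ ^ 2 : ℝ) : ℂ) *
      cexp (I * τ * t)‖ ≤ (K1 * (H * L * Real.exp (2 * u - u ^ 2 / 2) + H) + η1 * H * VV u) +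
      (η1 * (2 * (H * L ^ 2 * Real.exp (-u ^ 2)) + 8 * (H * VV u) + 4 * H) +
        (1 + 1 / η1) * C ^ 2 * H) := by
    have h1 : ∫ t in (A + L)..(B - L), ((‖AA F A B u t‖ ^ 2 : ℝ) : ℂ) * cexp (I * τ * t) =
        (∫ t in (A + L)..(B - L), ((‖MM a L u t‖ ^ 2 : ℝ) : ℂ) * cexp (I * τ * t)) +
        ∫ t in (A + L)..(B - L), ((‖AA F A B u t‖ ^ 2 - ‖MM a L u t‖ ^ 2 : ℝ) : ℂ) *
          cexp (I * τ * t) := by
      rw [← intervalIntegral.integral_add]
      · refine intervalIntegral.integral_congr fun t _ => ?_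
        push_cast
        ring
      · exact ((Complex.continuous_ofReal.comp (hMc.norm.pow 2)).mul hec).intervalIntegrable _ _
      · exact ((Complex.continuous_ofReal.comp ((hAc.norm.pow 2).sub
          (hMc.norm.pow 2))).mul hec).intervalIntegrable _ _
    rw [h1]
    refine (norm_add_le _ _).trans (add_le_add hm1 ?_)
    refine (intervalIntegral.norm_integral_le_integral_norm hab).trans ?_
    calc ∫ t in (A + L)..(B - L), ‖((‖AA F A B u t‖ ^ 2 - ‖MM a L u t‖ ^ 2 : ℝ) : ℂ) *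
          cexp (I * τ * t)‖ ≤
        ∫ t in (A + L)..(B - L), (η1 * ‖MM a L u t‖ ^ 2 + (1 + 1 / η1) * C ^ 2) := by
          refine intervalIntegral.integral_mono_on hab ?_ ?_ fun t ht => ?_
          · exact ((Complex.continuous_ofReal.comp ((hAc.norm.pow 2).sub
              (hMc.norm.pow 2))).mul hec).norm.intervalIntegrable _ _
          · exact ((continuous_const.mul (hMc.norm.pow 2)).add
              continuous_const).intervalIntegrable _ _
          · rw [norm_mul, tw_exp_norm, mul_one, Complex.norm_real]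
            exact hpt t ht
      _ = η1 * (∫ t in (A + L)..(B - L), ‖MM a L u t‖ ^ 2) +
          (B - L - (A + L)) * ((1 + 1 / η1) * C ^ 2) := by
          rw [intervalIntegral.integral_add, intervalIntegral.integral_const,
            intervalIntegral.integral_const_mul, smul_eq_mul]
          · exact (continuous_const.mul (hMc.norm.pow 2)).intervalIntegrable _ _
          · exact continuous_const.intervalIntegrable _ _
      _ ≤ η1 * (2 * (H * L ^ 2 * Real.exp (-u ^ 2)) + 8 * (H * VV u) + 4 * H) +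
          H * ((1 + 1 / η1) * C ^ 2) := by gcongr
      _ = _ := by ring
  rw [hsplit]
  refine ((norm_add_le _ _).trans (add_le_add hinner houter)).trans ?_
  have m1 : 0 ≤ H * L ^ 2 * Real.exp (-u ^ 2) := by positivity
  have m2 : 0 ≤ H * VV u := by positivity
  have m3 : 0 ≤ H * L * Real.exp (2 * u - u ^ 2 / 2) := by positivity
  have m4 : 0 ≤ (4 * η1 + (1 + 1 / η1) * C ^ 2 + 1) *
    (H * L * Real.exp (2 * u - u ^ 2 / 2)) := by positivity
  have e3 : η = 16 * η1 := by rw [hη1]; ring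
  rw [e3]
  have m5 : 0 ≤ η1 * (H * L ^ 2 * Real.exp (-u ^ 2)) := by positivity
  have m6 : 0 ≤ η1 * (H * VV u) := by positivity
  nlinarith

end TH803TW
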