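import Pool.Agent.TH803.TW.Near

/-! The near pairs weighted with the von Mangoldt function. -/

open Finset

namespace TH803TW

open ArithmeticFunction

lemma vM_sqrt (n : ℕ) : vonMangoldt n ≤ 2 * Real.sqrt n := by
  rcases Nat.eq_zero_or_pos n with rfl | hn
  · simp
  · refine ArithmeticFunction.vonMangoldt_le_log.trans ?_
    have h := Real.log_le_rpow_div (x := (n : ℝ)) (by positivity) (ε := 1 / 2) (by norm_num)
    rw [← Real.sqrt_eq_rpow] at h
    linarith

lemma log_sq_le (x : ℝ) (hx : 1 ≤ x) : Real.log x ^ 2 ≤ 16 * Real.sqrt x := by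
  have h0 : 0 ≤ Real.log x := Real.log_nonneg hx
  have h := Real.log_le_rpow_div (x := x) (by linarith) (ε := 1 / 4) (by norm_num)
  have h1 : Real.log x ^ 2 ≤ (x ^ (1 / 4 : ℝ) / (1 / 4)) ^ 2 := by gcongr
  refine h1.trans (le_of_eq ?_)
  rw [div_pow, Real.sqrt_eq_rpow, ← Real.rpow_natCast, ← Real.rpow_mul (by linarith)]
  norm_num
  ring

/-- the weight of `k` on the line through `(b, a)` -/
noncomputable def lw (a b k : ℕ) : ℝ :=
  vonMangoldt (b * k) * vonMangoldt (a * k) / Real.sqrt ((b * k : ℕ) * (a * k : ℕ) : ℝ)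

lemma lw_nonneg (a b k : ℕ) : 0 ≤ lw a b k := by
  unfold lw; positivity

lemma lw_le_four (a b k : ℕ) : lw a b k ≤ 4 := by
  unfold lw
  rcases Nat.eq_zero_or_pos (b * k) with h | h
  · rw [h]; simp
  rcases Nat.eq_zero_or_pos (a * k) with h' | h'
  · rw [h']; simp
  have h0 : (0 : ℝ) < (b * k : ℕ) := by exact_mod_cast h
  have h0' : (0 : ℝ) < (a * k : ℕ) := by exact_mod_cast h'
  rw [div_le_iff₀ (Real.sqrt_pos.2 (by positivity)), Real.sqrt_mul h0.le]
  have h1 := vM_sqrt (b * k)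
  have h2 := vM_sqrt (a * k)
  calc vonMangoldt (b * k) * vonMangoldt (a * k) ≤
      (2 * Real.sqrt (b * k : ℕ)) * (2 * Real.sqrt (a * k : ℕ)) := by gcongr
    _ = _ := by ring

/-- on the line, for `k ≥ 2` only the powers of one prime contribute -/
lemma lw_pow {a b k : ℕ} (ha : 0 < a) (hb : 0 < b) (h1 : a * b ≠ 1)
    (hk : 2 ≤ k) (hne : lw a b k ≠ 0) :
    (∃ e : ℕ, 1 ≤ e ∧ k = (a * b).minFac ^ e) ∧ lw a b k ≤ 16 / k := by
  have hL1 : vonMangoldt (b * k) ≠ 0 := by
    intro h; apply hne; unfold lw; rw [h]; simp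
  have hL2 : vonMangoldt (a * k) ≠ 0 := by
    intro h; apply hne; unfold lw; rw [h]; simp
  rw [Ne, vonMangoldt_eq_zero_iff, not_not] at hL1 hL2
  set p := k.minFac with hp
  have hpp : p.Prime := Nat.minFac_prime (by omega)
  have hpk : p ∣ k := Nat.minFac_dvd k
  obtain ⟨p1, i, hp1, hi, hi'⟩ := (isPrimePow_nat_iff _).1 hL1
  obtain ⟨p2, j, hp2, hj, hj'⟩ := (isPrimePow_nat_iff _).1 hL2
  have e1 : p = p1 := by
    have h2 : p ∣ p1 ^ i := by rw [hi']; exact hpk.mul_left b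
    exact (Nat.prime_dvd_prime_iff_eq hpp hp1).1 (hpp.dvd_of_dvd_pow h2)
  have e2 : p = p2 := by
    have h2 : p ∣ p2 ^ j := by rw [hj']; exact hpk.mul_left a
    exact (Nat.prime_dvd_prime_iff_eq hpp hp2).1 (hpp.dvd_of_dvd_pow h2)
  rw [← e1] at hi'
  rw [← e2] at hj'
  -- k, a, b are powers of p
  obtain ⟨e, _, he⟩ := (Nat.dvd_prime_pow hpp).1 (show k ∣ p ^ i by rw [hi']; exact dvd_mul_left k b)
  obtain ⟨f, _, hf⟩ := (Nat.dvd_prime_pow hpp).1 (show b ∣ p ^ i by rw [hi']; exact dvd_mul_right b k)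
  obtain ⟨g, _, hg⟩ := (Nat.dvd_prime_pow hpp).1 (show a ∣ p ^ j by rw [hj']; exact dvd_mul_right a k)
  have he1 : 1 ≤ e := by
    by_contra hcon
    have : e = 0 := by omega
    rw [this, pow_zero] at he
    omega
  have hq : (a * b).minFac = p := by
    have h3 : a * b = p ^ (g + f) := by rw [hg, hf, pow_add]
    have h4 : g + f ≠ 0 := by
      intro h5
      rw [h5, pow_zero] at h3
      exact h1 h3
    rw [h3, hpp.pow_minFac h4]
  have hpab : p ≤ a * b := by
    rw [← hq]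
    exact Nat.minFac_le (Nat.mul_pos ha hb)
  refine ⟨⟨e, he1, by rw [hq]; exact he⟩, ?_⟩
  have hLp : ∀ s : ℕ, s ≠ 0 → vonMangoldt (p ^ s) = Real.log p := by
    intro s hs
    rw [vonMangoldt_apply_pow hs, vonMangoldt_apply_prime hpp]
  unfold lw
  rw [← hi', ← hj', hLp i (by omega), hLp j (by omega)]
  have hk0 : (0 : ℝ) < k := by exact_mod_cast (by omega : 0 < k)
  have hp0 : (1 : ℝ) ≤ p := by exact_mod_cast hpp.one_lt.le
  have h6 : ((p ^ i : ℕ) : ℝ) * ((p ^ j : ℕ) : ℝ) = (k : ℝ) ^ 2 * ((a * b : ℕ) : ℝ) := by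
    rw [hi', hj']; push_cast; ring
  rw [h6, Real.sqrt_mul (by positivity), Real.sqrt_sq hk0.le]
  have h7 : Real.sqrt p ≤ Real.sqrt ((a * b : ℕ) : ℝ) := Real.sqrt_le_sqrt (by exact_mod_cast hpab)
  have h8 : 0 < Real.sqrt p := Real.sqrt_pos.2 (by linarith)
  have h9 := log_sq_le p hp0
  rw [div_le_div_iff₀ (by positivity) hk0]
  calc Real.log p * Real.log p * k = Real.log p ^ 2 * k := by ring
    _ ≤ (16 * Real.sqrt p) * k := by gcongr
    _ ≤ (16 * Real.sqrt ((a * b : ℕ) : ℝ)) * k := by gcongr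
    _ = _ := by ring

lemma lw_sum {a b : ℕ} (ha : 0 < a) (hb : 0 < b) (h1 : a * b ≠ 1)
    (X : ℕ) : ∑ k ∈ Icc 1 X, lw a b k ≤ 20 := by
  classical
  have hq : (a * b).minFac.Prime := Nat.minFac_prime h1
  set q := (a * b).minFac with hqd
  have hsplit : ∑ k ∈ Icc 1 X, lw a b k ≤ lw a b 1 + ∑ k ∈ Icc 2 X, lw a b k := by
    have h2 : Icc 1 X ⊆ insert 1 (Icc 2 X) := by
      intro k hk
      rw [mem_Icc] at hk
      rw [mem_insert, mem_Icc]
      omega
    refine (sum_le_sum_of_subset_of_nonneg h2 fun _ _ _ => lw_nonneg _ _ _).trans ?_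
    rw [sum_insert (by simp)]
  have h3 : ∑ k ∈ Icc 2 X, lw a b k ≤ 16 := by
    have h4 : ∑ k ∈ Icc 2 X, lw a b k = ∑ k ∈ (Icc 2 X).filter (fun k => lw a b k ≠ 0),
        lw a b k := (sum_filter_ne_zero _).symm
    rw [h4]
    have h5 : (Icc 2 X).filter (fun k => lw a b k ≠ 0) ⊆ (Icc 1 X).image (fun e => q ^ e) := by
      intro k hk
      rw [mem_filter, mem_Icc] at hk
      obtain ⟨⟨e, he, hke⟩, -⟩ := lw_pow ha hb h1 hk.1.1 hk.2
      rw [mem_image]
      refine ⟨e, ?_, hke.symm⟩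
      rw [mem_Icc]
      refine ⟨he, ?_⟩
      have h9 : e < q ^ e := Nat.lt_pow_self hq.one_lt
      have h10 : k = q ^ e := hke
      rw [← h10] at h9
      exact h9.le.trans hk.1.2
    calc ∑ k ∈ (Icc 2 X).filter (fun k => lw a b k ≠ 0), lw a b k ≤
        ∑ k ∈ (Icc 2 X).filter (fun k => lw a b k ≠ 0), 16 / (k : ℝ) := by
          refine sum_le_sum fun k hk => ?_
          rw [mem_filter, mem_Icc] at hk
          exact (lw_pow ha hb h1 hk.1.1 hk.2).2
      _ ≤ ∑ k ∈ (Icc 1 X).image (fun e => q ^ e), 16 / (k : ℝ) :=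
          sum_le_sum_of_subset_of_nonneg h5 fun _ _ _ => by positivity
      _ = ∑ e ∈ Icc 1 X, 16 / ((q ^ e : ℕ) : ℝ) := by
          rw [sum_image]
          intro x _ y _ h
          exact Nat.pow_right_injective hq.two_le h
      _ ≤ ∑ e ∈ Icc 1 X, 16 * (1 / 2 : ℝ) ^ e := by
          refine sum_le_sum fun e _ => ?_
          rw [div_eq_mul_inv, one_div, inv_pow]
          have h6 : (2 : ℝ) ^ e ≤ ((q ^ e : ℕ) : ℝ) := by
            push_cast
            have : (2 : ℝ) ≤ q := by exact_mod_cast hq.two_le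
            gcongr
          gcongr
      _ ≤ 16 := by
          rw [← mul_sum]
          have h7 : ∑ e ∈ Icc 1 X, (1 / 2 : ℝ) ^ e ≤ 1 := by
            have h8 : ∀ n : ℕ, ∑ e ∈ Icc 1 n, (1 / 2 : ℝ) ^ e = 1 - (1 / 2) ^ n := by
              intro n
              induction n with
              | zero => simp
              | succ n ih =>
                rw [Finset.sum_Icc_succ_top (by omega), ih, pow_succ]
                ring
            rw [h8]
            have : (0 : ℝ) ≤ (1 / 2) ^ X := by positivity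
            linarith
          linarith
  have h4 := lw_le_four a b 1
  linarith

/-- the near pairs on the line -/
lemma on_sum {r δ : ℝ} {X : ℕ} {a b : ℕ} (ha : 0 < a) (hb : 0 < b) (hab : Nat.Coprime a b)
    (h1 : a * b ≠ 1) :
    ∑ p ∈ (near r δ X).filter (fun p => cdet a b p = 0),
      vonMangoldt p.1 * vonMangoldt p.2 / Real.sqrt ((p.1 : ℝ) * p.2) ≤ 20 := by
  classical
  set S := (near r δ X).filter (fun p => cdet a b p = 0) with hS
  have hkey : ∀ p ∈ S, ∃ k : ℕ, 1 ≤ k ∧ k ≤ X ∧ p.1 = b * k ∧ p.2 = a * k := by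
    intro p hp
    rw [hS, mem_filter, mem_near] at hp
    obtain ⟨⟨⟨h1, h2⟩, ⟨h3, h4⟩, h5⟩, h6⟩ := hp
    unfold cdet at h6
    have h7 : p.2 * b = p.1 * a := by
      have : (p.2 : ℤ) * b = (p.1 : ℤ) * a := by linarith
      exact_mod_cast this
    have h8 : b ∣ p.1 := by
      have : b ∣ p.1 * a := ⟨p.2, by rw [← h7]; ring⟩
      exact hab.symm.dvd_of_dvd_mul_right this
    obtain ⟨k, hk⟩ := h8
    refine ⟨k, ?_, ?_, hk, ?_⟩
    · by_contra hcon
      have : k = 0 := by omega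
      rw [this] at hk
      omega
    · have : k ≤ b * k := Nat.le_mul_of_pos_left k hb
      omega
    · rw [hk] at h7
      have h9 : p.2 * b = (a * k) * b := by rw [h7]; ring
      exact Nat.eq_of_mul_eq_mul_right hb h9
  choose! g hg1 hg2 hg3 hg4 using hkey
  have hinj : Set.InjOn g (S : Set (ℕ × ℕ)) := by
    intro p hp q hq h
    have hp' := mem_coe.1 hp
    have hq' := mem_coe.1 hq
    exact Prod.ext (by rw [hg3 p hp', hg3 q hq', h]) (by rw [hg4 p hp', hg4 q hq', h])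
  calc ∑ p ∈ S, vonMangoldt p.1 * vonMangoldt p.2 / Real.sqrt ((p.1 : ℝ) * p.2) =
      ∑ p ∈ S, lw a b (g p) := by
        refine sum_congr rfl fun p hp => ?_
        unfold lw
        rw [← hg3 p hp, ← hg4 p hp]
    _ = ∑ k ∈ S.image g, lw a b k := (sum_image hinj).symm
    _ ≤ ∑ k ∈ Icc 1 X, lw a b k := by
        refine sum_le_sum_of_subset_of_nonneg ?_ fun _ _ _ => lw_nonneg _ _ _
        intro k hk
        obtain ⟨p, hp, rfl⟩ := mem_image.1 hk
        rw [mem_Icc]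
        exact ⟨hg1 p hp, hg2 p hp⟩
    _ ≤ 20 := lw_sum ha hb h1 X

/-- **the near pairs** -/
theorem near_sum {r : ℝ} (hr : 0 < r) (hr1 : r ≠ 1) : ∃ C δ₀ : ℝ, 0 < C ∧ 0 < δ₀ ∧
    ∀ δ : ℝ, 0 < δ → δ ≤ δ₀ → ∀ X : ℕ,
      ∑ p ∈ near r δ X, vonMangoldt p.1 * vonMangoldt p.2 / Real.sqrt ((p.1 : ℝ) * p.2) ≤
        C * (1 + δ * (1 + Real.log X) ^ 3) := by
  classical
  have hr1' : 0 < |r - 1| := abs_pos.2 (sub_ne_zero.2 hr1)
  have hsr : 0 < Real.sqrt (r / 2) := Real.sqrt_pos.2 (by linarith)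
  refine ⟨20 + 16 / Real.sqrt (r / 2), min (1 / 4) (min (r / 4) (|r - 1| / 2)), by positivity,
    by positivity, fun δ hδ hδ0 X => ?_⟩
  have hδ1 : δ ≤ 1 / 4 := hδ0.trans (min_le_left _ _)
  have hδ2 : δ ≤ r / 4 := hδ0.trans ((min_le_right _ _).trans (min_le_left _ _))
  have hδ3 : δ ≤ |r - 1| / 2 := hδ0.trans ((min_le_right _ _).trans (min_le_right _ _))
  set N : ℕ := ⌊1 / (2 * δ)⌋₊ with hN
  have hN1 : (N : ℝ) ≤ 1 / (2 * δ) := Nat.floor_le (by positivity)
  have hN2 : 1 / (2 * δ) < N + 1 := Nat.lt_floor_add_one _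
  have hN0 : 0 < N := by
    rw [hN, Nat.floor_pos, le_div_iff₀ (by positivity)]
    linarith
  obtain ⟨q, hq1, hq2⟩ := Real.exists_rat_abs_sub_le_and_den_le r hN0
  have hden : (0 : ℝ) < q.den := by exact_mod_cast q.den_pos
  have hκ : |((q.den : ℤ) : ℝ) * r - q.num| < 2 * δ := by
    have e : ((q.den : ℤ) : ℝ) * r - q.num = q.den * (r - q) := by
      have : (q : ℝ) = q.num / q.den := by exact_mod_cast (Rat.num_div_den q).symm
      rw [this]; push_cast; field_simp
    rw [e, abs_mul, abs_of_pos hden]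
    calc (q.den : ℝ) * |r - q| ≤ q.den * (1 / ((N + 1) * q.den)) := by gcongr
      _ = 1 / (N + 1) := by field_simp
      _ < 2 * δ := by
        rw [div_lt_iff₀ (by positivity)]
        rw [div_lt_iff₀ (by positivity)] at hN2
        linarith
  have hbδ : (((q.den : ℤ) : ℝ)) * δ ≤ 1 / 2 := by
    have h1 : (q.den : ℝ) ≤ N := by exact_mod_cast hq2
    push_cast
    calc (q.den : ℝ) * δ ≤ (1 / (2 * δ)) * δ := by
          gcongr
          exact h1.trans hN1
      _ = 1 / 2 := by field_simp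
  have hd1 : (1 : ℝ) ≤ q.den := by exact_mod_cast q.den_pos
  have hnum : 0 < q.num := by
    have h1 := (abs_lt.1 hκ).2
    have h2 : (q.den : ℝ) * r ≥ r := by nlinarith
    have h3 : (0 : ℝ) < q.num := by
      push_cast at h1
      linarith
    exact_mod_cast h3
  obtain ⟨a, hanum⟩ := Int.eq_ofNat_of_zero_le hnum.le
  have ha0 : 0 < a := by
    have : (0 : ℤ) < a := by rw [← hanum]; exact hnum
    exact_mod_cast this
  have hcop : Nat.Coprime a q.den := by
    have := q.reduced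
    rw [hanum] at this
    simpa using this
  have hne : a * q.den ≠ 1 := by
    intro h
    have h1 : a = 1 := Nat.eq_one_of_mul_eq_one_right h
    have h2 : q.den = 1 := Nat.eq_one_of_mul_eq_one_left h
    rw [hanum, h1, h2] at hκ
    simp only [Nat.cast_one, Int.cast_one, one_mul] at hκ
    linarith
  have hcopZ : IsCoprime ((a : ℕ) : ℤ) ((q.den : ℕ) : ℤ) := Nat.isCoprime_iff_coprime.2 hcop
  rw [hanum] at hκ
  have hon := on_sum (r := r) (δ := δ) (X := X) ha0 q.den_pos hcop hne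
  have hoff := off_sum (X := X) (a := (a : ℤ)) (b := (q.den : ℤ)) hδ hδ1 (by exact_mod_cast q.den_pos)
    hcopZ hbδ hκ
  rcases Nat.eq_zero_or_pos X with hX | hX
  · have : near r δ X = ∅ := by
      ext p
      rw [mem_near, hX]
      simp only [notMem_empty, iff_false, not_and]
      omega
    rw [this]
    simp only [sum_empty]
    have : Real.log X = 0 := by rw [hX]; simp
    rw [this]
    positivity
  have hlog : 0 ≤ Real.log X := Real.log_natCast_nonneg X
  rw [← sum_filter_add_sum_filter_not (near r δ X)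
    (fun p => cdet (a : ℤ) (q.den : ℤ) p = 0)]
  have hoff2 : ∑ p ∈ (near r δ X).filter (fun p => ¬ cdet (a : ℤ) (q.den : ℤ) p = 0),
      vonMangoldt p.1 * vonMangoldt p.2 / Real.sqrt ((p.1 : ℝ) * p.2) ≤
      Real.log X ^ 2 / Real.sqrt (r / 2) * (16 * δ * (1 + Real.log X)) := by
    refine le_trans ?_ (mul_le_mul_of_nonneg_left hoff (by positivity))
    rw [mul_sum]
    refine sum_le_sum fun p hp => ?_
    rw [mem_filter, mem_near] at hp
    obtain ⟨⟨⟨h1, h2⟩, ⟨h3, h4⟩, h5⟩, h6⟩ := hp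
    have hp1 : (1 : ℝ) ≤ p.1 := by exact_mod_cast h1
    have hp2 : (1 : ℝ) ≤ p.2 := by exact_mod_cast h3
    have hL1 : vonMangoldt p.1 ≤ Real.log X := vonMangoldt_le_log.trans
      (Real.log_le_log (by linarith) (by exact_mod_cast h2))
    have hL2 : vonMangoldt p.2 ≤ Real.log X := vonMangoldt_le_log.trans
      (Real.log_le_log (by linarith) (by exact_mod_cast h4))
    have h7 : (p.1 : ℝ) * (r / 2) ≤ p.2 := by
      have := (abs_lt.1 h5).1
      nlinarith
    have h8 : (p.1 : ℝ) * Real.sqrt (r / 2) ≤ Real.sqrt ((p.1 : ℝ) * p.2) := by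
      have h9 : (p.1 : ℝ) * Real.sqrt (r / 2) = Real.sqrt ((p.1 : ℝ) * (p.1 * (r / 2))) := by
        rw [← mul_assoc, Real.sqrt_mul (by positivity), Real.sqrt_mul_self (by linarith)]
      rw [h9]
      apply Real.sqrt_le_sqrt
      gcongr
    have h10 : 0 < (p.1 : ℝ) * Real.sqrt (r / 2) := by positivity
    calc vonMangoldt p.1 * vonMangoldt p.2 / Real.sqrt ((p.1 : ℝ) * p.2) ≤
        Real.log X * Real.log X / ((p.1 : ℝ) * Real.sqrt (r / 2)) := by gcongr
      _ = _ := by field_simp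
  calc _ ≤ 20 + Real.log X ^ 2 / Real.sqrt (r / 2) * (16 * δ * (1 + Real.log X)) :=
        add_le_add hon hoff2
    _ = 20 + 16 / Real.sqrt (r / 2) * (δ * (Real.log X ^ 2 * (1 + Real.log X))) := by ring
    _ ≤ 20 + 16 / Real.sqrt (r / 2) * (δ * (1 + Real.log X) ^ 3) := by
        gcongr
        nlinarith [mul_nonneg hlog hlog]
    _ ≤ (20 + 16 / Real.sqrt (r / 2)) * (1 + δ * (1 + Real.log X) ^ 3) := by
        have h1 : 0 ≤ δ * (1 + Real.log X) ^ 3 := by positivity
        have h2 : 0 ≤ 16 / Real.sqrt (r / 2) := by positivity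
        nlinarith

end TH803TW
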