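import Mathlib

/-! Counting the pairs `(m, n)` of integers with `n` very close to `r m`. -/

open Finset

namespace TH803TW

/-- near pairs -/
noncomputable def near (r δ : ℝ) (X : ℕ) : Finset (ℕ × ℕ) := by
  classical
  exact (Icc 1 X ×ˢ Icc 1 X).filter fun p => |(p.2 : ℝ) - p.1 * r| < δ

lemma mem_near {r δ : ℝ} {X : ℕ} {p : ℕ × ℕ} : p ∈ near r δ X ↔
    (1 ≤ p.1 ∧ p.1 ≤ X) ∧ (1 ≤ p.2 ∧ p.2 ≤ X) ∧ |(p.2 : ℝ) - p.1 * r| < δ := by
  classical
  unfold near
  simp only [mem_filter, mem_product, mem_Icc]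
  tauto

/-- the invariant `n b - m a` -/
def cdet (a b : ℤ) (p : ℕ × ℕ) : ℤ := (p.2 : ℤ) * b - (p.1 : ℤ) * a

lemma cdet_eq (a b : ℤ) (r : ℝ) (p : ℕ × ℕ) :
    (cdet a b p : ℝ) = b * ((p.2 : ℝ) - p.1 * r) + p.1 * (b * r - a) := by
  unfold cdet; push_cast; ring

/-- for a fixed value `c ≠ 0` of the invariant the sum of `1 / m` is at most `8 δ / |c|` -/
lemma fiber_sum {r δ : ℝ} {X : ℕ} {a b : ℤ} (hδ : 0 < δ) (hb : 0 < b) (hab : IsCoprime a b)
    (hbδ : (b : ℝ) * δ ≤ 1 / 2) (hκ : |(b : ℝ) * r - a| < 2 * δ) (c : ℤ) (hc : c ≠ 0) :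
    ∑ p ∈ (near r δ X).filter (fun p => cdet a b p = c), 1 / (p.1 : ℝ) ≤ 8 * δ / |(c : ℝ)| := by
  classical
  set S := (near r δ X).filter (fun p => cdet a b p = c) with hS
  have hb0 : (0 : ℝ) < b := by exact_mod_cast hb
  have hc1 : (1 : ℝ) ≤ |(c : ℝ)| := by exact_mod_cast Int.one_le_abs hc
  rcases S.eq_empty_or_nonempty with he | hne
  · rw [he]; simp; positivity
  set κ : ℝ := |(b : ℝ) * r - a| with hκdef
  -- each m is large
  have hm : ∀ p ∈ S, |(c : ℝ)| / 2 < p.1 * κ ∧ |(p.1 : ℝ) * (b * r - a) - c| < b * δ := by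
    intro p hp
    rw [hS, mem_filter, mem_near] at hp
    obtain ⟨⟨⟨h1, h2⟩, ⟨h3, h4⟩, h5⟩, h6⟩ := hp
    have e := cdet_eq a b r p
    rw [h6] at e
    have e1 : (p.1 : ℝ) * (b * r - a) - c = -(b * ((p.2 : ℝ) - p.1 * r)) := by rw [e]; ring
    have e2 : |(p.1 : ℝ) * (b * r - a) - c| < b * δ := by
      rw [e1, abs_neg, abs_mul, abs_of_pos hb0]
      exact mul_lt_mul_of_pos_left h5 hb0
    refine ⟨?_, e2⟩
    have e3 : |(c : ℝ)| - |(p.1 : ℝ) * (b * r - a)| ≤ |(p.1 : ℝ) * (b * r - a) - c| := by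
      rw [abs_sub_comm]; exact abs_sub_abs_le_abs_sub _ _
    rw [abs_mul, abs_of_nonneg (Nat.cast_nonneg p.1 : (0 : ℝ) ≤ p.1)] at e3
    linarith
  obtain ⟨p1, hp1⟩ := hne
  have hκ0 : 0 < κ := by
    have h1 := (hm p1 hp1).1
    by_contra hcon
    push Not at hcon
    have h2 : (p1.1 : ℝ) * κ ≤ 0 := mul_nonpos_of_nonneg_of_nonpos (Nat.cast_nonneg _) hcon
    linarith
  -- the element with the smallest first coordinate
  obtain ⟨p0, hp0, hmin⟩ := S.exists_min_image (fun p => p.1) ⟨p1, hp1⟩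
  -- injective map to range
  have hcard : (S.card : ℝ) ≤ 2 * δ / κ + 1 := by
    have hkey : ∀ p ∈ S, ∃ j : ℕ, (p.1 : ℤ) = p0.1 + b * j ∧ (j : ℝ) < 2 * δ / κ := by
      intro p hp
      have hc1 : cdet a b p = c := (mem_filter.1 hp).2
      have hc2 : cdet a b p0 = c := (mem_filter.1 hp0).2
      have hdiv : b ∣ (p.1 : ℤ) - p0.1 := by
        have h1 : ((p.2 : ℤ) - p0.2) * b = ((p.1 : ℤ) - p0.1) * a := by
          unfold cdet at hc1 hc2
          linarith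
        have h2 : b ∣ ((p.1 : ℤ) - p0.1) * a := ⟨(p.2 : ℤ) - p0.2, by rw [← h1]; ring⟩
        exact hab.symm.dvd_of_dvd_mul_right h2
      obtain ⟨j, hj⟩ := hdiv
      have hle : (p0.1 : ℤ) ≤ p.1 := by exact_mod_cast hmin p hp
      have hj0 : 0 ≤ j := by
        by_contra hcon
        push Not at hcon
        have : b * j < 0 := mul_neg_of_pos_of_neg hb hcon
        linarith
      obtain ⟨k, rfl⟩ := Int.eq_ofNat_of_zero_le hj0
      refine ⟨k, by linarith, ?_⟩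
      have h3 := (hm p hp).2
      have h4 := (hm p0 hp0).2
      have h5 : |((p.1 : ℝ) - p0.1) * (b * r - a)| < 2 * (b * δ) := by
        have e : ((p.1 : ℝ) - p0.1) * (b * r - a) = ((p.1 : ℝ) * (b * r - a) - c) -
            ((p0.1 : ℝ) * (b * r - a) - c) := by ring
        rw [e]
        refine (abs_sub _ _).trans_lt ?_
        linarith
      have h6 : (p.1 : ℝ) - p0.1 = b * k := by
        have : ((p.1 : ℤ) : ℝ) - ((p0.1 : ℤ) : ℝ) = ((b * k : ℤ) : ℝ) := by exact_mod_cast hj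
        push_cast at this
        exact this
      rw [h6, abs_mul, abs_of_nonneg (by positivity)] at h5
      rw [lt_div_iff₀ hκ0]
      have h7 : (b : ℝ) * (k * κ) < b * (2 * δ) := by
        calc (b : ℝ) * (k * κ) = b * k * κ := by ring
          _ < 2 * (b * δ) := h5
          _ = b * (2 * δ) := by ring
      exact lt_of_mul_lt_mul_left h7 hb0.le
    choose! g hg1 hg2 using hkey
    have hinj : Set.InjOn g (S : Set (ℕ × ℕ)) := by
      intro p hp q hq hpq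
      have hp' := mem_coe.1 hp
      have hq' := mem_coe.1 hq
      have h1 : (p.1 : ℤ) = q.1 := by rw [hg1 p hp', hg1 q hq', hpq]
      have h2 : cdet a b p = cdet a b q := by
        rw [(mem_filter.1 hp').2, (mem_filter.1 hq').2]
      unfold cdet at h2
      rw [h1] at h2
      have h3 : (p.2 : ℤ) * b = q.2 * b := by linarith
      have h4 : (p.2 : ℤ) = q.2 := mul_right_cancel₀ hb.ne' h3
      exact Prod.ext (by exact_mod_cast h1) (by exact_mod_cast h4)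
    have hsub : S.image g ⊆ range ⌈2 * δ / κ⌉₊ := by
      intro j hj
      obtain ⟨p, hp, rfl⟩ := mem_image.1 hj
      rw [mem_range]
      exact Nat.lt_ceil.2 (hg2 p hp)
    have h8 := card_le_card hsub
    rw [card_image_of_injOn hinj, card_range] at h8
    have h9 : (⌈2 * δ / κ⌉₊ : ℝ) < 2 * δ / κ + 1 := Nat.ceil_lt_add_one (by positivity)
    have h10 : (S.card : ℝ) ≤ (⌈2 * δ / κ⌉₊ : ℝ) := by exact_mod_cast h8
    linarith
  -- bound of each term
  have hterm : ∀ p ∈ S, 1 / (p.1 : ℝ) ≤ 2 * κ / |(c : ℝ)| := by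
    intro p hp
    have h1 := (hm p hp).1
    have h2 : (0 : ℝ) < p.1 := by
      have := (mem_near.1 (mem_filter.1 hp).1).1.1
      exact_mod_cast this
    rw [div_le_div_iff₀ h2 (by linarith)]
    linarith
  calc ∑ p ∈ S, 1 / (p.1 : ℝ) ≤ ∑ p ∈ S, 2 * κ / |(c : ℝ)| := sum_le_sum hterm
    _ = S.card * (2 * κ / |(c : ℝ)|) := by rw [sum_const, nsmul_eq_mul]
    _ ≤ (2 * δ / κ + 1) * (2 * κ / |(c : ℝ)|) := by gcongr
    _ = (4 * δ + 2 * κ) / |(c : ℝ)| := by field_simp; ring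
    _ ≤ 8 * δ / |(c : ℝ)| := by
        gcongr
        linarith

lemma harm (X : ℕ) : ∑ k ∈ Icc 1 X, 1 / (k : ℝ) ≤ 1 + Real.log X := by
  have h := harmonic_le_one_add_log X
  rw [harmonic_eq_sum_Icc] at h
  push_cast at h
  simpa [one_div] using h

/-- the pairs not on the line -/
lemma off_sum {r δ : ℝ} {X : ℕ} {a b : ℤ} (hδ : 0 < δ) (hδ1 : δ ≤ 1 / 4) (hb : 0 < b)
    (hab : IsCoprime a b)
    (hbδ : (b : ℝ) * δ ≤ 1 / 2) (hκ : |(b : ℝ) * r - a| < 2 * δ) :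
    ∑ p ∈ (near r δ X).filter (fun p => cdet a b p ≠ 0), 1 / (p.1 : ℝ) ≤
      16 * δ * (1 + Real.log X) := by
  classical
  set N := (near r δ X).filter (fun p => cdet a b p ≠ 0) with hN
  have hb0 : (0 : ℝ) < b := by exact_mod_cast hb
  -- the values of the invariant
  have hval : ∀ p ∈ N, cdet a b p ∈ (Icc (-(X : ℤ)) X).erase 0 := by
    intro p hp
    rw [hN, mem_filter, mem_near] at hp
    obtain ⟨⟨⟨h1, h2⟩, ⟨h3, h4⟩, h5⟩, h6⟩ := hp
    rw [mem_erase, mem_Icc]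
    refine ⟨h6, ?_⟩
    have e := cdet_eq a b r p
    have hX1 : (1 : ℝ) ≤ X := by exact_mod_cast h1.trans h2
    have hp1 : (p.1 : ℝ) ≤ X := by exact_mod_cast h2
    have e1 : |(cdet a b p : ℝ)| ≤ 1 / 2 + X * (1 / 2) := by
      rw [e]
      refine (abs_add_le _ _).trans ?_
      rw [abs_mul, abs_mul, abs_of_pos hb0, abs_of_nonneg (Nat.cast_nonneg p.1 : (0 : ℝ) ≤ p.1)]
      have e2 : (b : ℝ) * |(p.2 : ℝ) - p.1 * r| ≤ 1 / 2 :=
        (mul_le_mul_of_nonneg_left h5.le hb0.le).trans hbδ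
      have e3 : (p.1 : ℝ) * |(b : ℝ) * r - a| ≤ X * (1 / 2) := by
        apply mul_le_mul hp1 (by linarith) (abs_nonneg _) (by linarith)
      linarith
    have e4 : |(cdet a b p : ℝ)| ≤ X := by linarith
    rw [abs_le] at e4
    constructor
    · exact_mod_cast e4.1
    · exact_mod_cast e4.2
  have hfib : ∑ p ∈ N, 1 / (p.1 : ℝ) = ∑ c ∈ (Icc (-(X : ℤ)) X).erase 0,
      ∑ p ∈ N.filter (fun p => cdet a b p = c), 1 / (p.1 : ℝ) :=
    (sum_fiberwise_of_maps_to hval _).symm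
  rw [hfib]
  have h1 : ∀ c ∈ (Icc (-(X : ℤ)) X).erase 0,
      ∑ p ∈ N.filter (fun p => cdet a b p = c), 1 / (p.1 : ℝ) ≤ 8 * δ * (1 / |(c : ℝ)|) := by
    intro c hc
    have hc0 : c ≠ 0 := (mem_erase.1 hc).1
    have h2 := fiber_sum (X := X) hδ hb hab hbδ hκ c hc0
    have h3 : N.filter (fun p => cdet a b p = c) =
        (near r δ X).filter (fun p => cdet a b p = c) := by
      ext p
      simp only [hN, mem_filter]
      constructor
      · rintro ⟨⟨h1, _⟩, h3⟩; exact ⟨h1, h3⟩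
      · rintro ⟨h1, h3⟩; exact ⟨⟨h1, by rw [h3]; exact hc0⟩, h3⟩
    rw [h3]
    refine h2.trans (le_of_eq ?_)
    ring
  refine (sum_le_sum h1).trans ?_
  rw [← mul_sum]
  have h2 : ∑ c ∈ (Icc (-(X : ℤ)) X).erase 0, 1 / |(c : ℝ)| ≤ 2 * ∑ k ∈ Icc 1 X, 1 / (k : ℝ) := by
    have h3 : (Icc (-(X : ℤ)) X).erase 0 ⊆
        (Icc 1 X).image (fun k : ℕ => (k : ℤ)) ∪ (Icc 1 X).image (fun k : ℕ => -(k : ℤ)) := by
      intro c hc
      rw [mem_erase, mem_Icc] at hc
      rw [mem_union, mem_image, mem_image]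
      rcases lt_or_gt_of_ne hc.1 with h | h
      · right
        refine ⟨c.natAbs, ?_, ?_⟩
        · rw [mem_Icc]; omega
        · omega
      · left
        refine ⟨c.natAbs, ?_, ?_⟩
        · rw [mem_Icc]; omega
        · omega
    refine (sum_le_sum_of_subset_of_nonneg h3 fun _ _ _ => by positivity).trans ?_
    have h4 := sum_union_inter (s₁ := (Icc 1 X).image (fun k : ℕ => (k : ℤ)))
      (s₂ := (Icc 1 X).image (fun k : ℕ => -(k : ℤ))) (f := fun c : ℤ => 1 / |(c : ℝ)|)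
    have h5 : 0 ≤ ∑ c ∈ (Icc 1 X).image (fun k : ℕ => (k : ℤ)) ∩
        (Icc 1 X).image (fun k : ℕ => -(k : ℤ)), 1 / |(c : ℝ)| :=
      sum_nonneg fun _ _ => by positivity
    have h6 : ∑ c ∈ (Icc 1 X).image (fun k : ℕ => (k : ℤ)), 1 / |(c : ℝ)| =
        ∑ k ∈ Icc 1 X, 1 / (k : ℝ) := by
      rw [sum_image (by intro x _ y _ h; simpa using h)]
      refine sum_congr rfl fun k _ => ?_
      simp
    have h7 : ∑ c ∈ (Icc 1 X).image (fun k : ℕ => -(k : ℤ)), 1 / |(c : ℝ)| =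
        ∑ k ∈ Icc 1 X, 1 / (k : ℝ) := by
      rw [sum_image (by intro x _ y _ h; simpa using h)]
      refine sum_congr rfl fun k _ => ?_
      simp
    rw [h6, h7] at h4
    linarith
  have h3 := harm X
  calc 8 * δ * ∑ c ∈ (Icc (-(X : ℤ)) X).erase 0, 1 / |(c : ℝ)| ≤
      8 * δ * (2 * (1 + Real.log X)) := by
        apply mul_le_mul_of_nonneg_left (h2.trans (by linarith)) (by positivity)
    _ = _ := by ring

end TH803TW
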