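import Pool.Agent.TH803.TW.Ker

/-! Pair sums against almost periodic weights, no damping. -/

open Complex Filter Topology Set MeasureTheory
open scoped BigOperators ComplexConjugate

namespace TH803TW

open H370 H370.A2 H370.AS H295SI

lemma exp_cmp (u : ℝ) : |Real.exp (-u ^ 2 / 4) - 1| ≤ Real.sqrt |u| := by
  refine le_trans ?_ (min_sqrt (abs_nonneg u))
  have h7 : Real.exp (-u ^ 2 / 4) ≤ 1 := by
    rw [Real.exp_le_one_iff]; nlinarith [sq_nonneg u]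
  have h8 := Real.exp_pos (-u ^ 2 / 4)
  have h9 := Real.add_one_le_exp (-u ^ 2 / 4)
  rw [abs_sub_comm, abs_of_nonneg (by linarith)]
  refine le_min (by linarith) ?_
  rcases le_or_gt |u| 1 with h | h
  · have : u ^ 2 ≤ |u| := by
      rw [← sq_abs]; nlinarith [abs_nonneg u]
    linarith [abs_nonneg u]
  · linarith

section

variable {F : ℂ → ℂ} {ψ : ℝ → ℝ} {Λ A B : ℝ}

lemma PU_sub (w w' : ℝ → ℝ) : PU ψ F Λ A B w - PU ψ F Λ A B w' =
    ∑ s ∈ Zf F A B, ∑ s' ∈ Zf F A B, (mult F s : ℝ) * (mult F s' : ℝ) *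
      (rk ψ (Λ * (s.im - s'.im)) * (fun s _ : ℂ => w s.im - w' s.im) s s') := by
  unfold PU
  rw [← Finset.sum_sub_distrib]
  refine Finset.sum_congr rfl fun s _ => ?_
  rw [← Finset.sum_sub_distrib]
  refine Finset.sum_congr rfl fun s' _ => ?_
  ring

lemma PG_sub_PU (w : ℝ → ℝ) : PG ψ F Λ A B w - PU ψ F Λ A B w =
    ∑ s ∈ Zf F A B, ∑ s' ∈ Zf F A B, (mult F s : ℝ) * (mult F s' : ℝ) *
      (rk ψ (Λ * (s.im - s'.im)) * (fun s s' : ℂ => Real.exp (-(s.im - s'.im) ^ 2 / 4) *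
        w ((s.im + s'.im) / 2) - w s.im) s s') := by
  unfold PG PU
  rw [← Finset.sum_sub_distrib]
  refine Finset.sum_congr rfl fun s _ => ?_
  rw [← Finset.sum_sub_distrib]
  refine Finset.sum_congr rfl fun s' _ => ?_
  ring

end

/-- **pair sums in Bohr sets** -/
theorem pairW {F : ℂ → ℂ} (hF : GoodL F) (hline : Line F) {ψ : ℝ → ℝ} (hψ : Continuous ψ)
    (hψe : ∀ α, ψ (-α) = ψ α) {K : ℝ} (hdec : ∀ x, |rk ψ x| ≤ K / (1 + x ^ 2)) {φ : ℝ → ℝ} {M : ℝ}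
    (hφ : APm φ M) (h ε lam η : ℝ) (hε : 0 < ε) (hεh : ε < h) (hh1 : h ≤ 1) (hlam : 0 < lam)
    (hlam1 : lam ≤ 1) (hη : 0 < η) :
    ∃ T0 : ℝ, 10 ≤ T0 ∧ ∀ T : ℝ, T0 ≤ T → ∀ A B : ℝ, T + 1 ≤ A → B ≤ 2 * T - 1 →
      T ^ h ≤ B - A → ∀ Λ : ℝ, lam * Real.log T ≤ Λ → Λ ≤ (h - ε) * Real.log T →
      |PU ψ F Λ A B φ - M * PU ψ F Λ A B (fun _ => 1)| ≤ η * ((B - A) * Real.log T) ∧
      |PG ψ F Λ A B (fun _ => 1) - PU ψ F Λ A B (fun _ => 1)| ≤ η * ((B - A) * Real.log T) := by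
  have hK : 0 ≤ K := by
    have := (abs_nonneg _).trans (hdec 0)
    simpa using this
  obtain ⟨a, ha, hld⟩ := hF.ld
  obtain ⟨Cp, T1, hCp, hT1, hP⟩ := P_bound hF hline h (hε.trans hεh) hh1
  set K' : ℝ := 80 * K / lam ^ 2 with hK'
  have hK'0 : 0 ≤ K' := by positivity
  set ε1 : ℝ := η / (8 * (K' * Cp + 1)) with hε1
  have hε10 : 0 < ε1 := by positivity
  have hε1K : ε1 * (K' * Cp) ≤ η / 8 := by
    rw [hε1, div_mul_eq_mul_div, div_le_iff₀ (by positivity)]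
    have : 0 ≤ K' * Cp := by positivity
    nlinarith
  obtain ⟨S, c, h0, h1, h2⟩ := hφ ε1 hε10
  obtain ⟨T2, hT2, hc⟩ := coreK hF hline hψ hψe ha hld h0 c h ε lam (η / 8) hε hεh hh1 hlam
    (by positivity)
  set W0 : ℝ := 3 * (∑ τ ∈ S, ‖c τ‖) + ∑ τ ∈ S, ‖c τ‖ * |τ| with hW0
  have hW00 : 0 ≤ W0 := by
    have h3 : 0 ≤ ∑ τ ∈ S, ‖c τ‖ := Finset.sum_nonneg fun _ _ => norm_nonneg _
    have h4 : 0 ≤ ∑ τ ∈ S, ‖c τ‖ * |τ| := Finset.sum_nonneg fun _ _ => by positivity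
    positivity
  set W1 : ℝ := W0 + |(c 0).re| + 1 with hW1
  have hW10 : 0 < W1 := by positivity
  have ev : ∀ᶠ T : ℝ in atTop, (8 * W1 * (K' * Cp) / η + 1) ^ 2 ≤ Real.log T :=
    Real.tendsto_log_atTop.eventually_ge_atTop _
  obtain ⟨T3, hT3⟩ := ev.exists_forall_of_atTop
  refine ⟨max (max 10 T1) (max T2 T3), (le_max_left _ _).trans (le_max_left _ _),
    fun T hT A B hA hB hAB Λ hΛ1 hΛ2 => ?_⟩
  have hT10 : 10 ≤ T := ((le_max_left _ _).trans (le_max_left _ _)).trans hT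
  have hTT1 : T1 ≤ T := ((le_max_right _ _).trans (le_max_left _ _)).trans hT
  have hTT2 : T2 ≤ T := ((le_max_left _ _).trans (le_max_right _ _)).trans hT
  have hlog := hT3 T (((le_max_right _ _).trans (le_max_right _ _)).trans hT)
  have hpos : 0 < T := by linarith
  set L := Real.log T with hL
  have hL0 : 0 < L := Real.log_pos (by linarith)
  have hH0 : 0 < B - A := (Real.rpow_pos_of_pos hpos h).trans_le hAB
  have hPP := hP T hTT1 A B hA hB hAB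
  have hPc0 := Pc_nonneg F A B L
  set Y := (B - A) * L with hY
  have hY0 : 0 < Y := by positivity
  have hsL0 : 0 < Real.sqrt L := Real.sqrt_pos.2 hL0
  have hsL : 8 * W1 * (K' * Cp) / η ≤ Real.sqrt L := by
    have : 8 * W1 * (K' * Cp) / η + 1 ≤ Real.sqrt L :=
      Real.le_sqrt_of_sq_le hlog
    linarith
  -- basic bounds
  have hKP : K' * Pc F A B L ≤ K' * Cp * Y := by
    calc K' * Pc F A B L ≤ K' * (Cp * Y) := by gcongr
      _ = _ := by ring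
  have b1 : ∀ (w : ℂ → ℂ → ℝ), (∀ s s', |w s s'| ≤ ε1) →
      |∑ s ∈ Zf F A B, ∑ s' ∈ Zf F A B, (mult F s : ℝ) * (mult F s' : ℝ) *
      (rk ψ (Λ * (s.im - s'.im)) * w s s')| ≤ η / 8 * Y := by
    intro w hw
    refine (abs_pair hdec hlam hlam1 hL0 hΛ1 w hw).trans ?_
    calc ε1 * K' * Pc F A B L = ε1 * (K' * Pc F A B L) := by ring
      _ ≤ ε1 * (K' * Cp * Y) := by gcongr
      _ = (ε1 * (K' * Cp)) * Y := by ring
      _ ≤ η / 8 * Y := by gcongr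
  have b2 : ∀ (w : ℂ → ℂ → ℝ), (∀ s s', |w s s'| ≤ W1 * Real.sqrt |s.im - s'.im|) →
      |∑ s ∈ Zf F A B, ∑ s' ∈ Zf F A B, (mult F s : ℝ) * (mult F s' : ℝ) *
      (rk ψ (Λ * (s.im - s'.im)) * w s s')| ≤ η / 8 * Y := by
    intro w hw
    refine (small_pair hdec hlam hlam1 hL0 hΛ1 w hw hW10.le).trans ?_
    calc W1 * K' / Real.sqrt L * Pc F A B L = W1 / Real.sqrt L * (K' * Pc F A B L) := by ring
      _ ≤ W1 / Real.sqrt L * (K' * Cp * Y) := by gcongr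
      _ = (W1 * (K' * Cp) / Real.sqrt L) * Y := by ring
      _ ≤ η / 8 * Y := by
          refine mul_le_mul_of_nonneg_right ?_ hY0.le
          rw [div_le_iff₀ hsL0]
          rw [div_le_iff₀ hη] at hsL
          linarith
  -- the five steps
  have s1 : |PU ψ F Λ A B φ - PU ψ F Λ A B (tp S c)| ≤ η / 8 * Y := by
    rw [PU_sub]
    exact b1 _ fun s _ => h1 s.im
  have s2 : |PG ψ F Λ A B (tp S c) - PU ψ F Λ A B (tp S c)| ≤ η / 8 * Y := by
    rw [PG_sub_PU]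
    refine b2 _ fun s s' => (weight_cmp S c s.im s'.im).trans ?_
    apply mul_le_mul_of_nonneg_right _ (Real.sqrt_nonneg _)
    rw [hW1]
    have := abs_nonneg (c 0).re
    linarith
  have s3 := hc T hTT2 A B hA hB hAB Λ hΛ1 hΛ2
  have s4 : |(c 0).re * (PG ψ F Λ A B (fun _ => 1) - PU ψ F Λ A B (fun _ => 1))| ≤ η / 8 * Y := by
    rw [PG_sub_PU, Finset.mul_sum]
    have e1 : ∑ s ∈ Zf F A B, (c 0).re * ∑ s' ∈ Zf F A B, (mult F s : ℝ) * (mult F s' : ℝ) *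
        (rk ψ (Λ * (s.im - s'.im)) * (fun s s' : ℂ => Real.exp (-(s.im - s'.im) ^ 2 / 4) *
          (fun _ : ℝ => (1 : ℝ)) ((s.im + s'.im) / 2) - (fun _ : ℝ => (1 : ℝ)) s.im) s s') =
        ∑ s ∈ Zf F A B, ∑ s' ∈ Zf F A B, (mult F s : ℝ) * (mult F s' : ℝ) *
        (rk ψ (Λ * (s.im - s'.im)) * (fun s s' : ℂ => (c 0).re *
          (Real.exp (-(s.im - s'.im) ^ 2 / 4) - 1)) s s') := by
      refine Finset.sum_congr rfl fun s _ => ?_
      rw [Finset.mul_sum]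
      refine Finset.sum_congr rfl fun s' _ => ?_
      ring
    rw [e1]
    refine b2 _ fun s s' => ?_
    show |(c 0).re * (Real.exp (-(s.im - s'.im) ^ 2 / 4) - 1)| ≤ W1 * Real.sqrt |s.im - s'.im|
    rw [abs_mul]
    have h3 := exp_cmp (s.im - s'.im)
    have h4 : |(c 0).re| ≤ W1 := by rw [hW1]; linarith
    gcongr
  have s4' : |PG ψ F Λ A B (fun _ => 1) - PU ψ F Λ A B (fun _ => 1)| ≤ η / 8 * Y := by
    rw [PG_sub_PU]
    refine b2 _ fun s s' => ?_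
    show |Real.exp (-(s.im - s'.im) ^ 2 / 4) * 1 - 1| ≤ W1 * Real.sqrt |s.im - s'.im|
    rw [mul_one]
    have h3 := exp_cmp (s.im - s'.im)
    have h4 : 1 ≤ W1 := by
      rw [hW1]
      have := abs_nonneg (c 0).re
      linarith
    have h5 := Real.sqrt_nonneg |s.im - s'.im|
    nlinarith
  have s5 : |(c 0).re * PU ψ F Λ A B (fun _ => 1) - M * PU ψ F Λ A B (fun _ => 1)| ≤
      η / 8 * Y := by
    rw [← sub_mul]
    unfold PU
    rw [Finset.mul_sum]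
    have e1 : ∑ s ∈ Zf F A B, ((c 0).re - M) * ∑ s' ∈ Zf F A B, (mult F s : ℝ) *
        (mult F s' : ℝ) * (rk ψ (Λ * (s.im - s'.im)) * 1) =
        ∑ s ∈ Zf F A B, ∑ s' ∈ Zf F A B, (mult F s : ℝ) * (mult F s' : ℝ) *
        (rk ψ (Λ * (s.im - s'.im)) * (fun _ _ : ℂ => ((c 0).re - M)) s s') := by
      refine Finset.sum_congr rfl fun s _ => ?_
      rw [Finset.mul_sum]
      refine Finset.sum_congr rfl fun s' _ => ?_
      ring
    rw [e1]
    exact b1 _ fun _ _ => h2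
  constructor
  · obtain ⟨x1, x2⟩ := abs_le.1 s1
    obtain ⟨x3, x4⟩ := abs_le.1 s2
    obtain ⟨x5, x6⟩ := abs_le.1 s3
    rw [mul_sub] at s4
    obtain ⟨x7, x8⟩ := abs_le.1 s4
    obtain ⟨x9, x10⟩ := abs_le.1 s5
    have hηY : 0 < η * Y := by positivity
    rw [abs_le]
    constructor
    · linarith only [x1, x3, x4, x5, x7, x8, x9, hηY]
    · linarith only [x2, x3, x4, x6, x7, x8, x10, hηY]
  · refine s4'.trans ?_
    have hηY : 0 < η * Y := by positivity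
    linarith only [hηY]

end TH803TW
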