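import Pool.Agent.TH803.TW.Prime

/-! The twisted mean square of the prime side, with the choice of parameters. -/

open Complex Filter Topology Set MeasureTheory
open scoped BigOperators ComplexConjugate ArithmeticFunction

namespace TH803TW

open H370

lemma ev_log_pow (c d e : ℝ) (k : ℕ) (hc : 0 < c) (hd : 0 < d) (he : 0 < e) :
    ∀ᶠ T : ℝ in atTop, d * (1 + Real.log T) ^ k ≤ c * T ^ e := by
  rcases Nat.eq_zero_or_pos k with rfl | hk
  · filter_upwards [(tendsto_rpow_atTop he).eventually_ge_atTop (d / c)] with T hT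
    rw [div_le_iff₀ hc] at hT
    simp only [pow_zero, mul_one]
    linarith
  have h1 : (fun T : ℝ => 1 + Real.log T) =o[atTop] fun T : ℝ => T ^ (e / k) := by
    have h2 : (fun _ : ℝ => (1 : ℝ)) =o[atTop] fun T : ℝ => T ^ (e / k) := by
      rw [Asymptotics.isLittleO_const_left]
      right
      exact tendsto_norm_atTop_atTop.comp (tendsto_rpow_atTop (by positivity))
    exact h2.add (isLittleO_log_rpow_atTop (by positivity))
  have h3 := (h1.pow hk).bound (show 0 < c / d by positivity)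
  filter_upwards [h3, eventually_ge_atTop 1] with T hT hT1
  have hT0 : (0 : ℝ) < T := by linarith
  have hl : 0 ≤ Real.log T := Real.log_nonneg hT1
  have e1 : (T ^ (e / k)) ^ k = T ^ e := by
    rw [← Real.rpow_natCast, ← Real.rpow_mul hT0.le]
    congr 1
    have : (k : ℝ) ≠ 0 := by positivity
    field_simp
  rw [Real.norm_of_nonneg (by positivity), Real.norm_of_nonneg (by positivity), e1] at hT
  calc d * (1 + Real.log T) ^ k ≤ d * (c / d * T ^ e) := by gcongr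
    _ = _ := by field_simp

lemma ev_exp (K c b : ℝ) (hb : 0 < b) :
    ∀ᶠ T : ℝ in atTop, K * Real.exp (c * Real.log T - b * (Real.log T) ^ 2) ≤ 1 := by
  have h1 : ∀ᶠ L : ℝ in atTop, |K| + (c * L - b * L ^ 2) ≤ 0 := by
    filter_upwards [eventually_ge_atTop ((|c| + 1) / b), eventually_ge_atTop |K|,
      eventually_ge_atTop 0] with L h1 h2 h3
    rw [div_le_iff₀ hb] at h1
    have h4 : c * L ≤ |c| * L := mul_le_mul_of_nonneg_right (le_abs_self c) h3
    nlinarith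
  filter_upwards [Real.tendsto_log_atTop.eventually h1] with T hT
  have h2 : K ≤ Real.exp |K| := (le_abs_self K).trans (by
    have := Real.add_one_le_exp |K|
    linarith)
  calc K * Real.exp (c * Real.log T - b * (Real.log T) ^ 2) ≤
      Real.exp |K| * Real.exp (c * Real.log T - b * (Real.log T) ^ 2) := by gcongr
    _ = Real.exp (|K| + (c * Real.log T - b * (Real.log T) ^ 2)) := by rw [← Real.exp_add]
    _ ≤ 1 := Real.exp_le_one_iff.mpr hT

theorem prime_tw {a : ℕ → ℂ} (ha : ∀ n, ‖a n‖ ≤ ArithmeticFunction.vonMangoldt n) {τ : ℝ}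
    (hτ : τ ≠ 0) (h ε η : ℝ) (hε : 0 < ε) (hεh : ε < h) (hh1 : h ≤ 1) (hη : 0 < η) :
    ∃ K T0 : ℝ, 0 < K ∧ 10 ≤ T0 ∧ ∀ T : ℝ, T0 ≤ T → ∀ A B H : ℝ, A ≤ B → T ^ h ≤ H →
      B - A ≤ H → ∀ u : ℝ, 0 ≤ u → u ≤ (h - ε) * Real.log T →
      ‖∫ t in A..B, ((‖PP a u t‖ ^ 2 : ℝ) : ℂ) * cexp (I * τ * t)‖ ≤ K * H + η * H * VV u := by
  set r : ℝ := Real.exp (-τ) with hr
  have hr0 : 0 < r := Real.exp_pos _
  have hr1 : r ≠ 1 := by
    rw [hr, Ne, Real.exp_eq_one_iff, neg_eq_zero]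
    exact hτ
  obtain ⟨C, δ₀, hC, hδ₀, hnear⟩ := near_sum hr0 hr1
  set S := ∑' n : ℕ, 1 / (n : ℝ) ^ 2 with hS
  have hS0 : 0 ≤ S := S_nonneg
  set M : ℝ := max 1 r with hM
  have hM1 : 1 ≤ M := le_max_left _ _
  have hM0 : 0 < M := by linarith
  -- eventual facts
  have ev1 : ∀ᶠ T : ℝ in atTop, 1 / δ₀ ≤ T ^ (ε / 4) :=
    (tendsto_rpow_atTop (by positivity)).eventually_ge_atTop _
  have ev2 := ev_log_pow 1 1 (ε / 4) 3 one_pos one_pos (by positivity)
  have ev3 := ev_exp (2 * S * Real.exp 4 * (4 * S * Real.exp 2 + 1)) 4 (ε ^ 2 / 16) (by positivity)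
  have ev4 := ev_log_pow (η / (8 * M)) (1 + 1 / r) (ε / 2) 1 (by positivity) (by positivity)
    (by positivity)
  have ev5 : ∀ᶠ T : ℝ in atTop, 16 * M / η ≤ T ^ (ε / 4) :=
    (tendsto_rpow_atTop (by positivity)).eventually_ge_atTop _
  have ev6 := ev_exp (2 * S * Real.exp 4) 2 (ε ^ 2 / 16) (by positivity)
  obtain ⟨T2, hT2⟩ := (((((ev1.and ev2).and ev3).and ev4).and ev5).and ev6).exists_forall_of_atTop
  refine ⟨2 * C + 1, max 10 T2, by positivity, le_max_left _ _,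
    fun T hT A B H hAB hH hBA u hu hu1 => ?_⟩
  have hT10 : 10 ≤ T := (le_max_left _ _).trans hT
  obtain ⟨⟨⟨⟨⟨e1, e2⟩, e3⟩, e4⟩, e5⟩, e6⟩ := hT2 T ((le_max_right _ _).trans hT)
  have hTpos : 0 < T := by linarith
  set L := Real.log T with hL
  have hL0 : 0 ≤ L := Real.log_nonneg (by linarith)
  have huL : u ≤ L := by nlinarith
  have hH0 : 0 < H := (Real.rpow_pos_of_pos hTpos h).trans_le hH
  set X : ℕ := ⌊T ^ (h - ε / 2)⌋₊ with hX
  have hXle : (X : ℝ) ≤ T ^ (h - ε / 2) := Nat.floor_le (by positivity)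
  have hXT : (X : ℝ) ≤ T := by
    refine hXle.trans ?_
    calc T ^ (h - ε / 2) ≤ T ^ (1 : ℝ) := Real.rpow_le_rpow_of_exponent_le (by linarith)
          (by linarith)
      _ = T := Real.rpow_one T
  have hlogX0 : 0 ≤ Real.log X := Real.log_natCast_nonneg X
  have hlogX : Real.log X ≤ L := by
    rcases Nat.eq_zero_or_pos X with h0 | h0
    · rw [h0]; simp; linarith
    · exact Real.log_le_log (by exact_mod_cast h0) hXT
  have hXlog : u + ε / 2 * L ≤ Real.log (X + 1) := by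
    have h1 : T ^ (h - ε / 2) < X + 1 := Nat.lt_floor_add_one _
    have h2 : Real.log (T ^ (h - ε / 2)) ≤ Real.log (X + 1) :=
      Real.log_le_log (by positivity) h1.le
    rw [Real.log_rpow hTpos] at h2
    linarith
  set δ : ℝ := T ^ (-(ε / 4)) with hδ
  have hδ0 : 0 < δ := Real.rpow_pos_of_pos hTpos _
  have hδinv : 1 / δ = T ^ (ε / 4) := by
    rw [hδ, Real.rpow_neg hTpos.le, one_div, inv_inv]
  have hTe : 0 < T ^ (ε / 4) := Real.rpow_pos_of_pos hTpos _
  have hδδ : δ ≤ δ₀ := by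
    rw [← hδinv] at e1
    exact (one_div_le_one_div hδ₀ hδ0).1 e1
  have hmain := PP_tw ha u (ε / 2 * L) A B τ δ X hAB (by positivity) hδ0 hXlog
  rw [← hr] at hmain
  have hn := hnear δ hδ0 hδδ X
  have hn2 : δ * (1 + Real.log X) ^ 3 ≤ 1 := by
    have h1 : (1 + Real.log X) ^ 3 ≤ (1 + L) ^ 3 := by gcongr
    have h2 : (1 + L) ^ 3 ≤ T ^ (ε / 4) := by linarith
    calc δ * (1 + Real.log X) ^ 3 ≤ δ * T ^ (ε / 4) := by
          gcongr
          exact h1.trans h2
      _ = 1 := by rw [← hδinv]; field_simp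
  have hn3 : ∑ p ∈ near r δ X, Λ p.1 * Λ p.2 / Real.sqrt ((p.1 : ℝ) * p.2) ≤ 2 * C := by
    refine hn.trans ?_
    nlinarith
  -- the tail
  have hEle : Etl u (ε / 2 * L) ≤ 2 * S * Real.exp 4 * Real.exp (2 * L - ε ^ 2 / 16 * L ^ 2) := by
    unfold Etl
    rw [← hS]
    have h1 : Real.exp (4 + 2 * u) * Real.exp (-(ε / 2 * L) ^ 2 / 4) ≤
        Real.exp 4 * Real.exp (2 * L - ε ^ 2 / 16 * L ^ 2) := by
      rw [← Real.exp_add, ← Real.exp_add]
      apply Real.exp_le_exp.mpr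
      nlinarith
    calc 2 * S * (Real.exp (4 + 2 * u) * Real.exp (-(ε / 2 * L) ^ 2 / 4)) ≤
        2 * S * (Real.exp 4 * Real.exp (2 * L - ε ^ 2 / 16 * L ^ 2)) := by gcongr
      _ = _ := by ring
  have hE1 : Etl u (ε / 2 * L) ≤ 1 := hEle.trans e6
  have hBle : 2 * Bpp u + Etl u (ε / 2 * L) ≤ (4 * S * Real.exp 2 + 1) * Real.exp (2 * L) := by
    unfold Bpp
    rw [← hS]
    have h1 : Real.exp (2 + 2 * u) ≤ Real.exp 2 * Real.exp (2 * L) := by
      rw [← Real.exp_add]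
      apply Real.exp_le_exp.mpr
      linarith
    have h2 : 1 ≤ Real.exp (2 * L) := Real.one_le_exp (by linarith)
    calc 2 * (2 * S * Real.exp (2 + 2 * u)) + Etl u (ε / 2 * L) ≤
        2 * (2 * S * (Real.exp 2 * Real.exp (2 * L))) + Real.exp (2 * L) := by
          gcongr
          exact hE1.trans h2
      _ = _ := by ring
  have hEB : Etl u (ε / 2 * L) * (2 * Bpp u + Etl u (ε / 2 * L)) ≤ 1 := by
    calc Etl u (ε / 2 * L) * (2 * Bpp u + Etl u (ε / 2 * L)) ≤
        (2 * S * Real.exp 4 * Real.exp (2 * L - ε ^ 2 / 16 * L ^ 2)) *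
          ((4 * S * Real.exp 2 + 1) * Real.exp (2 * L)) := by
          have := Etl_nonneg u (ε / 2 * L)
          have := Bpp_nonneg u
          gcongr
      _ = 2 * S * Real.exp 4 * (4 * S * Real.exp 2 + 1) *
          (Real.exp (2 * L - ε ^ 2 / 16 * L ^ 2) * Real.exp (2 * L)) := by ring
      _ = 2 * S * Real.exp 4 * (4 * S * Real.exp 2 + 1) *
          Real.exp (4 * L - ε ^ 2 / 16 * L ^ 2) := by
          rw [← Real.exp_add]; congr 2; ring
      _ ≤ 1 := e3
  -- the far part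
  have hTh : T ^ (h - ε / 2) * T ^ (ε / 2) = T ^ h := by
    rw [← Real.rpow_add hTpos]; congr 1; ring
  have hT24 : T ^ (ε / 4) * T ^ (ε / 4) = T ^ (ε / 2) := by
    rw [← Real.rpow_add hTpos]; congr 1; ring
  have hfar : 2 * (X * M) * (2 / δ + (1 + 1 / r) * (1 + Real.log X)) ≤ η * H := by
    have h1 : 2 / δ = 2 * T ^ (ε / 4) := by rw [← hδinv]; ring
    rw [h1]
    have h2 : 2 * T ^ (ε / 4) ≤ η / (8 * M) * T ^ (ε / 2) := by
      rw [← hT24]
      rw [div_le_iff₀ hη] at e5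
      have h3 : 2 ≤ η / (8 * M) * T ^ (ε / 4) := by
        rw [div_mul_eq_mul_div, le_div_iff₀ (by positivity)]
        linarith
      calc 2 * T ^ (ε / 4) ≤ (η / (8 * M) * T ^ (ε / 4)) * T ^ (ε / 4) := by gcongr
        _ = _ := by ring
    have h3 : (1 + 1 / r) * (1 + Real.log X) ≤ η / (8 * M) * T ^ (ε / 2) := by
      refine le_trans ?_ e4
      rw [pow_one]
      gcongr
    calc 2 * (X * M) * (2 * T ^ (ε / 4) + (1 + 1 / r) * (1 + Real.log X)) ≤
        2 * (T ^ (h - ε / 2) * M) * (η / (8 * M) * T ^ (ε / 2) + η / (8 * M) * T ^ (ε / 2)) := by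
          gcongr
      _ = η / 2 * (T ^ (h - ε / 2) * T ^ (ε / 2)) := by field_simp; ring
      _ = η / 2 * T ^ h := by rw [hTh]
      _ ≤ η * H := by
          have : 0 < T ^ h := Real.rpow_pos_of_pos hTpos _
          nlinarith
  have hV := VV_nonneg u
  have hAB0 : 0 ≤ B - A := by linarith
  have hs0 : 0 ≤ ∑ p ∈ near r δ X, Λ p.1 * Λ p.2 / Real.sqrt ((p.1 : ℝ) * p.2) :=
    Finset.sum_nonneg fun p _ => by positivity
  calc _ ≤ _ := hmain
    _ = (B - A) * (∑ p ∈ near r δ X, Λ p.1 * Λ p.2 / Real.sqrt ((p.1 : ℝ) * p.2) +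
        Etl u (ε / 2 * L) * (2 * Bpp u + Etl u (ε / 2 * L))) +
        (2 * (X * M) * (2 / δ + (1 + 1 / r) * (1 + Real.log X))) * VV u := by ring
    _ ≤ H * (2 * C + 1) + (η * H) * VV u := by
        refine add_le_add ?_ (mul_le_mul_of_nonneg_right hfar hV)
        calc (B - A) * (∑ p ∈ near r δ X, Λ p.1 * Λ p.2 / Real.sqrt ((p.1 : ℝ) * p.2) +
              Etl u (ε / 2 * L) * (2 * Bpp u + Etl u (ε / 2 * L))) ≤ (B - A) * (2 * C + 1) := by
              gcongr
          _ ≤ H * (2 * C + 1) := by gcongr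
    _ = _ := by ring

end TH803TW
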