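import Pool.Agent.TH803.TW.Fin
import Pool.Agent.TH803.TW.Cell

/-! The number of close pairs in all intervals. -/

open Complex Filter Topology Set MeasureTheory
open scoped BigOperators ComplexConjugate

namespace TH803TW

open H370 H370.A2 H370.AS H295SI

/-- close pairs of zeros -/
noncomputable def Pc (F : ℂ → ℂ) (A B L : ℝ) : ℝ :=
  PP1 (Zf F A B) (fun s => (mult F s : ℝ)) (fun s => s.im) L

lemma Pc_nonneg (F : ℂ → ℂ) (A B L : ℝ) : 0 ≤ Pc F A B L :=
  PP1_nonneg _ (fun _ => Nat.cast_nonneg _) _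

lemma kap_lower {g : ℝ → ℝ} (hg : Win g) {x : ℝ} (hx : |x| ≤ 1 / 2) :
    31 / 32 ≤ (kapG g (x : ℂ)).re := by
  have hgc := hg.cont
  have h1 : (kapG g (x : ℂ)).re = ∫ y in (-1 / 2 : ℝ)..(1 / 2), g y * Real.cos (x * y) := by
    have h2 : kapG g (x : ℂ) = (kapG g (x : ℂ) + kapG g (-(x : ℂ))) / 2 := by
      rw [H143TG.kapG_even hg]; ring
    have h3 : kapG g (x : ℂ) = ((∫ y in (-1 / 2 : ℝ)..(1 / 2), g y * Real.cos (x * y) : ℝ) : ℂ) := by
      rw [h2]
      unfold kapG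
      rw [← intervalIntegral.integral_add, ← intervalIntegral.integral_div,
        ← intervalIntegral.integral_ofReal]
      · refine intervalIntegral.integral_congr fun y _ => ?_
        show ((g y : ℂ) * cexp (I * (x : ℂ) * y) + (g y : ℂ) * cexp (I * (-(x : ℂ)) * y)) / 2 =
          ((g y * Real.cos (x * y) : ℝ) : ℂ)
        rw [Complex.ofReal_mul, Complex.ofReal_cos]
        have e1 : I * (x : ℂ) * y = ((x * y : ℝ) : ℂ) * I := by push_cast; ring
        have e2 : I * (-(x : ℂ)) * y = (-((x * y : ℝ) : ℂ)) * I := by push_cast; ring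
        rw [e1, e2, Complex.cos]
        ring
      · exact (by fun_prop : Continuous fun y : ℝ => (g y : ℂ) *
          cexp (I * (x : ℂ) * y)).intervalIntegrable _ _
      · exact (by fun_prop : Continuous fun y : ℝ => (g y : ℂ) *
          cexp (I * (-(x : ℂ)) * y)).intervalIntegrable _ _
    rw [h3, Complex.ofReal_re]
  rw [h1]
  have h4 : ∫ y in (-1 / 2 : ℝ)..(1 / 2), g y * (31 / 32) ≤
      ∫ y in (-1 / 2 : ℝ)..(1 / 2), g y * Real.cos (x * y) := by
    refine intervalIntegral.integral_mono_on (by norm_num)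
      ((hgc.mul continuous_const).intervalIntegrable _ _)
      ((hgc.mul (by fun_prop)).intervalIntegrable _ _) fun y hy => ?_
    have h5 := hg.nonneg y hy.1 hy.2
    have h6 := Real.one_sub_sq_div_two_le_cos (x := x * y)
    have h7 : (x * y) ^ 2 ≤ 1 / 16 := by
      have h8 : |x * y| ≤ 1 / 4 := by
        rw [abs_mul]
        have h9 : |y| ≤ 1 / 2 := abs_le.2 ⟨by linarith [hy.1], hy.2⟩
        calc |x| * |y| ≤ 1 / 2 * (1 / 2) := by gcongr
          _ = 1 / 4 := by norm_num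
      rw [← sq_abs]
      nlinarith [abs_nonneg (x * y)]
    have h10 : 31 / 32 ≤ Real.cos (x * y) := by linarith
    gcongr
  rw [intervalIntegral.integral_mul_const, hg.mass] at h4
  linarith

lemma KK_lower {g : ℝ → ℝ} (hg : Win g) {Λ x L : ℝ} (hL : 1 ≤ L) (hΛ0 : 0 ≤ Λ) (hΛ : Λ ≤ L / 2)
    (hx : |x| ≤ 1 / L) : 1 / 2 ≤ KK g Λ x := by
  unfold KK
  have hL0 : 0 < L := by linarith
  have h1 : |Λ * x| ≤ 1 / 2 := by
    rw [abs_mul, abs_of_nonneg hΛ0]
    calc Λ * |x| ≤ L / 2 * (1 / L) := by gcongr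
      _ = 1 / 2 := by field_simp
  have h2 := kap_lower hg h1
  have h3 : |x| ≤ 1 := hx.trans (by rw [div_le_one hL0]; exact hL)
  have h4 : x ^ 2 ≤ 1 := by rw [← sq_abs]; nlinarith [abs_nonneg x]
  have h5 : 3 / 4 ≤ Real.exp (-x ^ 2 / 4) := by
    have := Real.add_one_le_exp (-x ^ 2 / 4)
    linarith
  have h6 : (31 / 32 : ℝ) ^ 2 ≤ (kapG g ((Λ * x : ℝ) : ℂ)).re ^ 2 := by gcongr
  calc (1 / 2 : ℝ) ≤ (31 / 32) ^ 2 * (3 / 4) := by norm_num
    _ ≤ _ := by gcongr

lemma Pc_le_PW {F : ℂ → ℂ} {g : ℝ → ℝ} (hF : GoodL F) (hg : Win g) {A B U1 U2 Λ L : ℝ}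
    (hL : 1 ≤ L) (hΛ0 : 0 ≤ Λ) (hΛ : Λ ≤ L / 2) (hU : 1 ≤ U1) (h1 : U1 ≤ A) (h2 : B ≤ U2) :
    Pc F A B L ≤ 2 * PW g F Λ U1 U2 (fun _ => 1) := by
  have hsub := Zf_sub hF hU h1 h2
  unfold Pc PP1 PW
  rw [Finset.mul_sum]
  refine (Finset.sum_le_sum_of_subset_of_nonneg hsub fun s _ _ => ?_).trans ?_
  · refine Finset.sum_nonneg fun s' _ => ?_
    split_ifs <;> positivity
  · refine Finset.sum_le_sum fun s _ => ?_
    rw [Finset.mul_sum]
    refine (Finset.sum_le_sum_of_subset_of_nonneg hsub fun s' _ _ => ?_).trans ?_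
    · split_ifs <;> positivity
    · refine Finset.sum_le_sum fun s' _ => ?_
      have h3 := KK_nonneg g Λ (s.im - s'.im)
      split_ifs with h4
      · have h5 := KK_lower hg hL hΛ0 hΛ h4
        have h6 : (0 : ℝ) ≤ (mult F s : ℝ) * (mult F s' : ℝ) := by positivity
        rw [mul_one, mul_one]
        nlinarith
      · rw [mul_zero, mul_one]
        positivity

theorem P_bound2 {F : ℂ → ℂ} (hF : GoodL F) (hline : Line F) (h : ℝ) (hh0 : 0 < h) (hh1 : h ≤ 1) :
    ∃ C T0 : ℝ, 0 < C ∧ 10 ≤ T0 ∧ ∀ T : ℝ, T0 ≤ T → ∀ A B : ℝ, T + 1 ≤ A → B ≤ 2 * T - 1 →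
      T ^ h ≤ B - A → Pc F A B (Real.log T / 2) ≤ C * ((B - A) * Real.log T) := by
  have hs2 : 0 < Real.sqrt 2 := Real.sqrt_pos.2 (by norm_num)
  set s : ℝ := Real.sqrt 2 with hs
  have hW := H255SI.winS s hs2 le_rfl
  have hC := H793SI.convS s hs2 le_rfl
  have hK := H218SI3.kSqS s hs2 le_rfl
  have hPS := H613SI.pairShort H627SI.lamSmooth H228SI.qqJJ H965SI.countShort
    (H804JJ.jjShort H399SI.explShort Pool.Agent.H431R2.SI.outerShort)
  obtain ⟨T2, hT2, hPC⟩ := hPS (gS s) (RS s) hW hC hK F hF (h / 2) (3 * h / 8) 1 (by positivity)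
    (by linarith) (by linarith) one_pos
  set Q : ℝ := |cR (RS s) (h / 2 - 3 * h / 8)| + 1 with hQ
  have hQ0 : 0 < Q := by positivity
  have ev1 : ∀ᶠ T : ℝ in atTop, (2 : ℝ) ≤ T ^ (h / 2) :=
    (tendsto_rpow_atTop (by positivity)).eventually_ge_atTop _
  have ev2 : ∀ᶠ T : ℝ in atTop, 2 ≤ Real.log T :=
    Real.tendsto_log_atTop.eventually_ge_atTop _
  obtain ⟨T3, hT3⟩ := (ev1.and ev2).exists_forall_of_atTop
  refine ⟨12 * Q, max 10 (max T2 T3), by positivity, le_max_left _ _, fun T hT A B hA hB hAB => ?_⟩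
  have hT10 : 10 ≤ T := (le_max_left _ _).trans hT
  have hTT2 : T2 ≤ T := ((le_max_left _ _).trans (le_max_right _ _)).trans hT
  obtain ⟨e1, e2⟩ := hT3 T (((le_max_right _ _).trans (le_max_right _ _)).trans hT)
  have hpos : 0 < T := by linarith
  set L := Real.log T with hL
  have hAB0 : 2 ≤ B - A := by
    have : T ^ h = T ^ (h / 2) * T ^ (h / 2) := by
      rw [← Real.rpow_add hpos]; congr 1; ring
    rw [this] at hAB
    nlinarith
  obtain ⟨U1, U2, hU1, hU1', hU2, hU2', -, hQQ⟩ := hPC (A - 1) (by linarith) (B - A + 2) (by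
    calc (A - 1) ^ (h / 2) ≤ (2 * T) ^ (h / 2) :=
          Real.rpow_le_rpow (by linarith) (by linarith) (by positivity)
      _ = 2 ^ (h / 2) * T ^ (h / 2) := Real.mul_rpow (by norm_num) hpos.le
      _ ≤ 2 ^ (1 : ℝ) * T ^ (h / 2) := by
          gcongr
          · norm_num
          · linarith
      _ ≤ T ^ (h / 2) * T ^ (h / 2) := by
          rw [Real.rpow_one]
          gcongr
      _ = T ^ h := by rw [← Real.rpow_add hpos]; congr 1; ring
      _ ≤ B - A + 2 := by linarith) (by linarith)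
  have hlogA : Real.log (A - 1) ≤ 2 * L := by
    have h1 : Real.log (A - 1) ≤ Real.log (T ^ 2) :=
      Real.log_le_log (by linarith) (by nlinarith)
    rw [Real.log_pow] at h1
    push_cast at h1
    exact h1
  have hlogA0 : 0 ≤ Real.log (A - 1) := Real.log_nonneg (by linarith)
  have hΛ : (h / 2 - 3 * h / 8) * Real.log (A - 1) ≤ L / 2 / 2 := by
    have : (h / 2 - 3 * h / 8) * Real.log (A - 1) ≤ (1 / 8) * (2 * L) := by
      apply mul_le_mul (by linarith) hlogA hlogA0 (by norm_num)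
    linarith
  have h1 := Pc_le_PW (F := F) (A := A) (B := B) (U1 := U1) (U2 := U2) hF hW (by linarith : 1 ≤ L / 2)
    (mul_nonneg (by linarith : 0 ≤ h / 2 - 3 * h / 8) hlogA0) hΛ (by linarith) (by linarith)
    (by linarith)
  rw [← QQG_PW hF hline hW (by linarith : 1 ≤ U1)] at h1
  refine h1.trans ?_
  have hpi := Real.pi_gt_three
  have h2 : (B - A + 2) * Real.log (A - 1) / (2 * Real.pi) ≤ 2 * (B - A) * (2 * L) / 2 := by
    apply div_le_div₀ (by positivity) _ (by norm_num) (by linarith)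
    exact mul_le_mul (by linarith) hlogA hlogA0 (by linarith)
  have h3 : cR (RS s) (h / 2 - 3 * h / 8) + 1 ≤ Q := by
    rw [hQ]; linarith [le_abs_self (cR (RS s) (h / 2 - 3 * h / 8))]
  have h4 : 0 ≤ (B - A + 2) * Real.log (A - 1) / (2 * Real.pi) := by positivity
  calc 2 * QQG (gS s) F ((h / 2 - 3 * h / 8) * Real.log (A - 1)) U1 U2 ≤
      2 * ((B - A + 2) * Real.log (A - 1) / (2 * Real.pi) *
        (cR (RS s) (h / 2 - 3 * h / 8) + 1)) := by linarith
    _ ≤ 2 * ((2 * (B - A) * (2 * L) / 2) * Q) := by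
      have k1 := mul_le_mul_of_nonneg_left h3 h4
      have k2 := mul_le_mul_of_nonneg_right h2 hQ0.le
      linarith
    _ ≤ _ := by
      have : 0 ≤ Q * ((B - A) * L) := by positivity
      linarith

lemma Pc_anti (F : ℂ → ℂ) (A B : ℝ) {L L' : ℝ} (hL : 0 < L) (h : L ≤ L') :
    Pc F A B L' ≤ Pc F A B L := by
  unfold Pc PP1
  refine Finset.sum_le_sum fun s _ => Finset.sum_le_sum fun s' _ => ?_
  have h1 : 1 / L' ≤ 1 / L := one_div_le_one_div_of_le hL h
  have h2 : (0 : ℝ) ≤ (mult F s : ℝ) * (mult F s' : ℝ) := by positivity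
  split_ifs with h3 h4
  · exact le_rfl
  · exact absurd (h3.trans h1) h4
  · linarith
  · exact le_rfl

theorem P_bound {F : ℂ → ℂ} (hF : GoodL F) (hline : Line F) (h : ℝ) (hh0 : 0 < h) (hh1 : h ≤ 1) :
    ∃ C T0 : ℝ, 0 < C ∧ 10 ≤ T0 ∧ ∀ T : ℝ, T0 ≤ T → ∀ A B : ℝ, T + 1 ≤ A → B ≤ 2 * T - 1 →
      T ^ h ≤ B - A → Pc F A B (Real.log T) ≤ C * ((B - A) * Real.log T) := by
  obtain ⟨C, T0, hC, hT0, hP⟩ := P_bound2 hF hline h hh0 hh1
  refine ⟨C, T0, hC, hT0, fun T hT A B hA hB hAB => ?_⟩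
  have hL : 0 < Real.log T := Real.log_pos (by linarith)
  exact (Pc_anti F A B (by linarith) (by linarith)).trans (hP T hT A B hA hB hAB)

/-- close pairs in a dyadic interval -/
theorem P_dyadic {F : ℂ → ℂ} (hF : GoodL F) (hline : Line F) :
    ∃ C T0 : ℝ, 0 < C ∧ 10 ≤ T0 ∧ ∀ T : ℝ, T0 ≤ T →
      Pc F T (2 * T) (Real.log T) ≤ C * (T * Real.log T) := by
  classical
  obtain ⟨C, T0, hC, hT0, hP⟩ := P_bound2 hF hline (1 / 2) (by norm_num) (by norm_num)
  have ev1 : ∀ᶠ T : ℝ in atTop, (4 : ℝ) ≤ T ^ (1 / 2 : ℝ) :=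
    (tendsto_rpow_atTop (by norm_num)).eventually_ge_atTop _
  obtain ⟨T1, hT1⟩ := ev1.exists_forall_of_atTop
  refine ⟨121 * (4 * C), max (T0 + 1) T1, by positivity, by
    refine le_trans ?_ (le_max_left _ _)
    linarith, fun T hT => ?_⟩
  have hTT0 : T0 + 1 ≤ T := (le_max_left _ _).trans hT
  have h4 := hT1 T ((le_max_right _ _).trans hT)
  have hT10 : 10 ≤ T := by linarith
  have hpos : 0 < T := by linarith
  have hsq : T = T ^ (1 / 2 : ℝ) * T ^ (1 / 2 : ℝ) := by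
    rw [← Real.rpow_add hpos]; norm_num
  have hle : T ^ (1 / 2 : ℝ) ≤ T / 4 := by
    have : 0 < T ^ (1 / 2 : ℝ) := Real.rpow_pos_of_pos hpos _
    nlinarith
  set L := Real.log T with hL
  have hL2 : 2 ≤ L := by
    rw [hL, Real.le_log_iff_exp_le hpos]
    have h1 : Real.exp 2 = Real.exp 1 * Real.exp 1 := by rw [← Real.exp_add]; norm_num
    have h2 := Real.exp_one_lt_d9
    have h3 := Real.exp_pos 1
    rw [h1]
    nlinarith
  have hlog1 : Real.log (T - 1) ≤ L := Real.log_le_log (by linarith) (by linarith)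
  have hlog10 : 0 < Real.log (T - 1) := Real.log_pos (by linarith)
  have hlog2 : Real.log (T + 1) ≤ 2 * L := by
    have h1 : Real.log (T + 1) ≤ Real.log (T ^ 2) := Real.log_le_log (by linarith) (by nlinarith)
    rw [Real.log_pow] at h1
    push_cast at h1
    exact h1
  have hlog20 : 0 < Real.log (T + 1) := Real.log_pos (by linarith)
  have p1 : Pc F T (3 / 2 * T) L ≤ C * (T * L) := by
    have h1 := hP (T - 1) (by linarith) T (3 / 2 * T) (by linarith) (by linarith) (by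
      calc (T - 1) ^ (1 / 2 : ℝ) ≤ T ^ (1 / 2 : ℝ) :=
            Real.rpow_le_rpow (by linarith) (by linarith) (by norm_num)
        _ ≤ 3 / 2 * T - T := by linarith)
    refine (Pc_anti F _ _ (by linarith) (by linarith)).trans (h1.trans ?_)
    have h2 : 3 / 2 * T - T ≤ T := by linarith
    gcongr
  have p2 : Pc F (3 / 2 * T) (2 * T) L ≤ C * (T * L) := by
    have h1 := hP (T + 1) (by linarith) (3 / 2 * T) (2 * T) (by linarith) (by linarith) (by
      calc (T + 1) ^ (1 / 2 : ℝ) ≤ (4 * T) ^ (1 / 2 : ℝ) :=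
            Real.rpow_le_rpow (by linarith) (by linarith) (by norm_num)
        _ = 2 * T ^ (1 / 2 : ℝ) := by
            rw [Real.mul_rpow (by norm_num) hpos.le]
            congr 1
            rw [show (4 : ℝ) = 2 ^ (2 : ℝ) by norm_num, ← Real.rpow_mul (by norm_num)]
            norm_num
        _ ≤ 2 * T - 3 / 2 * T := by linarith)
    refine (Pc_anti F _ _ (by linarith) (by linarith)).trans (h1.trans ?_)
    have h2 : (2 * T - 3 / 2 * T) * Real.log (T + 1) ≤ T / 2 * (2 * L) := by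
      apply mul_le_mul (by linarith) hlog2 hlog20.le (by linarith)
    calc C * ((2 * T - 3 / 2 * T) * Real.log (T + 1)) ≤ C * (T / 2 * (2 * L)) := by gcongr
      _ = C * (T * L) := by ring
  -- splitting
  set S := Zf F T (2 * T)
  set S1 := Zf F T (3 / 2 * T) with hS1
  set S2 := Zf F (3 / 2 * T) (2 * T) with hS2
  have hL0 : 0 < L := by linarith
  have hdec : ∀ f : ℂ → ℝ, ∑ s ∈ S, f s = ∑ s ∈ S1, f s + ∑ s ∈ S2, f s := by
    intro f
    rw [← Finset.sum_union]
    · congr 1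
      ext s
      rw [Finset.mem_union, hS1, hS2, mem_Zf hF (by linarith), mem_Zf hF (by linarith),
        mem_Zf hF (by linarith)]
      constructor
      · rintro ⟨a, b, c, d, e⟩
        rcases le_or_gt s.im (3 / 2 * T) with h | h
        · exact Or.inl ⟨a, b, c, h, e⟩
        · exact Or.inr ⟨a, b, h, d, e⟩
      · rintro (⟨a, b, c, d, e⟩ | ⟨a, b, c, d, e⟩)
        · exact ⟨a, b, c, by linarith, e⟩
        · exact ⟨a, b, by linarith, d, e⟩
    · rw [Finset.disjoint_left]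
      intro s hs hs'
      rw [hS1, mem_Zf hF (by linarith)] at hs
      rw [hS2, mem_Zf hF (by linarith)] at hs'
      have h3 := hs.2.2.2.1
      have h4 := hs'.2.2.1
      linarith
  have hcross : ∀ Sa Sb : Finset ℂ, ∑ s ∈ Sa, ∑ s' ∈ Sb, (mult F s : ℝ) * (mult F s' : ℝ) *
      (if |s.im - s'.im| ≤ 1 / L then 1 else 0) ≤
      60 * (PP1 Sa (fun s => (mult F s : ℝ)) (fun s => s.im) L +
        PP1 Sb (fun s => (mult F s : ℝ)) (fun s => s.im) L) := by
    intro Sa Sb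
    have h1 := cell_bound (x := fun s : ℂ => s.im) Sa Sb (m := fun s => (mult F s : ℝ))
      (fun s => Nat.cast_nonneg _) hL0 one_pos
    rw [one_mul, div_one, one_mul] at h1
    have h2 : ∑ s ∈ Sa, ∑ s' ∈ Sb, (mult F s : ℝ) * (mult F s' : ℝ) *
      (if |s.im - s'.im| ≤ 1 / L then 1 else 0) ≤
      3 * ∑ s ∈ Sa, ∑ s' ∈ Sb, (mult F s : ℝ) * (mult F s' : ℝ) *
        (1 / (1 + |s.im - s'.im| * L) ^ ((3 : ℝ) / 2)) := by
      rw [Finset.mul_sum]
      refine Finset.sum_le_sum fun s _ => ?_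
      rw [Finset.mul_sum]
      refine Finset.sum_le_sum fun s' _ => ?_
      have h3 : (0 : ℝ) ≤ (mult F s : ℝ) * (mult F s' : ℝ) := by positivity
      split_ifs with h5
      · have h6 : 1 + |s.im - s'.im| * L ≤ 2 := by
          rw [le_div_iff₀ hL0] at h5
          linarith
        have h7 : (1 + |s.im - s'.im| * L) ^ ((3 : ℝ) / 2) ≤ 3 := by
          have h8 : (1 + |s.im - s'.im| * L) ^ ((3 : ℝ) / 2) ≤ 2 ^ ((3 : ℝ) / 2) :=
            Real.rpow_le_rpow (by positivity) h6 (by norm_num)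
          have g3 : (2 : ℝ) ^ ((3 : ℝ) / 2) = Real.sqrt 8 := by
            rw [Real.sqrt_eq_rpow, show (8 : ℝ) = 2 ^ (3 : ℝ) by norm_num,
              ← Real.rpow_mul (by norm_num)]
            norm_num
          have g4 : Real.sqrt 8 ≤ 3 := by
            rw [Real.sqrt_le_left (by norm_num)]
            norm_num
          linarith
        have h9 : 0 < (1 + |s.im - s'.im| * L) ^ ((3 : ℝ) / 2) :=
          Real.rpow_pos_of_pos (by positivity) _
        have h10 : 1 ≤ 3 * (1 / (1 + |s.im - s'.im| * L) ^ ((3 : ℝ) / 2)) := by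
          rw [mul_one_div, le_div_iff₀ h9]
          linarith
        nlinarith
      · have : 0 ≤ 1 / (1 + |s.im - s'.im| * L) ^ ((3 : ℝ) / 2) := by positivity
        rw [mul_zero]
        positivity
    linarith
  have h1 : Pc F T (2 * T) L = PP1 S1 (fun s => (mult F s : ℝ)) (fun s => s.im) L +
      ∑ s ∈ S1, ∑ s' ∈ S2, (mult F s : ℝ) * (mult F s' : ℝ) *
        (if |s.im - s'.im| ≤ 1 / L then 1 else 0) +
      (∑ s ∈ S2, ∑ s' ∈ S1, (mult F s : ℝ) * (mult F s' : ℝ) *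
        (if |s.im - s'.im| ≤ 1 / L then 1 else 0) +
      PP1 S2 (fun s => (mult F s : ℝ)) (fun s => s.im) L) := by
    have key : Pc F T (2 * T) L = ∑ s ∈ S, ∑ s' ∈ S, (mult F s : ℝ) * (mult F s' : ℝ) *
      (if |s.im - s'.im| ≤ 1 / L then 1 else 0) := rfl
    rw [key, hdec, Finset.sum_congr rfl (fun s _ => hdec (fun s' => (mult F s : ℝ) *
      (mult F s' : ℝ) * (if |s.im - s'.im| ≤ 1 / L then 1 else 0))),
      Finset.sum_congr (s₁ := S2) rfl (fun s _ => hdec (fun s' => (mult F s : ℝ) *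
      (mult F s' : ℝ) * (if |s.im - s'.im| ≤ 1 / L then 1 else 0))),
      Finset.sum_add_distrib, Finset.sum_add_distrib]
    rfl
  have h2 := hcross S1 S2
  have h3 := hcross S2 S1
  have e1 : Pc F T (3 / 2 * T) L = PP1 S1 (fun s => (mult F s : ℝ)) (fun s => s.im) L := rfl
  have e2 : Pc F (3 / 2 * T) (2 * T) L = PP1 S2 (fun s => (mult F s : ℝ)) (fun s => s.im) L := rfl
  rw [e1] at p1
  rw [e2] at p2
  rw [h1]
  have : 0 ≤ C * (T * L) := by positivity
  linarith

end TH803TW
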