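import Pool.Agent.TH803.TW.Far
import Pool.Agent.H370R2.PC3

/-! The twisted mean square of the prime side. -/

open Complex Filter Topology Set MeasureTheory
open scoped BigOperators ComplexConjugate ArithmeticFunction

namespace TH803TW

open H370

/-- the coefficients of the prime side -/
noncomputable def bc (a : ℕ → ℂ) (u : ℝ) (n : ℕ) : ℂ :=
  a n * (Real.sqrt n : ℂ)⁻¹ * Real.exp (-(u - Real.log n) ^ 2 / 2)

section

variable {a : ℕ → ℂ} (ha : ∀ n, ‖a n‖ ≤ ArithmeticFunction.vonMangoldt n)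

lemma norm_trunc (u t : ℝ) (X : ℕ) : ‖∑ n ∈ Finset.Icc 1 X, pterm a u t n‖ =
      ‖∑ n ∈ Finset.Icc 1 X, bc a u n * (n : ℂ) ^ (-(t : ℂ) * I)‖ := by
  have h2 : ∑ n ∈ Finset.Icc 1 X, pterm a u t n = cexp (((t * u : ℝ) : ℂ) * I) *
      ∑ n ∈ Finset.Icc 1 X, bc a u n * (n : ℂ) ^ (-(t : ℂ) * I) := by
    rw [Finset.mul_sum]
    refine Finset.sum_congr rfl fun n hn => ?_
    have hn1 : 1 ≤ n := (Finset.mem_Icc.mp hn).1
    have hn0 : (n : ℂ) ≠ 0 := by exact_mod_cast (by omega : n ≠ 0)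
    unfold pterm bc
    have h3 : cexp (I * t * (u - Real.log n)) = cexp (((t * u : ℝ) : ℂ) * I) *
        (n : ℂ) ^ (-(t : ℂ) * I) := by
      rw [Complex.cpow_def_of_ne_zero hn0, ← Complex.exp_add, ← Complex.natCast_log]
      congr 1
      push_cast
      ring
    rw [h3]; ring
  rw [h2, norm_mul, Complex.norm_exp_ofReal_mul_I, one_mul]

include ha in
lemma bc_le (u : ℝ) (n : ℕ) (hn : 1 ≤ n) :
    ‖bc a u n‖ ≤ ArithmeticFunction.vonMangoldt n / Real.sqrt n := by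
  unfold bc
  rw [norm_mul, norm_mul, norm_inv, Complex.norm_real, Complex.norm_real,
    Real.norm_of_nonneg (Real.sqrt_nonneg _), Real.norm_of_nonneg (Real.exp_pos _).le,
    ← div_eq_mul_inv]
  have h1 := ha n
  have h2 : Real.exp (-(u - Real.log n) ^ 2 / 2) ≤ 1 := by
    apply Real.exp_le_one_iff.mpr
    have := sq_nonneg (u - Real.log n)
    linarith
  calc ‖a n‖ / Real.sqrt n * Real.exp (-(u - Real.log n) ^ 2 / 2) ≤
      ArithmeticFunction.vonMangoldt n / Real.sqrt n * 1 := by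
        gcongr
    _ = _ := mul_one _

include ha in
lemma bc_sq (u : ℝ) (X : ℕ) : ∑ n ∈ Finset.Icc 1 X, ‖bc a u n‖ ^ 2 ≤ VV u := by
  have h4 : ∀ n ∈ Finset.Icc 1 X, ‖bc a u n‖ ^ 2 ≤ (ArithmeticFunction.vonMangoldt n) ^ 2 / n *
      Real.exp (-(u - Real.log n) ^ 2) := by
    intro n hn
    have hn1 : 1 ≤ n := (Finset.mem_Icc.mp hn).1
    have hn0 : (0 : ℝ) < n := by exact_mod_cast hn1
    simp only [bc]
    rw [norm_mul, norm_mul, norm_inv, Complex.norm_real, Complex.norm_real,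
      Real.norm_of_nonneg (Real.sqrt_nonneg _), Real.norm_of_nonneg (Real.exp_pos _).le,
      mul_pow, mul_pow, inv_pow, Real.sq_sqrt hn0.le, ← Real.exp_nat_mul, ← div_eq_mul_inv]
    have e1 : ((2 : ℕ) : ℝ) * (-(u - Real.log n) ^ 2 / 2) = -(u - Real.log n) ^ 2 := by
      push_cast; ring
    rw [e1]
    have := ha n
    gcongr
  exact (Finset.sum_le_sum h4).trans
    ((VV_summable u).sum_le_tsum _ fun n _ => VV_term_nonneg u n)

/-- size of the tail -/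
noncomputable def Etl (u D : ℝ) : ℝ :=
  2 * (∑' n : ℕ, 1 / (n : ℝ) ^ 2) * (Real.exp (4 + 2 * u) * Real.exp (-D ^ 2 / 4))

/-- size of the prime side -/
noncomputable def Bpp (u : ℝ) : ℝ := 2 * (∑' n : ℕ, 1 / (n : ℝ) ^ 2) * Real.exp (2 + 2 * u)

lemma S_nonneg : 0 ≤ ∑' n : ℕ, 1 / (n : ℝ) ^ 2 := tsum_nonneg fun n => by positivity

lemma Etl_nonneg (u D : ℝ) : 0 ≤ Etl u D := by
  have := S_nonneg
  unfold Etl; positivity

lemma Bpp_nonneg (u : ℝ) : 0 ≤ Bpp u := by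
  have := S_nonneg
  unfold Bpp; positivity

lemma tw_exp_norm (τ t : ℝ) : ‖cexp (I * τ * t)‖ = 1 := by
  have : I * (τ : ℂ) * t = ((τ * t : ℝ) : ℂ) * I := by push_cast; ring
  rw [this, Complex.norm_exp_ofReal_mul_I]

include ha in
/-- the twisted mean square of the prime side, before the choice of parameters -/
lemma PP_tw (u D A B τ δ : ℝ) (X : ℕ) (hAB : A ≤ B) (hD : 0 ≤ D) (hδ : 0 < δ)
    (hX : u + D ≤ Real.log (X + 1)) :
    ‖∫ t in A..B, ((‖PP a u t‖ ^ 2 : ℝ) : ℂ) * cexp (I * τ * t)‖ ≤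
      (B - A) * (∑ p ∈ near (Real.exp (-τ)) δ X,
        Λ p.1 * Λ p.2 / Real.sqrt ((p.1 : ℝ) * p.2) + Etl u D * (2 * Bpp u + Etl u D)) +
      2 * (X * max 1 (Real.exp (-τ))) * ((2 / δ + (1 + 1 / Real.exp (-τ)) * (1 + Real.log X)) *
        VV u) := by
  set E := Etl u D with hE
  have hE0 : 0 ≤ E := Etl_nonneg u D
  have hB0 : 0 ≤ Bpp u := Bpp_nonneg u
  have hPPc := PP_cont ha u
  have hPc : Continuous (fun t => ∑ n ∈ Finset.Icc 1 X, pterm a u t n) := by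
    unfold pterm; fun_prop
  have hm := tw_mean (bc a u) X A B τ δ hAB hδ
  have hdiff : ∀ t : ℝ, |‖PP a u t‖ ^ 2 - ‖∑ n ∈ Finset.Icc 1 X, pterm a u t n‖ ^ 2| ≤
      E * (2 * Bpp u + E) := by
    intro t
    have h1 := PP_trunc ha u t D X hD hX
    have h2 := PP_bound ha u t
    set P := PP a u t
    set Q := ∑ n ∈ Finset.Icc 1 X, pterm a u t n
    have h3 : ‖P - Q‖ ≤ E := h1
    have h4 : ‖P‖ ≤ Bpp u := h2
    have h5 : ‖Q‖ ≤ Bpp u + E := by
      have : Q = P - (P - Q) := by ring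
      rw [this]
      exact (norm_sub_le _ _).trans (add_le_add h4 h3)
    have h6 : |‖P‖ - ‖Q‖| ≤ E := (abs_norm_sub_norm_le P Q).trans h3
    have h7 : ‖P‖ ^ 2 - ‖Q‖ ^ 2 = (‖P‖ - ‖Q‖) * (‖P‖ + ‖Q‖) := by ring
    rw [h7, abs_mul, abs_of_nonneg (by positivity : 0 ≤ ‖P‖ + ‖Q‖)]
    have h8 : ‖P‖ + ‖Q‖ ≤ 2 * Bpp u + E := by linarith
    gcongr
  have hec : Continuous (fun t : ℝ => cexp (I * τ * t)) := by fun_prop
  have hint1 : IntervalIntegrable (fun t => ((‖PP a u t‖ ^ 2 : ℝ) : ℂ) * cexp (I * τ * t))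
      volume A B :=
    ((Complex.continuous_ofReal.comp (hPPc.norm.pow 2)).mul hec).intervalIntegrable _ _
  have hint2 : IntervalIntegrable (fun t => ((‖∑ n ∈ Finset.Icc 1 X, pterm a u t n‖ ^ 2 : ℝ) : ℂ) *
      cexp (I * τ * t)) volume A B :=
    ((Complex.continuous_ofReal.comp (hPc.norm.pow 2)).mul hec).intervalIntegrable _ _
  have hsplit : ∫ t in A..B, ((‖PP a u t‖ ^ 2 : ℝ) : ℂ) * cexp (I * τ * t) =
      (∫ t in A..B, ((‖∑ n ∈ Finset.Icc 1 X, pterm a u t n‖ ^ 2 : ℝ) : ℂ) * cexp (I * τ * t)) +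
      ∫ t in A..B, (((‖PP a u t‖ ^ 2 - ‖∑ n ∈ Finset.Icc 1 X, pterm a u t n‖ ^ 2 : ℝ) : ℂ) *
        cexp (I * τ * t)) := by
    rw [← intervalIntegral.integral_add hint2]
    · refine intervalIntegral.integral_congr fun t _ => ?_
      push_cast
      ring
    · refine ((Complex.continuous_ofReal.comp ((hPPc.norm.pow 2).sub
        (hPc.norm.pow 2))).mul hec).intervalIntegrable _ _
  rw [hsplit]
  refine (norm_add_le _ _).trans ?_
  have hrest : ‖∫ t in A..B, (((‖PP a u t‖ ^ 2 - ‖∑ n ∈ Finset.Icc 1 X, pterm a u t n‖ ^ 2 : ℝ) : ℂ)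
      * cexp (I * τ * t))‖ ≤ (B - A) * (E * (2 * Bpp u + E)) := by
    have h1 := intervalIntegral.norm_integral_le_of_norm_le_const (a := A) (b := B)
      (f := fun t : ℝ => (((‖PP a u t‖ ^ 2 - ‖∑ n ∈ Finset.Icc 1 X, pterm a u t n‖ ^ 2 : ℝ) : ℂ)
      * cexp (I * τ * t))) (C := E * (2 * Bpp u + E)) (fun t _ => by
        rw [norm_mul, tw_exp_norm, mul_one, Complex.norm_real]
        exact hdiff t)
    rw [abs_of_nonneg (by linarith)] at h1
    linarith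
  have hm' : ‖∫ t in A..B, ((‖∑ n ∈ Finset.Icc 1 X, pterm a u t n‖ ^ 2 : ℝ) : ℂ) *
      cexp (I * τ * t)‖ ≤ (B - A) * ∑ p ∈ near (Real.exp (-τ)) δ X, ‖bc a u p.1‖ * ‖bc a u p.2‖ +
      2 * (X * max 1 (Real.exp (-τ))) * ((2 / δ + (1 + 1 / Real.exp (-τ)) * (1 + Real.log X)) *
        ∑ n ∈ Finset.Icc 1 X, ‖bc a u n‖ ^ 2) := by
    refine le_trans (le_of_eq ?_) hm
    congr 1
    refine intervalIntegral.integral_congr fun t _ => ?_
    show ((‖∑ n ∈ Finset.Icc 1 X, pterm a u t n‖ ^ 2 : ℝ) : ℂ) * cexp (I * τ * t) = _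
    rw [norm_trunc]
  have hnear : ∑ p ∈ near (Real.exp (-τ)) δ X, ‖bc a u p.1‖ * ‖bc a u p.2‖ ≤
      ∑ p ∈ near (Real.exp (-τ)) δ X, Λ p.1 * Λ p.2 / Real.sqrt ((p.1 : ℝ) * p.2) := by
    refine Finset.sum_le_sum fun p hp => ?_
    obtain ⟨⟨h1, h2⟩, ⟨h3, h4⟩, -⟩ := mem_near.1 hp
    have e1 := bc_le ha u p.1 h1
    have e2 := bc_le ha u p.2 h3
    calc ‖bc a u p.1‖ * ‖bc a u p.2‖ ≤ (Λ p.1 / Real.sqrt p.1) * (Λ p.2 / Real.sqrt p.2) := by
          gcongr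
      _ = _ := by
          rw [Real.sqrt_mul (Nat.cast_nonneg _), div_mul_div_comm]
  have hsq := bc_sq ha u X
  have hAB0 : 0 ≤ B - A := by linarith
  have hlogX : 0 ≤ Real.log X := Real.log_natCast_nonneg X
  have hcoef : 0 ≤ 2 / δ + (1 + 1 / Real.exp (-τ)) * (1 + Real.log X) := by positivity
  calc _ ≤ ((B - A) * ∑ p ∈ near (Real.exp (-τ)) δ X, ‖bc a u p.1‖ * ‖bc a u p.2‖ +
      2 * (X * max 1 (Real.exp (-τ))) * ((2 / δ + (1 + 1 / Real.exp (-τ)) * (1 + Real.log X)) *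
        ∑ n ∈ Finset.Icc 1 X, ‖bc a u n‖ ^ 2)) + (B - A) * (E * (2 * Bpp u + E)) :=
        add_le_add hm' hrest
    _ ≤ ((B - A) * ∑ p ∈ near (Real.exp (-τ)) δ X, Λ p.1 * Λ p.2 / Real.sqrt ((p.1 : ℝ) * p.2) +
      2 * (X * max 1 (Real.exp (-τ))) * ((2 / δ + (1 + 1 / Real.exp (-τ)) * (1 + Real.log X)) *
        VV u)) + (B - A) * (E * (2 * Bpp u + E)) := by
        gcongr
    _ = _ := by ring

end

end TH803TW
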