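import Pool.Agent.TH803.TW.JTB

/-! Pointwise bound for the diagonal term, and the twisted form of Montgomery's theorem. -/

open Complex Filter Topology Set MeasureTheory
open scoped BigOperators ComplexConjugate

namespace TH803TW

open H370 H370.A2 H370.AS H295SI

lemma geo_sum (j K : ℕ) : ∑ k ∈ Finset.range K, Real.exp (-|(j : ℝ) - k|) ≤ 4 := by
  have hr : Real.exp (-1) ≤ 1 / 2 := by
    rw [Real.exp_neg, inv_eq_one_div]
    apply one_div_le_one_div_of_le (by norm_num)
    have := Real.add_one_le_exp (1 : ℝ)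
    linarith
  have hr0 : 0 < Real.exp (-1) := Real.exp_pos _
  have hgeo : ∀ S : Finset ℕ, ∑ i ∈ S, Real.exp (-1) ^ i ≤ 2 := by
    intro S
    have hs : Summable fun i : ℕ => Real.exp (-1) ^ i :=
      summable_geometric_of_lt_one hr0.le (by linarith)
    refine (hs.sum_le_tsum S fun i _ => by positivity).trans ?_
    rw [tsum_geometric_of_lt_one hr0.le (by linarith)]
    rw [inv_le_comm₀ (by linarith) (by norm_num)]
    linarith
  have h1 : ∀ k : ℕ, Real.exp (-|(j : ℝ) - k|) = Real.exp (-1) ^ (if k ≤ j then j - k else k - j) := by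
    intro k
    rw [← Real.exp_nat_mul]
    congr 1
    split_ifs with h
    · have h2 : (k : ℝ) ≤ j := by exact_mod_cast h
      rw [abs_of_nonneg (by linarith), Nat.cast_sub h]
      ring
    · have h2 : (j : ℝ) ≤ k := by exact_mod_cast (not_le.1 h).le
      rw [abs_of_nonpos (by linarith), Nat.cast_sub (not_le.1 h).le]
      ring
  rw [Finset.sum_congr rfl fun k _ => h1 k,
    ← Finset.sum_filter_add_sum_filter_not (Finset.range K) (fun k => k ≤ j)]
  have h2 : ∑ k ∈ (Finset.range K).filter (fun k => k ≤ j),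
      Real.exp (-1) ^ (if k ≤ j then j - k else k - j) ≤ 2 := by
    have h3 : ∑ k ∈ (Finset.range K).filter (fun k => k ≤ j),
        Real.exp (-1) ^ (if k ≤ j then j - k else k - j) =
        ∑ i ∈ ((Finset.range K).filter (fun k => k ≤ j)).image (fun k => j - k),
          Real.exp (-1) ^ i := by
      rw [Finset.sum_image]
      · refine Finset.sum_congr rfl fun k hk => ?_
        rw [Finset.mem_filter] at hk
        rw [if_pos hk.2]
      · intro a ha b hb hab
        rw [Finset.mem_coe, Finset.mem_filter] at ha hb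
        simp only at hab
        omega
    rw [h3]
    exact hgeo _
  have h4 : ∑ k ∈ (Finset.range K).filter (fun k => ¬ k ≤ j),
      Real.exp (-1) ^ (if k ≤ j then j - k else k - j) ≤ 2 := by
    have h3 : ∑ k ∈ (Finset.range K).filter (fun k => ¬ k ≤ j),
        Real.exp (-1) ^ (if k ≤ j then j - k else k - j) =
        ∑ i ∈ ((Finset.range K).filter (fun k => ¬ k ≤ j)).image (fun k => k - j),
          Real.exp (-1) ^ i := by
      rw [Finset.sum_image]
      · refine Finset.sum_congr rfl fun k hk => ?_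
        rw [Finset.mem_filter] at hk
        rw [if_neg hk.2]
      · intro a ha b hb hab
        rw [Finset.mem_coe, Finset.mem_filter] at ha hb
        simp only at hab
        omega
    rw [h3]
    exact hgeo _
  linarith

lemma gauss_geo (x : ℝ) : (1 + |x|) * Real.exp (-x ^ 2 / 2) ≤ 8 * Real.exp (-|x|) := by
  have h1 : (1 + |x|) ≤ Real.exp |x| := by
    have := Real.add_one_le_exp |x|
    linarith
  have h2 : Real.exp |x| * Real.exp (-x ^ 2 / 2) * Real.exp |x| ≤ 8 := by
    rw [← Real.exp_add, ← Real.exp_add]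
    have h3 : |x| + -x ^ 2 / 2 + |x| ≤ 2 := by
      rw [← sq_abs]
      nlinarith [sq_nonneg (|x| - 2)]
    have h4 : Real.exp 2 ≤ 8 := by
      have h5 : Real.exp 2 = Real.exp 1 * Real.exp 1 := by rw [← Real.exp_add]; norm_num
      have h6 := Real.exp_one_lt_d9
      have h7 := Real.exp_pos 1
      rw [h5]; nlinarith
    exact (Real.exp_le_exp.2 h3).trans h4
  have h8 : 0 < Real.exp |x| := Real.exp_pos _
  rw [Real.exp_neg |x|, ← div_eq_mul_inv, le_div_iff₀ h8]
  calc (1 + |x|) * Real.exp (-x ^ 2 / 2) * Real.exp |x| ≤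
      Real.exp |x| * Real.exp (-x ^ 2 / 2) * Real.exp |x| := by gcongr
    _ ≤ 8 := h2

theorem VV_le : ∃ C : ℝ, 0 < C ∧ ∀ u : ℝ, 0 ≤ u → VV u ≤ C * (1 + u) := by
  classical
  obtain ⟨c, hc0, hc⟩ : ∃ c : ℝ, 0 ≤ c ∧ ∀ x : ℝ, 0 ≤ x → Chebyshev.psi x ≤ c * x := by
    refine ⟨Real.log 4 + 4, by have := Real.log_nonneg (show (1 : ℝ) ≤ 4 by norm_num); linarith,
      fun x hx => Chebyshev.psi_le_const_mul_self hx⟩
  refine ⟨c * (8 * (8 * 8 * 4)) + 1, by positivity, fun u hu => ?_⟩
  unfold VV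
  set t : ℕ → ℝ := fun n => (ArithmeticFunction.vonMangoldt n) ^ 2 / n *
    Real.exp (-(u - Real.log n) ^ 2) with ht
  have ht0 : ∀ n, 0 ≤ t n := fun n => by simp only [ht]; positivity
  refine Real.tsum_le_of_sum_range_le ht0 fun N => ?_
  set kf : ℕ → ℕ := fun n => ⌊Real.log n⌋₊ with hkf
  set j : ℕ := ⌊u⌋₊ with hj
  -- termwise bound
  have hterm : ∀ n ∈ Finset.range N, t n ≤ ((kf n : ℝ) + 1) * Real.exp (-(kf n : ℝ)) *
      Real.exp (1 - (u - kf n) ^ 2 / 2) * ArithmeticFunction.vonMangoldt n := by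
    intro n _
    rcases Nat.eq_zero_or_pos n with rfl | hn
    · simp [ht]
    have hn0 : (0 : ℝ) < n := by exact_mod_cast hn
    have hl0 : 0 ≤ Real.log n := Real.log_nonneg (by exact_mod_cast hn)
    have hk1 : (kf n : ℝ) ≤ Real.log n := Nat.floor_le hl0
    have hk2 : Real.log n ≤ kf n + 1 := (Nat.lt_floor_add_one _).le
    have hΛ0 : 0 ≤ ArithmeticFunction.vonMangoldt n := ArithmeticFunction.vonMangoldt_nonneg
    have hΛ1 : ArithmeticFunction.vonMangoldt n ≤ kf n + 1 :=
      ArithmeticFunction.vonMangoldt_le_log.trans hk2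
    have h1 : 1 / (n : ℝ) ≤ Real.exp (-(kf n : ℝ)) := by
      rw [Real.exp_neg, ← one_div]
      apply one_div_le_one_div_of_le (Real.exp_pos _)
      rw [← Real.le_log_iff_exp_le hn0]
      exact hk1
    have h2 : Real.exp (-(u - Real.log n) ^ 2) ≤ Real.exp (1 - (u - kf n) ^ 2 / 2) := by
      apply Real.exp_le_exp.2
      nlinarith [sq_nonneg ((u - Real.log n) - (Real.log n - kf n)),
        mul_nonneg (sub_nonneg.2 hk1) (sub_nonneg.2 hk2)]
    calc t n = ArithmeticFunction.vonMangoldt n * (1 / n) *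
        Real.exp (-(u - Real.log n) ^ 2) * ArithmeticFunction.vonMangoldt n := by
          simp only [ht]; ring
      _ ≤ (kf n + 1) * Real.exp (-(kf n : ℝ)) * Real.exp (1 - (u - kf n) ^ 2 / 2) *
          ArithmeticFunction.vonMangoldt n := by gcongr
  refine (Finset.sum_le_sum hterm).trans ?_
  obtain ⟨K, hK⟩ : ∃ K : ℕ, ∀ n ∈ Finset.range N, kf n ∈ Finset.range K := by
    refine ⟨∑ n ∈ Finset.range N, kf n + 1, fun n hn => ?_⟩
    rw [Finset.mem_range]
    have := Finset.single_le_sum (f := kf) (fun _ _ => Nat.zero_le _) hn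
    omega
  rw [← Finset.sum_fiberwise_of_maps_to hK]
  have hblock : ∀ k ∈ Finset.range K, ∑ n ∈ (Finset.range N).filter (fun n => kf n = k),
      ((kf n : ℝ) + 1) * Real.exp (-(kf n : ℝ)) * Real.exp (1 - (u - kf n) ^ 2 / 2) *
        ArithmeticFunction.vonMangoldt n ≤
      c * (8 * (8 * 8)) * (1 + u) * Real.exp (-|(j : ℝ) - k|) := by
    intro k _
    have h1 : ∑ n ∈ (Finset.range N).filter (fun n => kf n = k),
        ((kf n : ℝ) + 1) * Real.exp (-(kf n : ℝ)) * Real.exp (1 - (u - kf n) ^ 2 / 2) *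
        ArithmeticFunction.vonMangoldt n = ((k : ℝ) + 1) * Real.exp (-(k : ℝ)) *
        Real.exp (1 - (u - k) ^ 2 / 2) *
          ∑ n ∈ (Finset.range N).filter (fun n => kf n = k), ArithmeticFunction.vonMangoldt n := by
      rw [Finset.mul_sum]
      refine Finset.sum_congr rfl fun n hn => ?_
      rw [(Finset.mem_filter.1 hn).2]
    have h2 : ∑ n ∈ (Finset.range N).filter (fun n => kf n = k),
        ArithmeticFunction.vonMangoldt n ≤ c * Real.exp ((k : ℝ) + 1) := by
      refine le_trans ?_ (hc _ (Real.exp_pos _).le)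
      unfold Chebyshev.psi
      rw [← Finset.sum_filter_ne_zero]
      refine Finset.sum_le_sum_of_subset_of_nonneg (fun n hnn => ?_)
        fun n _ _ => ArithmeticFunction.vonMangoldt_nonneg
      obtain ⟨hn, hne⟩ := Finset.mem_filter.1 hnn
      have hn1 : n ≠ 0 := by
        rintro rfl
        simp at hne
      have hn0 : (0 : ℝ) < n := by exact_mod_cast Nat.pos_of_ne_zero hn1
      rw [Finset.mem_Ioc]
      refine ⟨Nat.pos_of_ne_zero hn1, Nat.le_floor ?_⟩
      have h3 : Real.log n < kf n + 1 := Nat.lt_floor_add_one _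
      rw [(Finset.mem_filter.1 hn).2] at h3
      exact ((Real.log_lt_iff_lt_exp hn0).1 h3).le
    rw [h1]
    have hju : |(j : ℝ) - u| ≤ 1 := by
      have h3 := Nat.floor_le hu
      have h4 := Nat.lt_floor_add_one u
      rw [abs_le]
      constructor <;> linarith
    have hk1 : (k : ℝ) + 1 ≤ (1 + u) * (1 + |u - k|) := by
      have h3 := neg_abs_le (u - k)
      have h4 := abs_nonneg (u - k)
      nlinarith
    have h5 := gauss_geo (u - k)
    have h6 : Real.exp (-|u - k|) ≤ 8 / 2 * Real.exp (-|(j : ℝ) - k|) := by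
      have h7 : -|u - k| ≤ 1 + -|(j : ℝ) - k| := by
        have h8 : |(j : ℝ) - k| ≤ |(j : ℝ) - u| + |u - k| := abs_sub_le _ _ _
        linarith
      have h9 := Real.exp_le_exp.2 h7
      rw [Real.exp_add] at h9
      have h10 := Real.exp_one_lt_d9
      have h11 := Real.exp_pos (-|(j : ℝ) - k|)
      nlinarith
    have he2 : Real.exp 1 * Real.exp 1 ≤ 8 := by
      have h6 := Real.exp_one_lt_d9
      have h7 := Real.exp_pos 1
      nlinarith
    have e1 : Real.exp (1 - (u - k) ^ 2 / 2) = Real.exp 1 * Real.exp (-(u - k) ^ 2 / 2) := by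
      rw [← Real.exp_add]; congr 1; ring
    have e2 : Real.exp (-(k : ℝ)) * Real.exp ((k : ℝ) + 1) = Real.exp 1 := by
      rw [← Real.exp_add]; congr 1; ring
    calc ((k : ℝ) + 1) * Real.exp (-(k : ℝ)) * Real.exp (1 - (u - k) ^ 2 / 2) *
          ∑ n ∈ (Finset.range N).filter (fun n => kf n = k), ArithmeticFunction.vonMangoldt n ≤
        ((1 + u) * (1 + |u - k|)) * Real.exp (-(k : ℝ)) * Real.exp (1 - (u - k) ^ 2 / 2) *
          (c * Real.exp ((k : ℝ) + 1)) := by
          gcongr
      _ = c * (Real.exp 1 * Real.exp 1) * (1 + u) *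
          ((1 + |u - k|) * Real.exp (-(u - k) ^ 2 / 2)) := by
          rw [e1]
          have e3 : Real.exp 1 * Real.exp 1 = Real.exp 1 * (Real.exp (-(k : ℝ)) *
              Real.exp ((k : ℝ) + 1)) := by rw [e2]
          rw [e3]
          ring
      _ ≤ c * 8 * (1 + u) * (8 * Real.exp (-|u - k|)) := by gcongr
      _ ≤ c * 8 * (1 + u) * (8 * (8 / 2 * Real.exp (-|(j : ℝ) - k|))) := by gcongr
      _ ≤ _ := by
          have : 0 ≤ c * (1 + u) * Real.exp (-|(j : ℝ) - k|) := by positivity
          nlinarith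
  refine (Finset.sum_le_sum hblock).trans ?_
  rw [← Finset.mul_sum]
  have h1 := geo_sum j K
  calc c * (8 * (8 * 8)) * (1 + u) * ∑ k ∈ Finset.range K, Real.exp (-|(j : ℝ) - k|) ≤
      c * (8 * (8 * 8)) * (1 + u) * 4 := by gcongr
    _ ≤ _ := by nlinarith

end TH803TW
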