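import Pool.Agent.TH803.TW.Core

/-! Weights that are uniform limits of trigonometric polynomials. -/

open Complex Filter Topology Set MeasureTheory
open scoped BigOperators ComplexConjugate

namespace TH803TW

open H370 H370.A2 H370.AS H295SI

/-- `φ` is a uniform limit of (real parts of) trigonometric polynomials, with mean value `M` -/
def APm (φ : ℝ → ℝ) (M : ℝ) : Prop := ∀ ε : ℝ, 0 < ε → ∃ (S : Finset ℝ) (c : ℝ → ℂ),
  (0 : ℝ) ∈ S ∧ (∀ t, |φ t - tp S c t| ≤ ε) ∧ |(c 0).re - M| ≤ ε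

lemma tp_bound (S : Finset ℝ) (c : ℝ → ℂ) (t : ℝ) : |tp S c t| ≤ ∑ τ ∈ S, ‖c τ‖ := by
  unfold tp
  refine (Complex.abs_re_le_norm _).trans ((norm_sum_le _ _).trans ?_)
  refine Finset.sum_le_sum fun τ _ => ?_
  rw [norm_mul, tw_exp_norm, mul_one]

lemma APm.bdd {φ : ℝ → ℝ} {M : ℝ} (h : APm φ M) : ∃ B : ℝ, 0 < B ∧ ∀ t, |φ t| ≤ B := by
  obtain ⟨S, c, -, h1, -⟩ := h 1 one_pos
  have h2 : 0 ≤ ∑ τ ∈ S, ‖c τ‖ := Finset.sum_nonneg fun _ _ => norm_nonneg _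
  refine ⟨1 + ∑ τ ∈ S, ‖c τ‖, by positivity, fun t => ?_⟩
  have h3 := h1 t
  have h4 := tp_bound S c t
  have h5 : φ t = (φ t - tp S c t) + tp S c t := by ring
  rw [h5]
  exact (abs_add_le _ _).trans (add_le_add h3 h4)

section

variable {F : ℂ → ℂ} {g : ℝ → ℝ}

lemma PW_diff {A B Λ ε : ℝ} {w w' : ℝ → ℝ} (h : ∀ t, |w t - w' t| ≤ ε) :
    |PW g F Λ A B w - PW g F Λ A B w'| ≤ ε * PW g F Λ A B (fun _ => 1) := by
  unfold PW
  rw [← Finset.sum_sub_distrib, Finset.mul_sum]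
  refine (Finset.abs_sum_le_sum_abs _ _).trans (Finset.sum_le_sum fun s _ => ?_)
  rw [← Finset.sum_sub_distrib, Finset.mul_sum]
  refine (Finset.abs_sum_le_sum_abs _ _).trans (Finset.sum_le_sum fun s' _ => ?_)
  have h1 := KK_nonneg g Λ (s.im - s'.im)
  have h2 := h ((s.im + s'.im) / 2)
  have e : (mult F s : ℝ) * (mult F s' : ℝ) * (KK g Λ (s.im - s'.im) * w ((s.im + s'.im) / 2)) -
      (mult F s : ℝ) * (mult F s' : ℝ) * (KK g Λ (s.im - s'.im) * w' ((s.im + s'.im) / 2)) =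
      ((mult F s : ℝ) * (mult F s' : ℝ) * KK g Λ (s.im - s'.im)) *
        (w ((s.im + s'.im) / 2) - w' ((s.im + s'.im) / 2)) := by ring
  rw [e, abs_mul, abs_of_nonneg (by positivity)]
  calc (mult F s : ℝ) * (mult F s' : ℝ) * KK g Λ (s.im - s'.im) *
        |w ((s.im + s'.im) / 2) - w' ((s.im + s'.im) / 2)| ≤
      (mult F s : ℝ) * (mult F s' : ℝ) * KK g Λ (s.im - s'.im) * ε := by gcongr
    _ = _ := by ring

lemma MW_diff {A B ε : ℝ} {w w' : ℝ → ℝ} (h : ∀ t, |w t - w' t| ≤ ε) :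
    |MW F A B w - MW F A B w'| ≤ ε * MW F A B (fun _ => 1) := by
  unfold MW
  rw [← Finset.sum_sub_distrib, Finset.mul_sum]
  refine (Finset.abs_sum_le_sum_abs _ _).trans (Finset.sum_le_sum fun s _ => ?_)
  have h2 := h s.im
  rw [← mul_sub, abs_mul, abs_of_nonneg (Nat.cast_nonneg _ : (0 : ℝ) ≤ mult F s)]
  calc (mult F s : ℝ) * |w s.im - w' s.im| ≤ (mult F s : ℝ) * ε := by gcongr
    _ = _ := by ring

end

theorem wt {F : ℂ → ℂ} (hF : GoodL F) (hline : Line F) {g R : ℝ → ℝ} (hg : Win g)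
    (hR : Conv R) (hK : KSq g R) {a : ℕ → ℂ}
    (ha : ∀ n, ‖a n‖ ≤ ArithmeticFunction.vonMangoldt n)
    (hld : ∀ s : ℂ, 1 < s.re → 1 ≤ s.im → deriv F s / F s = - ∑' n : ℕ, a n * (n : ℂ) ^ (-s))
    {φ : ℝ → ℝ} {M : ℝ} (hφ : APm φ M) (h ε lam η : ℝ) (hε : 0 < ε) (hεh : ε < h)
    (hh1 : h ≤ 1) (hlam : 0 < lam) (hη : 0 < η) :
    ∃ T0 : ℝ, 10 ≤ T0 ∧ ∀ T : ℝ, T0 ≤ T → ∀ A B : ℝ, T + 1 ≤ A → B ≤ 2 * T - 1 →
      T ^ h ≤ B - A →
      |MW F A B φ - M * NN F A B| ≤ η * ((B - A) * Real.log T) + η * NN F A B ∧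
      ∀ Λ : ℝ, lam * Real.log T ≤ Λ → Λ ≤ (h - ε) * Real.log T →
      |PW g F Λ A B φ - M * QQG g F Λ A B| ≤ η * ((B - A) * Real.log T) +
        η * QQG g F Λ A B := by
  obtain ⟨S, c, h0, h1, h2⟩ := hφ (η / 2) (by positivity)
  obtain ⟨T0, hT0, hc⟩ := core hF hline hg hR hK ha hld h0 c h ε lam η hε hεh hh1 hlam hη
  refine ⟨T0, hT0, fun T hT A B hA hB hAB => ?_⟩
  obtain ⟨c1, c2⟩ := hc T hT A B hA hB hAB
  have hU : 1 ≤ A := by linarith
  constructor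
  · have d1 := MW_diff (F := F) (A := A) (B := B) h1
    rw [MW_one hF hU] at d1
    have hN : (0 : ℝ) ≤ NN F A B := Nat.cast_nonneg _
    have d2 : |(c 0).re * NN F A B - M * NN F A B| ≤ η / 2 * NN F A B := by
      rw [← sub_mul, abs_mul, abs_of_nonneg hN]
      gcongr
    have e : MW F A B φ - M * NN F A B = (MW F A B φ - MW F A B (tp S c)) +
      (MW F A B (tp S c) - (c 0).re * NN F A B) +
      ((c 0).re * NN F A B - M * NN F A B) := by ring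
    rw [e]
    refine ((abs_add_le _ _).trans (add_le_add (abs_add_le _ _) le_rfl)).trans ?_
    linarith
  · intro Λ hΛ1 hΛ2
    have c3 := c2 Λ hΛ1 hΛ2
    have d1 := PW_diff (F := F) (g := g) (A := A) (B := B) (Λ := Λ) h1
    rw [← QQG_PW hF hline hg hU] at d1
    have hQ : 0 ≤ QQG g F Λ A B := by
      rw [QQG_PW hF hline hg hU]
      unfold PW
      refine Finset.sum_nonneg fun s _ => Finset.sum_nonneg fun s' _ => ?_
      have := KK_nonneg g Λ (s.im - s'.im)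
      positivity
    have d2 : |(c 0).re * QQG g F Λ A B - M * QQG g F Λ A B| ≤ η / 2 * QQG g F Λ A B := by
      rw [← sub_mul, abs_mul, abs_of_nonneg hQ]
      gcongr
    have e : PW g F Λ A B φ - M * QQG g F Λ A B = (PW g F Λ A B φ - PW g F Λ A B (tp S c)) +
      (PW g F Λ A B (tp S c) - (c 0).re * QQG g F Λ A B) +
      ((c 0).re * QQG g F Λ A B - M * QQG g F Λ A B) := by ring
    rw [e]
    refine ((abs_add_le _ _).trans (add_le_add (abs_add_le _ _) le_rfl)).trans ?_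
    linarith

/-- sum over the distinct zeros of the squares of the multiplicities -/
noncomputable def SqW (F : ℂ → ℂ) (A B : ℝ) (w : ℝ → ℝ) : ℝ :=
  ∑ s ∈ Zf F A B, (mult F s : ℝ) ^ 2 * w s.im

lemma SqW_le_PW {F : ℂ → ℂ} {g : ℝ → ℝ} (hg : Win g) {A B Λ : ℝ} {w : ℝ → ℝ} (hw : ∀ t, 0 ≤ w t) :
    SqW F A B w ≤ PW g F Λ A B w := by
  unfold SqW PW
  refine Finset.sum_le_sum fun s hs => ?_
  have h1 : (mult F s : ℝ) ^ 2 * w s.im = (mult F s : ℝ) * (mult F s : ℝ) *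
      (KK g Λ (s.im - s.im) * w ((s.im + s.im) / 2)) := by
    rw [sub_self, KK_zero hg, one_mul, show (s.im + s.im) / 2 = s.im by ring]
    ring
  rw [h1]
  refine Finset.single_le_sum (f := fun s' : ℂ => (mult F s : ℝ) * (mult F s' : ℝ) *
      (KK g Λ (s.im - s'.im) * w ((s.im + s'.im) / 2))) (fun s' _ => ?_) hs
  have h2 := KK_nonneg g Λ (s.im - s'.im)
  have h3 := hw ((s.im + s'.im) / 2)
  positivity

lemma Zf_sub {F : ℂ → ℂ} (hF : GoodL F) {A B A' B' : ℝ} (hA : 1 ≤ A') (h1 : A' ≤ A) (h2 : B ≤ B') :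
    Zf F A B ⊆ Zf F A' B' := by
  intro s hs
  rw [mem_Zf hF (hA.trans h1)] at hs
  rw [mem_Zf hF hA]
  exact ⟨hs.1, hs.2.1, h1.trans_lt hs.2.2.1, hs.2.2.2.1.trans h2, hs.2.2.2.2⟩

end TH803TW
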